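import Mathlib
import Pool.Agent.TH344.DT.Rho
import Pool.Agent.W307.RS.Stm

/-!
# Project JG: 2-Selmer groups of Jacobians of hyperelliptic curves with rational Weierstrass points

For odd `n = 2 g + 1` and distinct integers `a_0, ..., a_(n-1)` let `J` be the Jacobian of
`y² = ∏ (x - a_i)`. All the 2-torsion of `J` is rational. Over the box `|a_i| ≤ X` we bound, for every
`k`, the `k`-th moment of the orders of the 2-Selmer groups outside of a set of density zero.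

The classes `c = (i, j)`, `i < j`, are the differences `a_i - a_j`. At a prime `p > 2` that divides
exactly one of the differences, and divides it exactly once, the local image is: `v(δ_l)` is even for
`l ≠ i, j`, `v(δ_i) = v(δ_j) = v` modulo 2 and `δ_i δ_j s ^ v` is a square,
`s = ∏_(l ≠ i, j) (a_i - a_l)`. The two classes `c`, `c'` interact if they have exactly one common
index.
-/

set_option autoImplicit false

namespace Pool.Agent.TH344.JG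

open Finset Pool.Agent.W262.RK Pool.Agent.W307.RT Pool.Agent.TH344.DT

/-! ### The Selmer group -/

/-- the square classes of `d` come from a divisor class of the Jacobian of `y² = ∏ (x - a i)` over the
field `K`: there is a divisor given by polynomials `u`, `v` with `u ∣ ∏ (x - a i) - v²`, and the
values `(-1) ^ deg u * u (a i)` have the same square classes as the `d i` -/
def LocJ (K : Type) [Field K] {n : ℕ} (a d : Fin n → ℤ) : Prop :=
  ∃ u v : Polynomial K, u.Monic ∧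
    u ∣ (∏ i, (Polynomial.X - Polynomial.C ((a i : ℤ) : K))) - v ^ 2 ∧
    ∀ i, u.eval ((a i : ℤ) : K) ≠ 0 ∧
      IsSquare ((-1) ^ u.natDegree * u.eval ((a i : ℤ) : K) * ((d i : ℤ) : K))

/-- the 2-Selmer group of the Jacobian of `y² = ∏ (x - a i)`, as a set of tuples of squarefree
integers -/
def SelJ {n : ℕ} (a : Fin n → ℤ) : Set (Fin n → ℤ) :=
  {d | (∀ i, Squarefree (d i)) ∧ LocJ ℝ a d ∧ ∀ (p : ℕ) [Fact p.Prime], LocJ ℚ_[p] a d}

/-- the pairs of indices -/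
abbrev PR (n : ℕ) : Type := {c : Fin n × Fin n // c.1 < c.2}

/-- the differences -/
def df {n : ℕ} (a : Fin n → ℤ) (c : PR n) : ℤ := a c.1.1 - a c.1.2

/-- the two pairs have exactly one common index -/
def adj {n : ℕ} (c c' : PR n) : Bool :=
  decide (c ≠ c') && decide (c.1.1 = c'.1.1 ∨ c.1.1 = c'.1.2 ∨ c.1.2 = c'.1.1 ∨ c.1.2 = c'.1.2)

/-- `∏_(l ≠ i, j) (a_i - a_l)` for `c = (i, j)` -/
def sJ {n : ℕ} (a : Fin n → ℤ) (c : PR n) : ℤ :=
  ∏ l ∈ univ.filter (fun l => l ≠ c.1.1 ∧ l ≠ c.1.2), (a c.1.1 - a l)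

/-- the prime factors of `m` with negative sign -/
def sgJ {n : ℕ} (a : Fin n → ℤ) (m : ℕ) : Finset ℕ :=
  m.primeFactors.filter (fun p => ∃ c : PR n, (p : ℤ) ∣ df a c ∧ jacobiSym (sJ a c) p = -1)

/-! ### The local count, for a graph -/

section graph

variable {V : Type} [Fintype V] [DecidableEq V]

open Classical in
/-- the number of the sets `w` of primes such that for all `p ∣ s c` the product of the symbols
`(q / p)`, `q ∈ w`, `q` of a class adjacent to `c`, is one, or `-1` if `p ∈ w` and `p` has negative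
sign -/
noncomputable def NV (ad : V → V → Bool) (s : V → ℕ) (E : Finset ℕ) : ℕ :=
  ((∏ c, s c).primeFactors.powerset.filter (fun w => ∀ c, ∀ p ∈ (s c).primeFactors,
    (∏ q ∈ w.filter (fun q => ∃ c', ad c c' = true ∧ q ∣ s c'), jacobiSym (q : ℤ) p) =
      if p ∈ w ∧ p ∈ E then -1 else 1)).card

/-- the `k`-th moment of `NV` over the signs -/
noncomputable def NFV (ad : V → V → Bool) (k : ℕ) (s : V → ℕ) : ℝ :=
  (1 / 2) ^ (∏ c, s c).primeFactors.card *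
    ∑ E ∈ (∏ c, s c).primeFactors.powerset, (NV ad s E : ℝ) ^ k

/-- the scalar product of two vectors modulo 2 -/
def dtp {k : ℕ} (x y : Fin k → Bool) : Bool :=
  decide ((univ.filter (fun a => (x a && y a) = true)).card % 2 = 1)

/-- the index set: `(c, x, y)` with `P x y` -/
def IV (V : Type) (k : ℕ) (P : (Fin k → Bool) → (Fin k → Bool) → Bool) : Type :=
  {i : V × (Fin k → Bool) × (Fin k → Bool) // P i.2.1 i.2.2 = true}

instance (k : ℕ) (P : (Fin k → Bool) → (Fin k → Bool) → Bool) : Fintype (IV V k P) :=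
  inferInstanceAs (Fintype {i : V × (Fin k → Bool) × (Fin k → Bool) // P i.2.1 i.2.2 = true})

instance (k : ℕ) (P : (Fin k → Bool) → (Fin k → Bool) → Bool) : DecidableEq (IV V k P) :=
  fun a b => decidable_of_iff (a.1 = b.1) Subtype.ext_iff.symm

/-- the symbol `(d i / d i')` occurs if the classes are adjacent and `x_i · y_{i'} = 1` -/
def LV (ad : V → V → Bool) {k : ℕ} {P : (Fin k → Bool) → (Fin k → Bool) → Bool}
    (i i' : IV V k P) : Bool := ad i.1.1 i'.1.1 && dtp i.1.2.1 i'.1.2.2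

/-- the pairs `x, y` with scalar product zero -/
def P0 {k : ℕ} (x y : Fin k → Bool) : Bool := !(dtp x y)

/-- JG-CMB: the unlinked sets and the vectors. -/
def S_CMBV : Prop := ∀ (V : Type) [Fintype V] [DecidableEq V] [Nonempty V] (ad : V → V → Bool)
  (D k : ℕ) (P : (Fin k → Bool) → (Fin k → Bool) → Bool), 1 ≤ k → 1 ≤ D →
  (∀ c, ad c c = false) → (∀ c c', ad c c' = ad c' c) →
  (∀ c, (univ.filter (fun c' => ad c c' = true)).card = D) →
  (∀ c, ∃ c' c'', ad c c' = true ∧ ad c c'' = true ∧ ad c' c'' = true) →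
  ∃ T : Finset (V → ℝ), (∀ t ∈ T, ∀ j, 0 < t j) ∧ (∀ t ∈ T, 1 < ∏ j, t j) ∧
  ∀ U : Finset (IV V k P), (∀ i ∈ U, ∀ j ∈ U, LV ad i j = LV ad j i) →
    (∃ t ∈ T, ∑ i ∈ U, 1 / 2 ^ k * t i.1.1 < Fintype.card V) ∨
    (∑ _i ∈ U, (1 / 2 ^ k : ℝ) ≤ Fintype.card V ∧
      (∀ t ∈ T, ∃ θ : ℝ, 0 < θ ∧ ∑ i ∈ U, 1 / 2 ^ k * t i.1.1 ^ (-θ) < Fintype.card V) ∧
      ∀ j, j ∉ U → ∃ i ∈ U, LV ad i j ≠ LV ad j i)

/-- JG-EXP: expansion of the moments into symbols, with a weight. -/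
def S_EXPV : Prop := ∀ (V : Type) [Fintype V] [DecidableEq V] (ad : V → V → Bool),
  (∀ c, ad c c = false) → (∀ c c', ad c c' = ad c' c) → ∀ k c z y : ℕ, 2 ≤ z →
  ∀ Φ : (V → ℕ) → ℝ,
  ∑ s ∈ Tup V z y, NFV ad k s * (∏ j, gw 1 c (s j)) * Φ s =
    ∑ d ∈ Tup (IV V k P0) z y, (∏ i, gw (1 / 2 ^ k) c (d i)) * Sym (LV ad) (fun _ => 1) d *
      Φ (fun j => ∏ i ∈ univ.filter (fun i : IV V k P0 => i.1.1 = j), d i)

/-- JG-SUB: growth of the moments. -/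
def S_SUBV : Prop := ∀ (V : Type) [Fintype V] [DecidableEq V] (ad : V → V → Bool) (k z y : ℕ),
  2 ≤ z → ∀ s e : V → ℕ, (fun j => s j * e j) ∈ Tup V z y →
    NFV ad k (fun j => s j * e j) ≤ (2 ^ k : ℝ) ^ (∑ j, (e j).primeFactors.card) * NFV ad k s

/-- the main average with the weight -/
def MAFV (ad : V → V → Bool) (k : ℕ) (T : Finset (V → ℝ)) : Prop :=
  ∃ z0 : ℕ, ∀ z, z0 ≤ z → ∃ C : ℝ, ∀ y, z < y →
  ∑ s ∈ Tup V z y, NFV ad k s * rho T (om s) * ∏ j, gw 1 (Fintype.card V) (s j) ≤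
    C * (Real.log y) ^ (Fintype.card V)

/-- JG-MAF: the main average. -/
def S_MAFV : Prop := ∀ (V : Type) [Fintype V] [DecidableEq V] [Nonempty V] (ad : V → V → Bool)
  (D k : ℕ), 1 ≤ k → 1 ≤ D → (∀ c, ad c c = false) → (∀ c c', ad c c' = ad c' c) →
  (∀ c, (univ.filter (fun c' => ad c c' = true)).card = D) →
  (∀ c, ∃ c' c'', ad c c' = true ∧ ad c c'' = true ∧ ad c' c'' = true) →
  ∃ T : Finset (V → ℝ), (∀ t ∈ T, ∀ j, 0 < t j) ∧ (∀ t ∈ T, 1 < ∏ j, t j) ∧ MAFV ad k T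

end graph

/-! ### Local conditions -/

/-- JG-GOOD: at the primes of good reduction the classes are unramified. -/
def S_GOODJ : Prop := ∀ (n p : ℕ) [Fact p.Prime] (a d : Fin n → ℤ), Odd n → p ≠ 2 →
  (∀ c : PR n, ¬ (p : ℤ) ∣ df a c) → (∀ i, Squarefree (d i)) → LocJ ℚ_[p] a d →
  ∀ i, ¬ (p : ℤ) ∣ d i

/-- JG-NICE: the local condition at the primes that divide one difference exactly once. -/
def S_NICEJ : Prop := ∀ (n p : ℕ) [Fact p.Prime] (a d : Fin n → ℤ) (c : PR n), Odd n → p ≠ 2 →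
  (p : ℤ) ∣ df a c → ¬ (p : ℤ) ^ 2 ∣ df a c → (∀ c', c' ≠ c → ¬ (p : ℤ) ∣ df a c') →
  (∀ i, Squarefree (d i)) → LocJ ℚ_[p] a d →
  (∀ l, l ≠ c.1.1 → l ≠ c.1.2 → ¬ (p : ℤ) ∣ d l) ∧ ((p : ℤ) ∣ d c.1.1 ↔ (p : ℤ) ∣ d c.1.2) ∧
  (¬ (p : ℤ) ∣ d c.1.1 → jacobiSym (d c.1.1 * d c.1.2) p = 1) ∧
  ((p : ℤ) ∣ d c.1.1 → jacobiSym ((d c.1.1 / p) * (d c.1.2 / p) * sJ a c) p = 1)

/-- JG-SEL: the Selmer group is bounded by the local count. -/
def S_SELJ : Prop := ∀ (n : ℕ) (a : Fin n → ℤ) (s : PR n → ℕ), Odd n → Function.Injective a →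
  (∀ c, Squarefree (s c)) → (∀ c, ∀ p : ℕ, p.Prime → p ∣ s c → p ≠ 2 ∧ (p : ℤ) ∣ df a c ∧
    ¬ (p : ℤ) ^ 2 ∣ df a c ∧ ∀ c', c' ≠ c → ¬ (p : ℤ) ∣ df a c') →
  (SelJ a).Finite ∧ (SelJ a).ncard ≤
    (2 ^ n) ^ (1 + ((2 * ∏ c, (df a c).natAbs).primeFactors.filter
      (fun q => ¬ q ∣ ∏ c, s c)).card) * NV adj s (sgJ a (∏ c, s c))

/-! ### The count -/

/-- the box -/
noncomputable def BoxJ (n X : ℕ) : Finset (Fin n → ℤ) := Fintype.piFinset (fun _ => Icc (-(X : ℤ)) X)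

/-- the primes greater than `z` that divide at least two of the differences -/
def clJ {n : ℕ} (z : ℕ) (a : Fin n → ℤ) : Finset ℕ :=
  (∏ c : PR n, (df a c).natAbs).primeFactors.filter (fun p => z < p ∧
    ∃ c c' : PR n, c ≠ c' ∧ (p : ℤ) ∣ df a c ∧ (p : ℤ) ∣ df a c')

/-- the differences without the primes of `clJ z a` -/
def fJ {n : ℕ} (z : ℕ) (a : Fin n → ℤ) (c : PR n) : ℤ :=
  ((∏ p ∈ (df a c).natAbs.primeFactors.filter (fun p => p ∉ clJ z a),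
    p ^ (df a c).natAbs.factorization p : ℕ) : ℤ)

/-- JG-LINE: upper bound sieve in a residue class. -/
def S_LINE : Prop := ∀ n z : ℕ, 3 ≤ n → n ≤ z → 2 * Fintype.card (PR n) + 2 ≤ z →
  ∃ (C : ℝ) (K y0 : ℕ), 0 ≤ C ∧ 1 ≤ K ∧ ∀ (X y Q : ℕ) (r : Fin n → ℤ), y0 ≤ y → z < y →
  y ^ K ≤ X → 1 ≤ Q → Q ^ 8 ≤ X →
    (((BoxJ n X).filter (fun a => Function.Injective a ∧ (∀ i, (Q : ℤ) ∣ a i - r i) ∧
      ∀ p ∈ PS z y, ¬ p ∣ Q → ∀ c, ¬ (p : ℤ) ∣ df a c)).card : ℝ) ≤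
      C * ((X : ℝ) / Q) ^ n * (∏ p ∈ Q.primeFactors.filter (fun p => p ∈ PS z y),
        (p : ℝ) / ((p : ℝ) - Fintype.card (PR n))) / (Real.log y) ^ (Fintype.card (PR n))

/-- JG-CNT: the number of the points of the box with given small prime factors of the differences and
given signs. -/
def S_CNTJ : Prop := ∀ n z : ℕ, 3 ≤ n → n ≤ z → 2 * Fintype.card (PR n) + 2 ≤ z →
  ∃ (C A : ℝ) (K y0 : ℕ), 0 ≤ C ∧ 1 ≤ A ∧ 1 ≤ K ∧ ∀ X y Y M : ℕ, y0 ≤ y → z < y → y ^ K ≤ X →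
  Squarefree M → (∀ p, p.Prime → p ∣ M → z < p) → M ^ 16 ≤ X →
  ∀ s ∈ Tup (PR n) z y, ∀ v ∈ Tup (PR n) z y, ∀ u ∈ Tup (PR n) y Y,
  (∏ j, s j * v j * u j) ^ 32 ≤ X → ∀ E : Finset ℕ,
    (((BoxJ n X).filter (fun a => Function.Injective a ∧ ∏ p ∈ clJ z a, p = M ∧
      S1 z y (fJ z a) = s ∧ S2 z y (fJ z a) = v ∧ (∀ j, (u j : ℤ) ∣ fJ z a j) ∧
      sgJ a (∏ j, s j) = E)).card : ℝ) ≤
      C * (A ^ M.primeFactors.card / (M : ℝ) ^ 2) * X ^ n * (1 / 2) ^ (∏ j, s j).primeFactors.card *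
        (∏ j, gw 1 (Fintype.card (PR n)) (s j)) *
        (∏ j, gw 1 (Fintype.card (PR n)) (v j) / v j) * (∏ j, 1 / (u j : ℝ)) /
        (Real.log y) ^ (Fintype.card (PR n))

/-- the numbers of the prime factors of the differences -/
def omJ {n : ℕ} (a : Fin n → ℤ) (c : PR n) : ℕ := (df a c).natAbs.primeFactors.card

open Classical in
/-- JG-AVG: the weighted moments over the box. -/
def S_AVGJ : Prop := ∀ (n k : ℕ) (T : Finset (PR n → ℝ)), 3 ≤ n → Odd n → (∀ t ∈ T, ∀ j, 0 < t j) →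
  MAFV (adj (n := n)) k T → ∃ (z : ℕ) (C : ℝ), 0 ≤ C ∧ ∀ X : ℕ, 1 ≤ X →
    ∑ a ∈ (BoxJ n X).filter (fun a => Function.Injective a ∧ (∏ p ∈ clJ z a, p) ^ 16 ≤ X),
      ((SelJ a).ncard : ℝ) ^ k * rho T (omJ a) ≤ C * (X : ℝ) ^ n

open Classical in
/-- JG-BAD: the exceptional points of the box are rare. -/
def S_BADJ : Prop := ∀ (n z : ℕ) (T : Finset (PR n → ℝ)), 3 ≤ n → (∀ t ∈ T, ∀ j, 0 < t j) →
  (∀ t ∈ T, 1 < ∏ j, t j) → ∀ ε : ℝ, 0 < ε → ∃ N0 : ℕ, ∀ X, N0 ≤ X →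
    (((BoxJ n X).filter (fun a => ¬ (Function.Injective a ∧ (∏ p ∈ clJ z a, p) ^ 16 ≤ X ∧
      rho T (omJ a) = 1))).card : ℝ) ≤ ε * (X : ℝ) ^ n

end Pool.Agent.TH344.JG
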