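import Mathlib
import Pool.Agent.TH344.JG.Stm

/-! Project JG: the image of the Mordell-Weil group. -/

set_option autoImplicit false

namespace Pool.Agent.TH344.JG

open Polynomial

/-- base change -/
lemma LocJ_map {K L : Type} [Field K] [Field L] (φ : K →+* L) {n : ℕ} {a d : Fin n → ℤ}
    (h : LocJ K a d) : LocJ L a d := by
  obtain ⟨u, v, h1, h2, h3⟩ := h
  refine ⟨u.map φ, v.map φ, h1.map φ, ?_, fun i => ?_⟩
  · have h4 := Polynomial.map_dvd φ h2
    rw [Polynomial.map_sub, Polynomial.map_pow, Polynomial.map_prod] at h4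
    have h5 : ∀ i, (X - C ((a i : ℤ) : K)).map φ = X - C ((a i : ℤ) : L) := by
      intro i
      rw [Polynomial.map_sub, map_X, map_C, map_intCast]
    simp only [h5] at h4
    exact h4
  · have h4 : (u.map φ).eval ((a i : ℤ) : L) = φ (u.eval ((a i : ℤ) : K)) := by
      have := Polynomial.eval_map_apply φ (p := u) ((a i : ℤ) : K)
      rw [map_intCast] at this
      exact this
    obtain ⟨h5, r, h6⟩ := h3 i
    rw [h4, natDegree_map]
    refine ⟨(map_ne_zero φ).2 h5, φ r, ?_⟩
    rw [← map_mul, ← h6, map_mul, map_mul, map_pow, map_neg, map_one, map_intCast]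

/-- the trivial class -/
lemma LocJ_one (K : Type) [Field K] {n : ℕ} (a : Fin n → ℤ) : LocJ K a (fun _ => 1) := by
  refine ⟨1, 0, monic_one, one_dvd _, fun i => ?_⟩
  simp

end Pool.Agent.TH344.JG
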