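import Pool.Agent.TH344.JG.Stm
import Pool.Agent.W307.RS.MainK

/-!
# JG-AVG: weighted moments over the box (job 2936, helper511)

Adapted from `Pool/Agent/TH344/DT/Avg.lean` (helper344, helper307, helper612, helper736).
-/

set_option autoImplicit false

namespace Pool.Agent.TH344.JG

namespace AvgJ

open Finset Pool.Agent.W262.RK Pool.Agent.W307.RT Pool.Agent.W307.RS Pool.Agent.TH344.DT

/-! ### The weight -/

section Rho

variable {J : Type} [Fintype J] {T : Finset (J → ℝ)}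

lemma rjn (hT : ∀ t ∈ T, ∀ j, 0 < t j) (n : J → ℕ) : 0 ≤ rho T n := by
  classical
  unfold rho
  rw [Finset.le_inf'_iff]
  intro t ht
  refine prod_nonneg fun j _ => ?_
  rcases mem_insert.1 ht with rfl | h
  · simp
  · exact (pow_pos (hT t h j) _).le

lemma rj1 (T : Finset (J → ℝ)) (n : J → ℕ) : rho T n ≤ 1 := by
  classical
  unfold rho
  refine (Finset.inf'_le _ (mem_insert_self _ _)).trans ?_
  simp

/-- an upper bound for the coordinates -/
noncomputable def DDJ (T : Finset (J → ℝ)) : ℝ := 1 + ∑ t ∈ T, ∑ j, t j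

lemma one_le_DDJ (hT : ∀ t ∈ T, ∀ j, 0 < t j) : 1 ≤ DDJ T := by
  unfold DDJ
  have : 0 ≤ ∑ t ∈ T, ∑ j, t j := sum_nonneg fun t ht => sum_nonneg fun j _ => (hT t ht j).le
  linarith

lemma le_DDJ (hT : ∀ t ∈ T, ∀ j, 0 < t j) {t : J → ℝ} (ht : t ∈ T) (j : J) : t j ≤ DDJ T := by
  unfold DDJ
  have h1 : t j ≤ ∑ j, t j :=
    single_le_sum (f := fun j => t j) (fun j _ => (hT t ht j).le) (mem_univ j)
  have h2 : ∑ j, t j ≤ ∑ t ∈ T, ∑ j, t j :=
    single_le_sum (f := fun t' : J → ℝ => ∑ j, t' j)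
      (fun t' ht' => sum_nonneg (f := fun j => t' j) fun j _ => (hT t' ht' j).le) ht
  linarith

/-- the weight grows slowly -/
lemma rj_lip (hT : ∀ t ∈ T, ∀ j, 0 < t j) (n n' : J → ℕ) (h : ∀ j, n j ≤ n' j) :
    rho T n' ≤ DDJ T ^ (∑ j, (n' j - n j)) * rho T n := by
  classical
  obtain ⟨t, ht, he⟩ := Finset.exists_mem_eq_inf' (insert_nonempty (fun _ => (1 : ℝ)) T)
    (fun t : J → ℝ => ∏ j, t j ^ n j)
  have he' : rho T n = ∏ j, t j ^ n j := by
    rw [← he]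
    rfl
  have hpos : ∀ j, 0 < t j := by
    intro j
    rcases mem_insert.1 ht with rfl | h1
    · exact one_pos
    · exact hT t h1 j
  have hle : ∀ j, t j ≤ DDJ T := by
    intro j
    rcases mem_insert.1 ht with rfl | h1
    · exact one_le_DDJ hT
    · exact le_DDJ hT h1 j
  have h1 : rho T n' ≤ ∏ j, t j ^ n' j := by
    unfold rho
    exact Finset.inf'_le _ ht
  refine h1.trans ?_
  have h2 : ∏ j, t j ^ n' j = (∏ j, t j ^ (n' j - n j)) * ∏ j, t j ^ n j := by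
    rw [← prod_mul_distrib]
    refine prod_congr rfl fun j _ => ?_
    rw [← pow_add, Nat.sub_add_cancel (h j)]
  rw [h2, he']
  refine mul_le_mul_of_nonneg_right ?_ (prod_nonneg fun j _ => (pow_pos (hpos j) _).le)
  rw [← prod_pow_eq_pow_sum]
  exact prod_le_prod (fun j _ => (pow_pos (hpos j) _).le)
    fun j _ => pow_le_pow_left₀ (hpos j).le (hle j) _

/-- the weight grows slowly, with a bound for the exponent -/
lemma rj_lip' (hT : ∀ t ∈ T, ∀ j, 0 < t j) (n n' : J → ℕ) (h : ∀ j, n j ≤ n' j) (m : ℕ)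
    (hm : ∑ j, (n' j - n j) ≤ m) : rho T n' ≤ DDJ T ^ m * rho T n :=
  (rj_lip hT n n' h).trans (mul_le_mul_of_nonneg_right
    (pow_le_pow_right₀ (one_le_DDJ hT) hm) (rjn hT _))

end Rho

/-! ### The sum over `M` -/

/-- the bound `Q ^ ω(g) ≤ Q ^ (Q ^ 2) √g` -/
theorem omega_boundJ (q : ℕ) (hq : 1 ≤ q) (g : ℕ) (hg : g ≠ 0) :
    (q : ℝ) ^ g.primeFactors.card ≤ (q : ℝ) ^ (q ^ 2) * Real.sqrt g := by
  classical
  set P1 := g.primeFactors.filter (fun p => p < q ^ 2) with hP1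
  set P2 := g.primeFactors.filter (fun p => ¬ p < q ^ 2) with hP2
  have hcard : g.primeFactors.card = P1.card + P2.card := (card_filter_add_card_filter_not _).symm
  have hq1 : (1 : ℝ) ≤ q := by exact_mod_cast hq
  have h1 : P1.card ≤ q ^ 2 := by
    have : P1 ⊆ range (q ^ 2) := fun p hp => mem_range.2 (mem_filter.1 hp).2
    simpa using card_le_card this
  have h2 : (q : ℝ) ^ P2.card ≤ Real.sqrt g := by
    have h3 : (q : ℝ) ^ P2.card ≤ ∏ p ∈ P2, Real.sqrt p := by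
      rw [← prod_const]
      apply prod_le_prod
      · intro p _; positivity
      · intro p hp
        have h4 : ¬ p < q ^ 2 := (mem_filter.1 hp).2
        apply Real.le_sqrt_of_sq_le
        have : ((q ^ 2 : ℕ) : ℝ) ≤ p := by exact_mod_cast not_lt.1 h4
        push_cast at this
        linarith
    have h4 : ∏ p ∈ P2, Real.sqrt p = Real.sqrt (∏ p ∈ P2, (p : ℝ)) := by
      rw [Real.sqrt_eq_rpow, ← Real.finsetProd_rpow]
      · exact prod_congr rfl fun p _ => Real.sqrt_eq_rpow _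
      · intro p _; positivity
    rw [h4] at h3
    refine h3.trans (Real.sqrt_le_sqrt ?_)
    have h5 : ∏ p ∈ P2, p ∣ g := (prod_dvd_prod_of_subset _ _ _ (filter_subset _ _)).trans
      (Nat.prod_primeFactors_dvd g)
    have h6 := Nat.le_of_dvd (Nat.pos_of_ne_zero hg) h5
    have h7 : ((∏ p ∈ P2, p : ℕ) : ℝ) ≤ (g : ℝ) := Nat.cast_le.2 h6
    rwa [Nat.cast_prod] at h7
  rw [hcard, pow_add]
  have h5 : (q : ℝ) ^ P1.card ≤ (q : ℝ) ^ (q ^ 2) := pow_le_pow_right₀ hq1 h1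
  gcongr

theorem som0J (q : ℕ) (hq : 1 ≤ q) : ∃ C : ℝ, 0 ≤ C ∧ ∀ n : ℕ,
    ∑ g ∈ Icc 1 n, (q : ℝ) ^ g.primeFactors.card / (g : ℝ) ^ 2 ≤ C := by
  have hs : Summable fun g : ℕ => ((g : ℝ) ^ (3 / 2 : ℝ))⁻¹ := by
    rw [Real.summable_nat_rpow_inv]
    norm_num
  refine ⟨(q : ℝ) ^ (q ^ 2) * ∑' g : ℕ, ((g : ℝ) ^ (3 / 2 : ℝ))⁻¹, ?_, fun n => ?_⟩
  · apply mul_nonneg (by positivity)
    exact tsum_nonneg fun g => by positivity
  · calc ∑ g ∈ Icc 1 n, (q : ℝ) ^ g.primeFactors.card / (g : ℝ) ^ 2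
        ≤ ∑ g ∈ Icc 1 n, (q : ℝ) ^ (q ^ 2) * ((g : ℝ) ^ (3 / 2 : ℝ))⁻¹ := by
          refine sum_le_sum fun g hg => ?_
          have hg1 := (mem_Icc.1 hg).1
          have hg0 : 0 < (g : ℝ) := by exact_mod_cast hg1
          have h1 := omega_boundJ q hq g (by omega)
          rw [div_le_iff₀ (by positivity)]
          refine h1.trans (le_of_eq ?_)
          rw [mul_assoc]
          congr 1
          rw [Real.sqrt_eq_rpow, ← Real.rpow_neg hg0.le, ← Real.rpow_natCast (g : ℝ) 2,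
            ← Real.rpow_add hg0]
          norm_num
      _ = (q : ℝ) ^ (q ^ 2) * ∑ g ∈ Icc 1 n, ((g : ℝ) ^ (3 / 2 : ℝ))⁻¹ := by rw [mul_sum]
      _ ≤ (q : ℝ) ^ (q ^ 2) * ∑' g : ℕ, ((g : ℝ) ^ (3 / 2 : ℝ))⁻¹ := by
          apply mul_le_mul_of_nonneg_left _ (by positivity)
          exact hs.sum_le_tsum _ fun g _ => by positivity

/-! ### The prime factors of the values -/

lemma pf_S1J {J : Type} (z y : ℕ) (f : J → ℤ) (j : J) : (S1 z y f j).primeFactors =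
    (PS z y).filter (fun p : ℕ => (p : ℤ) ∣ f j ∧ ¬ (p : ℤ) ^ 2 ∣ f j) := by
  unfold S1
  refine Nat.primeFactors_prod fun p hp => ?_
  exact (mem_filter.1 (mem_filter.1 hp).1).2

lemma pf_S2J {J : Type} (z y : ℕ) (f : J → ℤ) (j : J) : (S2 z y f j).primeFactors =
    (PS z y).filter (fun p : ℕ => (p : ℤ) ^ 2 ∣ f j) := by
  unfold S2
  refine Nat.primeFactors_prod fun p hp => ?_
  exact (mem_filter.1 (mem_filter.1 hp).1).2

lemma sqf_prodJ (P : Finset ℕ) (hP : ∀ p ∈ P, p.Prime) : Squarefree (∏ p ∈ P, p) := by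
  classical
  induction P using Finset.induction_on with
  | empty => simp
  | insert p P hp ih =>
    rw [prod_insert hp, Nat.squarefree_mul_iff]
    refine ⟨?_, (hP p (mem_insert_self _ _)).prime.squarefree,
      ih fun q hq => hP q (mem_insert_of_mem hq)⟩
    refine Nat.Coprime.prod_right fun q hq => ?_
    refine (Nat.coprime_primes (hP p (mem_insert_self _ _)) (hP q (mem_insert_of_mem hq))).2 ?_
    rintro rfl
    exact hp hq

lemma sqf_S1J {J : Type} (z y : ℕ) (f : J → ℤ) (j : J) : Squarefree (S1 z y f j) := by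
  unfold S1
  refine sqf_prodJ _ fun p hp => ?_
  exact (mem_filter.1 (mem_filter.1 hp).1).2

/-- the large prime factors -/
lemma card_largeJ (y X k B m : ℕ) (hm : m ≠ 0) (hmX : m ≤ X ^ B) (hX : X < (y + 1) ^ k) :
    (m.primeFactors.filter (fun p => y < p)).card ≤ k * B := by
  set P := m.primeFactors.filter (fun p => y < p) with hP
  have h1 : (y + 1) ^ P.card ≤ ∏ p ∈ P, p := by
    rw [← prod_const]
    exact prod_le_prod' fun p hp => (mem_filter.1 hp).2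
  have h2 : ∏ p ∈ P, p ∣ m := (prod_dvd_prod_of_subset _ _ _ (filter_subset _ _)).trans
    (Nat.prod_primeFactors_dvd m)
  have h3 : ∏ p ∈ P, p ≤ m := Nat.le_of_dvd (Nat.pos_of_ne_zero hm) h2
  have h4 : X ^ B ≤ (y + 1) ^ (k * B) := by
    rw [pow_mul]
    exact Nat.pow_le_pow_left hX.le B
  have h5 : (y + 1) ^ P.card ≤ (y + 1) ^ (k * B) := h1.trans (h3.trans (hmX.trans h4))
  by_contra hcon
  push Not at hcon
  -- `y + 1 ≥ 2` if there is a large prime factor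
  by_cases hy : y = 0
  · subst hy
    have h6 : m ≤ 1 := by
      refine hmX.trans ?_
      have : X = 0 := by
        simp only [zero_add, one_pow] at hX
        omega
      rw [this]
      rcases Nat.eq_zero_or_pos B with hB | hB
      · rw [hB, pow_zero]
      · rw [zero_pow hB.ne']
        exact zero_le_one
    have h7 : m = 1 := by omega
    have h8 : P = ∅ := by
      rw [hP, h7]
      simp
    rw [h8, card_empty] at hcon
    omega
  · exact absurd h5 (not_le.2 (Nat.pow_lt_pow_right (by omega) hcon))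

/-! ### The differences -/

section Diff

variable {n : ℕ} {a : Fin n → ℤ}

lemma df_neJ (ha : Function.Injective a) (c : PR n) : df a c ≠ 0 := by
  unfold df
  rw [sub_ne_zero]
  exact fun h => (ne_of_lt c.2) (ha h)

lemma df_leJ {X : ℕ} (ha : a ∈ BoxJ n X) (c : PR n) : (df a c).natAbs ≤ 2 * X := by
  unfold BoxJ at ha
  rw [Fintype.mem_piFinset] at ha
  have h1 := mem_Icc.1 (ha c.1.1)
  have h2 := mem_Icc.1 (ha c.1.2)
  unfold df
  omega

lemma prime_clJ {z p : ℕ} (h : p ∈ clJ z a) : p.Prime :=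
  Nat.prime_of_mem_primeFactors (mem_filter.1 h).1

lemma lt_clJ {z p : ℕ} (h : p ∈ clJ z a) : z < p := (mem_filter.1 h).2.1

lemma mem_clJ {z p : ℕ} (ha : Function.Injective a) (hp : p.Prime) (hz : z < p) {c c' : PR n}
    (hcc : c ≠ c') (h1 : (p : ℤ) ∣ df a c) (h2 : (p : ℤ) ∣ df a c') : p ∈ clJ z a := by
  refine mem_filter.2 ⟨Nat.mem_primeFactors.2 ⟨hp, ?_, ?_⟩, hz, c, c', hcc, h1, h2⟩
  · exact (Int.natCast_dvd.1 h1).trans (dvd_prod_of_mem (fun c => (df a c).natAbs) (mem_univ c))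
  · exact prod_ne_zero_iff.2 fun c _ => Int.natAbs_ne_zero.2 (df_neJ ha c)

lemma fJ_split (z : ℕ) (ha : Function.Injective a) (c : PR n) :
    ∃ A B : ℕ, fJ z a c = (A : ℤ) ∧ A ≠ 0 ∧ (df a c).natAbs = A * B ∧
      (∀ p : ℕ, p.Prime → p ∉ clJ z a → p.Coprime B) ∧
      (∀ p : ℕ, p.Prime → p ∈ clJ z a → p.Coprime A) := by
  have h0 : (df a c).natAbs ≠ 0 := Int.natAbs_ne_zero.2 (df_neJ ha c)
  refine ⟨∏ p ∈ (df a c).natAbs.primeFactors.filter (fun p => p ∉ clJ z a),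
      p ^ (df a c).natAbs.factorization p,
    ∏ p ∈ (df a c).natAbs.primeFactors.filter (fun p => ¬ p ∉ clJ z a),
      p ^ (df a c).natAbs.factorization p, ?_, ?_, ?_, ?_, ?_⟩
  · unfold fJ
    rfl
  · refine prod_ne_zero_iff.2 fun p hp => pow_ne_zero _ ?_
    exact (Nat.prime_of_mem_primeFactors (mem_filter.1 hp).1).ne_zero
  · rw [prod_filter_mul_prod_filter_not]
    exact (Nat.prod_factorization_pow_eq_self h0).symm
  · intro p hp hcl
    refine Nat.Coprime.prod_right fun q hq => Nat.Coprime.pow_right _ ?_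
    have hq1 := mem_filter.1 hq
    refine (Nat.coprime_primes hp (Nat.prime_of_mem_primeFactors hq1.1)).2 ?_
    rintro rfl
    exact hq1.2 hcl
  · intro p hp hcl
    refine Nat.Coprime.prod_right fun q hq => Nat.Coprime.pow_right _ ?_
    have hq1 := mem_filter.1 hq
    refine (Nat.coprime_primes hp (Nat.prime_of_mem_primeFactors hq1.1)).2 ?_
    rintro rfl
    exact hq1.2 hcl

lemma fJ_neJ (z : ℕ) (ha : Function.Injective a) (c : PR n) : fJ z a c ≠ 0 := by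
  obtain ⟨A, B, h1, h2, _⟩ := fJ_split z ha c
  rw [h1]
  exact_mod_cast h2

lemma pow_dvd_fJ {z : ℕ} (ha : Function.Injective a) (c : PR n) {p : ℕ} (hp : p.Prime)
    (hcl : p ∉ clJ z a) (m : ℕ) : (p : ℤ) ^ m ∣ fJ z a c ↔ (p : ℤ) ^ m ∣ df a c := by
  obtain ⟨A, B, h1, h2, h3, h4, _⟩ := fJ_split z ha c
  have h5 : (p : ℤ) ^ m = ((p ^ m : ℕ) : ℤ) := by push_cast; rfl
  rw [h1, h5, Int.natCast_dvd_natCast, Int.natCast_dvd, h3]
  constructor
  · exact fun h => h.trans (Dvd.intro _ rfl)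
  · exact fun h => Nat.Coprime.dvd_of_dvd_mul_right (Nat.Coprime.pow_left m (h4 p hp hcl)) h

lemma dvd_fJ {z : ℕ} (ha : Function.Injective a) (c : PR n) {p : ℕ} (hp : p.Prime)
    (hcl : p ∉ clJ z a) : (p : ℤ) ∣ fJ z a c ↔ (p : ℤ) ∣ df a c := by
  have := pow_dvd_fJ ha c hp hcl 1
  simpa using this

lemma not_dvd_fJ {z : ℕ} (ha : Function.Injective a) (c : PR n) {p : ℕ} (hp : p.Prime)
    (hcl : p ∈ clJ z a) : ¬ (p : ℤ) ∣ fJ z a c := by
  obtain ⟨A, B, h1, h2, h3, _, h4⟩ := fJ_split z ha c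
  rw [h1, Int.natCast_dvd_natCast]
  exact (Nat.Prime.coprime_iff_not_dvd hp).1 (h4 p hp hcl)

lemma gdJ (z : ℕ) (ha : Function.Injective a) : Gd z (fJ z a) := by
  refine ⟨fun j => fJ_neJ z ha j, fun p hp hz j l hjl h => ?_⟩
  by_cases hcl : p ∈ clJ z a
  · exact not_dvd_fJ ha j hp hcl h.1
  · exact hcl (mem_clJ ha hp hz hjl ((dvd_fJ ha j hp hcl).1 h.1) ((dvd_fJ ha l hp hcl).1 h.2))

lemma s_condJ {z y : ℕ} (hz : 2 ≤ z) (ha : Function.Injective a) (c : PR n) (p : ℕ)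
    (hp : p.Prime) (hps : p ∣ S1 z y (fJ z a) c) :
    p ≠ 2 ∧ (p : ℤ) ∣ df a c ∧ ¬ (p : ℤ) ^ 2 ∣ df a c ∧
      ∀ c', c' ≠ c → ¬ (p : ℤ) ∣ df a c' := by
  have h1 : p ∈ (S1 z y (fJ z a) c).primeFactors :=
    Nat.mem_primeFactors.2 ⟨hp, hps, (sqf_S1J z y (fJ z a) c).ne_zero⟩
  rw [pf_S1J] at h1
  obtain ⟨h2, h3, h4⟩ := mem_filter.1 h1
  have h5 := mem_Ioc.1 (mem_filter.1 h2).1
  have hcl : p ∉ clJ z a := fun h => not_dvd_fJ ha c hp h h3
  have h6 := (dvd_fJ ha c hp hcl).1 h3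
  refine ⟨by omega, h6, fun h => h4 ((pow_dvd_fJ ha c hp hcl 2).2 h), fun c' hc' h => ?_⟩
  exact hcl (mem_clJ ha hp h5.1 hc' h h6)

lemma om_leJ {z y : ℕ} (ha : Function.Injective a) (c : PR n) :
    om (S1 z y (fJ z a)) c ≤ omJ a c := by
  unfold om omJ
  refine card_le_card fun p hp => ?_
  rw [pf_S1J] at hp
  obtain ⟨h1, h2, _⟩ := mem_filter.1 hp
  have hpp := (mem_filter.1 h1).2
  have hcl : p ∉ clJ z a := fun h => not_dvd_fJ ha c hpp h h2
  exact Nat.mem_primeFactors.2 ⟨hpp, Int.natCast_dvd.1 ((dvd_fJ ha c hpp hcl).1 h2),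
    Int.natAbs_ne_zero.2 (df_neJ ha c)⟩

/-- the prime factors of a difference -/
lemma cover {z y : ℕ} (ha : Function.Injective a) (c : PR n) {p : ℕ} (hp : p.Prime)
    (hpd : (p : ℤ) ∣ df a c) : p ∈ (S1 z y (fJ z a) c).primeFactors ∨
      p ∈ (S2 z y (fJ z a) c).primeFactors ∨ p ∈ Icc 1 z ∨ p ∈ clJ z a ∨
      p ∈ (df a c).natAbs.primeFactors.filter (fun p => y < p) := by
  by_cases hz : p ≤ z
  · exact Or.inr (Or.inr (Or.inl (mem_Icc.2 ⟨hp.one_lt.le, hz⟩)))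
  by_cases hcl : p ∈ clJ z a
  · exact Or.inr (Or.inr (Or.inr (Or.inl hcl)))
  by_cases hy : y < p
  · exact Or.inr (Or.inr (Or.inr (Or.inr (mem_filter.2 ⟨Nat.mem_primeFactors.2
      ⟨hp, Int.natCast_dvd.1 hpd, Int.natAbs_ne_zero.2 (df_neJ ha c)⟩, hy⟩))))
  have hPS : p ∈ PS z y := mem_filter.2 ⟨mem_Ioc.2 ⟨by omega, by omega⟩, hp⟩
  by_cases h2 : (p : ℤ) ^ 2 ∣ fJ z a c
  · refine Or.inr (Or.inl ?_)
    rw [pf_S2J]
    exact mem_filter.2 ⟨hPS, h2⟩
  · refine Or.inl ?_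
    rw [pf_S1J]
    exact mem_filter.2 ⟨hPS, (dvd_fJ ha c hp hcl).2 hpd, h2⟩

lemma card_omJ {z y X k : ℕ} (hX : 2 ≤ X) (hXk : X < (y + 1) ^ (4 * k))
    (ha : Function.Injective a) (hb : a ∈ BoxJ n X) (c : PR n) :
    omJ a c - om (S1 z y (fJ z a)) c ≤
      (S2 z y (fJ z a) c).primeFactors.card + (z + (clJ z a).card + 8 * k) := by
  have h0 : (df a c).natAbs ≠ 0 := Int.natAbs_ne_zero.2 (df_neJ ha c)
  have h1 : (df a c).natAbs.primeFactors ⊆ (S1 z y (fJ z a) c).primeFactors ∪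
      ((S2 z y (fJ z a) c).primeFactors ∪ (Icc 1 z ∪ (clJ z a ∪
        (df a c).natAbs.primeFactors.filter (fun p => y < p)))) := by
    intro p hp
    simp only [mem_union]
    exact cover ha c (Nat.prime_of_mem_primeFactors hp)
      (Int.natCast_dvd.2 (Nat.dvd_of_mem_primeFactors hp))
  have h2 := card_le_card h1
  have h3 := card_union_le (S1 z y (fJ z a) c).primeFactors
    ((S2 z y (fJ z a) c).primeFactors ∪ (Icc 1 z ∪ (clJ z a ∪
        (df a c).natAbs.primeFactors.filter (fun p => y < p))))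
  have h4 := card_union_le (S2 z y (fJ z a) c).primeFactors (Icc 1 z ∪ (clJ z a ∪
        (df a c).natAbs.primeFactors.filter (fun p => y < p)))
  have h5 := card_union_le (Icc 1 z) (clJ z a ∪
    (df a c).natAbs.primeFactors.filter (fun p => y < p))
  have h6 := card_union_le (clJ z a) ((df a c).natAbs.primeFactors.filter (fun p => y < p))
  have h7 : (df a c).natAbs ≤ X ^ 2 := by
    refine (df_leJ hb c).trans ?_
    rw [pow_two]
    exact Nat.mul_le_mul_right _ hX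
  have h8 := card_largeJ y X (4 * k) 2 _ h0 h7 hXk
  rw [Nat.card_Icc] at h5
  unfold omJ om
  omega

lemma card_tJ {z y X k : ℕ} (hz : 2 ≤ z) (hX : 2 ≤ X) (hXk : X < (y + 1) ^ (4 * k))
    (ha : Function.Injective a) (hb : a ∈ BoxJ n X) :
    ((2 * ∏ c, (df a c).natAbs).primeFactors.filter
      (fun q => ¬ q ∣ ∏ c, S1 z y (fJ z a) c)).card ≤
      z + (clJ z a).card + ∑ c, (S2 z y (fJ z a) c).primeFactors.card +
        Fintype.card (PR n) * (8 * k) := by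
  classical
  have h1 : (2 * ∏ c, (df a c).natAbs).primeFactors.filter
      (fun q => ¬ q ∣ ∏ c, S1 z y (fJ z a) c) ⊆ Icc 1 z ∪ (clJ z a ∪
        ((univ : Finset (PR n)).biUnion (fun c => (S2 z y (fJ z a) c).primeFactors) ∪
          (univ : Finset (PR n)).biUnion
            (fun c => (df a c).natAbs.primeFactors.filter (fun p => y < p)))) := by
    intro p hp
    obtain ⟨hp1, hp2⟩ := mem_filter.1 hp
    have hpp := Nat.prime_of_mem_primeFactors hp1
    have hpd := Nat.dvd_of_mem_primeFactors hp1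
    simp only [mem_union]
    by_cases hzp : p ≤ z
    · exact Or.inl (mem_Icc.2 ⟨hpp.one_lt.le, hzp⟩)
    have h2 : p ∣ ∏ c, (df a c).natAbs := by
      rcases hpp.dvd_mul.1 hpd with h | h
      · have := Nat.le_of_dvd (by norm_num) h
        omega
      · exact h
    obtain ⟨c, _, hc⟩ := (Prime.dvd_finsetProd_iff hpp.prime _).1 h2
    rcases cover (z := z) (y := y) ha c hpp (Int.natCast_dvd.2 hc) with h | h | h | h | h
    · exact absurd ((Nat.dvd_of_mem_primeFactors h).trans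
        (dvd_prod_of_mem (fun c => S1 z y (fJ z a) c) (mem_univ c))) hp2
    · exact Or.inr (Or.inr (Or.inl (mem_biUnion.2 ⟨c, mem_univ c, h⟩)))
    · exact Or.inl h
    · exact Or.inr (Or.inl h)
    · exact Or.inr (Or.inr (Or.inr (mem_biUnion.2 ⟨c, mem_univ c, h⟩)))
  have h2 := card_le_card h1
  have h3 := card_union_le (Icc 1 z) (clJ z a ∪
        ((univ : Finset (PR n)).biUnion (fun c => (S2 z y (fJ z a) c).primeFactors) ∪
          (univ : Finset (PR n)).biUnion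
            (fun c => (df a c).natAbs.primeFactors.filter (fun p => y < p))))
  have h4 := card_union_le (clJ z a)
        ((univ : Finset (PR n)).biUnion (fun c => (S2 z y (fJ z a) c).primeFactors) ∪
          (univ : Finset (PR n)).biUnion
            (fun c => (df a c).natAbs.primeFactors.filter (fun p => y < p)))
  have h5 := card_union_le
    ((univ : Finset (PR n)).biUnion (fun c => (S2 z y (fJ z a) c).primeFactors))
      ((univ : Finset (PR n)).biUnion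
            (fun c => (df a c).natAbs.primeFactors.filter (fun p => y < p)))
  have h6 : ((univ : Finset (PR n)).biUnion (fun c => (S2 z y (fJ z a) c).primeFactors)).card ≤
      ∑ c, (S2 z y (fJ z a) c).primeFactors.card := card_biUnion_le
  have h7 : ((univ : Finset (PR n)).biUnion
      (fun c => (df a c).natAbs.primeFactors.filter (fun p => y < p))).card ≤
      Fintype.card (PR n) * (8 * k) := by
    refine card_biUnion_le.trans ?_
    refine (sum_le_card_nsmul _ _ (8 * k) fun c _ => ?_).trans (le_of_eq ?_)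
    · have h0 : (df a c).natAbs ≠ 0 := Int.natAbs_ne_zero.2 (df_neJ ha c)
      have h71 : (df a c).natAbs ≤ X ^ 2 := by
        refine (df_leJ hb c).trans ?_
        rw [pow_two]
        exact Nat.mul_le_mul_right _ hX
      have h8 := card_largeJ y X (4 * k) 2 _ h0 h71 hXk
      omega
    · rw [card_univ, smul_eq_mul]
  rw [Nat.card_Icc] at h3
  omega

end Diff

/-! ### The growth -/

lemma NFV_nonneg {V : Type} [Fintype V] [DecidableEq V] (ad : V → V → Bool) (k : ℕ)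
    (s : V → ℕ) : 0 ≤ NFV ad k s := by
  unfold NFV
  exact mul_nonneg (by positivity) (sum_nonneg fun _ _ => pow_nonneg (Nat.cast_nonneg _) _)

lemma growthJ {V : Type} [Fintype V] [DecidableEq V] {T : Finset (V → ℝ)}
    (hT : ∀ t ∈ T, ∀ j, 0 < t j) (h3 : S_SUBV) (ad : V → V → Bool) (k z y : ℕ) (hz : 2 ≤ z)
    (b : ℝ) (hb : 2 ^ k ≤ b)
    (s e : V → ℕ) (hse : (fun j => s j * e j) ∈ Tup V z y) :
    NFV ad k (fun j => s j * e j) * rho T (om (fun j => s j * e j)) ≤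
      (b * DDJ T) ^ (∑ j, (e j).primeFactors.card) * (NFV ad k s * rho T (om s)) := by
  have h1 := h3 V ad k z y hz s e hse
  have h1' : NFV ad k (fun j => s j * e j) ≤
      b ^ (∑ j, (e j).primeFactors.card) * NFV ad k s :=
    h1.trans (mul_le_mul_of_nonneg_right (pow_le_pow_left₀ (by positivity) hb _)
      (NFV_nonneg _ _ _))
  have hne : ∀ j, s j * e j ≠ 0 := by
    intro j
    have h2 := (Fintype.mem_piFinset.1 (mem_filter.1 hse).1) j
    exact Nat.pos_of_mem_divisors h2 |>.ne'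
  have h2 : rho T (om (fun j => s j * e j)) ≤
      DDJ T ^ (∑ j, (e j).primeFactors.card) * rho T (om s) := by
    refine rj_lip' hT _ _ (fun j => ?_) _ (sum_le_sum fun j _ => ?_)
    · exact card_le_card (Nat.primeFactors_mono (Dvd.intro _ rfl) (hne j))
    · unfold om
      have h3 : (s j * e j).primeFactors = (s j).primeFactors ∪ (e j).primeFactors :=
        Nat.primeFactors_mul (left_ne_zero_of_mul (hne j)) (right_ne_zero_of_mul (hne j))
      rw [h3]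
      have := card_union_le (s j).primeFactors (e j).primeFactors
      omega
  have hb0 : 0 ≤ b := le_trans (by positivity) hb
  calc NFV ad k (fun j => s j * e j) * rho T (om (fun j => s j * e j))
      ≤ (b ^ (∑ j, (e j).primeFactors.card) * NFV ad k s) *
        (DDJ T ^ (∑ j, (e j).primeFactors.card) * rho T (om s)) :=
        mul_le_mul h1' h2 (rjn hT _) (mul_nonneg (by positivity) (NFV_nonneg _ _ _))
    _ = _ := by
        rw [mul_pow]
        ring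

/-! ### The pointwise bound -/

lemma ptwJ {n : ℕ} {T : Finset (PR n → ℝ)} (hT : ∀ t ∈ T, ∀ j, 0 < t j) (h1 : S_SELJ)
    (hn : Odd n) {a : Fin n → ℤ} (κ z y X k : ℕ) (hz : 2 ≤ z) (hX : 2 ≤ X)
    (hXk : X < (y + 1) ^ (4 * k)) (ha : Function.Injective a) (hb : a ∈ BoxJ n X) :
    ((SelJ a).ncard : ℝ) ^ κ * rho T (omJ a) ≤
      (((2 ^ n) ^ (1 + z)) ^ κ * DDJ T ^ (Fintype.card (PR n) * z)) *
      ((2 ^ n) ^ κ * DDJ T ^ Fintype.card (PR n)) ^ (clJ z a).card *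
      (((2 ^ n) ^ (8 * Fintype.card (PR n))) ^ κ * DDJ T ^ (8 * Fintype.card (PR n))) ^ k *
      ((2 ^ n) ^ κ * DDJ T) ^ (∑ c, (S2 z y (fJ z a) c).primeFactors.card) *
      rho T (om (S1 z y (fJ z a))) *
      (NV adj (S1 z y (fJ z a)) (sgJ a (∏ c, S1 z y (fJ z a) c)) : ℝ) ^ κ := by
  obtain ⟨N, hN⟩ : ∃ N, N = Fintype.card (PR n) := ⟨_, rfl⟩
  obtain ⟨V, hV⟩ : ∃ V, V = ∑ c, (S2 z y (fJ z a) c).primeFactors.card := ⟨_, rfl⟩
  obtain ⟨m, hm⟩ : ∃ m, m = (clJ z a).card := ⟨_, rfl⟩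
  have hD1 : 1 ≤ DDJ T := one_le_DDJ hT
  have hD0 : 0 < DDJ T := by linarith
  have h2 := (h1 n a (S1 z y (fJ z a)) hn ha (fun c => sqf_S1J z y _ c)
    (fun c p hp hps => s_condJ hz ha c p hp hps)).2
  have h3 := card_tJ (y := y) (k := k) hz hX hXk ha hb
  rw [← hN, ← hV, ← hm] at h3 ⊢
  have h4 : ((SelJ a).ncard : ℝ) ≤ (2 ^ n : ℝ) ^ (1 + (z + m + V + N * (8 * k))) *
      (NV adj (S1 z y (fJ z a)) (sgJ a (∏ c, S1 z y (fJ z a) c)) : ℝ) := by
    have h5 : ((SelJ a).ncard : ℝ) ≤ (((2 ^ n) ^ (1 + ((2 * ∏ c, (df a c).natAbs).primeFactors.filter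
      (fun q => ¬ q ∣ ∏ c, S1 z y (fJ z a) c)).card) *
        NV adj (S1 z y (fJ z a)) (sgJ a (∏ c, S1 z y (fJ z a) c)) : ℕ) : ℝ) := Nat.cast_le.2 h2
    refine h5.trans ?_
    push_cast
    refine mul_le_mul_of_nonneg_right ?_ (Nat.cast_nonneg _)
    exact pow_le_pow_right₀ (one_le_pow₀ (by norm_num)) (by omega)
  have h5 : rho T (omJ a) ≤ DDJ T ^ (V + (N * z + N * m + N * (8 * k))) *
      rho T (om (S1 z y (fJ z a))) := by
    refine rj_lip' hT _ _ (fun c => om_leJ ha c) _ ?_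
    refine (sum_le_sum fun c _ => card_omJ (k := k) hX hXk ha hb c).trans (le_of_eq ?_)
    rw [sum_add_distrib, sum_const, card_univ, ← hN, ← hV, ← hm, smul_eq_mul]
    ring
  refine (mul_le_mul (pow_le_pow_left₀ (Nat.cast_nonneg _) h4 κ) h5 (rjn hT _)
      (by positivity)).trans (le_of_eq ?_)
  simp only [mul_pow, ← pow_mul]
  ring

end AvgJ

open Finset Pool.Agent.W262.RK Pool.Agent.W307.RT Pool.Agent.W307.RS Pool.Agent.TH344.DT AvgJ

theorem avgj_of (h1 : S_SELJ) (h2 : S_CNTJ) (h3 : S_SUBV) : S_AVGJ := by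
  classical
  intro n κ T hn3 hnodd hT hM
  have hant : ANTU := Pool.Agent.W307.RS.antu
  have hDD : 1 ≤ DDJ T := one_le_DDJ hT
  have hDD0 : 0 < DDJ T := by linarith
  obtain ⟨N, hN⟩ : ∃ N, N = Fintype.card (PR n) := ⟨_, rfl⟩
  obtain ⟨z0, hz0⟩ := hM
  obtain ⟨z, hz⟩ : ∃ z, z = z0 + n + 2 * N + 4 := ⟨_, rfl⟩
  have hz2 : 2 ≤ z := by omega
  have hzn : 2 * Fintype.card (PR n) + 2 ≤ z := by omega
  obtain ⟨C', hC'⟩ := hz0 z (by omega)
  obtain ⟨C, A, K, y0, hC0, hA1, hK1, hcn⟩ := h2 n z hn3 (by omega) hzn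
  obtain ⟨y1, hy1⟩ : ∃ y1, y1 = y0 + 6 := ⟨_, rfl⟩
  -- the constants
  obtain ⟨b, hb⟩ : ∃ b : ℝ, b = (2 ^ n : ℝ) ^ κ := ⟨_, rfl⟩
  have hb1 : 1 ≤ b := by rw [hb]; exact one_le_pow₀ (one_le_pow₀ (by norm_num))
  have hb2 : (2 : ℝ) ^ κ ≤ b := by
    rw [hb]
    refine pow_le_pow_left₀ (by norm_num) ?_ κ
    calc (2 : ℝ) = 2 ^ 1 := by norm_num
      _ ≤ 2 ^ n := pow_le_pow_right₀ (by norm_num) (by omega)
  obtain ⟨A1, hA1'⟩ : ∃ A1 : ℝ, A1 = (b * DDJ T ^ N) * A := ⟨_, rfl⟩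
  have hA11 : 1 ≤ A1 := by
    rw [hA1']
    exact one_le_mul_of_one_le_of_one_le
      (one_le_mul_of_one_le_of_one_le hb1 (one_le_pow₀ hDD)) hA1
  have hA10 : 0 < A1 := by linarith
  -- the parameters
  obtain ⟨P, hP⟩ : ∃ P : ℕ × ℕ → Prop, P = fun θ => Squarefree θ.1 ∧
    (∀ p, p.Prime → p ∣ θ.1 → z < p) ∧ θ.1 ^ 16 ≤ θ.2 ∧ 1 ≤ θ.2 := ⟨_, rfl⟩
  have key : ∃ C2 : ℝ, ∀ θ : {θ : ℕ × ℕ // P θ},
      ∑ a ∈ (BoxJ n θ.1.2).filter (fun a => Function.Injective a ∧ ∏ p ∈ clJ z a, p = θ.1.1),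
        ((SelJ a).ncard : ℝ) ^ κ * rho T (omJ a) ≤
        C2 * (A1 ^ θ.1.1.primeFactors.card / (θ.1.1 : ℝ) ^ 2 * (θ.1.2 : ℝ) ^ n) := by
    refine hant (PR n) (Fin n → ℤ) {θ : ℕ × ℕ // P θ}
      (fun θ => (BoxJ n θ.1.2).filter
        (fun a => Function.Injective a ∧ ∏ p ∈ clJ z a, p = θ.1.1))
      (fun θ => Nat.sqrt (Nat.sqrt θ.1.2))
      (fun _ a => fJ z a)
      (fun θ => A1 ^ θ.1.1.primeFactors.card / (θ.1.1 : ℝ) ^ 2 * (θ.1.2 : ℝ) ^ n) z
      (fun s => NFV adj κ s * rho T (om s))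
      (fun _ a => ((SelJ a).ncard : ℝ) ^ κ * rho T (omJ a)) (b * DDJ T)
      (C * (((2 ^ n) ^ (1 + z)) ^ κ * DDJ T ^ (N * z))) C'
      (((2 ^ n) ^ (8 * N)) ^ κ * DDJ T ^ (8 * N)) K y1 hzn ?_
      (fun θ => by positivity) (fun X0 => ?_)
      (fun θ ω hω => gdJ z (mem_filter.1 hω).2.1)
      (fun s => mul_nonneg (NFV_nonneg _ _ _) (rjn hT _))
      (fun θ t => mul_nonneg (by positivity) (rjn hT _))
      (one_le_mul_of_one_le_of_one_le hb1 hDD)
      (by positivity)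
      (one_le_mul_of_one_le_of_one_le
        (one_le_pow₀ (one_le_pow₀ (one_le_pow₀ (by norm_num)))) (one_le_pow₀ hDD)) hK1
      (fun y hy s e hse => growthJ hT h3 adj κ z y hz2 b hb2 s e hse)
      hC' ?_
    · -- the scales are positive
      rintro ⟨⟨M, X⟩, hθ⟩
      rw [hP] at hθ
      have hX1 : 1 ≤ X := hθ.2.2.2
      have : 1 ≤ Nat.sqrt X := Nat.le_sqrt.2 (by omega)
      exact Nat.le_sqrt.2 (by omega)
    · -- small scales
      refine ⟨∑ a ∈ (BoxJ n ((X0 + 1) ^ 4)), ((SelJ a).ncard : ℝ) ^ κ, ?_⟩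
      rintro ⟨⟨M, X⟩, hθ⟩ hle
      rw [hP] at hθ
      obtain ⟨hM1, hM2, hM3, hX1⟩ := hθ
      simp only at hM1 hM2 hM3 hX1 hle ⊢
      have hXle : X ≤ (X0 + 1) ^ 4 := by
        have e1 : X < (Nat.sqrt X + 1) * (Nat.sqrt X + 1) := Nat.sqrt_lt.1 (Nat.lt_succ_self _)
        have e2 : Nat.sqrt X < (Nat.sqrt (Nat.sqrt X) + 1) * (Nat.sqrt (Nat.sqrt X) + 1) :=
          Nat.sqrt_lt.1 (Nat.lt_succ_self _)
        have e3 : (Nat.sqrt (Nat.sqrt X) + 1) * (Nat.sqrt (Nat.sqrt X) + 1) ≤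
            (X0 + 1) * (X0 + 1) := Nat.mul_le_mul (by omega) (by omega)
        have e4 : (Nat.sqrt X + 1) * (Nat.sqrt X + 1) ≤ ((X0 + 1) * (X0 + 1)) * ((X0 + 1) * (X0 + 1)) :=
          Nat.mul_le_mul (by omega) (by omega)
        calc X ≤ ((X0 + 1) * (X0 + 1)) * ((X0 + 1) * (X0 + 1)) := by omega
          _ = (X0 + 1) ^ 4 := by ring
      have hsub : (BoxJ n X).filter (fun a => Function.Injective a ∧ ∏ p ∈ clJ z a, p = M) ⊆
          BoxJ n ((X0 + 1) ^ 4) := by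
        intro a ha
        have h5 := (mem_filter.1 ha).1
        unfold BoxJ at h5 ⊢
        rw [Fintype.mem_piFinset] at h5 ⊢
        intro i
        have h6 := mem_Icc.1 (h5 i)
        have h7 : (X : ℤ) ≤ (((X0 + 1) ^ 4 : ℕ) : ℤ) := by exact_mod_cast hXle
        exact mem_Icc.2 ⟨by linarith, by linarith⟩
      have hB0 : 0 ≤ ∑ a ∈ (BoxJ n ((X0 + 1) ^ 4)), ((SelJ a).ncard : ℝ) ^ κ :=
        sum_nonneg fun a _ => by positivity
      have hM0 : 0 < M := Nat.pos_of_ne_zero hM1.ne_zero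
      have hMX : M ≤ X := (Nat.le_self_pow (by norm_num) M).trans hM3
      have hS : (1 : ℝ) ≤ A1 ^ M.primeFactors.card / (M : ℝ) ^ 2 * (X : ℝ) ^ n := by
        have hM0' : (0 : ℝ) < M := by exact_mod_cast hM0
        have e1 : (1 : ℝ) ≤ A1 ^ M.primeFactors.card := one_le_pow₀ hA11
        have e2 : (M : ℝ) ^ 2 ≤ (X : ℝ) ^ n := by
          have : M ^ 2 ≤ X ^ n := (Nat.pow_le_pow_left hMX 2).trans
            (Nat.pow_le_pow_right hX1 (by omega))
          exact_mod_cast this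
        rw [div_mul_eq_mul_div, le_div_iff₀ (by positivity), one_mul]
        calc (M : ℝ) ^ 2 ≤ (X : ℝ) ^ n := e2
          _ = 1 * (X : ℝ) ^ n := (one_mul _).symm
          _ ≤ A1 ^ M.primeFactors.card * (X : ℝ) ^ n :=
            mul_le_mul_of_nonneg_right e1 (by positivity)
      calc ∑ a ∈ (BoxJ n X).filter (fun a => Function.Injective a ∧ ∏ p ∈ clJ z a, p = M),
            ((SelJ a).ncard : ℝ) ^ κ * rho T (omJ a)
          ≤ ∑ a ∈ (BoxJ n X).filter (fun a => Function.Injective a ∧ ∏ p ∈ clJ z a, p = M),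
            ((SelJ a).ncard : ℝ) ^ κ :=
            sum_le_sum fun a _ => mul_le_of_le_one_right (by positivity) (rj1 _ _)
        _ ≤ ∑ a ∈ (BoxJ n ((X0 + 1) ^ 4)), ((SelJ a).ncard : ℝ) ^ κ :=
            sum_le_sum_of_subset_of_nonneg hsub fun a _ _ => by positivity
        _ ≤ _ := le_mul_of_one_le_right hB0 hS
    -- the local majorant
    rintro ⟨⟨M, X⟩, hθ⟩ y Y k hy0 hzy hyK hk s hs v hv u hu h8 T' hT' hval
    rw [hP] at hθ
    obtain ⟨hM1, hM2, hM3, hX1⟩ := hθ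
    simp only at hM1 hM2 hM3 hX1 hyK hk h8 hT' hval ⊢
    have hLX : (Nat.sqrt (Nat.sqrt X)) ^ 4 ≤ X := by
      have e1 : Nat.sqrt (Nat.sqrt X) * Nat.sqrt (Nat.sqrt X) ≤ Nat.sqrt X := Nat.sqrt_le _
      have e2 : Nat.sqrt X * Nat.sqrt X ≤ X := Nat.sqrt_le _
      calc (Nat.sqrt (Nat.sqrt X)) ^ 4 = (Nat.sqrt (Nat.sqrt X) * Nat.sqrt (Nat.sqrt X)) *
            (Nat.sqrt (Nat.sqrt X) * Nat.sqrt (Nat.sqrt X)) := by ring
        _ ≤ Nat.sqrt X * Nat.sqrt X := Nat.mul_le_mul e1 e1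
        _ ≤ X := e2
    have hL1 : 1 ≤ Nat.sqrt (Nat.sqrt X) := by
      have : 1 ≤ Nat.sqrt X := Nat.le_sqrt.2 (by omega)
      exact Nat.le_sqrt.2 (by omega)
    have hLX' : Nat.sqrt (Nat.sqrt X) ≤ X := (Nat.le_self_pow (by norm_num) _).trans hLX
    have hyKX : y ^ K ≤ X := hyK.trans hLX'
    have hyX : y ≤ X := le_trans (Nat.le_self_pow (by omega) y) hyKX
    have hX2 : 2 ≤ X := by omega
    have hy00 : y0 ≤ y := by omega
    have hXk : X < (y + 1) ^ (4 * k) := by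
      have e1 : X < (Nat.sqrt X + 1) * (Nat.sqrt X + 1) := Nat.sqrt_lt.1 (Nat.lt_succ_self _)
      have e2 : Nat.sqrt X < (Nat.sqrt (Nat.sqrt X) + 1) * (Nat.sqrt (Nat.sqrt X) + 1) :=
        Nat.sqrt_lt.1 (Nat.lt_succ_self _)
      have e3 : (Nat.sqrt (Nat.sqrt X) + 1) * (Nat.sqrt (Nat.sqrt X) + 1) ≤
          (y + 1) ^ k * (y + 1) ^ k := Nat.mul_le_mul (by omega) (by omega)
      have e4 : (Nat.sqrt X + 1) * (Nat.sqrt X + 1) ≤
          ((y + 1) ^ k * (y + 1) ^ k) * ((y + 1) ^ k * (y + 1) ^ k) :=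
        Nat.mul_le_mul (by omega) (by omega)
      calc X < ((y + 1) ^ k * (y + 1) ^ k) * ((y + 1) ^ k * (y + 1) ^ k) := by omega
        _ = (y + 1) ^ (4 * k) := by
          rw [← pow_add, ← pow_add]
          congr 1
          ring
    have h32 : (∏ j, s j * v j * u j) ^ 32 ≤ X := by
      calc (∏ j, s j * v j * u j) ^ 32 = ((∏ j, s j * v j * u j) ^ 8) ^ 4 := by
            rw [← pow_mul]
        _ ≤ (Nat.sqrt (Nat.sqrt X)) ^ 4 := Nat.pow_le_pow_left h8 4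
        _ ≤ X := hLX
    obtain ⟨g, hg⟩ : ∃ g : Finset ℕ → ℝ, g = fun E => (NV adj s E : ℝ) ^ κ := ⟨_, rfl⟩
    obtain ⟨ρ, hρ⟩ : ∃ ρ : ℝ, ρ = rho T (om s) := ⟨_, rfl⟩
    have hρ0 : 0 ≤ ρ := by rw [hρ]; exact rjn hT _
    have hg0 : ∀ E, 0 ≤ g E := fun E => by rw [hg]; exact pow_nonneg (Nat.cast_nonneg _) _
    obtain ⟨W, hW⟩ : ∃ W : ℝ, W = (((2 ^ n) ^ (1 + z)) ^ κ * DDJ T ^ (N * z)) *
      (b * DDJ T ^ N) ^ M.primeFactors.card *
      (((2 ^ n) ^ (8 * N)) ^ κ * DDJ T ^ (8 * N)) ^ k *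
      (b * DDJ T) ^ (∑ c, (v c).primeFactors.card) * ρ := ⟨_, rfl⟩
    have hW0 : 0 ≤ W := by
      have hb0 : 0 ≤ b := by linarith
      rw [hW]
      positivity
    have h5 : ∀ a ∈ T', ((SelJ a).ncard : ℝ) ^ κ * rho T (omJ a) ≤
        W * g (sgJ a (∏ c, s c)) := by
      intro a ha
      obtain ⟨hbox, hinj, hcl⟩ := mem_filter.1 (hT' ha)
      obtain ⟨hts, htv, _⟩ := hval a ha
      have h6 := ptwJ hT h1 hnodd κ z y X k hz2 hX2 hXk hinj hbox
      have h7 : (clJ z a).card = M.primeFactors.card := by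
        rw [← hcl, Nat.primeFactors_prod fun p hp => prime_clJ hp]
      rw [hts, htv, h7, ← hN, ← hb, ← hρ] at h6
      rw [hW, hg]
      exact h6
    have hneg : ∀ a ∈ T', sgJ a (∏ c, s c) ∈ (∏ j, s j).primeFactors.powerset := by
      intro a _
      rw [mem_powerset]
      exact filter_subset _ _
    have h6 : ∑ a ∈ T', g (sgJ a (∏ c, s c)) =
        ∑ E ∈ (∏ j, s j).primeFactors.powerset,
          ((T'.filter (fun a => sgJ a (∏ c, s c) = E)).card : ℝ) * g E := by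
      rw [← sum_fiberwise_of_maps_to hneg]
      refine sum_congr rfl fun E _ => ?_
      rw [← nsmul_eq_mul, ← sum_const]
      refine sum_congr rfl fun t ht => ?_
      rw [(mem_filter.1 ht).2]
    obtain ⟨Q, hQ⟩ : ∃ Q : ℝ, Q = C * (A ^ M.primeFactors.card / (M : ℝ) ^ 2) * X ^ n *
          (1 / 2) ^ (∏ j, s j).primeFactors.card *
          (∏ j, gw 1 N (s j)) * (∏ j, gw 1 N (v j) / v j) * (∏ j, 1 / (u j : ℝ)) /
          (Real.log y) ^ N := ⟨_, rfl⟩
    have h7 : ∀ E ∈ (∏ j, s j).primeFactors.powerset,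
        ((T'.filter (fun a => sgJ a (∏ c, s c) = E)).card : ℝ) * g E ≤ Q * g E := by
      intro E _
      refine mul_le_mul_of_nonneg_right ?_ (hg0 E)
      have h9 := hcn X y Y M hy00 hzy hyKX hM1 hM2 hM3 s hs v hv u hu h32 E
      rw [← hN, ← hQ] at h9
      refine le_trans ?_ h9
      refine Nat.cast_le.2 (card_le_card fun t ht => ?_)
      rw [mem_filter] at ht
      rw [mem_filter]
      obtain ⟨ht', htE⟩ := ht
      obtain ⟨hts, htv, htu⟩ := hval t ht'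
      obtain ⟨hbox, hinj, hcl⟩ := mem_filter.1 (hT' ht')
      exact ⟨hbox, hinj, hcl, hts, htv, htu, htE⟩
    calc ∑ a ∈ T', ((SelJ a).ncard : ℝ) ^ κ * rho T (omJ a)
        ≤ ∑ a ∈ T', W * g (sgJ a (∏ c, s c)) := sum_le_sum h5
      _ = W * ∑ E ∈ (∏ j, s j).primeFactors.powerset,
            ((T'.filter (fun a => sgJ a (∏ c, s c) = E)).card : ℝ) * g E := by
          rw [← mul_sum, h6]
      _ ≤ W * ∑ E ∈ (∏ j, s j).primeFactors.powerset, Q * g E :=
          mul_le_mul_of_nonneg_left (sum_le_sum h7) hW0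
      _ = _ := by
          have e1 : NFV adj κ s = (1 / 2) ^ (∏ j, s j).primeFactors.card *
              ∑ E ∈ (∏ j, s j).primeFactors.powerset, g E := by
            rw [hg]
            rfl
          have e2 : (∏ j, (b * DDJ T) ^ (v j).primeFactors.card * (gw 1 N (v j) / v j)) =
              (b * DDJ T) ^ (∑ j, (v j).primeFactors.card) * ∏ j, (gw 1 N (v j) / v j) := by
            rw [prod_mul_distrib, prod_pow_eq_pow_sum]
          have e3 : A1 ^ M.primeFactors.card =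
              (b * DDJ T ^ N) ^ M.primeFactors.card * A ^ M.primeFactors.card := by
            rw [hA1', mul_pow]
          rw [← hN, ← mul_sum, e1, e2, hQ, e3, ← hρ, hW]
          ring
  -- the sum over `M`
  obtain ⟨C2, hC2⟩ := key
  obtain ⟨q, hq⟩ : ∃ q : ℕ, A1 ≤ q := exists_nat_ge A1
  have hq1 : 1 ≤ q := by
    have : (1 : ℝ) ≤ q := hA11.trans hq
    exact_mod_cast this
  obtain ⟨C3, hC30, hC3⟩ := som0J q hq1
  refine ⟨z, max C2 0 * C3, by positivity, fun X hX => ?_⟩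
  obtain ⟨MM, hMM⟩ : ∃ MM : Finset ℕ, MM = (Icc 1 X).filter (fun M => P (M, X)) := ⟨_, rfl⟩
  obtain ⟨TT, hTT⟩ : ∃ TT : Finset (Fin n → ℤ), TT = (BoxJ n X).filter
    (fun a => Function.Injective a ∧ (∏ p ∈ clJ z a, p) ^ 16 ≤ X) := ⟨_, rfl⟩
  have hmaps : ∀ a ∈ TT, (∏ p ∈ clJ z a, p) ∈ MM := by
    intro a ha
    rw [hTT] at ha
    obtain ⟨hbox, hinj, hcl⟩ := mem_filter.1 ha
    have h0 : 0 < ∏ p ∈ clJ z a, p := prod_pos fun p hp => (prime_clJ hp).pos
    rw [hMM, mem_filter, hP]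
    refine ⟨mem_Icc.2 ⟨h0, (Nat.le_self_pow (by norm_num) _).trans hcl⟩,
      sqf_prodJ _ fun p hp => prime_clJ hp, fun p hp hpd => ?_, hcl, hX⟩
    have : p ∈ (∏ p ∈ clJ z a, p).primeFactors := Nat.mem_primeFactors.2 ⟨hp, hpd, h0.ne'⟩
    rw [Nat.primeFactors_prod fun p hp => prime_clJ hp] at this
    exact lt_clJ this
  have hfin : ∑ a ∈ TT, ((SelJ a).ncard : ℝ) ^ κ * rho T (omJ a) ≤
      max C2 0 * C3 * (X : ℝ) ^ n := by
    rw [← sum_fiberwise_of_maps_to hmaps]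
    have hM : ∀ M ∈ MM, ∑ a ∈ TT.filter (fun a => ∏ p ∈ clJ z a, p = M),
        ((SelJ a).ncard : ℝ) ^ κ * rho T (omJ a) ≤
        max C2 0 * (X : ℝ) ^ n * ((q : ℝ) ^ M.primeFactors.card / (M : ℝ) ^ 2) := by
      intro M hM
      rw [hMM] at hM
      have hPM := (mem_filter.1 hM).2
      have h5 := hC2 ⟨(M, X), hPM⟩
      simp only at h5
      have h6 : ∑ a ∈ TT.filter (fun a => ∏ p ∈ clJ z a, p = M),
          ((SelJ a).ncard : ℝ) ^ κ * rho T (omJ a) ≤
          ∑ a ∈ (BoxJ n X).filter (fun a => Function.Injective a ∧ ∏ p ∈ clJ z a, p = M),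
            ((SelJ a).ncard : ℝ) ^ κ * rho T (omJ a) := by
        refine sum_le_sum_of_subset_of_nonneg (fun a ha => ?_)
          fun a _ _ => mul_nonneg (by positivity) (rjn hT _)
        rw [hTT, mem_filter, mem_filter] at ha
        rw [mem_filter]
        exact ⟨ha.1.1, ha.1.2.1, ha.2⟩
      refine h6.trans (h5.trans ?_)
      have h7 : A1 ^ M.primeFactors.card ≤ (q : ℝ) ^ M.primeFactors.card :=
        pow_le_pow_left₀ hA10.le hq _
      calc C2 * (A1 ^ M.primeFactors.card / (M : ℝ) ^ 2 * (X : ℝ) ^ n)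
          ≤ max C2 0 * (A1 ^ M.primeFactors.card / (M : ℝ) ^ 2 * (X : ℝ) ^ n) :=
            mul_le_mul_of_nonneg_right (le_max_left _ _) (by positivity)
        _ ≤ max C2 0 * ((q : ℝ) ^ M.primeFactors.card / (M : ℝ) ^ 2 * (X : ℝ) ^ n) := by
            gcongr
        _ = _ := by ring
    refine (sum_le_sum hM).trans ?_
    rw [← mul_sum]
    have h8 : ∑ M ∈ MM, (q : ℝ) ^ M.primeFactors.card / (M : ℝ) ^ 2 ≤ C3 := by
      refine le_trans ?_ (hC3 X)
      rw [hMM]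
      exact sum_le_sum_of_subset_of_nonneg (filter_subset _ _) fun a _ _ => by positivity
    calc max C2 0 * (X : ℝ) ^ n * ∑ M ∈ MM, (q : ℝ) ^ M.primeFactors.card / (M : ℝ) ^ 2
        ≤ max C2 0 * (X : ℝ) ^ n * C3 := mul_le_mul_of_nonneg_left h8 (by positivity)
      _ = _ := by ring
  rw [hTT] at hfin
  convert hfin using 2

end Pool.Agent.TH344.JG
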