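import Mathlib
import Pool.Agent.TH344.JG.Stm
import Pool.Agent.TH344.DT.Bad

/-! Project JG: the exceptional points of the box are rare. -/

set_option autoImplicit false

namespace Pool.Agent.TH344.JG

open Finset Filter Pool.Agent.W262.RK Pool.Agent.W307.RT Pool.Agent.TH344.DT

namespace BadAux

lemma fiber {n : ℕ} (s : Finset (Fin n → ℤ)) (i : Fin n) (B : ℕ) (F : (Fin n → ℤ) → Finset ℤ)
    (hF : ∀ b, (F b).card ≤ B) (hs : ∀ a ∈ s, a i ∈ F (Function.update a i 0)) :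
    s.card ≤ B * (s.image (fun a => Function.update a i 0)).card := by
  classical
  refine card_le_mul_card_image_of_maps_to (fun a ha => mem_image_of_mem _ ha) B ?_
  intro b _
  refine le_trans ?_ (hF b)
  refine card_le_card_of_injOn (fun a => a i) ?_ ?_
  · intro a ha
    simp only [coe_filter, Set.mem_ofPred_eq] at ha
    have := hs a ha.1
    rw [ha.2] at this
    exact this
  · intro a ha a' ha' h
    simp only [coe_filter, Set.mem_ofPred_eq] at ha ha'
    simp only at h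
    have h1 : a = Function.update (Function.update a i 0) i (a i) := by simp
    have h2 : a' = Function.update (Function.update a' i 0) i (a' i) := by simp
    rw [h1, h2, ha.2, ha'.2, h]

lemma card_pi {n X : ℕ} (D : Finset (Fin n)) :
    (Fintype.piFinset (fun j => if j ∈ D then ({0} : Finset ℤ) else Icc (-(X : ℤ)) X)).card =
      (2 * X + 1) ^ (n - D.card) := by
  classical
  rw [Fintype.card_piFinset]
  have h : ∀ j, (if j ∈ D then ({0} : Finset ℤ) else Icc (-(X : ℤ)) X).card =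
      if j ∈ D then 1 else 2 * X + 1 := by
    intro j
    split_ifs
    · simp
    · exact card_Icc1 X
  simp only [h]
  rw [prod_ite, prod_const_one, one_mul, prod_const]
  congr 1
  rw [filter_not, filter_mem_eq_inter, univ_inter, ← compl_eq_univ_sdiff, card_compl,
    Fintype.card_fin]

lemma mem_box {n X : ℕ} {a : Fin n → ℤ} : a ∈ BoxJ n X ↔ ∀ i, a i ∈ Icc (-(X : ℤ)) X := by
  unfold BoxJ
  rw [Fintype.mem_piFinset]

lemma card_one {n X : ℕ} (S : Finset ℕ) (c : PR n) :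
    ((BoxJ n X).filter (fun a => (df a c).natAbs ∈ S)).card ≤
      2 * S.card * (2 * X + 1) ^ (n - 1) := by
  classical
  have hne : c.1.2 ≠ c.1.1 := c.2.ne'
  refine (fiber _ c.1.1 (2 * S.card) (fun b => (Icc (-(X : ℤ)) X).filter
    (fun m => (m - b c.1.2).natAbs ∈ S)) (fun b => card_natAbs X S _) ?_).trans ?_
  · intro a ha
    rw [mem_filter, mem_box] at ha
    rw [mem_filter, Function.update_of_ne hne]
    exact ⟨ha.1 _, ha.2⟩
  · refine Nat.mul_le_mul_left _ ?_
    have h := card_pi (X := X) ({c.1.1} : Finset (Fin n))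
    rw [card_singleton] at h
    rw [← h]
    refine card_le_card fun b hb => ?_
    obtain ⟨a, ha, rfl⟩ := mem_image.1 hb
    rw [mem_filter, mem_box] at ha
    rw [Fintype.mem_piFinset]
    intro j
    by_cases hj : j = c.1.1
    · subst hj
      simp
    · rw [if_neg (by rwa [mem_singleton]), Function.update_of_ne hj]
      exact ha.1 j

lemma card_res (X p : ℕ) (hp : 0 < p) (hpX : p ≤ 2 * X) (r : ℤ) :
    (((Icc (-(X : ℤ)) X).filter (fun m => (p : ℤ) ∣ m - r)).card : ℝ) ≤ 5 * X / p := by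
  have h1 : (Icc (-(X : ℤ)) X).filter (fun m => (p : ℤ) ∣ m - r) =
      (Ioc (-(X : ℤ) - 1) X).filter (fun m => m ≡ r [ZMOD (p : ℤ)]) := by
    ext m
    rw [mem_filter, mem_filter, mem_Icc, mem_Ioc]
    refine and_congr (by omega) ?_
    rw [Int.modEq_comm, Int.modEq_iff_dvd]
  have hp0 : (0 : ℝ) < p := by exact_mod_cast hp
  have hX1 : (1 : ℝ) ≤ X := by exact_mod_cast (by omega : 1 ≤ X)
  have hpX' : (p : ℝ) ≤ 2 * X := by exact_mod_cast hpX
  have h2 := Int.Ioc_filter_modEq_card (-(X : ℤ) - 1) X (r := (p : ℤ)) (by exact_mod_cast hp) r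
  rw [h1]
  have h3 : (((Ioc (-(X : ℤ) - 1) X).filter (fun m => m ≡ r [ZMOD (p : ℤ)])).card : ℝ) =
      (((Ioc (-(X : ℤ) - 1) X).filter (fun m => m ≡ r [ZMOD (p : ℤ)])).card : ℤ) := by
    push_cast
    rfl
  rw [h3, h2]
  have h5 : (0 : ℝ) ≤ 5 * X / p := by positivity
  push_cast
  refine max_le ?_ h5
  have e1 := Int.floor_le ((((X : ℤ) : ℚ) - (r : ℚ)) / ((p : ℤ) : ℚ))
  have e2 := Int.lt_floor_add_one ((((-(X : ℤ) - 1 : ℤ) : ℚ) - (r : ℚ)) / ((p : ℤ) : ℚ))
  have e1' : (⌊(((X : ℤ) : ℚ) - (r : ℚ)) / ((p : ℤ) : ℚ)⌋ : ℝ) ≤ ((X : ℝ) - r) / p := by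
    have := (Rat.cast_le (K := ℝ)).2 e1
    push_cast at this ⊢
    exact this
  have e2' : ((-(X : ℝ) - 1) - r) / p < (⌊(((-(X : ℤ) - 1 : ℤ) : ℚ) - (r : ℚ)) / ((p : ℤ) : ℚ)⌋ : ℝ) + 1 := by
    have := (Rat.cast_lt (K := ℝ)).2 e2
    push_cast at this ⊢
    exact this
  push_cast at e1' e2'
  have e3 : ((X : ℝ) - r) / p - ((-(X : ℝ) - 1) - r) / p + 1 ≤ 5 * X / p := by
    rw [← sub_div, div_add_one hp0.ne']
    gcongr
    linarith
  linarith

lemma choose4 {n : ℕ} (c c' : PR n) (hcc : c ≠ c') : ∃ x x' y y' : Fin n, x ≠ x' ∧ x ≠ y ∧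
    x ≠ y' ∧ y ≠ y' ∧ ∀ (a : Fin n → ℤ) (p : ℤ), (p ∣ df a c → p ∣ a x - a x') ∧
      (p ∣ df a c' → p ∣ a y - a y') := by
  obtain ⟨⟨i, j⟩, hij⟩ := c
  obtain ⟨⟨k, l⟩, hkl⟩ := c'
  simp only at hij hkl
  by_cases h : i ≠ k ∧ i ≠ l
  · exact ⟨i, j, k, l, hij.ne, h.1, h.2, hkl.ne, fun a p => ⟨fun h => h, fun h => h⟩⟩
  · have h1 : j ≠ k ∧ j ≠ l := by
      by_contra h2
      apply hcc
      have : i = k ∧ j = l := by
        rw [Fin.lt_def] at hij hkl
        simp only [ne_eq, Fin.ext_iff] at h h2 ⊢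
        omega
      rw [Subtype.mk.injEq, Prod.mk.injEq]
      exact this
    refine ⟨j, i, k, l, hij.ne', h1.1, h1.2, hkl.ne, fun a p => ⟨fun h => ?_, fun h => h⟩⟩
    unfold df at h
    simp only at h
    rw [← neg_sub]
    exact (dvd_neg).2 h

lemma card_two {n X p : ℕ} (hp : 0 < p) (hpX : p ≤ 2 * X) (c c' : PR n) (hcc : c ≠ c') :
    (((BoxJ n X).filter (fun a => (p : ℤ) ∣ df a c ∧ (p : ℤ) ∣ df a c')).card : ℝ) ≤
      25 * 3 ^ n * X ^ n * (1 / (p : ℝ) ^ 2) := by
  classical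
  obtain ⟨x, x', y, y', h1, h2, h3, h4, h5⟩ := choose4 c c' hcc
  set s := (BoxJ n X).filter (fun a => (p : ℤ) ∣ df a c ∧ (p : ℤ) ∣ df a c') with hs
  set t := s.image (fun a => Function.update a x 0) with ht
  set B := ⌊5 * (X : ℝ) / p⌋₊ with hB
  have hp0 : (0 : ℝ) < p := by exact_mod_cast hp
  have hX1 : (1 : ℝ) ≤ X := by exact_mod_cast (by omega : 1 ≤ X)
  have hBle : (B : ℝ) ≤ 5 * X / p := Nat.floor_le (by positivity)
  have hres : ∀ r : ℤ, ((Icc (-(X : ℤ)) X).filter (fun m => (p : ℤ) ∣ m - r)).card ≤ B :=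
    fun r => Nat.le_floor (card_res X p hp hpX r)
  have e1 : s.card ≤ B * t.card := by
    refine fiber s x B (fun b => (Icc (-(X : ℤ)) X).filter (fun m => (p : ℤ) ∣ m - b x'))
      (fun b => hres _) ?_
    intro a ha
    rw [hs, mem_filter, mem_box] at ha
    rw [mem_filter, Function.update_of_ne h1.symm]
    exact ⟨ha.1 _, (h5 a p).1 ha.2.1⟩
  have e2 : t.card ≤ B * (t.image (fun a => Function.update a y 0)).card := by
    refine fiber t y B (fun b => (Icc (-(X : ℤ)) X).filter (fun m => (p : ℤ) ∣ m - b y'))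
      (fun b => hres _) ?_
    intro b hb
    obtain ⟨a, ha, rfl⟩ := mem_image.1 hb
    rw [hs, mem_filter, mem_box] at ha
    rw [mem_filter, Function.update_of_ne h4.symm, Function.update_of_ne h2.symm,
      Function.update_of_ne h3.symm]
    exact ⟨ha.1 _, (h5 a p).2 ha.2.2⟩
  have e3 : (t.image (fun a => Function.update a y 0)).card ≤ (2 * X + 1) ^ (n - 2) := by
    have h := card_pi (X := X) ({x, y} : Finset (Fin n))
    rw [card_pair h2] at h
    rw [← h]
    refine card_le_card fun b hb => ?_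
    obtain ⟨b', hb', rfl⟩ := mem_image.1 hb
    obtain ⟨a, ha, rfl⟩ := mem_image.1 hb'
    rw [hs, mem_filter, mem_box] at ha
    rw [Fintype.mem_piFinset]
    intro j
    by_cases hj : j = y
    · subst hj
      simp
    · by_cases hj' : j = x
      · subst hj'
        simp [h2]
      · rw [if_neg (by simp [hj, hj']), Function.update_of_ne hj, Function.update_of_ne hj']
        exact ha.1 j
  have hn2 : 2 ≤ n := by
    have := card_le_univ ({x, y} : Finset (Fin n))
    rw [card_pair h2, Fintype.card_fin] at this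
    exact this
  have e4 : (s.card : ℝ) ≤ B * (B * ((2 * X + 1 : ℕ) : ℝ) ^ (n - 2)) := by
    have := e1.trans (Nat.mul_le_mul_left B (e2.trans (Nat.mul_le_mul_left B e3)))
    exact_mod_cast this
  have e5 : ((2 * X + 1 : ℕ) : ℝ) ≤ 3 * X := by
    push_cast
    linarith
  calc (s.card : ℝ) ≤ B * (B * ((2 * X + 1 : ℕ) : ℝ) ^ (n - 2)) := e4
    _ ≤ (5 * X / p) * ((5 * X / p) * (3 * X) ^ (n - 2)) := by gcongr
    _ = 25 * 3 ^ (n - 2) * X ^ n * (1 / (p : ℝ) ^ 2) := by
      obtain ⟨k, rfl⟩ := Nat.exists_eq_add_of_le hn2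
      rw [show 2 + k - 2 = k by omega, mul_pow, pow_add]
      field_simp
      norm_num
    _ ≤ 25 * 3 ^ n * X ^ n * (1 / (p : ℝ) ^ 2) := by
      gcongr
      · norm_num
      · omega

lemma sum_sq (W N : ℕ) (hW : 1 ≤ W) : ∑ g ∈ Ioc W N, 1 / (g : ℝ) ^ 2 ≤ 1 / (W : ℝ) := by
  have h7 : ∀ n : ℕ, W ≤ n → ∑ g ∈ Ioc W n, 1 / (g : ℝ) ^ 2 ≤ 1 / (W : ℝ) - 1 / (n : ℝ) := by
    intro n hn
    induction n, hn using Nat.le_induction with
    | base => simp
    | succ n hn ih =>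
      rw [← insert_Ioc_right_eq_Ioc_add_one (by omega), sum_insert (by simp)]
      have hn0 : (0 : ℝ) < n := by exact_mod_cast (by omega : 0 < n)
      have : 1 / ((n + 1 : ℕ) : ℝ) ^ 2 ≤ 1 / (n : ℝ) - 1 / ((n + 1 : ℕ) : ℝ) := by
        push_cast
        rw [div_sub_div _ _ hn0.ne' (by positivity), div_le_div_iff₀ (by positivity) (by positivity)]
        nlinarith
      linarith
  rcases le_or_gt W N with h | h
  · refine (h7 N h).trans ?_
    have : (0 : ℝ) ≤ 1 / N := by positivity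
    linarith
  · rw [Ioc_eq_empty_of_le h.le, sum_empty]
    positivity

section
variable {J : Type} [Fintype J]

lemma prod_gt {t : J → ℝ} (ht : ∀ j, 0 < t j) {δ L : ℝ} (hL : 0 < L)
    (hδ : δ * ∑ j, |Real.log (t j)| < Real.log (∏ j, t j)) (n : J → ℕ)
    (hn : ∀ j, |(n j : ℝ) - L| ≤ δ * L) : 1 < ∏ j, t j ^ n j := by
  have h0 : 0 < ∏ j, t j ^ n j := prod_pos fun j _ => pow_pos (ht j) _
  rw [← Real.log_pos_iff h0.le, Real.log_prod (fun j _ => (pow_pos (ht j) _).ne')]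
  simp only [Real.log_pow]
  have h1 : ∑ j, (n j : ℝ) * Real.log (t j) = L * Real.log (∏ j, t j) +
      ∑ j, ((n j : ℝ) - L) * Real.log (t j) := by
    rw [Real.log_prod (fun j _ => (ht j).ne'), mul_sum, ← sum_add_distrib]
    exact sum_congr rfl fun j _ => by ring
  have h2 : |∑ j, ((n j : ℝ) - L) * Real.log (t j)| ≤ δ * L * ∑ j, |Real.log (t j)| := by
    refine (abs_sum_le_sum_abs _ _).trans ?_
    rw [mul_sum]
    refine sum_le_sum fun j _ => ?_
    rw [abs_mul]
    exact mul_le_mul_of_nonneg_right (hn j) (abs_nonneg _)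
  rw [h1]
  have h3 := (abs_le.1 h2).1
  have h4 : L * (δ * ∑ j, |Real.log (t j)|) < L * Real.log (∏ j, t j) :=
    mul_lt_mul_of_pos_left hδ hL
  linarith

lemma exists_delta (T : Finset (J → ℝ)) (hT : ∀ t ∈ T, 1 < ∏ j, t j) :
    ∃ δ : ℝ, 0 < δ ∧ ∀ t ∈ T, δ * ∑ j, |Real.log (t j)| < Real.log (∏ j, t j) := by
  have h : ∀ᶠ δ : ℝ in nhdsWithin 0 (Set.Ioi 0), ∀ t ∈ T,
      δ * ∑ j, |Real.log (t j)| < Real.log (∏ j, t j) := by
    rw [Filter.eventually_all_finset]
    intro t ht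
    have h1 : Tendsto (fun δ : ℝ => δ * ∑ j, |Real.log (t j)|) (nhdsWithin 0 (Set.Ioi 0))
        (nhds (0 * ∑ j, |Real.log (t j)|)) :=
      (tendsto_id.mul_const _).mono_left nhdsWithin_le_nhds
    rw [zero_mul] at h1
    exact h1.eventually_lt_const (Real.log_pos (hT t ht))
  have h2 : ∀ᶠ δ : ℝ in nhdsWithin 0 (Set.Ioi 0), 0 < δ := self_mem_nhdsWithin
  obtain ⟨δ, h3, h4⟩ := (h2.and h).exists
  exact ⟨δ, h3, h4⟩

end

/-- the number of the prime factors of the differences is normal: the weight is one -/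
lemma rho_eq {n X : ℕ} {T : Finset (PR n → ℝ)} (hT1 : ∀ t ∈ T, ∀ j, 0 < t j) {δ : ℝ}
    (hδT : ∀ t ∈ T, δ * ∑ j, |Real.log (t j)| < Real.log (∏ j, t j))
    (hL : 0 < Tur.L (2 * X)) {a : Fin n → ℤ} (ha : a ∈ BoxJ n X)
    (h : ∀ c : PR n, (df a c).natAbs ∉ insert 0 (Tur.S (2 * X) δ)) : rho T (omJ a) = 1 := by
  classical
  refine le_antisymm (rho_le_one _ _) (not_lt.1 fun hlt => ?_)
  obtain ⟨t, ht, hlt⟩ := rho_lt_one hlt
  refine absurd hlt (not_lt.2 (le_of_lt (prod_gt (hT1 t ht) hL (hδT t ht) _ ?_)))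
  intro c
  have h1 := h c
  rw [mem_insert, not_or] at h1
  unfold Tur.S at h1
  rw [mem_filter, mem_Ioc, not_and, not_lt] at h1
  rw [mem_box] at ha
  have h2 := ha c.1.1
  have h3 := ha c.1.2
  rw [mem_Icc] at h2 h3
  refine h1.2 ⟨Nat.pos_of_ne_zero h1.1, ?_⟩
  unfold df
  omega

end BadAux

/-- **JG-BAD** -/
theorem badj : S_BADJ := by
  classical
  intro n z T hn hT1 hT2 ε hε
  obtain ⟨δ, hδ, hδT⟩ := BadAux.exists_delta T hT2
  set m := Fintype.card (PR n) with hm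
  set ε' : ℝ := ε / (4 * (m + 1) * 3 ^ n) with hε'
  have hε'0 : 0 < ε' := by positivity
  obtain ⟨W, hW⟩ := exists_nat_gt (50 * 3 ^ n * ((m : ℝ) + 1) ^ 2 / ε)
  have hW0 : (0 : ℝ) < W := lt_trans (by positivity) hW
  have hW1 : 1 ≤ W := by exact_mod_cast hW0
  obtain ⟨K, hK⟩ := exists_nat_gt (1 / ε')
  obtain ⟨M0, hM0⟩ := ((Tur.small δ hδ ε' hε'0).and
    (Tur.L_tendsto.eventually_gt_atTop 0)).exists_forall_of_atTop
  refine ⟨M0 + 1 + K + (W.factorial) ^ 16, fun X hX => ?_⟩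
  obtain ⟨h1, h2⟩ := hM0 (2 * X) (by omega)
  set S := insert 0 (Tur.S (2 * X) δ) with hS
  set U1 := univ.biUnion (fun c : PR n => (BoxJ n X).filter (fun a => (df a c).natAbs ∈ S)) with hU1
  set I2 := (univ ×ˢ univ).filter (fun cc : PR n × PR n => cc.1 ≠ cc.2) with hI2
  set U2 := I2.biUnion (fun cc => (Ioc W (2 * X)).biUnion
    (fun p => (BoxJ n X).filter (fun a => (p : ℤ) ∣ df a cc.1 ∧ (p : ℤ) ∣ df a cc.2))) with hU2
  have hsub : (BoxJ n X).filter (fun a => ¬ (Function.Injective a ∧ (∏ p ∈ clJ z a, p) ^ 16 ≤ X ∧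
      rho T (omJ a) = 1)) ⊆ U1 ∪ U2 := by
    intro a ha
    rw [mem_filter] at ha
    obtain ⟨hb, hbad⟩ := ha
    by_contra hcon
    apply hbad
    rw [mem_union, not_or] at hcon
    obtain ⟨c1, c2⟩ := hcon
    have c1' : ∀ c : PR n, (df a c).natAbs ∉ S := by
      intro c hc
      exact c1 (mem_biUnion.2 ⟨c, mem_univ _, mem_filter.2 ⟨hb, hc⟩⟩)
    have hne : ∀ c : PR n, df a c ≠ 0 := by
      intro c h0
      apply c1' c
      rw [h0, Int.natAbs_zero, hS]
      exact mem_insert_self _ _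
    refine ⟨?_, ?_, BadAux.rho_eq hT1 hδT h2 hb c1'⟩
    · intro i j hij
      by_contra hne'
      rcases lt_or_gt_of_ne hne' with hlt | hlt
      · exact hne ⟨(i, j), hlt⟩ (sub_eq_zero.2 hij)
      · exact hne ⟨(j, i), hlt⟩ (sub_eq_zero.2 hij.symm)
    · have hle : ∏ p ∈ clJ z a, p ≤ W.factorial := by
        rw [← prod_Ico_id_eq_factorial]
        refine prod_le_prod_of_subset_of_one_le' ?_ ?_
        · intro p hp
          unfold clJ at hp
          rw [mem_filter] at hp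
          obtain ⟨hp1, hp2, c, c', hcc, hd, hd'⟩ := hp
          have hpp := Nat.prime_of_mem_primeFactors hp1
          rw [mem_Ico]
          refine ⟨hpp.one_lt.le, ?_⟩
          by_contra hpW
          apply c2
          rw [hU2, mem_biUnion]
          refine ⟨(c, c'), ?_, ?_⟩
          · rw [hI2, mem_filter]
            exact ⟨by simp, hcc⟩
          · rw [mem_biUnion]
            refine ⟨p, ?_, mem_filter.2 ⟨hb, hd, hd'⟩⟩
            rw [mem_Ioc]
            refine ⟨by omega, ?_⟩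
            have hle1 : p ≤ (df a c).natAbs :=
              Nat.le_of_dvd (Int.natAbs_pos.2 (hne c)) (Int.natCast_dvd.1 hd)
            refine hle1.trans ?_
            rw [BadAux.mem_box] at hb
            have h2 := hb c.1.1
            have h3 := hb c.1.2
            rw [mem_Icc] at h2 h3
            unfold df
            omega
        · intro p hp _
          exact (mem_Ico.1 hp).1
      refine (Nat.pow_le_pow_left hle 16).trans ?_
      omega
  have hX1 : (1 : ℝ) ≤ X := by exact_mod_cast (by omega : 1 ≤ X)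
  have hSc : (S.card : ℝ) ≤ 3 * ε' * X := by
    have e1 : S.card ≤ (Tur.S (2 * X) δ).card + 1 := card_insert_le _ _
    have e2 : (1 : ℝ) ≤ ε' * X := by
      have : (K : ℝ) ≤ X := by exact_mod_cast (by omega : K ≤ X)
      rw [div_lt_iff₀ hε'0] at hK
      nlinarith
    have e3 : (S.card : ℝ) ≤ (Tur.S (2 * X) δ).card + 1 := by exact_mod_cast e1
    push_cast at h1
    linarith
  have k1 : (U1.card : ℝ) ≤ ε / 2 * X ^ n := by
    have e1 : U1.card ≤ ∑ c : PR n, 2 * S.card * (2 * X + 1) ^ (n - 1) :=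
      card_biUnion_le.trans (sum_le_sum fun c _ => BadAux.card_one S c)
    rw [sum_const, smul_eq_mul, card_univ, ← hm] at e1
    have e2 : (U1.card : ℝ) ≤ m * (2 * S.card * (2 * X + 1) ^ (n - 1)) := by exact_mod_cast e1
    calc (U1.card : ℝ) ≤ (m : ℝ) * (2 * S.card * (2 * X + 1) ^ (n - 1)) := e2
      _ ≤ (m + 1) * (2 * (3 * ε' * X) * (3 * X) ^ (n - 1)) := by
        gcongr
        · linarith
        · linarith
      _ = ε / 2 * X ^ n := by
        obtain ⟨k, rfl⟩ := Nat.exists_eq_add_of_le (by omega : 1 ≤ n)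
        rw [show 1 + k - 1 = k by omega, mul_pow, pow_add, hε', pow_add]
        field_simp
        ring
  have k2 : (U2.card : ℝ) ≤ ε / 2 * X ^ n := by
    refine (Nat.cast_le.2 card_biUnion_le).trans ?_
    rw [Nat.cast_sum]
    have e1 : ∀ cc ∈ I2, (((Ioc W (2 * X)).biUnion (fun p => (BoxJ n X).filter
        (fun a => (p : ℤ) ∣ df a cc.1 ∧ (p : ℤ) ∣ df a cc.2))).card : ℝ) ≤
        25 * 3 ^ n * X ^ n * (1 / W) := by
      intro cc hcc
      refine (Nat.cast_le.2 card_biUnion_le).trans ?_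
      rw [Nat.cast_sum]
      refine (sum_le_sum (g := fun p : ℕ => 25 * 3 ^ n * (X : ℝ) ^ n * (1 / (p : ℝ) ^ 2))
        fun p hp => ?_).trans ?_
      · rw [mem_Ioc] at hp
        exact BadAux.card_two (by omega) hp.2 _ _ (mem_filter.1 hcc).2
      · rw [← mul_sum]
        exact mul_le_mul_of_nonneg_left (BadAux.sum_sq W _ hW1) (by positivity)
    refine (sum_le_card_nsmul _ _ _ e1).trans ?_
    rw [nsmul_eq_mul]
    have e2 : (I2.card : ℝ) ≤ ((m : ℝ) + 1) ^ 2 := by
      have e3 : I2.card ≤ m * m := by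
        refine (card_filter_le _ _).trans ?_
        rw [card_product, card_univ, ← hm]
      have e4 : (I2.card : ℝ) ≤ m * m := by exact_mod_cast e3
      nlinarith [Nat.cast_nonneg (α := ℝ) m]
    have e5 : 50 * 3 ^ n * ((m : ℝ) + 1) ^ 2 < W * ε := by rwa [div_lt_iff₀ hε] at hW
    calc (I2.card : ℝ) * (25 * 3 ^ n * X ^ n * (1 / W))
        ≤ ((m : ℝ) + 1) ^ 2 * (25 * 3 ^ n * X ^ n * (1 / W)) := by gcongr
      _ = (50 * 3 ^ n * ((m : ℝ) + 1) ^ 2) * (X ^ n / (2 * W)) := by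
        field_simp
        ring
      _ ≤ (W * ε) * (X ^ n / (2 * W)) := by gcongr
      _ = ε / 2 * X ^ n := by
        field_simp
  have hfin : (((BoxJ n X).filter (fun a => ¬ (Function.Injective a ∧ (∏ p ∈ clJ z a, p) ^ 16 ≤ X ∧
      rho T (omJ a) = 1))).card : ℝ) ≤ U1.card + U2.card := by
    exact_mod_cast (card_le_card hsub).trans (card_union_le _ _)
  linarith

end Pool.Agent.TH344.JG
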