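import Pool.Agent.TH344.JG.Stm
import Pool.Agent.TH344.DT.Cmb

/-!
Project JG, JG-CMB: the unlinked sets for a graph of classes (generalises
`Pool/Agent/TH344/DT/Cmb.lean`).
-/

set_option autoImplicit false
set_option linter.unusedSectionVars false
set_option linter.unusedVariables false

namespace Pool.Agent.TH344.JG

open Finset Pool.Agent.W262.RK Pool.Agent.W307.RT Pool.Agent.W307.FK Pool.Agent.TH344.DT

namespace CmbV

variable {V : Type} [Fintype V] [DecidableEq V]

theorem dtp_eq {k : ℕ} (x y : Fin k → Bool) : dtp x y = decide (dt k x y % 2 = 1) := rfl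

theorem orthoV {ad : V → V → Bool} {k : ℕ} {P : (Fin k → Bool) → (Fin k → Bool) → Bool}
    (hsym : ∀ c c', ad c c' = ad c' c) (i i' : IV V k P) (hc : ad i.1.1 i'.1.1 = true)
    (h : LV ad i i' = LV ad i' i) : CmbX.hh k i.1.2 i'.1.2 = 1 := by
  unfold CmbX.hh
  rw [CmbX.chi_eq, CmbX.chi_eq, ← pow_add]
  unfold LV at h
  rw [hsym i'.1.1 i.1.1, hc, Bool.true_and, Bool.true_and, dtp_eq, dtp_eq] at h
  have h2 : (dt k i.1.2.1 i'.1.2.2 % 2 = 1) ↔ (dt k i'.1.2.1 i.1.2.2 % 2 = 1) := by
    simpa using h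
  apply Even.neg_one_pow
  rw [Nat.even_iff]
  omega

/-- the number of the indices of a class -/
def uV {k : ℕ} {P : (Fin k → Bool) → (Fin k → Bool) → Bool} (U : Finset (IV V k P)) (c : V) : ℕ :=
  (U.filter (fun i => i.1.1 = c)).card

theorem card_imgV {k : ℕ} {P : (Fin k → Bool) → (Fin k → Bool) → Bool} (A : Finset (IV V k P))
    (c : V) (h : ∀ i ∈ A, i.1.1 = c) : (A.image (fun i => i.1.2)).card = A.card := by
  apply Finset.card_image_of_injOn
  intro i hi j hj hij
  apply Subtype.ext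
  exact Prod.ext ((h i hi).trans (h j hj).symm) hij

theorem pair_leV {ad : V → V → Bool} {k : ℕ} {P : (Fin k → Bool) → (Fin k → Bool) → Bool}
    (hsym : ∀ c c', ad c c' = ad c' c) (A B : Finset (IV V k P)) (c c' : V)
    (hcc : ad c c' = true) (hA : ∀ i ∈ A, i.1.1 = c) (hB : ∀ i ∈ B, i.1.1 = c')
    (h : ∀ i ∈ A, ∀ j ∈ B, LV ad i j = LV ad j i) : A.card * B.card ≤ 4 ^ k := by
  rw [← card_imgV A c hA, ← card_imgV B c' hB]
  apply CmbX.lindsey
  intro a ha b hb
  obtain ⟨i, hi, rfl⟩ := Finset.mem_image.1 ha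
  obtain ⟨j, hj, rfl⟩ := Finset.mem_image.1 hb
  exact orthoV hsym i j (by rw [hA i hi, hB j hj]; exact hcc) (h i hi j hj)

theorem uV_le {ad : V → V → Bool} {k : ℕ} {P : (Fin k → Bool) → (Fin k → Bool) → Bool}
    (hsym : ∀ c c', ad c c' = ad c' c) (U : Finset (IV V k P))
    (hU : ∀ i ∈ U, ∀ j ∈ U, LV ad i j = LV ad j i)
    (c c' : V) (hcc : ad c c' = true) : uV U c * uV U c' ≤ 4 ^ k :=
  pair_leV hsym _ _ c c' hcc (fun _ hi => (Finset.mem_filter.1 hi).2)
    (fun _ hi => (Finset.mem_filter.1 hi).2)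
    (fun i hi j hj => hU i (Finset.mem_filter.1 hi).1 j (Finset.mem_filter.1 hj).1)

theorem sum_clsV {k : ℕ} {P : (Fin k → Bool) → (Fin k → Bool) → Bool} (U : Finset (IV V k P))
    (t : V → ℝ) : ∑ i ∈ U, 1 / 2 ^ k * t i.1.1 = ∑ c, (uV U c : ℝ) / 2 ^ k * t c := by
  rw [← Finset.sum_fiberwise U (fun i => i.1.1)]
  apply Finset.sum_congr rfl
  intro c _
  have h1 : ∀ i ∈ U.filter (fun i => i.1.1 = c), (1 / 2 ^ k : ℝ) * t i.1.1 = 1 / 2 ^ k * t c := by
    intro i hi
    rw [(Finset.mem_filter.1 hi).2]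
  rw [Finset.sum_congr rfl h1, Finset.sum_const, nsmul_eq_mul]
  unfold uV
  ring

/-- the vector of a small unlinked set -/
theorem exists_tV [Nonempty V] (α : V → ℝ) (h0 : ∀ c, 0 ≤ α c) (h1 : ∏ c, α c < 1) :
    ∃ t : V → ℝ, (∀ j, 0 < t j) ∧ 1 < ∏ j, t j ∧ ∑ c, α c * t c < Fintype.card V := by
  have hcont : Continuous fun ε : ℝ => ∏ c, (α c + ε) :=
    continuous_finsetProd _ fun c _ => continuous_const.add continuous_id
  have hev : ∀ᶠ ε in nhdsWithin (0 : ℝ) (Set.Ioi 0), ∏ c, (α c + ε) < 1 := by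
    have h2 : Filter.Tendsto (fun ε : ℝ => ∏ c, (α c + ε)) (nhds 0) (nhds (∏ c, (α c + 0))) :=
      hcont.tendsto 0
    have h3 : ∏ c, (α c + 0) < 1 := by simpa using h1
    exact nhdsWithin_le_nhds (h2.eventually (gt_mem_nhds h3))
  obtain ⟨ε, hε1, hε2⟩ := (hev.and self_mem_nhdsWithin).exists
  have hε : 0 < ε := hε2
  have hpos : ∀ c, 0 < α c + ε := fun c => by linarith [h0 c]
  refine ⟨fun c => 1 / (α c + ε), fun c => by have := hpos c; positivity, ?_, ?_⟩
  · rw [Finset.prod_div_distrib, Finset.prod_const_one]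
    exact (one_lt_div (Finset.prod_pos fun c _ => hpos c)).2 hε1
  · have h4 : ∀ c ∈ (univ : Finset V), α c * (1 / (α c + ε)) < 1 := by
      intro c _
      rw [mul_one_div, div_lt_one (hpos c)]
      linarith
    have h5 := Finset.sum_lt_sum_of_nonempty (Finset.univ_nonempty (α := V)) h4
    simpa using h5

theorem exists_thetaV [Nonempty V] (t : V → ℝ) (h0 : ∀ j, 0 < t j) (h1 : 1 < ∏ j, t j) :
    ∃ θ : ℝ, 0 < θ ∧ ∑ c, t c ^ (-θ) < Fintype.card V := by
  set l : V → ℝ := fun c => Real.log (t c) with hl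
  have hS : 0 < ∑ c, l c := by
    rw [hl, ← Real.log_prod (fun c _ => (h0 c).ne')]
    exact Real.log_pos h1
  set S := ∑ c, l c with hSdef
  set Q := ∑ c, l c ^ 2 with hQ
  set R := ∑ c, |l c| with hR
  have hQ0 : 0 ≤ Q := Finset.sum_nonneg fun c _ => sq_nonneg _
  have hR0 : 0 ≤ R := Finset.sum_nonneg fun c _ => abs_nonneg _
  set θ := min (1 / (1 + R)) (S / (2 * (Q + 1))) with hθ
  have hθ0 : 0 < θ := lt_min (by positivity) (by positivity)
  refine ⟨θ, hθ0, ?_⟩
  have hθ1 : θ * (1 + R) ≤ 1 := by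
    have := min_le_left (1 / (1 + R)) (S / (2 * (Q + 1)))
    rw [← hθ, le_div_iff₀ (by positivity)] at this
    exact this
  have hθ2 : θ * (2 * (Q + 1)) ≤ S := by
    have := min_le_right (1 / (1 + R)) (S / (2 * (Q + 1)))
    rw [← hθ, le_div_iff₀ (by positivity)] at this
    exact this
  have hterm : ∀ c, t c ^ (-θ) ≤ 1 - θ * l c + θ ^ 2 * l c ^ 2 := by
    intro c
    have h2 : |l c| ≤ R := Finset.single_le_sum (f := fun c => |l c|) (fun c _ => abs_nonneg _)
      (mem_univ c)
    have h3 : |-(θ * l c)| ≤ 1 := by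
      rw [abs_neg, abs_mul, abs_of_pos hθ0]
      have : θ * |l c| ≤ θ * R := mul_le_mul_of_nonneg_left h2 hθ0.le
      linarith
    have h4 := Real.abs_exp_sub_one_sub_id_le h3
    have h5 := (abs_le.1 h4).2
    rw [Real.rpow_def_of_pos (h0 c)]
    have h6 : Real.log (t c) * -θ = -(θ * l c) := by rw [hl]; ring
    rw [h6]
    have h7 : (-(θ * l c)) ^ 2 = θ ^ 2 * l c ^ 2 := by ring
    linarith
  have hsum : ∑ c, t c ^ (-θ) ≤ (Fintype.card V : ℝ) - θ * S + θ ^ 2 * Q := by
    calc ∑ c, t c ^ (-θ) ≤ ∑ c : V, (1 - θ * l c + θ ^ 2 * l c ^ 2) :=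
          Finset.sum_le_sum fun c _ => hterm c
      _ = (Fintype.card V : ℝ) - θ * S + θ ^ 2 * Q := by
        rw [Finset.sum_add_distrib, Finset.sum_sub_distrib, ← Finset.mul_sum, ← Finset.mul_sum,
          ← hSdef, ← hQ]
        simp
  have h8 : θ * (θ * Q) < θ * S := by
    apply mul_lt_mul_of_pos_left _ hθ0
    nlinarith
  nlinarith

/-- the product over the ordered adjacent pairs -/
theorem prod_pairs {ad : V → V → Bool} {D : ℕ} (hsym : ∀ c c', ad c c' = ad c' c)
    (hD : ∀ c, (univ.filter (fun c' => ad c c' = true)).card = D) (u : V → ℕ) :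
    ∏ p ∈ univ.filter (fun p : V × V => ad p.1 p.2 = true), (u p.1 * u p.2) =
      (∏ c, u c) ^ (2 * D) := by
  have h1 : ∏ p ∈ univ.filter (fun p : V × V => ad p.1 p.2 = true), u p.1 = (∏ c, u c) ^ D := by
    rw [Finset.prod_filter, Fintype.prod_prod_type, ← Finset.prod_pow]
    apply Finset.prod_congr rfl
    intro c _
    have h3 : ∀ x : V, (if ad (c, x).1 (c, x).2 = true then u (c, x).1 else 1) =
        if ad c x = true then u c else 1 := fun x => rfl
    rw [Finset.prod_congr rfl fun x _ => h3 x, ← Finset.prod_filter, Finset.prod_const, hD c]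
  have h2 : ∏ p ∈ univ.filter (fun p : V × V => ad p.1 p.2 = true), u p.2 = (∏ c, u c) ^ D := by
    rw [Finset.prod_filter, Fintype.prod_prod_type_right, ← Finset.prod_pow]
    apply Finset.prod_congr rfl
    intro c _
    have h3 : ∀ x : V, (if ad (x, c).1 (x, c).2 = true then u (x, c).2 else 1) =
        if ad c x = true then u c else 1 := by
      intro x
      rw [hsym c x]
    rw [Finset.prod_congr rfl fun x _ => h3 x, ← Finset.prod_filter, Finset.prod_const, hD c]
  rw [Finset.prod_mul_distrib, h1, h2, ← pow_add]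
  congr 1
  ring

theorem card_pairs {ad : V → V → Bool} {D : ℕ}
    (hD : ∀ c, (univ.filter (fun c' => ad c c' = true)).card = D) :
    (univ.filter (fun p : V × V => ad p.1 p.2 = true)).card = Fintype.card V * D := by
  rw [Finset.card_filter, Fintype.sum_prod_type]
  have h1 : ∀ c : V, ∑ c' : V, (if ad (c, c').1 (c, c').2 = true then 1 else 0) = D := by
    intro c
    rw [← Finset.card_filter]
    exact hD c
  rw [Finset.sum_congr rfl fun c _ => h1 c]
  simp

theorem numV {ad : V → V → Bool} {D m : ℕ} (hD1 : 1 ≤ D) (hsym : ∀ c c', ad c c' = ad c' c)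
    (hD : ∀ c, (univ.filter (fun c' => ad c c' = true)).card = D)
    (htri : ∀ c, ∃ c' c'', ad c c' = true ∧ ad c c'' = true ∧ ad c' c'' = true)
    (hm : 0 < m) (u : V → ℕ) (hu : ∀ c c', ad c c' = true → u c * u c' ≤ m * m)
    (hne : ∃ c, u c ≠ m) : ∏ c, u c < m ^ Fintype.card V := by
  by_contra h
  push Not at h
  have hpos : ∀ c, 0 < u c := by
    have h1 : ∏ c, u c ≠ 0 := by
      have : 0 < m ^ Fintype.card V := pow_pos hm _
      omega
    intro c
    exact Nat.pos_of_ne_zero (Finset.prod_ne_zero_iff.1 h1 c (mem_univ c))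
  have heq : ∀ c c', ad c c' = true → u c * u c' = m * m := by
    by_contra hcon
    push Not at hcon
    obtain ⟨c, c', hcc, hlt⟩ := hcon
    have h2 : ∏ p ∈ univ.filter (fun p : V × V => ad p.1 p.2 = true), (u p.1 * u p.2) <
        ∏ p ∈ univ.filter (fun p : V × V => ad p.1 p.2 = true), (m * m) := by
      apply Finset.prod_lt_prod
      · intro p _
        exact Nat.mul_pos (hpos _) (hpos _)
      · intro p hp
        exact hu p.1 p.2 (Finset.mem_filter.1 hp).2
      · exact ⟨(c, c'), Finset.mem_filter.2 ⟨mem_univ _, hcc⟩,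
          lt_of_le_of_ne (hu c c' hcc) hlt⟩
    rw [prod_pairs hsym hD u, Finset.prod_const, card_pairs hD] at h2
    have h3 : (m ^ Fintype.card V) ^ (2 * D) ≤ (∏ c, u c) ^ (2 * D) := Nat.pow_le_pow_left h _
    have h4 : (m * m) ^ (Fintype.card V * D) = (m ^ Fintype.card V) ^ (2 * D) := by
      rw [← pow_two, ← pow_mul, ← pow_mul]
      congr 1
      ring
    rw [h4] at h2
    omega
  obtain ⟨c, hc⟩ := hne
  obtain ⟨c', c'', h1, h2, h3⟩ := htri c
  have e1 := heq c c' h1
  have e2 := heq c c'' h2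
  have e3 := heq c' c'' h3
  have e4 : u c' = u c'' := by
    have : u c * u c' = u c * u c'' := e1.trans e2.symm
    exact Nat.eq_of_mul_eq_mul_left (hpos c) this
  rw [← e4] at e3
  have e5 : u c' = m := Nat.mul_self_inj.1 e3
  rw [e5] at e1
  exact hc (Nat.eq_of_mul_eq_mul_right hm e1)

end CmbV

open CmbV

theorem cmbv : S_CMBV := by
  classical
  intro V _ _ _ ad D k P _ hD1 hirr hsym hD htri
  have h4 : (4 : ℕ) ^ k = 2 ^ k * 2 ^ k := by rw [← mul_pow]; norm_num
  have hM : (0 : ℝ) < 2 ^ k := by positivity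
  have hMn : 0 < 2 ^ k := by positivity
  -- the products of the classes
  have hprod : ∀ U : Finset (IV V k P), (∀ i ∈ U, ∀ j ∈ U, LV ad i j = LV ad j i) →
      (∃ c, uV U c ≠ 2 ^ k) → ∏ c, ((uV U c : ℝ) / 2 ^ k) < 1 := by
    intro U hU hne
    have key := numV hD1 hsym hD htri hMn (uV U) (fun c c' hcc => by
      rw [← h4]
      exact uV_le hsym U hU c c' hcc) hne
    rw [Finset.prod_div_distrib, Finset.prod_const, Finset.card_univ, div_lt_one (by positivity)]
    exact_mod_cast key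
  have hex : ∀ U : Finset (IV V k P), ∃ t : V → ℝ, (∀ j, 0 < t j) ∧ 1 < ∏ j, t j ∧
      ((∀ i ∈ U, ∀ j ∈ U, LV ad i j = LV ad j i) → (∃ c, uV U c ≠ 2 ^ k) →
        ∑ i ∈ U, 1 / 2 ^ k * t i.1.1 < Fintype.card V) := by
    intro U
    by_cases h : (∀ i ∈ U, ∀ j ∈ U, LV ad i j = LV ad j i) ∧ ∃ c, uV U c ≠ 2 ^ k
    · obtain ⟨t, ht1, ht2, ht3⟩ := exists_tV (fun c => (uV U c : ℝ) / 2 ^ k)
        (fun c => by positivity) (hprod U h.1 h.2)
      refine ⟨t, ht1, ht2, fun _ _ => ?_⟩
      rw [sum_clsV]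
      exact ht3
    · refine ⟨fun _ => 2, fun _ => by norm_num, ?_, fun h1 h2 => ?_⟩
      · rw [Finset.prod_const, Finset.card_univ]
        exact one_lt_pow₀ (by norm_num) Fintype.card_ne_zero
      · exact absurd ⟨h1, h2⟩ h
  choose t ht1 ht2 ht3 using hex
  refine ⟨Finset.univ.image t, ?_, ?_, ?_⟩
  · intro s hs j
    obtain ⟨U, _, rfl⟩ := Finset.mem_image.1 hs
    exact ht1 U j
  · intro s hs
    obtain ⟨U, _, rfl⟩ := Finset.mem_image.1 hs
    exact ht2 U
  · intro U hU
    by_cases hne : ∃ c, uV U c ≠ 2 ^ k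
    · left
      exact ⟨t U, Finset.mem_image_of_mem t (mem_univ U), ht3 U hU hne⟩
    · right
      push Not at hne
      have hcls : ∀ s : V → ℝ, ∑ i ∈ U, 1 / 2 ^ k * s i.1.1 = ∑ c, s c := by
        intro s
        rw [sum_clsV]
        apply Finset.sum_congr rfl
        intro c _
        rw [hne c]
        push_cast
        rw [div_self hM.ne', one_mul]
      refine ⟨?_, ?_, ?_⟩
      · have h5 := hcls (fun _ => 1)
        simp only [mul_one] at h5
        rw [h5]
        simp
      · intro s hs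
        obtain ⟨W, _, rfl⟩ := Finset.mem_image.1 hs
        obtain ⟨θ, hθ, hlt⟩ := exists_thetaV (t W) (ht1 W) (ht2 W)
        refine ⟨θ, hθ, ?_⟩
        rw [hcls (fun c => t W c ^ (-θ))]
        exact hlt
      · intro j hj
        by_contra hcon
        push Not at hcon
        obtain ⟨c', -, hc', -, -⟩ := htri j.1.1
        have h6 := pair_leV hsym (insert j (U.filter (fun i => i.1.1 = j.1.1)))
          (U.filter (fun i => i.1.1 = c')) j.1.1 c' hc' (by
            intro i hi
            rcases Finset.mem_insert.1 hi with rfl | hi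
            · rfl
            · exact (Finset.mem_filter.1 hi).2) (fun i hi => (Finset.mem_filter.1 hi).2) (by
            intro i hi i' hi'
            rcases Finset.mem_insert.1 hi with rfl | hi
            · exact (hcon i' (Finset.mem_filter.1 hi').1).symm
            · exact hU i (Finset.mem_filter.1 hi).1 i' (Finset.mem_filter.1 hi').1)
        rw [Finset.card_insert_of_notMem (by
          intro h7
          exact hj (Finset.mem_filter.1 h7).1)] at h6
        have e1 : (U.filter (fun i => i.1.1 = j.1.1)).card = 2 ^ k := hne j.1.1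
        have e2 : (U.filter (fun i => i.1.1 = c')).card = 2 ^ k := hne c'
        rw [e1, e2, h4] at h6
        nlinarith

end Pool.Agent.TH344.JG
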