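import Mathlib
import Pool.Agent.TH344.JG.Stm
import Pool.Agent.W262.RK.NT1

/-! Project JG: the number of the points of the box with given small prime factors of the
differences and given signs. -/

set_option autoImplicit false

namespace Pool.Agent.TH344.JG

open Finset Pool.Agent.W262.RK Pool.Agent.W307.RT Pool.Agent.TH344.DT

namespace CntAux

/-! ### Sets of residue vectors -/

lemma fiber {n : ℕ} (s : Finset (Fin n → ℤ)) (i : Fin n) (B : ℕ) (F : (Fin n → ℤ) → Finset ℤ)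
    (hF : ∀ b, (F b).card ≤ B) (hs : ∀ a ∈ s, a i ∈ F (Function.update a i 0)) :
    s.card ≤ B * (s.image (fun a => Function.update a i 0)).card := by
  classical
  refine card_le_mul_card_image_of_maps_to (fun a ha => mem_image_of_mem _ ha) B ?_
  intro b _
  refine le_trans ?_ (hF b)
  refine card_le_card_of_injOn (fun a => a i) ?_ ?_
  · intro a ha
    simp only [coe_filter, Set.mem_ofPred_eq] at ha
    have := hs a ha.1
    rw [ha.2] at this
    exact this
  · intro a ha a' ha' h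
    simp only [coe_filter, Set.mem_ofPred_eq] at ha ha'
    simp only at h
    have h1 : a = Function.update (Function.update a i 0) i (a i) := by simp
    have h2 : a' = Function.update (Function.update a' i 0) i (a' i) := by simp
    rw [h1, h2, ha.2, ha'.2, h]

/-- residue vectors that vanish on `D` -/
lemma card_zero {n m : ℕ} (D : Finset (Fin n)) (s : Finset (Fin n → ℤ))
    (h : ∀ b ∈ s, ∀ j, j ∉ D → b j ∈ Ico (0 : ℤ) m) (h0 : ∀ b ∈ s, ∀ j ∈ D, b j = 0) :
    s.card ≤ m ^ (n - D.card) := by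
  classical
  have h1 : s ⊆ Fintype.piFinset (fun j => if j ∈ D then ({0} : Finset ℤ) else Ico (0 : ℤ) m) := by
    intro b hb
    rw [Fintype.mem_piFinset]
    intro j
    by_cases hj : j ∈ D
    · rw [if_pos hj, mem_singleton]
      exact h0 b hb j hj
    · rw [if_neg hj]
      exact h b hb j hj
  refine (card_le_card h1).trans (le_of_eq ?_)
  rw [Fintype.card_piFinset]
  have h2 : ∀ j, (if j ∈ D then ({0} : Finset ℤ) else Ico (0 : ℤ) m).card =
      if j ∈ D then 1 else m := by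
    intro j
    split_ifs
    · simp
    · rw [Int.card_Ico]
      simp
  simp only [h2]
  rw [prod_ite, prod_const_one, one_mul, prod_const]
  congr 1
  rw [filter_not, filter_mem_eq_inter, univ_inter, ← compl_eq_univ_sdiff, card_compl,
    Fintype.card_fin]

lemma card_eq1 {n m : ℕ} (s : Finset (Fin n → ℤ)) (h : ∀ b ∈ s, ∀ j, b j ∈ Ico (0 : ℤ) m)
    (c : PR n) (hc : ∀ b ∈ s, b c.1.1 = b c.1.2) : s.card ≤ m ^ (n - 1) := by
  classical
  have hne : c.1.2 ≠ c.1.1 := c.2.ne'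
  refine (fiber s c.1.1 1 (fun b => {b c.1.2}) (fun b => by simp) ?_).trans ?_
  · intro a ha
    rw [mem_singleton, Function.update_of_ne hne]
    exact hc a ha
  · rw [one_mul]
    have h1 := card_zero (n := n) (m := m) {c.1.1} (s.image (fun a => Function.update a c.1.1 0)) ?_ ?_
    · rwa [card_singleton] at h1
    · intro b hb j hj
      obtain ⟨a, ha, rfl⟩ := mem_image.1 hb
      rw [mem_singleton] at hj
      rw [Function.update_of_ne hj]
      exact h a ha j
    · intro b hb j hj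
      obtain ⟨a, ha, rfl⟩ := mem_image.1 hb
      rw [mem_singleton] at hj
      rw [hj, Function.update_self]

lemma choose4 {n : ℕ} (c c' : PR n) (hcc : c ≠ c') : ∃ x x' y y' : Fin n, x ≠ x' ∧ x ≠ y ∧
    x ≠ y' ∧ y ≠ y' ∧ ∀ (a : Fin n → ℤ), (a c.1.1 = a c.1.2 → a x = a x') ∧
      (a c'.1.1 = a c'.1.2 → a y = a y') := by
  obtain ⟨⟨i, j⟩, hij⟩ := c
  obtain ⟨⟨k, l⟩, hkl⟩ := c'
  simp only at hij hkl
  by_cases h : i ≠ k ∧ i ≠ l
  · exact ⟨i, j, k, l, hij.ne, h.1, h.2, hkl.ne, fun a => ⟨fun h => h, fun h => h⟩⟩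
  · have h1 : j ≠ k ∧ j ≠ l := by
      by_contra h2
      apply hcc
      have : i = k ∧ j = l := by
        rw [Fin.lt_def] at hij hkl
        simp only [ne_eq, Fin.ext_iff] at h h2 ⊢
        omega
      rw [Subtype.mk.injEq, Prod.mk.injEq]
      exact this
    exact ⟨j, i, k, l, hij.ne', h1.1, h1.2, hkl.ne, fun a => ⟨fun h => h.symm, fun h => h⟩⟩

lemma card_eq2 {n m : ℕ} (s : Finset (Fin n → ℤ)) (h : ∀ b ∈ s, ∀ j, b j ∈ Ico (0 : ℤ) m)
    (c c' : PR n) (hcc : c ≠ c') (hc : ∀ b ∈ s, b c.1.1 = b c.1.2 ∧ b c'.1.1 = b c'.1.2) :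
    s.card ≤ m ^ (n - 2) := by
  classical
  obtain ⟨x, x', y, y', h1, h2, h3, h4, h5⟩ := choose4 c c' hcc
  set t := s.image (fun a => Function.update a x 0) with ht
  have e1 : s.card ≤ 1 * t.card := by
    refine fiber s x 1 (fun b => {b x'}) (fun b => by simp) ?_
    intro a ha
    rw [mem_singleton, Function.update_of_ne h1.symm]
    exact (h5 a).1 (hc a ha).1
  have e2 : t.card ≤ 1 * (t.image (fun a => Function.update a y 0)).card := by
    refine fiber t y 1 (fun b => {b y'}) (fun b => by simp) ?_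
    intro b hb
    obtain ⟨a, ha, rfl⟩ := mem_image.1 hb
    rw [mem_singleton, Function.update_of_ne h4.symm, Function.update_of_ne h2.symm,
      Function.update_of_ne h3.symm]
    exact (h5 a).2 (hc a ha).2
  have e3 : (t.image (fun a => Function.update a y 0)).card ≤ m ^ (n - 2) := by
    have h6 := card_zero (n := n) (m := m) {x, y} (t.image (fun a => Function.update a y 0)) ?_ ?_
    · rwa [card_pair h2] at h6
    · intro b hb j hj
      obtain ⟨b', hb', rfl⟩ := mem_image.1 hb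
      obtain ⟨a, ha, rfl⟩ := mem_image.1 hb'
      rw [mem_insert, mem_singleton, not_or] at hj
      rw [Function.update_of_ne hj.2, Function.update_of_ne hj.1]
      exact h a ha j
    · intro b hb j hj
      obtain ⟨b', hb', rfl⟩ := mem_image.1 hb
      obtain ⟨a, ha, rfl⟩ := mem_image.1 hb'
      rw [mem_insert, mem_singleton] at hj
      rcases hj with rfl | rfl
      · rw [Function.update_of_ne h2, Function.update_self]
      · rw [Function.update_self]
  omega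

/-- half of the residues -/
lemma half {p : ℕ} (hp : p.Prime) (hp2 : p ≠ 2) (ε : ℤ) (hε : ε = 1 ∨ ε = -1) :
    2 * ((range p).filter (fun a : ℕ => jacobiSym (a : ℤ) p = ε)).card ≤ p := by
  have : Fact p.Prime := ⟨hp⟩
  have h1 : ∑ a ∈ range p, jacobiSym (a : ℤ) p = 0 := by
    have h2 : ∑ a ∈ range p, jacobiSym (a : ℤ) p = ∑ a : ZMod p, quadraticChar (ZMod p) a := by
      refine sum_nbij' (fun a => (a : ZMod p)) ZMod.val (fun _ _ => mem_univ _)
        (fun a _ => mem_range.2 (ZMod.val_lt a)) (fun a ha => ZMod.val_cast_of_lt (mem_range.1 ha))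
        (fun a _ => ZMod.natCast_zmod_val a) ?_
      intro a _
      rw [← jacobiSym.legendreSym.to_jacobiSym]
      unfold legendreSym
      norm_cast
    rw [h2]
    apply quadraticChar_sum_zero
    rw [ZMod.ringChar_zmod_n]
    exact hp2
  have h3 : ∀ a ∈ range p, jacobiSym (a : ℤ) p =
      (if jacobiSym (a : ℤ) p = 1 then 1 else 0) - (if jacobiSym (a : ℤ) p = -1 then 1 else 0) := by
    intro a _
    rcases jacobiSym.trichotomy (a : ℤ) p with h | h | h <;> rw [h] <;> norm_num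
  rw [sum_congr rfl h3, sum_sub_distrib, sum_boole, sum_boole] at h1
  have h4 : ((range p).filter (fun a : ℕ => jacobiSym (a : ℤ) p = 1)).card +
      ((range p).filter (fun a : ℕ => jacobiSym (a : ℤ) p = -1)).card ≤ p := by
    rw [← card_union_of_disjoint]
    · refine (card_le_card (union_subset (filter_subset _ _) (filter_subset _ _))).trans ?_
      rw [card_range]
    · rw [disjoint_left]
      intro a ha hb
      rw [mem_filter] at ha hb
      rw [ha.2] at hb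
      exact absurd hb.2 (by norm_num)
  rcases hε with rfl | rfl <;> omega

lemma half_shift {p : ℕ} (hp : p.Prime) (hp2 : p ≠ 2) (ε : ℤ) (hε : ε = 1 ∨ ε = -1) (A B : ℤ) :
    ((Ico (0 : ℤ) p).filter (fun x => jacobiSym ((A - x) * B) p = ε)).card ≤ p / 2 := by
  classical
  have hp0 : (0 : ℤ) < p := by exact_mod_cast hp.pos
  have hmain : ∀ ρ : ℤ, (ρ = 1 ∨ ρ = -1) → jacobiSym B p = ρ →
      ((Ico (0 : ℤ) p).filter (fun x => jacobiSym ((A - x) * B) p = ε)).card ≤ p / 2 := by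
    intro ρ hρ hB
    have hερ : ε * ρ = 1 ∨ ε * ρ = -1 := by
      rcases hε with rfl | rfl <;> rcases hρ with rfl | rfl <;> simp
    have h1 := half hp hp2 (ε * ρ) hερ
    have h2 : ((Ico (0 : ℤ) p).filter (fun x => jacobiSym ((A - x) * B) p = ε)).card ≤
        ((range p).filter (fun a : ℕ => jacobiSym (a : ℤ) p = ε * ρ)).card := by
      refine card_le_card_of_injOn (fun x => ((A - x) % p).toNat) ?_ ?_
      · intro x hx
        rw [mem_coe, mem_filter] at hx
        rw [mem_coe, mem_filter, mem_range]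
        simp only
        have h3 := Int.emod_nonneg (A - x) hp0.ne'
        have h4 := Int.emod_lt_of_pos (A - x) hp0
        refine ⟨by omega, ?_⟩
        rw [Int.toNat_of_nonneg h3, ← jacobiSym.mod_left]
        have h5 := hx.2
        rw [jacobiSym.mul_left, hB] at h5
        rw [← h5]
        rcases hρ with rfl | rfl <;> ring
      · intro x hx x' hx' hxx
        rw [mem_coe, mem_filter, mem_Ico] at hx hx'
        simp only at hxx
        have h3 := Int.emod_nonneg (A - x) hp0.ne'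
        have h4 := Int.emod_nonneg (A - x') hp0.ne'
        have h5 : (A - x) % p = (A - x') % p := by omega
        have h6 : (p : ℤ) ∣ (A - x') - (A - x) := Int.ModEq.dvd h5
        have h9 := Int.eq_zero_of_abs_lt_dvd h6 (by rw [abs_lt]; omega)
        omega
    omega
  rcases jacobiSym.trichotomy B p with hB | hB | hB
  · rw [filter_eq_empty_iff.2, card_empty]
    · exact Nat.zero_le _
    · intro x _ h
      rw [jacobiSym.mul_left, hB, mul_zero] at h
      rcases hε with rfl | rfl <;> omega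
  · exact hmain 1 (Or.inl rfl) hB
  · exact hmain (-1) (Or.inr rfl) hB

lemma exists_third {n : ℕ} (hn : 3 ≤ n) (i j : Fin n) : ∃ l : Fin n, l ≠ i ∧ l ≠ j := by
  classical
  by_contra h
  push Not at h
  have h1 : (univ : Finset (Fin n)) ⊆ {i, j} := by
    intro l _
    rw [mem_insert, mem_singleton]
    by_cases hl : l = i
    · exact Or.inl hl
    · exact Or.inr (h l hl)
  have h2 := card_le_card h1
  rw [card_univ, Fintype.card_fin] at h2
  have h3 := card_le_two (a := i) (b := j)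
  omega

lemma card_sgn {n p : ℕ} (hp : p.Prime) (hp2 : p ≠ 2) (hn : 3 ≤ n) (s : Finset (Fin n → ℤ))
    (h : ∀ b ∈ s, ∀ j, b j ∈ Ico (0 : ℤ) p) (c : PR n) (hc : ∀ b ∈ s, b c.1.1 = b c.1.2)
    (ε : ℤ) (hε : ε = 1 ∨ ε = -1) (hs : ∀ b ∈ s, jacobiSym (sJ b c) p = ε) :
    2 * s.card ≤ p ^ (n - 1) := by
  classical
  obtain ⟨l0, hl1, hl2⟩ := exists_third hn c.1.1 c.1.2
  have hij : c.1.1 ≠ c.1.2 := c.2.ne
  set t := s.image (fun a => Function.update a c.1.2 0) with ht
  have e1 : s.card ≤ 1 * t.card := by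
    refine fiber s c.1.2 1 (fun b => {b c.1.1}) (fun b => by simp) ?_
    intro a ha
    rw [mem_singleton, Function.update_of_ne hij]
    exact (hc a ha).symm
  have e2 : t.card ≤ (p / 2) * (t.image (fun a => Function.update a l0 0)).card := by
    refine fiber t l0 (p / 2) (fun b => (Ico (0 : ℤ) p).filter (fun x =>
      jacobiSym ((b c.1.1 - x) * ∏ l ∈ (univ.filter (fun l => l ≠ c.1.1 ∧ l ≠ c.1.2)).erase l0,
        (b c.1.1 - b l)) p = ε)) (fun b => half_shift hp hp2 ε hε _ _) ?_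
    intro b hb
    obtain ⟨a, ha, rfl⟩ := mem_image.1 hb
    rw [mem_filter]
    refine ⟨?_, ?_⟩
    · rw [Function.update_of_ne hl2]
      exact h a ha l0
    · rw [← hs a ha]
      unfold sJ
      rw [← mul_prod_erase (univ.filter (fun l => l ≠ c.1.1 ∧ l ≠ c.1.2)) (fun l => a c.1.1 - a l)
        (mem_filter.2 ⟨mem_univ l0, hl1, hl2⟩)]
      congr 2
      · rw [Function.update_of_ne hl1.symm, Function.update_of_ne hij, Function.update_of_ne hl2]
      · refine prod_congr rfl fun l hl => ?_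
        rw [mem_erase, mem_filter] at hl
        rw [Function.update_of_ne hl1.symm, Function.update_of_ne hij,
          Function.update_of_ne hl.1, Function.update_of_ne hl.2.2.2]
  have e3 : (t.image (fun a => Function.update a l0 0)).card ≤ p ^ (n - 2) := by
    have h6 := card_zero (n := n) (m := p) {c.1.2, l0} (t.image (fun a => Function.update a l0 0))
      ?_ ?_
    · rwa [card_pair hl2.symm] at h6
    · intro b hb j hj
      obtain ⟨b', hb', rfl⟩ := mem_image.1 hb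
      obtain ⟨a, ha, rfl⟩ := mem_image.1 hb'
      rw [mem_insert, mem_singleton, not_or] at hj
      rw [Function.update_of_ne hj.2, Function.update_of_ne hj.1]
      exact h a ha j
    · intro b hb j hj
      obtain ⟨b', hb', rfl⟩ := mem_image.1 hb
      obtain ⟨a, ha, rfl⟩ := mem_image.1 hb'
      rw [mem_insert, mem_singleton] at hj
      rcases hj with rfl | rfl
      · rw [Function.update_of_ne hl2.symm, Function.update_self]
      · rw [Function.update_self]
  have e4 : t.card ≤ (p / 2) * p ^ (n - 2) := e2.trans (Nat.mul_le_mul_left _ e3)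
  have e5 : 2 * (p / 2) ≤ p := Nat.mul_div_le p 2
  have e6 : p * p ^ (n - 2) = p ^ (n - 1) := by
    rw [← pow_succ', show n - 2 + 1 = n - 1 by omega]
  calc 2 * s.card ≤ 2 * ((p / 2) * p ^ (n - 2)) := by omega
    _ = (2 * (p / 2)) * p ^ (n - 2) := by ring
    _ ≤ p * p ^ (n - 2) := Nat.mul_le_mul_right _ e5
    _ = p ^ (n - 1) := e6

/-! ### The differences -/

section
variable {n z : ℕ} {a : Fin n → ℤ}

lemma df_ne (ha : Function.Injective a) (c : PR n) : df a c ≠ 0 :=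
  sub_ne_zero.2 (ha.ne c.2.ne)

lemma mem_clJ (ha : Function.Injective a) {p : ℕ} : p ∈ clJ z a ↔ p.Prime ∧ z < p ∧
    ∃ c c' : PR n, c ≠ c' ∧ (p : ℤ) ∣ df a c ∧ (p : ℤ) ∣ df a c' := by
  unfold clJ
  rw [mem_filter]
  constructor
  · rintro ⟨h1, h2, h3⟩
    exact ⟨Nat.prime_of_mem_primeFactors h1, h2, h3⟩
  · rintro ⟨h1, h2, c, c', h3⟩
    refine ⟨?_, h2, c, c', h3⟩
    rw [Nat.mem_primeFactors]
    refine ⟨h1, (Int.natCast_dvd.1 h3.2.1).trans (dvd_prod_of_mem _ (mem_univ c)), ?_⟩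
    exact prod_ne_zero_iff.2 fun c _ => Int.natAbs_ne_zero.2 (df_ne ha c)

lemma prime_dvd_cl (ha : Function.Injective a) {p : ℕ} (hp : p.Prime) :
    p ∣ ∏ q ∈ clJ z a, q ↔ p ∈ clJ z a := by
  constructor
  · intro h
    obtain ⟨q, hq, hpq⟩ := (hp.prime.dvd_finsetProd_iff _).1 h
    rwa [(Nat.prime_dvd_prime_iff_eq hp ((mem_clJ ha).1 hq).1).1 hpq]
  · intro h
    exact dvd_prod_of_mem _ h

lemma fJ_dvd (ha : Function.Injective a) (c : PR n) : fJ z a c ∣ df a c := by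
  unfold fJ
  rw [Int.natCast_dvd]
  conv_rhs => rw [← Nat.prod_factorization_pow_eq_self (Int.natAbs_ne_zero.2 (df_ne ha c))]
  exact prod_dvd_prod_of_subset _ _ _ (filter_subset _ _)

lemma prime_dvd_fJ (ha : Function.Injective a) {p : ℕ} (hp : p.Prime) (c : PR n) :
    (p : ℤ) ∣ fJ z a c ↔ (p : ℤ) ∣ df a c ∧ p ∉ clJ z a := by
  constructor
  · intro h
    refine ⟨h.trans (fJ_dvd ha c), ?_⟩
    unfold fJ at h
    have h' := Int.natCast_dvd_natCast.1 h
    obtain ⟨q, hq, hpq⟩ := (hp.prime.dvd_finsetProd_iff _).1 h'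
    rw [mem_filter] at hq
    have h1 := hp.dvd_of_dvd_pow hpq
    rw [(Nat.prime_dvd_prime_iff_eq hp (Nat.prime_of_mem_primeFactors hq.1)).1 h1]
    exact hq.2
  · rintro ⟨h1, h2⟩
    unfold fJ
    rw [Int.natCast_dvd_natCast]
    have h3 : p ∈ (df a c).natAbs.primeFactors.filter (fun p => p ∉ clJ z a) := by
      rw [mem_filter, Nat.mem_primeFactors]
      exact ⟨⟨hp, Int.natCast_dvd.1 h1, Int.natAbs_ne_zero.2 (df_ne ha c)⟩, h2⟩
    refine Dvd.dvd.trans ?_ (dvd_prod_of_mem _ h3)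
    exact dvd_pow_self _ (hp.factorization_pos_of_dvd (Int.natAbs_ne_zero.2 (df_ne ha c))
      (Int.natCast_dvd.1 h1)).ne'

/-- a prime outside of `clJ` divides at most one difference -/
lemma unique_df (ha : Function.Injective a) {p : ℕ} (hp : p.Prime) (hz : z < p) {c c' : PR n}
    (h : (p : ℤ) ∣ df a c) (hcl : p ∉ clJ z a) (h' : (p : ℤ) ∣ df a c') : c' = c := by
  by_contra hne
  exact hcl ((mem_clJ ha).2 ⟨hp, hz, c', c, hne, h', h⟩)

lemma exists_pair (i l : Fin n) (h : i ≠ l) : ∃ c : PR n,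
    ((c.1.1 = i ∧ c.1.2 = l) ∨ (c.1.1 = l ∧ c.1.2 = i)) ∧
      ∀ x : ℤ, x ∣ a i - a l → x ∣ df a c := by
  rcases lt_or_gt_of_ne h with h | h
  · exact ⟨⟨(i, l), h⟩, Or.inl ⟨rfl, rfl⟩, fun x hx => hx⟩
  · refine ⟨⟨(l, i), h⟩, Or.inr ⟨rfl, rfl⟩, fun x hx => ?_⟩
    unfold df
    rw [← neg_sub]
    exact (dvd_neg).2 hx

lemma not_dvd_sJ (ha : Function.Injective a) {p : ℕ} (hp : p.Prime) (hz : z < p) {c : PR n}
    (h : (p : ℤ) ∣ df a c) (hcl : p ∉ clJ z a) : ¬ (p : ℤ) ∣ sJ a c := by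
  intro hd
  unfold sJ at hd
  obtain ⟨l, hl, hpl⟩ := ((Nat.prime_iff_prime_int.1 hp).dvd_finsetProd_iff _).1 hd
  rw [mem_filter] at hl
  obtain ⟨c', hc', hdv⟩ := exists_pair (a := a) c.1.1 l (fun h => hl.2.1 h.symm)
  have h1 := unique_df ha hp hz h hcl (hdv _ hpl)
  subst h1
  rcases hc' with h2 | h2
  · exact hl.2.2 h2.2.symm
  · exact hl.2.1 h2.1.symm

lemma jac_pm {p : ℕ} (hp : p.Prime) {x : ℤ} (hx : ¬ (p : ℤ) ∣ x) :
    jacobiSym x p = 1 ∨ jacobiSym x p = -1 := by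
  apply jacobiSym.eq_one_or_neg_one
  rw [← Int.isCoprime_iff_gcd_eq_one]
  exact IsCoprime.symm ((Prime.coprime_iff_not_dvd (Nat.prime_iff_prime_int.1 hp)).2 hx)

/-- the sign -/
lemma sign_eq (ha : Function.Injective a) {p m : ℕ} (hp : p.Prime) (hz : z < p) {c : PR n}
    (h : (p : ℤ) ∣ df a c) (hcl : p ∉ clJ z a) (hm : p ∈ m.primeFactors) :
    jacobiSym (sJ a c) p = if p ∈ sgJ a m then -1 else 1 := by
  have h1 := jac_pm hp (not_dvd_sJ ha hp hz h hcl)
  by_cases h2 : jacobiSym (sJ a c) p = -1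
  · rw [if_pos, h2]
    unfold sgJ
    rw [mem_filter]
    exact ⟨hm, c, h, h2⟩
  · rw [if_neg]
    · exact h1.resolve_right h2
    · intro h3
      unfold sgJ at h3
      rw [mem_filter] at h3
      obtain ⟨-, c', h4, h5⟩ := h3
      rw [unique_df ha hp hz h hcl h4] at h5
      exact h2 h5

end

lemma dvd_S1 {n z y : ℕ} {f : PR n → ℤ} {j : PR n} {p : ℕ} (hp : p.Prime) :
    p ∣ S1 z y f j ↔ p ∈ PS z y ∧ (p : ℤ) ∣ f j ∧ ¬ (p : ℤ) ^ 2 ∣ f j := by
  unfold S1
  constructor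
  · intro h
    obtain ⟨q, hq, hpq⟩ := (hp.prime.dvd_finsetProd_iff _).1 h
    rw [mem_filter] at hq
    rw [(Nat.prime_dvd_prime_iff_eq hp (mem_PS.1 hq.1).2).1 hpq]
    exact hq
  · intro h
    exact dvd_prod_of_mem _ (mem_filter.2 h)

lemma dvd_S2 {n z y : ℕ} {f : PR n → ℤ} {j : PR n} {p : ℕ} (hp : p.Prime) :
    p ∣ S2 z y f j ↔ p ∈ PS z y ∧ (p : ℤ) ^ 2 ∣ f j := by
  unfold S2
  constructor
  · intro h
    obtain ⟨q, hq, hpq⟩ := (hp.prime.dvd_finsetProd_iff _).1 h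
    rw [mem_filter] at hq
    rw [(Nat.prime_dvd_prime_iff_eq hp (mem_PS.1 hq.1).2).1 hpq]
    exact hq
  · intro h
    exact dvd_prod_of_mem _ (mem_filter.2 h)

/-- the product over the primes of a product of pairwise coprime numbers -/
lemma prod_Tup {J : Type} [Fintype J] [DecidableEq J] {z y : ℕ} {d : J → ℕ}
    (hd : d ∈ Tup J z y) (f : ℕ → ℝ) :
    ∏ p ∈ (∏ j, d j).primeFactors, f p = ∏ j, ∏ p ∈ (d j).primeFactors, f p := by
  have h0 : ∀ j, d j ≠ 0 := fun j => (Tup_pos hd j).ne'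
  have h1 : (∏ j, d j).primeFactors = univ.biUnion (fun j => (d j).primeFactors) := by
    ext p
    rw [Nat.mem_primeFactors, mem_biUnion]
    constructor
    · rintro ⟨hp, h, -⟩
      obtain ⟨j, hj, hpj⟩ := (hp.prime.dvd_finsetProd_iff _).1 h
      exact ⟨j, hj, Nat.mem_primeFactors.2 ⟨hp, hpj, h0 j⟩⟩
    · rintro ⟨j, hj, hpj⟩
      rw [Nat.mem_primeFactors] at hpj
      exact ⟨hpj.1, hpj.2.1.trans (dvd_prod_of_mem _ hj), prod_ne_zero_iff.2 fun j _ => h0 j⟩
  rw [h1, prod_biUnion]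
  intro i _ j _ hij
  exact ((mem_Tup'.1 hd).2 i j hij).disjoint_primeFactors

lemma Tup_sqf {J : Type} [Fintype J] [DecidableEq J] {z y : ℕ} {d : J → ℕ}
    (hd : d ∈ Tup J z y) : Squarefree (∏ j, d j) :=
  (PP_squarefree z y).squarefree_of_dvd (Tup_prod_dvd hd)

lemma cast_prod_pf {m : ℕ} (hm : Squarefree m) : ∏ p ∈ m.primeFactors, (p : ℝ) = m := by
  rw [← Nat.cast_prod, Nat.prod_primeFactors_of_squarefree hm]

/-! ### Local counts -/

lemma emod_iff {x y m : ℤ} : m ∣ x - y ↔ x % m = y % m := by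
  rw [Int.emod_eq_emod_iff_emod_sub_eq_zero, Int.dvd_iff_emod_eq_zero]

lemma res_Ico {n m : ℕ} (hm : 0 < m) (T : Finset (Fin n → ℤ)) :
    ∀ b ∈ T.image (fun (a : Fin n → ℤ) i => a i % (m : ℤ)), ∀ j, b j ∈ Ico (0 : ℤ) m := by
  intro b hb j
  obtain ⟨a, ha, rfl⟩ := mem_image.1 hb
  have hm0 : (0 : ℤ) < m := by exact_mod_cast hm
  rw [mem_Ico]
  exact ⟨Int.emod_nonneg _ hm0.ne', Int.emod_lt_of_pos _ hm0⟩

lemma loc1 {n m : ℕ} (hm : 0 < m) (T : Finset (Fin n → ℤ)) (c : PR n)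
    (h : ∀ a ∈ T, (m : ℤ) ∣ df a c) :
    (T.image (fun (a : Fin n → ℤ) i => a i % (m : ℤ))).card ≤ m ^ (n - 1) := by
  refine card_eq1 _ (res_Ico hm T) c ?_
  intro b hb
  obtain ⟨a, ha, rfl⟩ := mem_image.1 hb
  exact emod_iff.1 (h a ha)

lemma loc2 {n m : ℕ} (hm : 0 < m) (T : Finset (Fin n → ℤ))
    (h : ∀ a ∈ T, ∃ c c' : PR n, c ≠ c' ∧ (m : ℤ) ∣ df a c ∧ (m : ℤ) ∣ df a c') :
    (T.image (fun (a : Fin n → ℤ) i => a i % (m : ℤ))).card ≤
      Fintype.card (PR n) ^ 2 * m ^ (n - 2) := by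
  classical
  set R := T.image (fun (a : Fin n → ℤ) i => a i % (m : ℤ)) with hR
  have hsub : R ⊆ ((univ ×ˢ univ).filter (fun cc : PR n × PR n => cc.1 ≠ cc.2)).biUnion
      (fun cc => R.filter (fun b => b cc.1.1.1 = b cc.1.1.2 ∧ b cc.2.1.1 = b cc.2.1.2)) := by
    intro b hb
    have hb' := hb
    rw [hR] at hb'
    obtain ⟨a, ha, rfl⟩ := mem_image.1 hb'
    obtain ⟨c, c', hcc, h1, h2⟩ := h a ha
    rw [mem_biUnion]
    refine ⟨(c, c'), ?_, ?_⟩
    · rw [mem_filter]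
      exact ⟨by simp, hcc⟩
    · rw [mem_filter]
      exact ⟨hb, emod_iff.1 h1, emod_iff.1 h2⟩
  refine (card_le_card hsub).trans ((card_biUnion_le_card_mul _ _ (m ^ (n - 2)) ?_).trans ?_)
  · intro cc hcc
    refine card_eq2 _ ?_ cc.1 cc.2 (mem_filter.1 hcc).2 ?_
    · intro b hb
      exact res_Ico hm T b (mem_filter.1 hb).1
    · intro b hb
      exact (mem_filter.1 hb).2
  · refine Nat.mul_le_mul_right _ ?_
    refine (card_filter_le _ _).trans ?_
    rw [card_product, card_univ, sq]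

lemma locS {n p : ℕ} (hp : p.Prime) (hp2 : p ≠ 2) (hn : 3 ≤ n) (T : Finset (Fin n → ℤ)) (c : PR n)
    (h : ∀ a ∈ T, (p : ℤ) ∣ df a c) (ε : ℤ) (hε : ε = 1 ∨ ε = -1)
    (hs : ∀ a ∈ T, jacobiSym (sJ a c) p = ε) :
    2 * (T.image (fun (a : Fin n → ℤ) i => a i % (p : ℤ))).card ≤ p ^ (n - 1) := by
  refine card_sgn hp hp2 hn _ (res_Ico hp.pos T) c ?_ ε hε ?_
  · intro b hb
    obtain ⟨a, ha, rfl⟩ := mem_image.1 hb
    exact emod_iff.1 (h a ha)
  · intro b hb
    obtain ⟨a, ha, rfl⟩ := mem_image.1 hb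
    rw [← hs a ha]
    apply jacobiSym.mod_left'
    have h1 : ((sJ (fun i => a i % (p : ℤ)) c : ℤ) : ZMod p) = ((sJ a c : ℤ) : ZMod p) := by
      unfold sJ
      rw [Int.cast_prod, Int.cast_prod]
      exact prod_congr rfl fun l _ => by simp
    exact (ZMod.intCast_eq_intCast_iff _ _ p).1 h1

/-- the exponent of `p` in the modulus -/
def ex (V p : ℕ) : ℕ := if p ∣ V then 2 else 1

lemma ex_ne (V p : ℕ) : ex V p ≠ 0 := by
  unfold ex
  split_ifs <;> norm_num

/-- the product over the primes of four coprime numbers -/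
lemma prod_four {A B C D : Finset ℕ} (h1 : Disjoint A B) (h2 : Disjoint A C) (h3 : Disjoint A D)
    (h4 : Disjoint B C) (h5 : Disjoint B D) (h6 : Disjoint C D) {M : Type} [CommMonoid M]
    (f : ℕ → M) : ∏ p ∈ A ∪ (B ∪ (C ∪ D)), f p =
      (∏ p ∈ A, f p) * ((∏ p ∈ B, f p) * ((∏ p ∈ C, f p) * ∏ p ∈ D, f p)) := by
  rw [prod_union, prod_union, prod_union h6]
  · rw [disjoint_union_right]
    exact ⟨h4, h5⟩
  · rw [disjoint_union_right, disjoint_union_right]
    exact ⟨h1, h2, h3⟩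

lemma core {n z : ℕ} (hn : 3 ≤ n) (hz : 2 * Fintype.card (PR n) + 2 ≤ z) {C : ℝ} {X y Y M : ℕ}
    (hC : 0 ≤ C) (hzy : z < y)
    (hline : ∀ (Q : ℕ) (r : Fin n → ℤ) (T' : Finset (Fin n → ℤ)), 1 ≤ Q → Q ^ 8 ≤ X →
      (∀ a ∈ T', a ∈ BoxJ n X ∧ Function.Injective a ∧ (∀ i, (Q : ℤ) ∣ a i - r i) ∧
        ∀ p ∈ PS z y, ¬ p ∣ Q → ∀ c, ¬ (p : ℤ) ∣ df a c) →
      (T'.card : ℝ) ≤ C * ((X : ℝ) / Q) ^ n * (∏ p ∈ Q.primeFactors.filter (fun p => p ∈ PS z y),
        (p : ℝ) / ((p : ℝ) - Fintype.card (PR n))) / (Real.log y) ^ (Fintype.card (PR n)))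
    (hMs : Squarefree M) (hMz : ∀ p, p.Prime → p ∣ M → z < p) (hMX : M ^ 16 ≤ X)
    {s v u : PR n → ℕ} (hs : s ∈ Tup (PR n) z y) (hv : v ∈ Tup (PR n) z y)
    (hu : u ∈ Tup (PR n) y Y) (hX : (∏ j, s j * v j * u j) ^ 32 ≤ X) {E : Finset ℕ}
    (T : Finset (Fin n → ℤ))
    (hT : ∀ a ∈ T, a ∈ BoxJ n X ∧ Function.Injective a ∧ ∏ p ∈ clJ z a, p = M ∧
      S1 z y (fJ z a) = s ∧ S2 z y (fJ z a) = v ∧ (∀ j, (u j : ℤ) ∣ fJ z a j) ∧
      sgJ a (∏ j, s j) = E) :
    (T.card : ℝ) ≤ C * ((2 * (Fintype.card (PR n) : ℝ) ^ 2 + 1) ^ M.primeFactors.card /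
        (M : ℝ) ^ 2) * X ^ n * (1 / 2) ^ (∏ j, s j).primeFactors.card *
        (∏ j, gw 1 (Fintype.card (PR n)) (s j)) *
        (∏ j, gw 1 (Fintype.card (PR n)) (v j) / v j) * (∏ j, 1 / (u j : ℝ)) /
        (Real.log y) ^ (Fintype.card (PR n)) := by
  classical
  set k := Fintype.card (PR n) with hk
  set S := ∏ j, s j with hS
  set V := ∏ j, v j with hV
  set U := ∏ j, u j with hU
  have hlog : 0 < Real.log y := Real.log_pos (by exact_mod_cast (by omega : 1 < y))
  have hlogk : 0 < (Real.log y) ^ k := pow_pos hlog _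
  have hSs : Squarefree S := Tup_sqf hs
  have hVs : Squarefree V := Tup_sqf hv
  have hUs : Squarefree U := Tup_sqf hu
  have hgs : ∀ j, 0 ≤ gw 1 k (s j) := fun j =>
    gw_nonneg (z := z) (y := y) zero_le_one (by omega)
      (Nat.mem_divisors.2 ⟨(mem_Tup'.1 hs).1 j, PP_ne_zero z y⟩)
  have hgv : ∀ j, 0 ≤ gw 1 k (v j) := fun j =>
    gw_nonneg (z := z) (y := y) zero_le_one (by omega)
      (Nat.mem_divisors.2 ⟨(mem_Tup'.1 hv).1 j, PP_ne_zero z y⟩)
  rcases T.eq_empty_or_nonempty with hTe | ⟨a0, ha0⟩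
  · rw [hTe, card_empty, Nat.cast_zero]
    have e1 : 0 ≤ ∏ j, gw 1 k (s j) := prod_nonneg fun j _ => hgs j
    have e2 : 0 ≤ ∏ j, gw 1 k (v j) / v j :=
      prod_nonneg fun j _ => div_nonneg (hgv j) (Nat.cast_nonneg _)
    positivity
  -- the primes of the three numbers
  have hpS : ∀ p, p.Prime → p ∣ S → ∃ j, p ∣ s j := by
    intro p hp h
    obtain ⟨j, -, hj⟩ := (hp.prime.dvd_finsetProd_iff _).1 h
    exact ⟨j, hj⟩
  have hpV : ∀ p, p.Prime → p ∣ V → ∃ j, p ∣ v j := by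
    intro p hp h
    obtain ⟨j, -, hj⟩ := (hp.prime.dvd_finsetProd_iff _).1 h
    exact ⟨j, hj⟩
  have hpU : ∀ p, p.Prime → p ∣ U → ∃ j, p ∣ u j := by
    intro p hp h
    obtain ⟨j, -, hj⟩ := (hp.prime.dvd_finsetProd_iff _).1 h
    exact ⟨j, hj⟩
  -- the facts
  have fM : ∀ a ∈ T, ∀ p, p.Prime → (p ∣ M ↔ p ∈ clJ z a) := by
    intro a ha p hp
    obtain ⟨-, h1, h2, -⟩ := hT a ha
    rw [← h2]
    exact prime_dvd_cl h1 hp
  have fS : ∀ a ∈ T, ∀ p, p.Prime → ∀ j, p ∣ s j → p ∈ PS z y ∧ (p : ℤ) ∣ fJ z a j ∧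
      ¬ (p : ℤ) ^ 2 ∣ fJ z a j := by
    intro a ha p hp j hj
    obtain ⟨-, -, -, h1, -⟩ := hT a ha
    rw [← h1] at hj
    exact (dvd_S1 hp).1 hj
  have fV : ∀ a ∈ T, ∀ p, p.Prime → ∀ j, p ∣ v j → p ∈ PS z y ∧ (p : ℤ) ^ 2 ∣ fJ z a j := by
    intro a ha p hp j hj
    obtain ⟨-, -, -, -, h1, -⟩ := hT a ha
    rw [← h1] at hj
    exact (dvd_S2 hp).1 hj
  have fU : ∀ a ∈ T, ∀ p, p.Prime → ∀ j, p ∣ u j → p ∈ PS y Y ∧ (p : ℤ) ∣ fJ z a j := by
    intro a ha p hp j hj
    obtain ⟨-, -, -, -, -, h1, -⟩ := hT a ha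
    exact ⟨(prime_dvd_PP hp).1 (hj.trans ((mem_Tup'.1 hu).1 j)),
      (Int.natCast_dvd_natCast.2 hj).trans (h1 j)⟩
  have sq1 : ∀ (p : ℕ) (x : ℤ), (p : ℤ) ^ 2 ∣ x → (p : ℤ) ∣ x := fun p x h =>
    (dvd_pow_self _ two_ne_zero).trans h
  -- disjointness
  have d1 : Disjoint M.primeFactors S.primeFactors := by
    rw [disjoint_left]
    intro p h1 h2
    rw [Nat.mem_primeFactors] at h1 h2
    obtain ⟨j, hj⟩ := hpS p h1.1 h2.2.1
    have h3 := (fM a0 ha0 p h1.1).1 h1.2.1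
    exact ((prime_dvd_fJ (hT a0 ha0).2.1 h1.1 j).1 (fS a0 ha0 p h1.1 j hj).2.1).2 h3
  have d2 : Disjoint M.primeFactors V.primeFactors := by
    rw [disjoint_left]
    intro p h1 h2
    rw [Nat.mem_primeFactors] at h1 h2
    obtain ⟨j, hj⟩ := hpV p h1.1 h2.2.1
    have h3 := (fM a0 ha0 p h1.1).1 h1.2.1
    exact ((prime_dvd_fJ (hT a0 ha0).2.1 h1.1 j).1 (sq1 _ _ (fV a0 ha0 p h1.1 j hj).2)).2 h3
  have d3 : Disjoint M.primeFactors U.primeFactors := by
    rw [disjoint_left]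
    intro p h1 h2
    rw [Nat.mem_primeFactors] at h1 h2
    obtain ⟨j, hj⟩ := hpU p h1.1 h2.2.1
    have h3 := (fM a0 ha0 p h1.1).1 h1.2.1
    exact ((prime_dvd_fJ (hT a0 ha0).2.1 h1.1 j).1 (fU a0 ha0 p h1.1 j hj).2).2 h3
  have d4 : Disjoint S.primeFactors V.primeFactors := by
    rw [disjoint_left]
    intro p h1 h2
    rw [Nat.mem_primeFactors] at h1 h2
    obtain ⟨j, hj⟩ := hpS p h1.1 h1.2.1
    obtain ⟨l, hl⟩ := hpV p h1.1 h2.2.1
    have h3 := fS a0 ha0 p h1.1 j hj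
    have h4 := fV a0 ha0 p h1.1 l hl
    have h5 := (prime_dvd_fJ (hT a0 ha0).2.1 h1.1 j).1 h3.2.1
    have h6 := (prime_dvd_fJ (hT a0 ha0).2.1 h1.1 l).1 (sq1 _ _ h4.2)
    have h7 := unique_df (hT a0 ha0).2.1 h1.1 (mem_PS.1 h3.1).1.1 h5.1 h5.2 h6.1
    subst h7
    exact h3.2.2 h4.2
  have d5 : Disjoint S.primeFactors U.primeFactors := by
    rw [disjoint_left]
    intro p h1 h2
    rw [Nat.mem_primeFactors] at h1 h2
    obtain ⟨j, hj⟩ := hpS p h1.1 h1.2.1
    obtain ⟨l, hl⟩ := hpU p h1.1 h2.2.1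
    have h3 := (mem_PS.1 (fS a0 ha0 p h1.1 j hj).1).1.2
    have h4 := (mem_PS.1 (fU a0 ha0 p h1.1 l hl).1).1.1
    omega
  have d6 : Disjoint V.primeFactors U.primeFactors := by
    rw [disjoint_left]
    intro p h1 h2
    rw [Nat.mem_primeFactors] at h1 h2
    obtain ⟨j, hj⟩ := hpV p h1.1 h1.2.1
    obtain ⟨l, hl⟩ := hpU p h1.1 h2.2.1
    have h3 := (mem_PS.1 (fV a0 ha0 p h1.1 j hj).1).1.2
    have h4 := (mem_PS.1 (fU a0 ha0 p h1.1 l hl).1).1.1
    omega
  set P := M.primeFactors ∪ (S.primeFactors ∪ (V.primeFactors ∪ U.primeFactors)) with hP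
  have hPp : ∀ p ∈ P, p.Prime := by
    intro p hp
    rw [hP, mem_union, mem_union, mem_union] at hp
    rcases hp with h | h | h | h <;> exact Nat.prime_of_mem_primeFactors h
  set Q := ∏ p ∈ P, p ^ ex V p with hQ
  have hprod := fun (M' : Type) (_ : CommMonoid M') (f : ℕ → M') =>
    prod_four d1 d2 d3 d4 d5 d6 f
  -- the value of `Q`
  have hQv : Q = M * (S * (V ^ 2 * U)) := by
    rw [hQ, hP, hprod]
    have h1 : ∀ B : ℕ, Squarefree B → Disjoint B.primeFactors V.primeFactors →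
        ∏ p ∈ B.primeFactors, p ^ ex V p = B := by
      intro B hB hd
      conv_rhs => rw [← Nat.prod_primeFactors_of_squarefree hB]
      refine prod_congr rfl fun p hp => ?_
      have : ¬ p ∣ V := fun h => disjoint_left.1 hd hp
        (Nat.mem_primeFactors.2 ⟨Nat.prime_of_mem_primeFactors hp, h, hVs.ne_zero⟩)
      unfold ex
      rw [if_neg this, pow_one]
    have h2 : ∏ p ∈ V.primeFactors, p ^ ex V p = V ^ 2 := by
      conv_rhs => rw [← Nat.prod_primeFactors_of_squarefree hVs]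
      rw [← prod_pow]
      refine prod_congr rfl fun p hp => ?_
      unfold ex
      rw [if_pos (Nat.dvd_of_mem_primeFactors hp)]
    rw [h1 M hMs d2, h1 S hSs d4, h2, h1 U hUs d6.symm]
  have hQ0 : Q ≠ 0 := by
    rw [hQ]
    exact prod_ne_zero_iff.2 fun p hp => pow_ne_zero _ (hPp p hp).ne_zero
  have hQ1 : 1 ≤ Q := Nat.one_le_iff_ne_zero.2 hQ0
  have hQpf : Q.primeFactors = P := by
    ext p
    rw [Nat.mem_primeFactors]
    constructor
    · rintro ⟨hp, h, -⟩
      obtain ⟨q, hq, hpq⟩ := (hp.prime.dvd_finsetProd_iff _).1 h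
      have := hp.dvd_of_dvd_pow hpq
      rwa [(Nat.prime_dvd_prime_iff_eq hp (hPp q hq)).1 this]
    · intro h
      exact ⟨hPp p h, (dvd_pow_self _ (ex_ne V p)).trans (dvd_prod_of_mem _ h), hQ0⟩
  have hQX : Q ^ 8 ≤ X := by
    have hS1 : 1 ≤ S := Nat.one_le_iff_ne_zero.2 hSs.ne_zero
    have hU1 : 1 ≤ U := Nat.one_le_iff_ne_zero.2 hUs.ne_zero
    have h1 : ∏ j, s j * v j * u j = S * V * U := by
      rw [prod_mul_distrib, prod_mul_distrib]
    rw [h1] at hX
    have h2 : Q ≤ M * (S * V * U) ^ 2 := by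
      rw [hQv]
      refine Nat.mul_le_mul_left _ ?_
      calc S * (V ^ 2 * U) ≤ S ^ 2 * (V ^ 2 * U ^ 2) := by
            refine Nat.mul_le_mul (Nat.le_self_pow two_ne_zero S)
              (Nat.mul_le_mul_left _ (Nat.le_self_pow two_ne_zero U))
        _ = (S * V * U) ^ 2 := by ring
    have h3 : (Q ^ 8) ^ 2 ≤ X ^ 2 := by
      calc (Q ^ 8) ^ 2 = Q ^ 16 := by ring
        _ ≤ (M * (S * V * U) ^ 2) ^ 16 := Nat.pow_le_pow_left h2 16
        _ = M ^ 16 * (S * V * U) ^ 32 := by ring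
        _ ≤ X * X := Nat.mul_le_mul hMX hX
        _ = X ^ 2 := by ring
    exact (Nat.pow_le_pow_iff_left two_ne_zero).1 h3
  -- the classes
  set W : ℕ → ℕ := fun p =>
    (T.image (fun (a : Fin n → ℤ) i => a i % ((p ^ ex V p : ℕ) : ℤ))).card with hW
  set B : ℝ := C * ((X : ℝ) / Q) ^ n * (∏ p ∈ Q.primeFactors.filter (fun p => p ∈ PS z y),
        (p : ℝ) / ((p : ℝ) - k)) / (Real.log y) ^ k with hB
  have hg0 : ∀ p, z < p → 0 ≤ (p : ℝ) / ((p : ℝ) - k) := by
    intro p hp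
    have h1 : (k : ℝ) < p := by exact_mod_cast (by omega : k < p)
    exact div_nonneg (Nat.cast_nonneg _) (by linarith)
  have hB0 : 0 ≤ B := by
    rw [hB]
    refine div_nonneg (mul_nonneg (by positivity) (prod_nonneg fun p hp => ?_)) hlogk.le
    exact hg0 p (mem_PS.1 (mem_filter.1 hp).2).1.1
  have hcount : T.card ≤ ⌊B⌋₊ * ∏ p ∈ P, W p := by
    set Φ : (Fin n → ℤ) → (∀ p ∈ P, Fin n → ℤ) := fun a p _ i => a i % ((p ^ ex V p : ℕ) : ℤ) with hΦ
    have h1 := card_le_mul_card_image_of_maps_to (f := Φ) (s := T)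
      (t := P.pi (fun p => T.image (fun (a : Fin n → ℤ) i => a i % ((p ^ ex V p : ℕ) : ℤ))))
      (fun a ha => mem_pi.2 fun p _ => mem_image_of_mem _ ha) ⌊B⌋₊ ?_
    · rwa [card_pi] at h1
    intro b _
    rcases (T.filter (fun a => Φ a = b)).eq_empty_or_nonempty with he | ⟨r, hr⟩
    · rw [he, card_empty]
      exact Nat.zero_le _
    apply Nat.le_floor
    refine hline Q r _ hQ1 hQX ?_
    intro a ha
    rw [mem_filter] at ha hr
    obtain ⟨h2, h3, h4, h5, h6, h7, h8⟩ := hT a ha.1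
    refine ⟨h2, h3, ?_, ?_⟩
    · intro i
      rw [hQ, Nat.cast_prod]
      refine Finset.prod_dvd_of_coprime ?_ ?_
      · intro p hp q hq hpq
        have h9 : Nat.Coprime (p ^ ex V p) (q ^ ex V q) :=
          Nat.Coprime.pow _ _ ((Nat.coprime_primes (hPp p hp) (hPp q hq)).2 hpq)
        exact Nat.isCoprime_iff_coprime.2 h9
      · intro p hp
        rw [emod_iff]
        have h9 : Φ a = Φ r := ha.2.trans hr.2.symm
        exact congrFun (congrFun (congrFun h9 p) hp) i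
    · intro p hp hpQ c hpc
      have hpp := (mem_PS.1 hp).2
      apply hpQ
      have h9 : p ∈ P := by
        rw [hP, mem_union, mem_union, mem_union]
        by_cases hcl : p ∈ clJ z a
        · left
          exact Nat.mem_primeFactors.2 ⟨hpp, (fM a ha.1 p hpp).2 hcl, hMs.ne_zero⟩
        · right
          have h10 : (p : ℤ) ∣ fJ z a c := (prime_dvd_fJ h3 hpp c).2 ⟨hpc, hcl⟩
          by_cases h11 : (p : ℤ) ^ 2 ∣ fJ z a c
          · right
            left
            refine Nat.mem_primeFactors.2 ⟨hpp, ?_, hVs.ne_zero⟩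
            have h12 : p ∣ v c := by
              rw [← h6]
              exact (dvd_S2 hpp).2 ⟨hp, h11⟩
            exact h12.trans (dvd_prod_of_mem _ (mem_univ c))
          · left
            refine Nat.mem_primeFactors.2 ⟨hpp, ?_, hSs.ne_zero⟩
            have h12 : p ∣ s c := by
              rw [← h5]
              exact (dvd_S1 hpp).2 ⟨hp, h10, h11⟩
            exact h12.trans (dvd_prod_of_mem _ (mem_univ c))
      rw [← hQpf] at h9
      exact Nat.dvd_of_mem_primeFactors h9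
  -- the local factors
  set g' : ℕ → ℝ := fun p => if p ∈ PS z y then (p : ℝ) / ((p : ℝ) - k) else 1 with hg'
  set R : ℕ → ℝ := fun p => if p ∣ M then (2 * (k : ℝ) ^ 2 + 1) / (p : ℝ) ^ 2 else
    if p ∣ S then (1 / 2) * (1 / ((p : ℝ) - k)) else
    if p ∣ V then 1 / ((p : ℝ) - k) / p else 1 / (p : ℝ) with hR
  have hz2 : ∀ p ∈ P, z < p := by
    intro p hp
    have hpp := hPp p hp
    rw [hP, mem_union, mem_union, mem_union] at hp
    rcases hp with h | h | h | h
    · exact hMz p hpp (Nat.dvd_of_mem_primeFactors h)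
    · obtain ⟨j, hj⟩ := hpS p hpp (Nat.dvd_of_mem_primeFactors h)
      exact (mem_PS.1 (fS a0 ha0 p hpp j hj).1).1.1
    · obtain ⟨j, hj⟩ := hpV p hpp (Nat.dvd_of_mem_primeFactors h)
      exact (mem_PS.1 (fV a0 ha0 p hpp j hj).1).1.1
    · obtain ⟨j, hj⟩ := hpU p hpp (Nat.dvd_of_mem_primeFactors h)
      have := (mem_PS.1 (fU a0 ha0 p hpp j hj).1).1.1
      omega
  have hloc : ∀ p ∈ P, (W p : ℝ) * g' p ≤ ((p ^ ex V p : ℕ) : ℝ) ^ n * R p := by
    intro p hp
    have hpp := hPp p hp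
    have hzp := hz2 p hp
    have hp0 : (0 : ℝ) < p := by exact_mod_cast hpp.pos
    have hpk : (2 : ℝ) * k < p := by exact_mod_cast (by omega : 2 * k < p)
    have hk0 : (0 : ℝ) ≤ k := Nat.cast_nonneg k
    have hpk0 : (0 : ℝ) < (p : ℝ) - k := by linarith
    have hn1 : ((p : ℝ)) ^ n = p ^ (n - 2) * p ^ 2 := by
      rw [← pow_add, show n - 2 + 2 = n by omega]
    have hn2 : ((p : ℝ)) ^ n = p ^ (n - 1) * p := by
      rw [← pow_succ, show n - 1 + 1 = n by omega]
    have hpV' : ∀ A : ℕ, Disjoint A.primeFactors V.primeFactors → p ∈ A.primeFactors →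
        ¬ p ∣ V := fun A hd hA h => disjoint_left.1 hd hA
        (Nat.mem_primeFactors.2 ⟨hpp, h, hVs.ne_zero⟩)
    rw [hP, mem_union, mem_union, mem_union] at hp
    rcases hp with h | h | h | h
    · -- `p ∣ M`
      have hpM := Nat.dvd_of_mem_primeFactors h
      have hex : p ^ ex V p = p := by
        unfold ex
        rw [if_neg (hpV' M d2 h), pow_one]
      have h1 : W p ≤ k ^ 2 * p ^ (n - 2) := by
        rw [hW]
        simp only [hex]
        refine loc2 hpp.pos T ?_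
        intro a ha
        obtain ⟨-, -, c, c', h2⟩ := (mem_clJ (hT a ha).2.1).1 ((fM a ha p hpp).1 hpM)
        exact ⟨c, c', h2⟩
      have h2 : (W p : ℝ) ≤ k ^ 2 * p ^ (n - 2) := by exact_mod_cast h1
      have h3 : g' p ≤ 2 := by
        rw [hg']
        simp only
        split_ifs
        · rw [div_le_iff₀ hpk0]
          linarith
        · norm_num
      have h4 : 0 ≤ g' p := by
        rw [hg']
        simp only
        split_ifs
        · exact hg0 p hzp
        · norm_num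
      rw [hex, hR]
      simp only [if_pos hpM]
      calc (W p : ℝ) * g' p ≤ (k ^ 2 * p ^ (n - 2)) * 2 := by gcongr
        _ ≤ (2 * (k : ℝ) ^ 2 + 1) * p ^ (n - 2) := by
          have : (0 : ℝ) ≤ p ^ (n - 2) := by positivity
          nlinarith
        _ = (p : ℝ) ^ n * ((2 * (k : ℝ) ^ 2 + 1) / (p : ℝ) ^ 2) := by
          rw [hn1]
          field_simp
    · -- `p ∣ S`
      have hpSd := Nat.dvd_of_mem_primeFactors h
      have hpM : ¬ p ∣ M := fun h' => disjoint_left.1 d1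
        (Nat.mem_primeFactors.2 ⟨hpp, h', hMs.ne_zero⟩) h
      obtain ⟨j, hj⟩ := hpS p hpp hpSd
      have hex : p ^ ex V p = p := by
        unfold ex
        rw [if_neg (hpV' S d4 h), pow_one]
      have hPS : p ∈ PS z y := (fS a0 ha0 p hpp j hj).1
      have h1 : 2 * W p ≤ p ^ (n - 1) := by
        rw [hW]
        simp only [hex]
        refine locS hpp (by omega) hn T j ?_ (if p ∈ E then -1 else 1) (by split_ifs <;> simp) ?_
        · intro a ha
          exact (fS a ha p hpp j hj).2.1.trans (fJ_dvd (hT a ha).2.1 j)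
        · intro a ha
          have h2 := (prime_dvd_fJ (hT a ha).2.1 hpp j).1 (fS a ha p hpp j hj).2.1
          have h3 := sign_eq (hT a ha).2.1 hpp hzp h2.1 h2.2 h
          rw [(hT a ha).2.2.2.2.2.2] at h3
          exact h3
      have h2 : 2 * (W p : ℝ) ≤ p ^ (n - 1) := by exact_mod_cast h1
      rw [hex, hR, hg']
      simp only [if_neg hpM, if_pos hpSd, if_pos hPS]
      calc (W p : ℝ) * ((p : ℝ) / ((p : ℝ) - k)) ≤ (p ^ (n - 1) / 2) * ((p : ℝ) / ((p : ℝ) - k)) := by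
            refine mul_le_mul_of_nonneg_right (by linarith) (hg0 p hzp)
        _ = (p : ℝ) ^ n * (1 / 2 * (1 / ((p : ℝ) - k))) := by
          rw [hn2]
          ring
    · -- `p ∣ V`
      have hpVd := Nat.dvd_of_mem_primeFactors h
      have hpM : ¬ p ∣ M := fun h' => disjoint_left.1 d2
        (Nat.mem_primeFactors.2 ⟨hpp, h', hMs.ne_zero⟩) h
      have hpSn : ¬ p ∣ S := fun h' => disjoint_left.1 d4
        (Nat.mem_primeFactors.2 ⟨hpp, h', hSs.ne_zero⟩) h
      obtain ⟨j, hj⟩ := hpV p hpp hpVd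
      have hex : p ^ ex V p = p ^ 2 := by
        unfold ex
        rw [if_pos hpVd]
      have hPS : p ∈ PS z y := (fV a0 ha0 p hpp j hj).1
      have h1 : W p ≤ (p ^ 2) ^ (n - 1) := by
        rw [hW]
        simp only [hex]
        refine loc1 (pow_pos hpp.pos 2) T j ?_
        intro a ha
        have h2 := (fV a ha p hpp j hj).2.trans (fJ_dvd (hT a ha).2.1 j)
        push_cast
        exact h2
      have h2 : (W p : ℝ) ≤ (p ^ 2) ^ (n - 1) := by exact_mod_cast h1
      rw [hex, hR, hg']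
      simp only [if_neg hpM, if_neg hpSn, if_pos hpVd, if_pos hPS]
      have hn3 : (((p ^ 2 : ℕ) : ℝ)) ^ n = ((p : ℝ) ^ 2) ^ (n - 1) * p ^ 2 := by
        push_cast
        rw [← pow_succ, show n - 1 + 1 = n by omega]
      calc (W p : ℝ) * ((p : ℝ) / ((p : ℝ) - k)) ≤
            ((p : ℝ) ^ 2) ^ (n - 1) * ((p : ℝ) / ((p : ℝ) - k)) :=
            mul_le_mul_of_nonneg_right h2 (hg0 p hzp)
        _ = (((p ^ 2 : ℕ) : ℝ)) ^ n * (1 / ((p : ℝ) - k) / p) := by
          rw [hn3]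
          field_simp
    · -- `p ∣ U`
      have hpUd := Nat.dvd_of_mem_primeFactors h
      have hpM : ¬ p ∣ M := fun h' => disjoint_left.1 d3
        (Nat.mem_primeFactors.2 ⟨hpp, h', hMs.ne_zero⟩) h
      have hpSn : ¬ p ∣ S := fun h' => disjoint_left.1 d5
        (Nat.mem_primeFactors.2 ⟨hpp, h', hSs.ne_zero⟩) h
      have hpVn : ¬ p ∣ V := fun h' => disjoint_left.1 d6
        (Nat.mem_primeFactors.2 ⟨hpp, h', hVs.ne_zero⟩) h
      obtain ⟨j, hj⟩ := hpU p hpp hpUd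
      have hex : p ^ ex V p = p := by
        unfold ex
        rw [if_neg hpVn, pow_one]
      have hPS : p ∉ PS z y := by
        intro h'
        have h1 := (mem_PS.1 h').1.2
        have h2 := (mem_PS.1 (fU a0 ha0 p hpp j hj).1).1.1
        omega
      have h1 : W p ≤ p ^ (n - 1) := by
        rw [hW]
        simp only [hex]
        refine loc1 hpp.pos T j ?_
        intro a ha
        exact (fU a ha p hpp j hj).2.trans (fJ_dvd (hT a ha).2.1 j)
      have h2 : (W p : ℝ) ≤ p ^ (n - 1) := by exact_mod_cast h1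
      rw [hex, hR, hg']
      simp only [if_neg hpM, if_neg hpSn, if_neg hpVn, if_neg hPS, mul_one]
      refine h2.trans (le_of_eq ?_)
      rw [hn2]
      field_simp
  -- the product of the local factors
  have hRprod : ∏ p ∈ P, R p = ((2 * (k : ℝ) ^ 2 + 1) ^ M.primeFactors.card / (M : ℝ) ^ 2) *
      (((1 / 2) ^ S.primeFactors.card * ∏ j, gw 1 k (s j)) *
        ((∏ j, gw 1 k (v j) / v j) * ∏ j, 1 / (u j : ℝ))) := by
    rw [hP, hprod]
    have e1 : ∏ p ∈ M.primeFactors, R p =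
        (2 * (k : ℝ) ^ 2 + 1) ^ M.primeFactors.card / (M : ℝ) ^ 2 := by
      have h1 : ∀ p ∈ M.primeFactors, R p = (2 * (k : ℝ) ^ 2 + 1) / (p : ℝ) ^ 2 := by
        intro p hp
        rw [hR]
        simp only [if_pos (Nat.dvd_of_mem_primeFactors hp)]
      rw [prod_congr rfl h1, prod_div_distrib, prod_const, prod_pow, cast_prod_pf hMs]
    have e2 : ∏ p ∈ S.primeFactors, R p =
        (1 / 2) ^ S.primeFactors.card * ∏ j, gw 1 k (s j) := by
      have h1 : ∀ p ∈ S.primeFactors, R p = (1 / 2) * (1 / ((p : ℝ) - k)) := by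
        intro p hp
        have hpM : ¬ p ∣ M := fun h' => disjoint_left.1 d1
          (Nat.mem_primeFactors.2 ⟨Nat.prime_of_mem_primeFactors hp, h', hMs.ne_zero⟩) hp
        rw [hR]
        simp only [if_neg hpM, if_pos (Nat.dvd_of_mem_primeFactors hp)]
      rw [prod_congr rfl h1, prod_mul_distrib, prod_const, hS, prod_Tup hs]
      rfl
    have e3 : ∏ p ∈ V.primeFactors, R p = ∏ j, gw 1 k (v j) / v j := by
      have h1 : ∀ p ∈ V.primeFactors, R p = 1 / ((p : ℝ) - k) / p := by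
        intro p hp
        have hpM : ¬ p ∣ M := fun h' => disjoint_left.1 d2
          (Nat.mem_primeFactors.2 ⟨Nat.prime_of_mem_primeFactors hp, h', hMs.ne_zero⟩) hp
        have hpS : ¬ p ∣ S := fun h' => disjoint_left.1 d4
          (Nat.mem_primeFactors.2 ⟨Nat.prime_of_mem_primeFactors hp, h', hSs.ne_zero⟩) hp
        rw [hR]
        simp only [if_neg hpM, if_neg hpS, if_pos (Nat.dvd_of_mem_primeFactors hp)]
      have e31 : ∏ p ∈ V.primeFactors, 1 / ((p : ℝ) - k) / p =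
          (∏ p ∈ V.primeFactors, 1 / ((p : ℝ) - k)) / V := by
        rw [prod_div_distrib, cast_prod_pf hVs]
      have e32 : ∏ j, gw 1 k (v j) / v j = (∏ j, gw 1 k (v j)) / V := by
        rw [prod_div_distrib, hV, Nat.cast_prod]
      rw [prod_congr rfl h1, e31, e32, hV, prod_Tup hv]
      rfl
    have e4 : ∏ p ∈ U.primeFactors, R p = ∏ j, 1 / (u j : ℝ) := by
      have h1 : ∀ p ∈ U.primeFactors, R p = 1 / (p : ℝ) := by
        intro p hp
        have hpM : ¬ p ∣ M := fun h' => disjoint_left.1 d3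
          (Nat.mem_primeFactors.2 ⟨Nat.prime_of_mem_primeFactors hp, h', hMs.ne_zero⟩) hp
        have hpS : ¬ p ∣ S := fun h' => disjoint_left.1 d5
          (Nat.mem_primeFactors.2 ⟨Nat.prime_of_mem_primeFactors hp, h', hSs.ne_zero⟩) hp
        have hpV : ¬ p ∣ V := fun h' => disjoint_left.1 d6
          (Nat.mem_primeFactors.2 ⟨Nat.prime_of_mem_primeFactors hp, h', hVs.ne_zero⟩) hp
        rw [hR]
        simp only [if_neg hpM, if_neg hpS, if_neg hpV]
      rw [prod_congr rfl h1, prod_div_distrib, cast_prod_pf hUs, prod_div_distrib,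
        prod_const_one, prod_const_one, hU, Nat.cast_prod]
    rw [e1, e2, e3, e4]
  -- conclusion
  have hQR : (0 : ℝ) < Q := by exact_mod_cast hQ1
  have hBe : B = C * ((X : ℝ) / Q) ^ n / (Real.log y) ^ k * ∏ p ∈ P, g' p := by
    rw [hB, hQpf, prod_filter]
    ring
  have h1 : (T.card : ℝ) ≤ B * ∏ p ∈ P, (W p : ℝ) := by
    calc (T.card : ℝ) ≤ ((⌊B⌋₊ * ∏ p ∈ P, W p : ℕ) : ℝ) := by exact_mod_cast hcount
      _ = (⌊B⌋₊ : ℝ) * ∏ p ∈ P, (W p : ℝ) := by push_cast; rfl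
      _ ≤ B * ∏ p ∈ P, (W p : ℝ) := by
        refine mul_le_mul_of_nonneg_right (Nat.floor_le hB0) (prod_nonneg fun p _ =>
          Nat.cast_nonneg _)
  have h2 : ∏ p ∈ P, ((W p : ℝ) * g' p) ≤ ∏ p ∈ P, (((p ^ ex V p : ℕ) : ℝ) ^ n * R p) := by
    refine prod_le_prod (fun p hp => ?_) hloc
    refine mul_nonneg (Nat.cast_nonneg _) ?_
    rw [hg']
    simp only
    split_ifs
    · exact hg0 p (hz2 p hp)
    · norm_num
  have h3 : ∏ p ∈ P, (((p ^ ex V p : ℕ) : ℝ) ^ n * R p) = (Q : ℝ) ^ n * ∏ p ∈ P, R p := by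
    rw [prod_mul_distrib, prod_pow, hQ, Nat.cast_prod]
  calc (T.card : ℝ) ≤ B * ∏ p ∈ P, (W p : ℝ) := h1
    _ = C * ((X : ℝ) / Q) ^ n / (Real.log y) ^ k * ∏ p ∈ P, ((W p : ℝ) * g' p) := by
      rw [hBe, prod_mul_distrib]
      ring
    _ ≤ C * ((X : ℝ) / Q) ^ n / (Real.log y) ^ k * ((Q : ℝ) ^ n * ∏ p ∈ P, R p) := by
      rw [← h3]
      exact mul_le_mul_of_nonneg_left h2 (by positivity)
    _ = _ := by
      rw [hRprod, div_pow]
      field_simp

end CntAux

/-- **JG-CNT** -/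
theorem cntj_of (h : S_LINE) : S_CNTJ := by
  intro n z hn hnz hz
  obtain ⟨C, K, y0, hC, hK, hL⟩ := h n z hn hnz hz
  refine ⟨C, 2 * (Fintype.card (PR n) : ℝ) ^ 2 + 1, K, y0, hC, ?_, hK, ?_⟩
  · have : (0 : ℝ) ≤ (Fintype.card (PR n) : ℝ) ^ 2 := by positivity
    linarith
  intro X y Y M hy0 hzy hyX hMs hMz hMX s hs v hv u hu hX E
  refine CntAux.core (E := E) hn hz hC hzy ?_ hMs hMz hMX hs hv hu hX _ (fun a ha => ?_)
  · intro Q r T' hQ1 hQ8 hT'
    refine le_trans (Nat.cast_le.2 (card_le_card fun a ha => ?_)) (hL X y Q r hy0 hzy hyX hQ1 hQ8)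
    rw [mem_filter]
    exact hT' a ha
  · rw [mem_filter] at ha
    exact ha

end Pool.Agent.TH344.JG
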