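import Mathlib
import Pool.Agent.TH344.JG.Stm

/-! Project JG: the moments over all the points of the box, statements of the parts. -/

set_option autoImplicit false

namespace Pool.Agent.TH344.JG

open Finset Pool.Agent.W262.RK Pool.Agent.W307.RT Pool.Agent.TH344.DT

/-- JG-EXT: the largest unlinked set. -/
def S_EXT : Prop := ∀ g k : ℕ, 1 ≤ g → 2 ^ k ≤ 4 * g → ∀ U : Finset (IV (PR (2 * g + 1)) k P0),
  (∀ i ∈ U, ∀ j ∈ U, LV adj i j = LV adj j i) → U.card ≤ 2 ^ k * Fintype.card (PR (2 * g + 1))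

open Classical in
/-- JG-CRU: the points with a large collision part contribute little to the moments. -/
def S_CRU : Prop := ∀ n k z : ℕ, 3 ≤ n → Odd n → ∃ C : ℝ, 0 ≤ C ∧ ∀ X : ℕ, 1 ≤ X →
  ∑ a ∈ (BoxJ n X).filter (fun a => Function.Injective a ∧ ¬ (∏ p ∈ clJ z a, p) ^ 16 ≤ X),
    ((SelJ a).ncard : ℝ) ^ k ≤ C * (X : ℝ) ^ n

end Pool.Agent.TH344.JG
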