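import Mathlib
import Pool.Agent.TH344.JG.Stm2

/-!
# Project JG: the points with a large collision part

`cru_of : S_SELJ → S_CRU`.
-/

set_option autoImplicit false

namespace Pool.Agent.TH344.JG

open Finset Pool.Agent.W262.RK Pool.Agent.W307.RT Pool.Agent.TH344.DT

namespace Cru

/-- `Q ^ ω(m) ≤ C m ^ δ` -/
lemma pow_omega (Q : ℝ) (hQ : 1 ≤ Q) (δ : ℝ) (hδ : 0 < δ) :
    ∃ C : ℝ, 0 ≤ C ∧ ∀ m : ℕ, 1 ≤ m → Q ^ m.primeFactors.card ≤ C * (m : ℝ) ^ δ := by
  obtain ⟨B, hB⟩ := exists_nat_ge (Q ^ (1 / δ))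
  have hQ0 : 0 ≤ Q := by linarith
  refine ⟨Q ^ B, by positivity, fun m hm => ?_⟩
  have hB' : ∀ p : ℕ, B ≤ p → Q ≤ (p : ℝ) ^ δ := by
    intro p hp
    have h1 : Q ^ (1 / δ) ≤ (p : ℝ) := hB.trans (by exact_mod_cast hp)
    calc Q = (Q ^ (1 / δ)) ^ δ := by
          rw [← Real.rpow_mul hQ0, one_div, inv_mul_cancel₀ hδ.ne', Real.rpow_one]
      _ ≤ _ := Real.rpow_le_rpow (by positivity) h1 hδ.le
  have hp1 : ∀ p ∈ m.primeFactors, (1 : ℝ) ≤ (p : ℝ) ^ δ := by
    intro p hp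
    have : (1 : ℝ) ≤ p := by exact_mod_cast (Nat.prime_of_mem_primeFactors hp).one_lt.le
    exact Real.one_le_rpow this hδ.le
  calc Q ^ m.primeFactors.card = ∏ p ∈ m.primeFactors, Q := by simp
    _ ≤ ∏ p ∈ m.primeFactors, ((if p < B then Q else 1) * (p : ℝ) ^ δ) := by
        refine Finset.prod_le_prod (fun _ _ => hQ0) fun p hp => ?_
        have h1 := hp1 p hp
        split_ifs with h
        · exact le_mul_of_one_le_right hQ0 h1
        · rw [one_mul]; exact hB' p (by omega)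
    _ = (∏ p ∈ m.primeFactors, (if p < B then Q else 1)) *
        ∏ p ∈ m.primeFactors, (p : ℝ) ^ δ := Finset.prod_mul_distrib
    _ ≤ Q ^ B * (m : ℝ) ^ δ := by
        refine mul_le_mul ?_ ?_ (Finset.prod_nonneg fun p _ => by positivity) (by positivity)
        · rw [Finset.prod_ite, Finset.prod_const, Finset.prod_const, one_pow, mul_one]
          refine pow_le_pow_right₀ hQ ?_
          calc (m.primeFactors.filter (fun p => p < B)).card ≤ (range B).card :=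
                Finset.card_le_card fun p hp => by
                  rw [mem_range]; exact (mem_filter.1 hp).2
            _ = B := card_range B
        · rw [Real.finsetProd_rpow _ _ (fun p _ => by positivity)]
          refine Real.rpow_le_rpow (Finset.prod_nonneg fun p _ => by positivity) ?_ hδ.le
          have h1 : ∏ p ∈ m.primeFactors, p ≤ m := Nat.le_of_dvd hm (Nat.prod_primeFactors_dvd m)
          rw [← Nat.cast_prod]
          exact_mod_cast h1

/-- every prime factor of `M` divides two of the differences -/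
def Gd (n M : ℕ) (a : Fin n → ℤ) : Prop :=
  ∀ p ∈ M.primeFactors, ∃ c c' : PR n, c ≠ c' ∧ (p : ℤ) ∣ df a c ∧ (p : ℤ) ∣ df a c'

open Classical in
/-- the residue classes modulo `M` -/
noncomputable def Fs (n M : ℕ) : Finset (Fin n → ℤ) :=
  (Fintype.piFinset fun _ : Fin n => Ico (0 : ℤ) M).filter (Gd n M)

lemma mem_Fs {n M : ℕ} {a : Fin n → ℤ} :
    a ∈ Fs n M ↔ (∀ i, 0 ≤ a i ∧ a i < M) ∧ Gd n M a := by
  classical
  unfold Fs
  rw [mem_filter, Fintype.mem_piFinset]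
  simp only [mem_Ico]

lemma dvd_df_emod {n M : ℕ} {p : ℤ} (hp : p ∣ (M : ℤ)) (a : Fin n → ℤ) (c : PR n)
    (h : p ∣ df a c) : p ∣ df (fun i => a i % (M : ℤ)) c := by
  unfold df at *
  have e : a c.1.1 % (M : ℤ) - a c.1.2 % (M : ℤ) =
      (a c.1.1 - a c.1.2) - (M : ℤ) * (a c.1.1 / M - a c.1.2 / M) := by
    rw [Int.emod_def, Int.emod_def]; ring
  show p ∣ a c.1.1 % (M : ℤ) - a c.1.2 % (M : ℤ)
  rw [e]
  exact dvd_sub h (hp.mul_right _)

lemma Gd_emod {n M N : ℕ} (hN : N ≠ 0) (hMN : M ∣ N) {a : Fin n → ℤ}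
    (h : Gd n N a) : Gd n M (fun i => a i % (M : ℤ)) := by
  intro p hp
  have hpM : p ∣ M := Nat.dvd_of_mem_primeFactors hp
  have hpN : p ∈ N.primeFactors :=
    Nat.mem_primeFactors.2 ⟨Nat.prime_of_mem_primeFactors hp, hpM.trans hMN, hN⟩
  obtain ⟨c, c', hc, h1, h2⟩ := h p hpN
  have hpM' : (p : ℤ) ∣ (M : ℤ) := by exact_mod_cast hpM
  exact ⟨c, c', hc, dvd_df_emod hpM' a c h1, dvd_df_emod hpM' a c' h2⟩

lemma Fs_mul {n M N : ℕ} (hM : 0 < M) (hN : 0 < N) (h : Nat.Coprime M N) :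
    (Fs n (M * N)).card ≤ (Fs n M).card * (Fs n N).card := by
  rw [← Finset.card_product]
  have hM' : (0 : ℤ) < M := by exact_mod_cast hM
  have hN' : (0 : ℤ) < N := by exact_mod_cast hN
  refine Finset.card_le_card_of_injOn
    (fun r => ((fun i => r i % (M : ℤ)), (fun i => r i % (N : ℤ)))) ?_ ?_
  · intro r hr
    rw [mem_coe, mem_Fs] at hr
    rw [mem_coe, mem_product, mem_Fs, mem_Fs]
    refine ⟨⟨fun i => ⟨Int.emod_nonneg _ hM'.ne', Int.emod_lt_of_pos _ hM'⟩,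
      Gd_emod (by positivity) (Dvd.intro _ rfl) hr.2⟩,
      ⟨fun i => ⟨Int.emod_nonneg _ hN'.ne', Int.emod_lt_of_pos _ hN'⟩,
      Gd_emod (by positivity) (Dvd.intro_left _ rfl) hr.2⟩⟩
  · intro r hr r' hr' e
    rw [mem_coe, mem_Fs] at hr hr'
    simp only [Prod.mk.injEq] at e
    funext i
    have e1 : r i % (M : ℤ) = r' i % (M : ℤ) := congrFun e.1 i
    have e2 : r i % (N : ℤ) = r' i % (N : ℤ) := congrFun e.2 i
    have d1 : (M : ℤ) ∣ r i - r' i := Int.ModEq.dvd (Int.ModEq.symm e1)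
    have d2 : (N : ℤ) ∣ r i - r' i := Int.ModEq.dvd (Int.ModEq.symm e2)
    have d3 : ((M * N : ℕ) : ℤ) ∣ r i - r' i := by
      push_cast
      exact IsCoprime.mul_dvd (Nat.isCoprime_iff_coprime.2 h) d1 d2
    have b1 := hr.1 i
    have b2 := hr'.1 i
    have := Int.eq_zero_of_abs_lt_dvd d3 (by rw [abs_lt]; constructor <;> linarith)
    linarith

lemma card_two {n p : ℕ} (u u' v v' : Fin n) (huv : u ≠ v) (h1 : u' ≠ u) (h2 : u' ≠ v)
    (h3 : v' ≠ u) (h4 : v' ≠ v) :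
    ((Fintype.piFinset fun _ : Fin n => Ico (0 : ℤ) p).filter
      (fun r => r u = r u' ∧ r v = r v')).card ≤ p ^ (n - 2) := by
  have key : ((Fintype.piFinset fun _ : Fin n => Ico (0 : ℤ) p).filter
      (fun r => r u = r u' ∧ r v = r v')).card ≤
      (Fintype.piFinset fun l : Fin n =>
        if l = u ∨ l = v then ({0} : Finset ℤ) else Ico (0 : ℤ) p).card := by
    refine Finset.card_le_card_of_injOn
      (fun r => fun l => if l = u ∨ l = v then 0 else r l) ?_ ?_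
    · intro r hr
      rw [mem_coe, mem_filter, Fintype.mem_piFinset] at hr
      rw [mem_coe, Fintype.mem_piFinset]
      intro l
      by_cases hl : l = u ∨ l = v
      · simp [hl]
      · simp only [hl, if_false]
        exact hr.1 l
    · intro r hr r' hr' e
      rw [mem_coe, mem_filter] at hr hr'
      have e' : ∀ l, l ≠ u → l ≠ v → r l = r' l := by
        intro l hlu hlv
        have := congrFun e l
        simpa [hlu, hlv] using this
      funext l
      by_cases hlu : l = u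
      · subst hlu
        rw [hr.2.1, hr'.2.1]
        exact e' u' h1 h2
      · by_cases hlv : l = v
        · subst hlv
          rw [hr.2.2, hr'.2.2]
          exact e' v' h3 h4
        · exact e' l hlu hlv
  refine key.trans ?_
  rw [Fintype.card_piFinset]
  have e : ∀ l : Fin n, (if l = u ∨ l = v then ({0} : Finset ℤ) else Ico (0 : ℤ) p).card =
      if l = u ∨ l = v then 1 else p := by
    intro l
    split_ifs
    · simp
    · simp
  simp only [e]
  rw [Finset.prod_ite, Finset.prod_const_one, one_mul, Finset.prod_const]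
  have hc : (univ.filter (fun l : Fin n => ¬ (l = u ∨ l = v))).card = n - 2 := by
    have h5 : univ.filter (fun l : Fin n => (l = u ∨ l = v)) = {u, v} := by
      ext l; simp
    have h6 := Finset.card_filter_add_card_filter_not (s := (univ : Finset (Fin n)))
      (fun l : Fin n => (l = u ∨ l = v))
    rw [h5, Finset.card_pair huv, card_univ, Fintype.card_fin] at h6
    omega
  rw [hc]

lemma exists_uv {n : ℕ} (c c' : PR n) (h : c ≠ c') :
    ∃ u u' v v' : Fin n, u ≠ v ∧ u' ≠ u ∧ u' ≠ v ∧ v' ≠ u ∧ v' ≠ v ∧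
      (∀ r : Fin n → ℤ, r c.1.1 = r c.1.2 → r u = r u') ∧
      (∀ r : Fin n → ℤ, r c'.1.1 = r c'.1.2 → r v = r v') := by
  obtain ⟨⟨i, j⟩, hij⟩ := c
  obtain ⟨⟨i', j'⟩, hij'⟩ := c'
  have hij0 : i < j := hij
  have hij0' : i' < j' := hij'
  have hne : ¬ (i = i' ∧ j = j') := by
    rintro ⟨rfl, rfl⟩
    exact h rfl
  show ∃ u u' v v' : Fin n, u ≠ v ∧ u' ≠ u ∧ u' ≠ v ∧ v' ≠ u ∧ v' ≠ v ∧
      (∀ r : Fin n → ℤ, r i = r j → r u = r u') ∧
      (∀ r : Fin n → ℤ, r i' = r j' → r v = r v')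
  rw [Fin.lt_def] at hij0 hij0'
  simp only [Fin.ext_iff] at hne
  by_cases h1 : j = i'
  · refine ⟨i, j, j', i', ?_, ?_, ?_, ?_, ?_, fun r hr => hr, fun r hr => hr.symm⟩ <;>
      (simp only [Fin.ext_iff, ne_eq] at *; omega)
  · by_cases h2 : j = j'
    · refine ⟨i, j, i', j', ?_, ?_, ?_, ?_, ?_, fun r hr => hr, fun r hr => hr⟩ <;>
        (simp only [Fin.ext_iff, ne_eq] at *; omega)
    · by_cases h3 : i' = i
      · refine ⟨j, i, j', i', ?_, ?_, ?_, ?_, ?_, fun r hr => hr.symm, fun r hr => hr.symm⟩ <;>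
          (simp only [Fin.ext_iff, ne_eq] at *; omega)
      · by_cases h4 : j' = i
        · refine ⟨j, i, i', j', ?_, ?_, ?_, ?_, ?_, fun r hr => hr.symm, fun r hr => hr⟩ <;>
            (simp only [Fin.ext_iff, ne_eq] at *; omega)
        · refine ⟨j, i, i', j', ?_, ?_, ?_, ?_, ?_, fun r hr => hr.symm, fun r hr => hr⟩ <;>
            (simp only [Fin.ext_iff, ne_eq] at *; omega)

lemma Fs_prime {n p : ℕ} (hp : p.Prime) :
    (Fs n p).card ≤ (Fintype.card (PR n)) ^ 2 * p ^ (n - 2) := by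
  classical
  have hsub : Fs n p ⊆ ((univ : Finset (PR n × PR n)).filter (fun q => q.1 ≠ q.2)).biUnion
      (fun q => (Fintype.piFinset fun _ : Fin n => Ico (0 : ℤ) p).filter
        (fun r => r q.1.1.1 = r q.1.1.2 ∧ r q.2.1.1 = r q.2.1.2)) := by
    intro r hr
    rw [mem_Fs] at hr
    obtain ⟨c, c', hc, h1, h2⟩ := hr.2 p (by rw [hp.primeFactors]; exact mem_singleton_self p)
    rw [mem_biUnion]
    refine ⟨(c, c'), mem_filter.2 ⟨mem_univ _, hc⟩, ?_⟩
    rw [mem_filter, Fintype.mem_piFinset]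
    refine ⟨fun i => mem_Ico.2 (hr.1 i), ?_, ?_⟩
    · have b1 := hr.1 c.1.1
      have b2 := hr.1 c.1.2
      have := Int.eq_zero_of_abs_lt_dvd h1 (by unfold df; rw [abs_lt]; constructor <;> linarith)
      unfold df at this
      linarith
    · have b1 := hr.1 c'.1.1
      have b2 := hr.1 c'.1.2
      have := Int.eq_zero_of_abs_lt_dvd h2 (by unfold df; rw [abs_lt]; constructor <;> linarith)
      unfold df at this
      linarith
  refine (Finset.card_le_card hsub).trans ?_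
  refine (Finset.card_biUnion_le_card_mul _ _ (p ^ (n - 2)) ?_).trans ?_
  · intro q hq
    obtain ⟨u, u', v, v', k1, k2, k3, k4, k5, k6, k7⟩ := exists_uv q.1 q.2 (mem_filter.1 hq).2
    refine le_trans (Finset.card_le_card ?_) (card_two (p := p) u u' v v' k1 k2 k3 k4 k5)
    intro r hr
    rw [mem_filter] at hr ⊢
    exact ⟨hr.1, k6 r hr.2.1, k7 r hr.2.2⟩
  · refine Nat.mul_le_mul_right _ ?_
    refine (Finset.card_le_univ _).trans ?_
    rw [Fintype.card_prod, sq]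

lemma Fs_prod (n : ℕ) (s : Finset ℕ) (hs : ∀ p ∈ s, p.Prime) :
    (Fs n (∏ p ∈ s, p)).card ≤ ((Fintype.card (PR n)) ^ 2) ^ s.card * (∏ p ∈ s, p) ^ (n - 2) := by
  classical
  induction s using Finset.induction_on with
  | empty =>
    simp only [Finset.prod_empty, Finset.card_empty, pow_zero, one_pow, mul_one]
    have : Fs n 1 ⊆ {fun _ => 0} := by
      intro r hr
      rw [mem_Fs] at hr
      rw [mem_singleton]
      funext i
      have := hr.1 i
      push_cast at this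
      omega
    exact (Finset.card_le_card this).trans (by simp)
  | insert q s hq ih =>
    have hq' : q.Prime := hs q (mem_insert_self q s)
    have hs' : ∀ p ∈ s, p.Prime := fun p hp => hs p (mem_insert_of_mem hp)
    have ih' := ih hs'
    rw [Finset.prod_insert hq, Finset.card_insert_of_notMem hq]
    have hcop : Nat.Coprime q (∏ p ∈ s, p) := by
      refine Nat.Coprime.prod_right fun p hp => ?_
      rw [Nat.coprime_primes hq' (hs' p hp)]
      rintro rfl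
      exact hq hp
    have hpos : 0 < ∏ p ∈ s, p := Finset.prod_pos fun p hp => (hs' p hp).pos
    refine (Fs_mul hq'.pos hpos hcop).trans ?_
    calc (Fs n q).card * (Fs n (∏ p ∈ s, p)).card ≤
        ((Fintype.card (PR n)) ^ 2 * q ^ (n - 2)) *
          (((Fintype.card (PR n)) ^ 2) ^ s.card * (∏ p ∈ s, p) ^ (n - 2)) :=
          Nat.mul_le_mul (Fs_prime hq') ih'
      _ = _ := by rw [mul_pow, pow_succ]; ring

/-- the number of the integers of a residue class in an interval -/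
lemma card_res (X M : ℕ) (hM : 1 ≤ M) (v : ℤ) :
    ((Icc (-(X : ℤ)) X).filter (fun x => x % (M : ℤ) = v)).card ≤ 2 * X / M + 1 := by
  have hM' : (0 : ℤ) < M := by exact_mod_cast hM
  have : ((Icc (-(X : ℤ)) X).filter (fun x => x % (M : ℤ) = v)).card ≤
      (Icc (0 : ℤ) ((2 * X / M : ℕ) : ℤ)).card := by
    refine Finset.card_le_card_of_injOn (fun x => (x + X) / (M : ℤ)) ?_ ?_
    · intro x hx
      rw [mem_coe, mem_filter, mem_Icc] at hx
      rw [mem_coe, mem_Icc]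
      refine ⟨Int.ediv_nonneg (by linarith) hM'.le, ?_⟩
      push_cast
      exact Int.ediv_le_ediv hM' (by linarith)
    · intro x hx y hy e
      rw [mem_coe, mem_filter] at hx hy
      have e' : (x + X) / (M : ℤ) = (y + X) / (M : ℤ) := e
      have h1 : (x + X) % (M : ℤ) = (y + X) % (M : ℤ) := by
        rw [Int.add_emod, hx.2, Int.add_emod y, hy.2]
      have h2 := Int.emod_add_mul_ediv (x + X) (M : ℤ)
      have h3 := Int.emod_add_mul_ediv (y + X) (M : ℤ)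
      rw [e', h1] at h2
      linarith
  refine this.trans ?_
  rw [Int.card_Icc]
  generalize 2 * X / M = t
  omega

open Classical in
lemma card_G {n X M : ℕ} (hM : 1 ≤ M) :
    ((BoxJ n X).filter (Gd n M)).card ≤ (2 * X / M + 1) ^ n * (Fs n M).card := by
  have hM' : (0 : ℤ) < M := by exact_mod_cast hM
  refine Finset.card_le_mul_card_image_of_maps_to
    (f := fun (a : Fin n → ℤ) => fun i => a i % (M : ℤ)) ?_ _ ?_
  · intro a ha
    rw [mem_filter] at ha
    rw [mem_Fs]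
    exact ⟨fun i => ⟨Int.emod_nonneg _ hM'.ne', Int.emod_lt_of_pos _ hM'⟩,
      Gd_emod (by omega) dvd_rfl ha.2⟩
  · intro r _
    have hsub : ((BoxJ n X).filter (Gd n M)).filter (fun a => (fun i => a i % (M : ℤ)) = r) ⊆
        Fintype.piFinset (fun i : Fin n => (Icc (-(X : ℤ)) X).filter
          (fun x => x % (M : ℤ) = r i)) := by
      intro a ha
      rw [mem_filter, mem_filter, BoxJ, Fintype.mem_piFinset] at ha
      rw [Fintype.mem_piFinset]
      intro i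
      rw [mem_filter]
      exact ⟨ha.1.1 i, congrFun ha.2 i⟩
    refine (Finset.card_le_card hsub).trans ?_
    rw [Fintype.card_piFinset]
    calc ∏ i : Fin n, ((Icc (-(X : ℤ)) X).filter (fun x => x % (M : ℤ) = r i)).card ≤
        ∏ _i : Fin n, (2 * X / M + 1) :=
          Finset.prod_le_prod (fun _ _ => Nat.zero_le _) fun i _ => card_res X M hM (r i)
      _ = _ := by simp

/-- the product of the primes of the collision part has a divisor of middle size -/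
lemma exists_mid (T : Finset ℕ) (X : ℕ) (hX : 1 ≤ X) (hp : ∀ p ∈ T, p ≤ 2 * X)
    (h : X < (∏ p ∈ T, p) ^ 16) :
    ∃ s ⊆ T, X < (∏ p ∈ s, p) ^ 16 ∧ ∏ p ∈ s, p ≤ 2 * X := by
  classical
  by_cases hc : ∃ p ∈ T, X < p ^ 16
  · obtain ⟨p, hpT, hpX⟩ := hc
    refine ⟨{p}, by simpa using hpT, ?_, ?_⟩
    · simpa using hpX
    · simpa using hp p hpT
  · push Not at hc
    obtain ⟨s, hs, hmin⟩ := Finset.exists_min_image
      (T.powerset.filter (fun s => X < (∏ p ∈ s, p) ^ 16)) (fun s => s.card)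
      ⟨T, mem_filter.2 ⟨mem_powerset_self T, h⟩⟩
    rw [mem_filter, mem_powerset] at hs
    refine ⟨s, hs.1, hs.2, ?_⟩
    have hne : s.Nonempty := by
      rw [Finset.nonempty_iff_ne_empty]
      rintro rfl
      have := hs.2
      rw [Finset.prod_empty, one_pow] at this
      omega
    obtain ⟨p, hps⟩ := hne
    have h1 : (∏ q ∈ s.erase p, q) ^ 16 ≤ X := by
      by_contra hcon
      push Not at hcon
      have := hmin (s.erase p) (mem_filter.2 ⟨mem_powerset.2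
        ((Finset.erase_subset p s).trans hs.1), hcon⟩)
      have := Finset.card_erase_lt_of_mem hps
      omega
    have h2 : (∏ q ∈ s, q) ^ 16 ≤ (2 * X) ^ 16 := by
      rw [← Finset.mul_prod_erase s (fun q => q) hps, mul_pow]
      calc p ^ 16 * (∏ q ∈ s.erase p, q) ^ 16 ≤ X * X := Nat.mul_le_mul (hc p (hs.1 hps)) h1
        _ ≤ (2 * X) * (2 * X) := Nat.mul_le_mul (by omega) (by omega)
        _ = (2 * X) ^ 2 := by ring
        _ ≤ (2 * X) ^ 16 := Nat.pow_le_pow_right (by omega) (by norm_num)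
    exact le_of_pow_le_pow_left₀ (by norm_num) (Nat.zero_le _) h2

/-- the count of the points with a large collision part -/
lemma card_S (n z : ℕ) (hn : 3 ≤ n) : ∃ C : ℝ, 0 ≤ C ∧ ∀ X : ℕ, 1 ≤ X →
    ∀ S : Finset (Fin n → ℤ), (∀ a ∈ S, a ∈ BoxJ n X ∧ Function.Injective a ∧
      ¬ (∏ p ∈ clJ z a, p) ^ 16 ≤ X) →
    (S.card : ℝ) ≤ C * (X : ℝ) ^ n * (X : ℝ) ^ (-(1 / 32) : ℝ) := by
  classical
  have : Nonempty (PR n) := ⟨⟨(⟨0, by omega⟩, ⟨1, by omega⟩), by simp [Fin.lt_def]⟩⟩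
  have hJ : 1 ≤ Fintype.card (PR n) := Fintype.card_pos
  set A : ℝ := ((Fintype.card (PR n) : ℝ)) ^ 2 with hA
  have hA1 : 1 ≤ A := by
    rw [hA]
    have : (1 : ℝ) ≤ Fintype.card (PR n) := by exact_mod_cast hJ
    nlinarith
  obtain ⟨C1, hC1, hom⟩ := pow_omega A hA1 (1 / 4) (by norm_num)
  have hsum : Summable (fun m : ℕ => (m : ℝ) ^ (-(5 / 4) : ℝ)) :=
    Real.summable_nat_rpow.2 (by norm_num)
  refine ⟨4 ^ n * C1 * ∑' m : ℕ, (m : ℝ) ^ (-(5 / 4) : ℝ), by
    have : 0 ≤ ∑' m : ℕ, (m : ℝ) ^ (-(5 / 4) : ℝ) := tsum_nonneg fun m => by positivity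
    positivity, fun X hX S hS => ?_⟩
  have hX0 : (0 : ℝ) < X := by exact_mod_cast hX
  have hsub : S ⊆ ((Icc 1 (2 * X)).filter (fun M : ℕ => Squarefree M ∧ X < M ^ 16)).biUnion
      (fun M => (BoxJ n X).filter (Gd n M)) := by
    intro a ha
    obtain ⟨hbox, hinj, hbig⟩ := hS a ha
    rw [BoxJ, Fintype.mem_piFinset] at hbox
    have hprime : ∀ p ∈ clJ z a, p.Prime := fun p hp =>
      Nat.prime_of_mem_primeFactors (mem_filter.1 hp).1
    have hle : ∀ p ∈ clJ z a, p ≤ 2 * X := by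
      intro p hp
      obtain ⟨-, -, c, c', hcc, h1, h2⟩ := mem_filter.1 hp
      have hne : df a c ≠ 0 := by
        unfold df
        intro h0
        have : a c.1.1 = a c.1.2 := by linarith
        exact (ne_of_lt c.2) (hinj this)
      have h3 : (p : ℤ) ≤ |df a c| := Int.le_of_dvd (abs_pos.2 hne) ((dvd_abs _ _).2 h1)
      have b1 := mem_Icc.1 (hbox c.1.1)
      have b2 := mem_Icc.1 (hbox c.1.2)
      have h4 : |df a c| ≤ 2 * X := by
        unfold df; rw [abs_le]; constructor <;> linarith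
      have : (p : ℤ) ≤ 2 * X := h3.trans h4
      exact_mod_cast this
    obtain ⟨s, hs, hs1, hs2⟩ := exists_mid (clJ z a) X hX hle (not_le.1 hbig)
    have hsp : ∀ p ∈ s, p.Prime := fun p hp => hprime p (hs hp)
    have hpos : 0 < ∏ p ∈ s, p := Finset.prod_pos fun p hp => (hsp p hp).pos
    have hpf : (∏ p ∈ s, p).primeFactors = s := Nat.primeFactors_prod hsp
    rw [mem_biUnion]
    refine ⟨∏ p ∈ s, p, mem_filter.2 ⟨mem_Icc.2 ⟨hpos, hs2⟩, ?_, hs1⟩, ?_⟩
    · refine Finset.squarefree_prod_of_pairwise_isCoprime (fun p hp q hq hpq => ?_)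
        fun p hp => (hsp p hp).squarefree
      show IsRelPrime p q
      rw [← Nat.coprime_iff_isRelPrime]
      exact (Nat.coprime_primes (hsp p hp) (hsp q hq)).2 hpq
    · rw [mem_filter, BoxJ, Fintype.mem_piFinset]
      refine ⟨hbox, fun p hp => ?_⟩
      rw [hpf] at hp
      exact (mem_filter.1 (hs hp)).2.2
  have hterm : ∀ M ∈ (Icc 1 (2 * X)).filter (fun M : ℕ => Squarefree M ∧ X < M ^ 16),
      (((BoxJ n X).filter (Gd n M)).card : ℝ) ≤
        (4 ^ n * C1 * (X : ℝ) ^ n * (X : ℝ) ^ (-(1 / 32) : ℝ)) * (M : ℝ) ^ (-(5 / 4) : ℝ) := by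
    intro M hM
    rw [mem_filter, mem_Icc] at hM
    obtain ⟨⟨hM1, hM2⟩, hsf, hMX⟩ := hM
    have hM0 : (0 : ℝ) < M := by exact_mod_cast hM1
    have e1 : ((2 * X / M + 1 : ℕ) : ℝ) ≤ 4 * X / M := by
      have a1 : ((2 * X / M : ℕ) : ℝ) ≤ (2 * X : ℝ) / M := by
        have := @Nat.cast_div_le ℝ _ _ _ (2 * X) M
        push_cast at this
        exact this
      have a2 : (1 : ℝ) ≤ (2 * X : ℝ) / M := by
        rw [le_div_iff₀ hM0, one_mul]
        exact_mod_cast hM2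
      push_cast
      calc ((2 * X / M : ℕ) : ℝ) + 1 ≤ (2 * X : ℝ) / M + (2 * X : ℝ) / M := add_le_add a1 a2
        _ = _ := by ring
    have e2 : ((Fs n M).card : ℝ) ≤ A ^ M.primeFactors.card * (M : ℝ) ^ (n - 2) := by
      have h1 := Fs_prod n M.primeFactors (fun p hp => Nat.prime_of_mem_primeFactors hp)
      rw [Nat.prod_primeFactors_of_squarefree hsf] at h1
      rw [hA]
      exact_mod_cast h1
    have e3 : A ^ M.primeFactors.card ≤ C1 * (M : ℝ) ^ (1 / 4 : ℝ) := hom M hM1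
    have e4 : (((BoxJ n X).filter (Gd n M)).card : ℝ) ≤
        (4 * X / M) ^ n * ((C1 * (M : ℝ) ^ (1 / 4 : ℝ)) * (M : ℝ) ^ (n - 2)) := by
      have h1 := card_G (n := n) (X := X) hM1
      have h2 : (((BoxJ n X).filter (Gd n M)).card : ℝ) ≤
          ((2 * X / M + 1 : ℕ) : ℝ) ^ n * ((Fs n M).card : ℝ) := by exact_mod_cast h1
      refine h2.trans ?_
      refine mul_le_mul (pow_le_pow_left₀ (by positivity) e1 n) (e2.trans ?_) (by positivity)
        (by positivity)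
      gcongr
    have e5 : (1 : ℝ) ≤ (M : ℝ) ^ (1 / 2 : ℝ) * (X : ℝ) ^ (-(1 / 32) : ℝ) := by
      have h1 : (X : ℝ) ≤ (M : ℝ) ^ (16 : ℕ) := by exact_mod_cast hMX.le
      have h2 : (X : ℝ) ^ (1 / 32 : ℝ) ≤ (M : ℝ) ^ (1 / 2 : ℝ) := by
        calc (X : ℝ) ^ (1 / 32 : ℝ) ≤ ((M : ℝ) ^ (16 : ℕ)) ^ (1 / 32 : ℝ) :=
              Real.rpow_le_rpow hX0.le h1 (by norm_num)
          _ = (M : ℝ) ^ (1 / 2 : ℝ) := by
              rw [← Real.rpow_natCast, ← Real.rpow_mul hM0.le]; norm_num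
      rw [Real.rpow_neg hX0.le, ← div_eq_mul_inv, one_le_div (by positivity)]
      exact h2
    refine e4.trans ?_
    have e6 : (4 * (X : ℝ) / M) ^ n * ((C1 * (M : ℝ) ^ (1 / 4 : ℝ)) * (M : ℝ) ^ (n - 2)) =
        4 ^ n * C1 * (X : ℝ) ^ n * (M : ℝ) ^ (-(7 / 4) : ℝ) := by
      have h1 : (M : ℝ) ^ (-(7 / 4) : ℝ) = (M : ℝ) ^ (1 / 4 : ℝ) * ((M : ℝ) ^ (2 : ℕ))⁻¹ := by
        rw [← Real.rpow_natCast, ← Real.rpow_neg hM0.le, ← Real.rpow_add hM0]; norm_num
      have h2 : (M : ℝ) ^ n = (M : ℝ) ^ (n - 2) * (M : ℝ) ^ 2 := by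
        rw [← pow_add]; congr 1; omega
      rw [h1, div_pow, mul_pow, h2]
      field_simp
    rw [e6]
    have e7 : (M : ℝ) ^ (-(7 / 4) : ℝ) ≤
        (X : ℝ) ^ (-(1 / 32) : ℝ) * (M : ℝ) ^ (-(5 / 4) : ℝ) := by
      have h1 : (M : ℝ) ^ (-(5 / 4) : ℝ) = (M : ℝ) ^ (-(7 / 4) : ℝ) * (M : ℝ) ^ (1 / 2 : ℝ) := by
        rw [← Real.rpow_add hM0]; norm_num
      rw [h1]
      have h2 : (0 : ℝ) ≤ (M : ℝ) ^ (-(7 / 4) : ℝ) := by positivity
      calc (M : ℝ) ^ (-(7 / 4) : ℝ) = (M : ℝ) ^ (-(7 / 4) : ℝ) * 1 := by ring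
        _ ≤ (M : ℝ) ^ (-(7 / 4) : ℝ) * ((M : ℝ) ^ (1 / 2 : ℝ) * (X : ℝ) ^ (-(1 / 32) : ℝ)) := by
            gcongr
        _ = _ := by ring
    calc 4 ^ n * C1 * (X : ℝ) ^ n * (M : ℝ) ^ (-(7 / 4) : ℝ) ≤
        4 ^ n * C1 * (X : ℝ) ^ n * ((X : ℝ) ^ (-(1 / 32) : ℝ) * (M : ℝ) ^ (-(5 / 4) : ℝ)) := by
          gcongr
      _ = _ := by ring
  calc (S.card : ℝ) ≤ ∑ M ∈ (Icc 1 (2 * X)).filter (fun M : ℕ => Squarefree M ∧ X < M ^ 16),
        (((BoxJ n X).filter (Gd n M)).card : ℝ) := by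
        exact_mod_cast (Finset.card_le_card hsub).trans Finset.card_biUnion_le
    _ ≤ ∑ M ∈ (Icc 1 (2 * X)).filter (fun M : ℕ => Squarefree M ∧ X < M ^ 16),
        (4 ^ n * C1 * (X : ℝ) ^ n * (X : ℝ) ^ (-(1 / 32) : ℝ)) * (M : ℝ) ^ (-(5 / 4) : ℝ) :=
        Finset.sum_le_sum hterm
    _ = (4 ^ n * C1 * (X : ℝ) ^ n * (X : ℝ) ^ (-(1 / 32) : ℝ)) *
        ∑ M ∈ (Icc 1 (2 * X)).filter (fun M : ℕ => Squarefree M ∧ X < M ^ 16),
          (M : ℝ) ^ (-(5 / 4) : ℝ) := by rw [Finset.mul_sum]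
    _ ≤ (4 ^ n * C1 * (X : ℝ) ^ n * (X : ℝ) ^ (-(1 / 32) : ℝ)) *
        ∑' m : ℕ, (m : ℝ) ^ (-(5 / 4) : ℝ) := by
        gcongr
        exact hsum.sum_le_tsum _ (fun m _ => by positivity)
    _ = _ := by ring

lemma NV_one {V : Type} [Fintype V] [DecidableEq V] (ad : V → V → Bool) (E : Finset ℕ) :
    NV ad (fun _ => 1) E ≤ 1 := by
  unfold NV
  refine (Finset.card_filter_le _ _).trans ?_
  simp

/-- the Selmer group is bounded by the number of the prime factors -/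
lemma sel_le (h : S_SELJ) {n : ℕ} (hodd : Odd n) (a : Fin n → ℤ) (ha : Function.Injective a) :
    (SelJ a).ncard ≤ (2 ^ n) ^ (1 + (2 * ∏ c : PR n, (df a c).natAbs).primeFactors.card) := by
  obtain ⟨-, h1⟩ := h n a (fun _ => 1) hodd ha (fun _ => squarefree_one) (by
    intro c p hp hdvd
    exact absurd (Nat.dvd_one.1 hdvd) hp.one_lt.ne')
  refine h1.trans ?_
  calc _ ≤ (2 ^ n) ^ (1 + ((2 * ∏ c : PR n, (df a c).natAbs).primeFactors.filter
      (fun q => ¬ q ∣ ∏ _c : PR n, 1)).card) * 1 := Nat.mul_le_mul_left _ (NV_one _ _)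
    _ = (2 ^ n) ^ (1 + ((2 * ∏ c : PR n, (df a c).natAbs).primeFactors.filter
      (fun q => ¬ q ∣ ∏ _c : PR n, 1)).card) := mul_one _
    _ ≤ _ := Nat.pow_le_pow_right (by positivity)
      (Nat.add_le_add_left (Finset.card_filter_le _ _) 1)

/-- the moment of one point -/
lemma sel_pow (h : S_SELJ) {n k : ℕ} (hn : 3 ≤ n) (hodd : Odd n) :
    ∃ C : ℝ, 0 ≤ C ∧ ∀ X : ℕ, 1 ≤ X → ∀ a ∈ BoxJ n X, Function.Injective a →
      ((SelJ a).ncard : ℝ) ^ k ≤ C * (X : ℝ) ^ (1 / 32 : ℝ) := by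
  have : Nonempty (PR n) := ⟨⟨(⟨0, by omega⟩, ⟨1, by omega⟩), by simp [Fin.lt_def]⟩⟩
  set J : ℕ := Fintype.card (PR n) with hJdef
  have hJ : 1 ≤ J := Fintype.card_pos
  have hJ0 : (0 : ℝ) < J := by exact_mod_cast hJ
  set Q : ℝ := ((2 : ℝ) ^ n) ^ k with hQ
  have hQ1 : 1 ≤ Q := by
    rw [hQ]
    exact one_le_pow₀ (one_le_pow₀ (by norm_num))
  set δ : ℝ := 1 / (32 * J) with hδ
  have hδ0 : 0 < δ := by rw [hδ]; positivity
  obtain ⟨C1, hC1, hom⟩ := pow_omega Q hQ1 δ hδ0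
  refine ⟨Q * (C1 * ((2 : ℝ) ^ (J + 1)) ^ δ), by positivity, fun X hX a ha hinj => ?_⟩
  have hX0 : (0 : ℝ) < X := by exact_mod_cast hX
  set m : ℕ := 2 * ∏ c : PR n, (df a c).natAbs with hm
  rw [BoxJ, Fintype.mem_piFinset] at ha
  have hpos : ∀ c : PR n, 0 < (df a c).natAbs := by
    intro c
    rw [Int.natAbs_pos]
    unfold df
    intro h0
    have : a c.1.1 = a c.1.2 := by linarith
    exact (ne_of_lt c.2) (hinj this)
  have hm1 : 1 ≤ m := by
    rw [hm]
    have : 0 < ∏ c : PR n, (df a c).natAbs := Finset.prod_pos fun c _ => hpos c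
    omega
  have hle : ∀ c : PR n, (df a c).natAbs ≤ 2 * X := by
    intro c
    have b1 := mem_Icc.1 (ha c.1.1)
    have b2 := mem_Icc.1 (ha c.1.2)
    unfold df
    omega
  have hmle : m ≤ 2 ^ (J + 1) * X ^ J := by
    calc m = 2 * ∏ c : PR n, (df a c).natAbs := hm
      _ ≤ 2 * ∏ _c : PR n, (2 * X) := by
          refine Nat.mul_le_mul_left _ (Finset.prod_le_prod' fun c _ => hle c)
      _ = 2 * (2 * X) ^ J := by rw [Finset.prod_const, card_univ]
      _ = _ := by rw [mul_pow]; ring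
  have h1 : ((SelJ a).ncard : ℝ) ≤ ((2 : ℝ) ^ n) ^ (1 + m.primeFactors.card) := by
    exact_mod_cast sel_le h hodd a hinj
  calc ((SelJ a).ncard : ℝ) ^ k ≤ (((2 : ℝ) ^ n) ^ (1 + m.primeFactors.card)) ^ k :=
        pow_le_pow_left₀ (by positivity) h1 k
    _ = Q * Q ^ m.primeFactors.card := by
        rw [hQ, ← pow_mul, mul_comm (1 + m.primeFactors.card) k, pow_mul, pow_add, pow_one]
    _ ≤ Q * (C1 * (m : ℝ) ^ δ) := by
        gcongr
        exact hom m hm1
    _ ≤ Q * (C1 * ((2 : ℝ) ^ (J + 1) * (X : ℝ) ^ J) ^ δ) := by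
        gcongr
        exact_mod_cast hmle
    _ = Q * (C1 * (((2 : ℝ) ^ (J + 1)) ^ δ * (X : ℝ) ^ (1 / 32 : ℝ))) := by
        have e : ((X : ℝ) ^ J) ^ δ = (X : ℝ) ^ (1 / 32 : ℝ) := by
          rw [← Real.rpow_natCast, ← Real.rpow_mul hX0.le, hδ]
          congr 1
          field_simp
        rw [Real.mul_rpow (by positivity) (by positivity), e]
    _ = _ := by ring

end Cru

/-- the points with a large collision part contribute little to the moments -/
theorem cru_of (h : S_SELJ) : S_CRU := by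
  intro n k z hn hodd
  obtain ⟨C1, hC1, h1⟩ := Cru.card_S n z hn
  obtain ⟨C2, hC2, h2⟩ := Cru.sel_pow h (k := k) hn hodd
  refine ⟨C1 * C2, by positivity, fun X hX => ?_⟩
  have hX0 : (0 : ℝ) < X := by exact_mod_cast hX
  set S := (BoxJ n X).filter
    (fun a => Function.Injective a ∧ ¬ (∏ p ∈ clJ z a, p) ^ 16 ≤ X) with hS
  have hcard := h1 X hX S (fun a ha => mem_filter.1 ha)
  have hsum : ∑ a ∈ S, ((SelJ a).ncard : ℝ) ^ k ≤ S.card • (C2 * (X : ℝ) ^ (1 / 32 : ℝ)) :=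
    Finset.sum_le_card_nsmul S _ _ fun a ha =>
      h2 X hX a (mem_filter.1 ha).1 (mem_filter.1 ha).2.1
  refine hsum.trans ?_
  rw [nsmul_eq_mul]
  have e : (X : ℝ) ^ (-(1 / 32) : ℝ) * (X : ℝ) ^ (1 / 32 : ℝ) = 1 := by
    rw [← Real.rpow_add hX0]; norm_num
  calc (S.card : ℝ) * (C2 * (X : ℝ) ^ (1 / 32 : ℝ)) ≤
      (C1 * (X : ℝ) ^ n * (X : ℝ) ^ (-(1 / 32) : ℝ)) * (C2 * (X : ℝ) ^ (1 / 32 : ℝ)) := by gcongr
    _ = C1 * C2 * (X : ℝ) ^ n * ((X : ℝ) ^ (-(1 / 32) : ℝ) * (X : ℝ) ^ (1 / 32 : ℝ)) := by ring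
    _ = _ := by rw [e, mul_one]

end Pool.Agent.TH344.JG
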