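import Mathlib
import Pool.Agent.TH344.JG.Stm2
import Pool.Agent.W262.RK.MA

/-! Project JG: the graph of the pairs, the main averages for this graph. -/

set_option autoImplicit false

namespace Pool.Agent.TH344.JG

open Finset Pool.Agent.W262.RK Pool.Agent.W307.RT Pool.Agent.TH344.DT

variable {n : ℕ}

/-- the ordered pair -/
def mkp (x y : Fin n) (h : x ≠ y) : PR n :=
  if h1 : x < y then ⟨(x, y), h1⟩ else ⟨(y, x), lt_of_le_of_ne (not_lt.1 h1) (Ne.symm h)⟩

/-- the pairs with the index `x` -/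
def Sx (x : Fin n) : Finset (PR n) := univ.filter (fun c => c.1.1 = x ∨ c.1.2 = x)

lemma mem_Sx {x : Fin n} {c : PR n} : c ∈ Sx x ↔ c.1.1 = x ∨ c.1.2 = x := by
  simp [Sx]

lemma card_Sx (x : Fin n) : (Sx x).card = n - 1 := by
  have h1 : (univ.erase x).card = n - 1 := by
    rw [card_erase_of_mem (mem_univ x), card_univ, Fintype.card_fin]
  rw [← h1]
  symm
  refine card_bij (fun y hy => mkp x y (Ne.symm (ne_of_mem_erase hy))) ?_ ?_ ?_
  · intro y hy
    rw [mem_Sx]
    unfold mkp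
    split_ifs <;> simp
  · intro y hy y' hy' h
    have hy1 := ne_of_mem_erase hy
    have hy2 := ne_of_mem_erase hy'
    unfold mkp at h
    split_ifs at h <;>
    · have h2 := congrArg Subtype.val h
      simp only [Prod.mk.injEq] at h2
      obtain ⟨h3, h4⟩ := h2
      first
        | exact h4
        | exact h3
        | (exfalso; exact hy2 h3.symm)
        | (exfalso; exact hy1 h3)
  · intro c hc
    rw [mem_Sx] at hc
    have hlt := c.2
    rcases hc with hc | hc
    · refine ⟨c.1.2, mem_erase.2 ⟨?_, mem_univ _⟩, ?_⟩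
      · rintro h
        rw [h, ← hc] at hlt
        exact lt_irrefl _ hlt
      · unfold mkp
        rw [dif_pos (by rw [← hc]; exact hlt)]
        apply Subtype.ext
        exact Prod.ext hc.symm rfl
    · refine ⟨c.1.1, mem_erase.2 ⟨?_, mem_univ _⟩, ?_⟩
      · rintro h
        rw [h, ← hc] at hlt
        exact lt_irrefl _ hlt
      · unfold mkp
        rw [dif_neg (by rw [← hc]; exact not_lt.2 hlt.le)]
        apply Subtype.ext
        exact Prod.ext rfl hc.symm

lemma adj_self (c : PR n) : adj c c = false := by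
  unfold adj
  simp

lemma adj_comm (c c' : PR n) : adj c c' = adj c' c := by
  unfold adj
  congr 1
  · exact decide_eq_decide.2 ne_comm
  · apply decide_eq_decide.2
    constructor
    · rintro (h | h | h | h)
      · exact Or.inl h.symm
      · exact Or.inr (Or.inr (Or.inl h.symm))
      · exact Or.inr (Or.inl h.symm)
      · exact Or.inr (Or.inr (Or.inr h.symm))
    · rintro (h | h | h | h)
      · exact Or.inl h.symm
      · exact Or.inr (Or.inr (Or.inl h.symm))
      · exact Or.inr (Or.inl h.symm)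
      · exact Or.inr (Or.inr (Or.inr h.symm))

lemma adj_iff (c c' : PR n) : adj c c' = true ↔ c' ≠ c ∧ (c' ∈ Sx c.1.1 ∨ c' ∈ Sx c.1.2) := by
  unfold adj
  rw [Bool.and_eq_true, decide_eq_true_iff, decide_eq_true_iff, mem_Sx, mem_Sx]
  constructor
  · rintro ⟨h1, h2⟩
    refine ⟨h1.symm, ?_⟩
    rcases h2 with h | h | h | h
    · exact Or.inl (Or.inl h.symm)
    · exact Or.inl (Or.inr h.symm)
    · exact Or.inr (Or.inl h.symm)
    · exact Or.inr (Or.inr h.symm)
  · rintro ⟨h1, h2⟩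
    refine ⟨h1.symm, ?_⟩
    rcases h2 with (h | h) | (h | h)
    · exact Or.inl h.symm
    · exact Or.inr (Or.inl h.symm)
    · exact Or.inr (Or.inr (Or.inl h.symm))
    · exact Or.inr (Or.inr (Or.inr h.symm))

lemma inter_Sx (c : PR n) : Sx c.1.1 ∩ Sx c.1.2 = {c} := by
  ext c'
  rw [mem_inter, mem_Sx, mem_Sx, mem_singleton]
  have h1 := c.2
  have h2 := c'.2
  constructor
  · rintro ⟨h3, h4⟩
    apply Subtype.ext
    apply Prod.ext
    · rcases h3 with h3 | h3
      · exact h3
      · exfalso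
        rcases h4 with h4 | h4
        · rw [h3, h4] at h2
          exact lt_asymm h1 h2
        · rw [h3] at h4
          rw [h4] at h1
          exact lt_irrefl _ h1
    · rcases h4 with h4 | h4
      · exfalso
        rcases h3 with h3 | h3
        · rw [h3] at h4
          rw [h4] at h1
          exact lt_irrefl _ h1
        · rw [h3, h4] at h2
          exact lt_asymm h1 h2
      · exact h4
  · rintro rfl
    exact ⟨Or.inl rfl, Or.inr rfl⟩

lemma adj_card (c : PR n) : (univ.filter (fun c' => adj c c' = true)).card = 2 * (n - 1) - 2 := by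
  have h1 : univ.filter (fun c' => adj c c' = true) = (Sx c.1.1 ∪ Sx c.1.2).erase c := by
    ext c'
    rw [mem_filter, adj_iff, mem_erase, mem_union]
    simp
  have h2 : c ∈ Sx c.1.1 ∪ Sx c.1.2 := mem_union_left _ (mem_Sx.2 (Or.inl rfl))
  have h3 := card_union_add_card_inter (Sx c.1.1) (Sx c.1.2)
  rw [inter_Sx, card_singleton, card_Sx, card_Sx] at h3
  rw [h1, card_erase_of_mem h2]
  omega

lemma adj_tri (hn : 3 ≤ n) (c : PR n) :
    ∃ c' c'', adj c c' = true ∧ adj c c'' = true ∧ adj c' c'' = true := by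
  have h1 : ∃ l : Fin n, l ≠ c.1.1 ∧ l ≠ c.1.2 := by
    by_contra hcon
    push Not at hcon
    have h2 : (univ : Finset (Fin n)) ⊆ {c.1.1, c.1.2} := by
      intro l _
      rw [mem_insert, mem_singleton]
      by_cases h : l = c.1.1
      · exact Or.inl h
      · exact Or.inr (hcon l h)
    have h3 := (card_le_card h2).trans card_le_two
    rw [card_univ, Fintype.card_fin] at h3
    omega
  obtain ⟨l, hl1, hl2⟩ := h1
  have hc := c.2
  have hm : ∀ (x y : Fin n) (h : x ≠ y), (mkp x y h) ∈ Sx x ∧ mkp x y h ∈ Sx y := by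
    intro x y h
    rw [mem_Sx, mem_Sx]
    unfold mkp
    split_ifs <;> simp
  have hne : ∀ (x y z : Fin n) (h : x ≠ y) (c' : PR n), z ≠ x → z ≠ y → c' ∈ Sx z →
      c' ≠ mkp x y h := by
    intro x y z h c' h1 h2 h3 h4
    rw [h4, mem_Sx] at h3
    unfold mkp at h3
    split_ifs at h3
    · rcases h3 with h3 | h3
      · exact h1 h3.symm
      · exact h2 h3.symm
    · rcases h3 with h3 | h3
      · exact h2 h3.symm
      · exact h1 h3.symm
  refine ⟨mkp c.1.1 l hl1.symm, mkp c.1.2 l hl2.symm, ?_, ?_, ?_⟩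
  · rw [adj_iff]
    exact ⟨(hne c.1.1 l c.1.2 hl1.symm c hc.ne' hl2.symm (mem_Sx.2 (Or.inr rfl))).symm,
      Or.inl (hm _ _ _).1⟩
  · rw [adj_iff]
    exact ⟨(hne c.1.2 l c.1.1 hl2.symm c hc.ne hl1.symm (mem_Sx.2 (Or.inl rfl))).symm,
      Or.inr (hm _ _ _).1⟩
  · rw [adj_iff]
    refine ⟨hne c.1.1 l c.1.2 hl1.symm _ hc.ne' hl2.symm (hm _ _ _).1, ?_⟩
    have h5 := (hm c.1.2 l hl2.symm).2
    have h6 : (mkp c.1.1 l hl1.symm).1.1 = l ∨ (mkp c.1.1 l hl1.symm).1.2 = l := by
      unfold mkp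
      split_ifs
      · exact Or.inr rfl
      · exact Or.inl rfl
    rcases h6 with h6 | h6
    · rw [h6]
      exact Or.inl h5
    · rw [h6]
      exact Or.inr h5

lemma nonempty_PR (hn : 2 ≤ n) : Nonempty (PR n) :=
  ⟨⟨(⟨0, by omega⟩, ⟨1, by omega⟩), by simp⟩⟩

/-- the main average with the weight -/
theorem maf_PR (hM : S_MAFV) {k : ℕ} (hn : 3 ≤ n) (hk : 1 ≤ k) :
    ∃ T : Finset (PR n → ℝ), (∀ t ∈ T, ∀ j, 0 < t j) ∧ (∀ t ∈ T, 1 < ∏ j, t j) ∧
      MAFV (adj (n := n)) k T := by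
  have := nonempty_PR (n := n) (by omega)
  exact hM (PR n) adj (2 * (n - 1) - 2) k hk (by omega) adj_self adj_comm adj_card
    (adj_tri hn)

lemma rho_empty {J : Type} [Fintype J] (m : J → ℕ) : rho (∅ : Finset (J → ℝ)) m = 1 := by
  unfold rho
  simp

lemma LV_self {V : Type} [Fintype V] [DecidableEq V] {ad : V → V → Bool}
    (h : ∀ c, ad c c = false) {k : ℕ} {P : (Fin k → Bool) → (Fin k → Bool) → Bool}
    (i : IV V k P) : LV ad i i = false := by
  unfold LV
  rw [h, Bool.false_and]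

/-- the main average without weight, for small `k` -/
theorem maf_small (hE : S_EXPV) (hX : S_EXT) {g k : ℕ} (hg : 1 ≤ g) (hk : 1 ≤ k)
    (hkg : 2 ^ k ≤ 4 * g) : MAFV (adj (n := 2 * g + 1)) k ∅ := by
  obtain ⟨z0, hz0⟩ := at_thm (IV (PR (2 * g + 1)) k P0) (fun _ => 1 / 2 ^ k) (LV adj)
    (fun _ => 1) (Fintype.card (PR (2 * g + 1))) ((Fintype.card (PR (2 * g + 1)) : ℕ) : ℝ)
    (fun _ => ⟨by positivity, by
      have h2 : (2 : ℝ) ^ 1 ≤ 2 ^ k := pow_le_pow_right₀ (by norm_num) hk
      rw [pow_one] at h2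
      exact one_div_le_one_div_of_le (by norm_num) h2⟩)
    (LV_self adj_self) (fun _ => one_ne_zero) (fun U hU => by
      rw [sum_const, nsmul_eq_mul]
      have h3 : ((U.card : ℕ) : ℝ) ≤ ((2 ^ k * Fintype.card (PR (2 * g + 1)) : ℕ) : ℝ) := by
        exact_mod_cast hX g k hg hkg U hU
      push_cast at h3 ⊢
      rw [mul_one_div, div_le_iff₀ (by positivity)]
      linarith)
  refine ⟨max z0 2, fun z hz => ?_⟩
  obtain ⟨C, hC⟩ := hz0 z (le_trans (le_max_left _ _) hz)
  refine ⟨C, fun y hy => ?_⟩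
  have hz2 : 2 ≤ z := le_trans (le_max_right _ _) hz
  have h1 := hE (PR (2 * g + 1)) adj adj_self adj_comm k (Fintype.card (PR (2 * g + 1))) z y hz2
    (fun _ => 1)
  simp only [rho_empty, mul_one] at h1 ⊢
  rw [h1]
  refine (le_trans (le_abs_self _) (hC y hy)).trans (le_of_eq ?_)
  rw [Real.rpow_natCast]

end Pool.Agent.TH344.JG
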