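import Mathlib
import Pool.Agent.TH344.JG.Graph
import Pool.Agent.TH344.DT.Diag
import Pool.Agent.TH344.GT.Tail

/-! Project JG: one exceptional set of density zero for all the moments. -/

set_option autoImplicit false

namespace Pool.Agent.TH344.JG

open Finset Filter Topology Pool.Agent.W262.RK Pool.Agent.W307.RT Pool.Agent.TH344.DT

variable {n : ℕ}

/-- the maximum of the absolute values -/
def nrm (a : Fin n → ℤ) : ℕ := univ.sup (fun i => (a i).natAbs)

lemma mem_BoxJ {X : ℕ} {a : Fin n → ℤ} : a ∈ BoxJ n X ↔ ∀ i, (a i).natAbs ≤ X := by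
  unfold BoxJ
  rw [Fintype.mem_piFinset]
  refine forall_congr' fun i => ?_
  rw [mem_Icc]
  omega

lemma mem_BoxJ' {X : ℕ} {a : Fin n → ℤ} : a ∈ BoxJ n X ↔ nrm a ≤ X := by
  rw [mem_BoxJ]
  unfold nrm
  rw [Finset.sup_le_iff]
  simp

lemma BoxJ_mono : Monotone (BoxJ n) := by
  intro X Y h a ha
  rw [mem_BoxJ] at ha ⊢
  exact fun i => (ha i).trans h

lemma card_BoxJ (X : ℕ) : (BoxJ n X).card = (2 * X + 1) ^ n := by
  unfold BoxJ
  rw [Fintype.card_piFinset]
  have h : (Icc (-(X : ℤ)) X).card = 2 * X + 1 := by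
    rw [Int.card_Icc]
    omega
  simp [h]

lemma le_card_BoxJ (X : ℕ) : (X : ℝ) ^ n ≤ (BoxJ n X).card := by
  rw [card_BoxJ]
  push_cast
  apply pow_le_pow_left₀ (Nat.cast_nonneg _)
  have : (0 : ℝ) ≤ X := Nat.cast_nonneg _
  linarith

/-- the power of two above `a` -/
def pw (a : Fin n → ℤ) : ℕ := 2 ^ Nat.clog 2 (nrm a)

lemma nrm_le_pw (a : Fin n → ℤ) : nrm a ≤ pw a := Nat.le_pow_clog (by norm_num) _

open scoped Classical in
/-- from exceptional sets that depend on the size to one set -/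
lemma dens_of (hn : 1 ≤ n) (Bd : ℕ → Set (Fin n → ℤ))
    (h : ∀ ε : ℝ, 0 < ε → ∃ N0 : ℕ, ∀ X, N0 ≤ X →
      (((BoxJ n X).filter (fun a => a ∈ Bd X)).card : ℝ) ≤ ε * (X : ℝ) ^ n) (ε : ℝ) (hε : 0 < ε) :
    ∃ H0 : ℕ, ∀ X, H0 ≤ X →
      (((BoxJ n X).filter (fun a => a ∈ {a | a ∈ Bd (pw a)})).card : ℝ) ≤
        ε * (BoxJ n X).card := by
  obtain ⟨N0, hN0⟩ := h (ε / (4 * 2 ^ n)) (by positivity)
  -- the points of small norm
  obtain ⟨N1, hN1⟩ := exists_nat_gt (2 * ((BoxJ n N0).card : ℝ) / ε)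
  refine ⟨max N1 1, fun X hX => ?_⟩
  have hX1 : 1 ≤ X := le_trans (le_max_right _ _) hX
  have hXN : N1 ≤ X := le_trans (le_max_left _ _) hX
  set L := Nat.clog 2 X with hL
  have hL2 : 2 ^ L ≤ 2 * X := by
    rcases Nat.lt_or_ge 1 X with h1 | h1
    · have h2 := Nat.pow_pred_clog_lt_self (b := 2) (by norm_num) h1
      have h3 : 0 < Nat.clog 2 X := Nat.clog_pos (by norm_num) h1
      obtain ⟨m, hm⟩ : ∃ m, Nat.clog 2 X = m + 1 := ⟨_, (Nat.succ_pred_eq_of_pos h3).symm⟩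
      rw [hm, Nat.pred_succ] at h2
      rw [hL, hm, pow_succ]
      omega
    · have : X = 1 := le_antisymm h1 hX1
      rw [hL, this]
      simp
  have hsub : (BoxJ n X).filter (fun a => a ∈ {a | a ∈ Bd (pw a)}) ⊆
      BoxJ n N0 ∪ ((range (L + 1)).filter (fun j => N0 ≤ 2 ^ j)).biUnion
        (fun j => (BoxJ n (2 ^ j)).filter (fun a => a ∈ Bd (2 ^ j))) := by
    intro a ha
    rw [mem_filter] at ha
    rw [mem_union]
    by_cases hc : nrm a ≤ N0
    · exact Or.inl (mem_BoxJ'.2 hc)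
    · right
      rw [mem_biUnion]
      refine ⟨Nat.clog 2 (nrm a), ?_, ?_⟩
      · rw [mem_filter, mem_range]
        refine ⟨?_, ?_⟩
        · have h1 : nrm a ≤ X := mem_BoxJ'.1 ha.1
          have := Nat.clog_mono_right 2 h1
          omega
        · have h1 := nrm_le_pw a
          unfold pw at h1
          omega
      · rw [mem_filter, mem_BoxJ']
        exact ⟨nrm_le_pw a, ha.2⟩
  have hgeo : ∀ m : ℕ, ∑ j ∈ range m, (((2 ^ j : ℕ) : ℝ)) ^ n ≤ 2 * ((2 : ℝ) ^ m / 2) ^ n := by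
    intro m
    induction m with
    | zero =>
      simp
    | succ m ih =>
      rw [sum_range_succ]
      have h1 : ((2 : ℝ) ^ (m + 1) / 2) ^ n = ((2 : ℝ) ^ m) ^ n := by
        congr 1
        rw [pow_succ]
        ring
      have h2 : 2 * ((2 : ℝ) ^ m / 2) ^ n ≤ ((2 : ℝ) ^ m) ^ n := by
        rw [div_pow]
        have h3 : (2 : ℝ) ≤ 2 ^ n := by
          calc (2 : ℝ) = 2 ^ 1 := (pow_one _).symm
            _ ≤ 2 ^ n := pow_le_pow_right₀ (by norm_num) hn
        have h4 : (0 : ℝ) < ((2 : ℝ) ^ m) ^ n := by positivity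
        rw [mul_div_assoc', div_le_iff₀ (by positivity)]
        nlinarith
      rw [h1]
      push_cast at ih ⊢
      linarith
  have h2 : (((BoxJ n X).filter (fun a => a ∈ {a | a ∈ Bd (pw a)})).card : ℝ) ≤
      (BoxJ n N0).card + ∑ j ∈ (range (L + 1)).filter (fun j => N0 ≤ 2 ^ j),
        (((BoxJ n (2 ^ j)).filter (fun a => a ∈ Bd (2 ^ j))).card : ℝ) := by
    have h3 := (card_le_card hsub).trans (card_union_le _ _)
    have h4 := card_biUnion_le (s := (range (L + 1)).filter (fun j => N0 ≤ 2 ^ j))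
      (t := fun j => (BoxJ n (2 ^ j)).filter (fun a => a ∈ Bd (2 ^ j)))
    exact_mod_cast h3.trans (Nat.add_le_add_left h4 _)
  have h5 : ∑ j ∈ (range (L + 1)).filter (fun j => N0 ≤ 2 ^ j),
      (((BoxJ n (2 ^ j)).filter (fun a => a ∈ Bd (2 ^ j))).card : ℝ) ≤
      ε / 2 * (X : ℝ) ^ n := by
    calc ∑ j ∈ (range (L + 1)).filter (fun j => N0 ≤ 2 ^ j),
          (((BoxJ n (2 ^ j)).filter (fun a => a ∈ Bd (2 ^ j))).card : ℝ)
        ≤ ∑ j ∈ (range (L + 1)).filter (fun j => N0 ≤ 2 ^ j),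
          ε / (4 * 2 ^ n) * (((2 ^ j : ℕ) : ℝ)) ^ n := by
          apply sum_le_sum
          intro j hj
          exact hN0 (2 ^ j) (mem_filter.1 hj).2
      _ ≤ ∑ j ∈ range (L + 1), ε / (4 * 2 ^ n) * (((2 ^ j : ℕ) : ℝ)) ^ n :=
          sum_le_sum_of_subset_of_nonneg (filter_subset _ _) fun j _ _ => by positivity
      _ = ε / (4 * 2 ^ n) * ∑ j ∈ range (L + 1), (((2 ^ j : ℕ) : ℝ)) ^ n := by rw [mul_sum]
      _ ≤ ε / (4 * 2 ^ n) * (2 * ((2 : ℝ) ^ (L + 1) / 2) ^ n) :=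
          mul_le_mul_of_nonneg_left (hgeo _) (by positivity)
      _ ≤ ε / (4 * 2 ^ n) * (2 * (2 * (X : ℝ)) ^ n) := by
          apply mul_le_mul_of_nonneg_left _ (by positivity)
          apply mul_le_mul_of_nonneg_left _ (by norm_num)
          apply pow_le_pow_left₀ (by positivity)
          rw [pow_succ, mul_div_assoc, div_self (by norm_num), mul_one]
          exact_mod_cast hL2
      _ = ε / 2 * (X : ℝ) ^ n := by
          rw [mul_pow]
          field_simp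
          ring
  have h6 : ((BoxJ n N0).card : ℝ) ≤ ε / 2 * (X : ℝ) ^ n := by
    have h7 : (N1 : ℝ) ≤ (X : ℝ) ^ n := by
      calc (N1 : ℝ) ≤ X := by exact_mod_cast hXN
        _ = (X : ℝ) ^ 1 := (pow_one _).symm
        _ ≤ (X : ℝ) ^ n := pow_le_pow_right₀ (by exact_mod_cast hX1) hn
    rw [div_lt_iff₀ hε] at hN1
    nlinarith
  calc (((BoxJ n X).filter (fun a => a ∈ {a | a ∈ Bd (pw a)})).card : ℝ)
      ≤ ε / 2 * (X : ℝ) ^ n + ε / 2 * (X : ℝ) ^ n := h2.trans (add_le_add h6 h5)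
    _ = ε * (X : ℝ) ^ n := by ring
    _ ≤ ε * (BoxJ n X).card := mul_le_mul_of_nonneg_left (le_card_BoxJ X) hε.le

lemma clog_pow_le (X : ℕ) (hX1 : 1 ≤ X) : 2 ^ Nat.clog 2 X ≤ 2 * X := by
  rcases Nat.lt_or_ge 1 X with h1 | h1
  · have h2 := Nat.pow_pred_clog_lt_self (b := 2) (by norm_num) h1
    have h3 : 0 < Nat.clog 2 X := Nat.clog_pos (by norm_num) h1
    obtain ⟨m, hm⟩ : ∃ m, Nat.clog 2 X = m + 1 := ⟨_, (Nat.succ_pred_eq_of_pos h3).symm⟩
    rw [hm, Nat.pred_succ] at h2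
    rw [hm, pow_succ]
    omega
  · have : X = 1 := le_antisymm h1 hX1
    rw [this]
    simp

/-- the finiteness -/
lemma selj_fin (hS : S_SELJ) (ho : Odd n) {a : Fin n → ℤ} (ha : Function.Injective a) :
    (SelJ a).Finite :=
  (hS n a (fun _ => 1) ho ha (fun _ => squarefree_one) (fun _ p hp h => by
    exfalso
    exact hp.one_lt.ne' (Nat.dvd_one.1 h))).1

/-- the exceptional points of the size `X` -/
def Bdj (z : ℕ) (T : Finset (PR n → ℝ)) (X : ℕ) : Set (Fin n → ℤ) :=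
  {a | ¬ (Function.Injective a ∧ (∏ p ∈ clJ z a, p) ^ 16 ≤ X ∧ rho T (omJ a) = 1)}

/-- the exceptional points -/
def Zj (z : ℕ) (T : Finset (PR n → ℝ)) : Set (Fin n → ℤ) := {a | a ∈ Bdj z T (pw a)}

lemma notMem_Zj {z : ℕ} {T : Finset (PR n → ℝ)} {a : Fin n → ℤ} (h : a ∉ Zj z T) :
    Function.Injective a ∧ (∏ p ∈ clJ z a, p) ^ 16 ≤ pw a ∧ rho T (omJ a) = 1 := by
  by_contra hcon
  exact h hcon

open scoped Classical in
/-- one exceptional set for the `k`-th moment -/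
theorem exc_k (hA : S_AVGJ) (hB : S_BADJ) (hn : 3 ≤ n) (ho : Odd n) (k : ℕ)
    (hM : ∃ T : Finset (PR n → ℝ), (∀ t ∈ T, ∀ j, 0 < t j) ∧ (∀ t ∈ T, 1 < ∏ j, t j) ∧
      MAFV (adj (n := n)) k T) :
    ∃ Z : Set (Fin n → ℤ), (∀ a, ¬ Function.Injective a → a ∈ Z) ∧
      (∀ ε : ℝ, 0 < ε → ∃ H0 : ℕ, ∀ X, H0 ≤ X →
        (((BoxJ n X).filter (fun a => a ∈ Z)).card : ℝ) ≤ ε * (BoxJ n X).card) ∧
      ∃ C : ℝ, ∀ X, ∑ a ∈ (BoxJ n X).filter (fun a => a ∉ Z), ((SelJ a).ncard : ℝ) ^ k ≤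
        C * (BoxJ n X).card := by
  obtain ⟨T, hT1, hT2, hT3⟩ := hM
  obtain ⟨z, C, hC0, hC⟩ := hA n k T hn ho hT1 hT3
  refine ⟨Zj z T, ?_, ?_, ?_⟩
  · intro a ha
    by_contra hcon
    exact ha (notMem_Zj hcon).1
  · intro ε hε
    have h0 : ∀ ε : ℝ, 0 < ε → ∃ N0 : ℕ, ∀ X, N0 ≤ X →
        (((BoxJ n X).filter (fun a => a ∈ Bdj z T X)).card : ℝ) ≤ ε * (X : ℝ) ^ n := by
      intro ε hε
      obtain ⟨N0, hN0⟩ := hB n z T hn hT1 hT2 ε hε
      refine ⟨N0, fun X hX => le_trans (le_of_eq ?_) (hN0 X hX)⟩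
      rw [Nat.cast_inj]
      exact card_bij (fun a _ => a) (fun a ha => by
        rw [mem_filter] at ha ⊢; exact ⟨ha.1, ha.2⟩) (fun _ _ _ _ h => h)
        (fun a ha => ⟨a, by rw [mem_filter] at ha ⊢; exact ⟨ha.1, ha.2⟩, rfl⟩)
    exact dens_of (by omega) _ h0 ε hε
  · refine ⟨C * 2 ^ n, fun X => ?_⟩
    rcases Nat.eq_zero_or_pos X with rfl | hX
    · -- the only point is not injective
      have h1 : (BoxJ n 0).filter (fun a => a ∉ Zj z T) = ∅ := by
        apply filter_eq_empty_iff.2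
        intro a ha hcon
        have h1 := (notMem_Zj hcon).1
        have h2 := mem_BoxJ.1 ha
        have h3 : a ⟨0, by omega⟩ = a ⟨1, by omega⟩ := by
          have := h2 ⟨0, by omega⟩
          have := h2 ⟨1, by omega⟩
          omega
        have h4 := h1 h3
        simp at h4
      rw [h1, sum_empty]
      positivity
    · set X' := 2 ^ Nat.clog 2 X with hX'
      have hXX : X ≤ X' := Nat.le_pow_clog (by norm_num) _
      have hX2 : X' ≤ 2 * X := clog_pow_le X hX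
      have h1 := hC X' (le_trans hX hXX)
      have hsub : (BoxJ n X).filter (fun a => a ∉ Zj z T) ⊆
          (BoxJ n X').filter (fun a => Function.Injective a ∧
            (∏ p ∈ clJ z a, p) ^ 16 ≤ X') := by
        intro a ha
        rw [mem_filter] at ha
        have h3 := notMem_Zj ha.2
        rw [mem_filter]
        refine ⟨BoxJ_mono hXX ha.1, h3.1, h3.2.1.trans ?_⟩
        unfold pw
        exact Nat.pow_le_pow_right (by norm_num) (Nat.clog_mono_right 2 (mem_BoxJ'.1 ha.1))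
      have h2 : ∑ a ∈ (BoxJ n X).filter (fun a => a ∉ Zj z T), ((SelJ a).ncard : ℝ) ^ k ≤
          ∑ a ∈ (BoxJ n X').filter (fun a => Function.Injective a ∧
            (∏ p ∈ clJ z a, p) ^ 16 ≤ X'), ((SelJ a).ncard : ℝ) ^ k * rho T (omJ a) := by
        calc ∑ a ∈ (BoxJ n X).filter (fun a => a ∉ Zj z T), ((SelJ a).ncard : ℝ) ^ k
            = ∑ a ∈ (BoxJ n X).filter (fun a => a ∉ Zj z T),
              ((SelJ a).ncard : ℝ) ^ k * rho T (omJ a) := by
              apply sum_congr rfl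
              intro a ha
              rw [(notMem_Zj (mem_filter.1 ha).2).2.2, mul_one]
          _ ≤ _ := sum_le_sum_of_subset_of_nonneg hsub fun a _ _ =>
              mul_nonneg (by positivity) (rho_nonneg hT1 _)
      calc _ ≤ C * (X' : ℝ) ^ n := h2.trans h1
        _ ≤ C * (2 * (X : ℝ)) ^ n := by
            apply mul_le_mul_of_nonneg_left _ hC0
            apply pow_le_pow_left₀ (Nat.cast_nonneg _)
            exact_mod_cast hX2
        _ = C * 2 ^ n * (X : ℝ) ^ n := by rw [mul_pow]; ring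
        _ ≤ C * 2 ^ n * (BoxJ n X).card :=
            mul_le_mul_of_nonneg_left (le_card_BoxJ X) (by positivity)

open scoped Classical in
/-- one exceptional set for all the moments -/
theorem exc_of (hM : S_MAFV) (hA : S_AVGJ) (hB : S_BADJ) (hn : 3 ≤ n) (ho : Odd n) :
    ∃ Z : Set (Fin n → ℤ), (∀ a, ¬ Function.Injective a → a ∈ Z) ∧
      (∀ ε : ℝ, 0 < ε → ∃ H0 : ℕ, ∀ X, H0 ≤ X →
        (((BoxJ n X).filter (fun a => a ∈ Z)).card : ℝ) ≤ ε * (BoxJ n X).card) ∧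
      ∀ k : ℕ, ∃ C : ℝ, ∀ X, ∑ a ∈ (BoxJ n X).filter (fun a => a ∉ Z),
        ((SelJ a).ncard : ℝ) ^ k ≤ C * (BoxJ n X).card := by
  choose Z hZ0 hZ1 hZ2 using fun k : ℕ =>
    exc_k hA hB hn ho (k + 1) (maf_PR hM hn (Nat.succ_le_succ (Nat.zero_le k)))
  obtain ⟨Z', hZ3, hZ4⟩ := diag (BoxJ n) BoxJ_mono
    (fun a => if Function.Injective a then ((SelJ a).ncard : ℝ) else 0)
    (fun a => by split_ifs <;> positivity) (fun k => Z k) (fun k => hZ1 k)
    (fun k => by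
      obtain ⟨C, hC⟩ := hZ2 k
      rcases Nat.eq_zero_or_pos k with rfl | hk
      · refine ⟨1, fun X => ?_⟩
        simp only [pow_zero, sum_const, nsmul_eq_mul, mul_one, one_mul]
        exact_mod_cast card_filter_le _ _
      refine ⟨C, fun X => le_trans (sum_le_sum fun a ha => ?_) (hC X)⟩
      rw [mem_filter] at ha
      have h1 : Function.Injective a := by
        by_contra hcon
        exact ha.2 (hZ0 k a hcon)
      rw [if_pos h1]
      rcases Nat.eq_zero_or_pos (SelJ a).ncard with h0 | h0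
      · rw [h0, Nat.cast_zero, zero_pow hk.ne', zero_pow (Nat.succ_ne_zero k)]
      · exact pow_le_pow_right₀ (by exact_mod_cast h0) (Nat.le_succ k))
  obtain ⟨Y, hY⟩ : ∃ Y : Set (Fin n → ℤ), ∀ a, a ∈ Y ↔ a ∈ Z' ∨ ¬ Function.Injective a :=
    ⟨{a | a ∈ Z' ∨ ¬ Function.Injective a}, fun a => Iff.rfl⟩
  refine ⟨Y, fun a ha => (hY a).2 (Or.inr ha), fun ε hε => ?_, fun k => ?_⟩
  · obtain ⟨H1, hH1⟩ := hZ3 (ε / 2) (by positivity)
    obtain ⟨H2, hH2⟩ := hZ1 0 (ε / 2) (by positivity)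
    refine ⟨max H1 H2, fun X hX => ?_⟩
    have h1 := hH1 X (le_trans (le_max_left _ _) hX)
    have h2 := hH2 X (le_trans (le_max_right _ _) hX)
    have h3 : (BoxJ n X).filter (fun a => a ∈ Y) ⊆
        (BoxJ n X).filter (fun a => a ∈ Z') ∪ (BoxJ n X).filter (fun a => a ∈ Z 0) := by
      intro a ha
      rw [mem_filter] at ha
      rw [mem_union, mem_filter, mem_filter]
      rcases (hY a).1 ha.2 with h | h
      · exact Or.inl ⟨ha.1, h⟩
      · exact Or.inr ⟨ha.1, hZ0 0 a h⟩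
    have h4 : (((BoxJ n X).filter (fun a => a ∈ Y)).card : ℝ) ≤
        (((BoxJ n X).filter (fun a => a ∈ Z')).card : ℝ) +
        (((BoxJ n X).filter (fun a => a ∈ Z 0)).card : ℝ) := by
      exact_mod_cast (card_le_card h3).trans (card_union_le _ _)
    linarith
  · obtain ⟨C, hC⟩ := hZ4 k
    refine ⟨C, fun X => le_trans ?_ (hC X)⟩
    calc ∑ a ∈ (BoxJ n X).filter (fun a => a ∉ Y), ((SelJ a).ncard : ℝ) ^ k
        = ∑ a ∈ (BoxJ n X).filter (fun a => a ∉ Y),
          (if Function.Injective a then ((SelJ a).ncard : ℝ) else 0) ^ k := by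
          apply sum_congr rfl
          intro a ha
          rw [mem_filter] at ha
          have h1 : Function.Injective a := by
            by_contra hcon
            exact ha.2 ((hY a).2 (Or.inr hcon))
          rw [if_pos h1]
      _ ≤ _ := by
          apply sum_le_sum_of_subset_of_nonneg
          · intro a ha
            rw [mem_filter] at ha ⊢
            exact ⟨ha.1, fun h => ha.2 ((hY a).2 (Or.inl h))⟩
          · intro a _ _
            split_ifs <;> positivity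

open scoped Classical in
/-- the moments over all the points of the box, for small `k` -/
theorem mom_of (hE : S_EXPV) (hX : S_EXT) (hA : S_AVGJ) (hC : S_CRU) {g k : ℕ} (hg : 1 ≤ g)
    (hk : 1 ≤ k) (hkg : 2 ^ k ≤ 4 * g) : ∃ C : ℝ, 0 ≤ C ∧ ∀ X : ℕ, 1 ≤ X →
    ∑ a ∈ (BoxJ (2 * g + 1) X).filter (fun a => Function.Injective a),
      ((SelJ a).ncard : ℝ) ^ k ≤ C * (X : ℝ) ^ (2 * g + 1) := by
  obtain ⟨z, C, hC0, hC1⟩ := hA (2 * g + 1) k ∅ (by omega) ⟨g, rfl⟩ (by simp)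
    (maf_small hE hX hg hk hkg)
  obtain ⟨C2, hC20, hC2⟩ := hC (2 * g + 1) k z (by omega) ⟨g, rfl⟩
  refine ⟨C + C2, by positivity, fun X hX => ?_⟩
  have h1 := hC1 X hX
  have h2 := hC2 X hX
  simp only [rho_empty, mul_one] at h1
  rw [← sum_filter_add_sum_filter_not _ (fun a => (∏ p ∈ clJ z a, p) ^ 16 ≤ X), filter_filter,
    filter_filter, add_mul]
  exact add_le_add h1 h2

end Pool.Agent.TH344.JG
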