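import Pool.Agent.TH344.JG.Stm
import Pool.Agent.W125.RS.ExpK

/-!
# Project JG: expansion of the moments into symbols, for a graph of classes (`S_EXPV`)
-/

set_option autoImplicit false

namespace Pool.Agent.TH344.JG

open Finset Pool.Agent.W262.RK Pool.Agent.W108.RK Pool.Agent.W762.RK2

namespace EX

variable {V : Type} [Fintype V] [DecidableEq V] {z y k : ℕ}

/-- a bit -/
def bt (a : Fin k) (x : Option (V × (Fin k → Bool))) : Bool := x.elim false fun r => r.2 a

/-- adjacency to a label -/
def ao (ad : V → V → Bool) (c : V) (x : Option (V × (Fin k → Bool))) : Bool :=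
  x.elim false fun r => ad c r.1

/-- the set of the primes with the bit -/
def Wt (a : Fin k) (ξ : Pr z y → Option (V × (Fin k → Bool))) : Finset ℕ :=
  Ts fun p => bt a (ξ p)

/-- the tuple -/
def ST (ξ : Pr z y → Option (V × (Fin k → Bool))) : V → ℕ := Dl fun p => (ξ p).map Prod.fst

lemma prod_ST (ξ : Pr z y → Option (V × (Fin k → Bool))) :
    ∏ j, ST ξ j = nb fun p => ((ξ p).map Prod.fst).isSome := prod_Dl _

lemma Ts_mono {b b' : Pr z y → Bool} (h : ∀ p, b p = true → b' p = true) : Ts b ⊆ Ts b' := by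
  intro q hq
  unfold Ts at *
  rw [Finset.mem_map] at *
  obtain ⟨p, hp, hpq⟩ := hq
  refine ⟨p, ?_, hpq⟩
  rw [Finset.mem_filter] at *
  exact ⟨hp.1, h p hp.2⟩

lemma Ts_inj {b b' : Pr z y → Bool} (h : Ts b = Ts b') : b = b' := by
  funext p
  have h1 := mem_Ts b p
  rw [h, mem_Ts] at h1
  exact Bool.eq_iff_iff.2 h1.symm

lemma Wt_sub (a : Fin k) (ξ : Pr z y → Option (V × (Fin k → Bool))) :
    Wt a ξ ⊆ (∏ j, ST ξ j).primeFactors := by
  rw [prod_ST, nb_pf]
  apply Ts_mono
  intro p hp
  cases h : ξ p with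
  | none => rw [h] at hp; exact absurd hp (by simp [bt])
  | some r => rfl

lemma sum_bigV (F : (V → ℕ) → (Fin k → Finset ℕ) → ℝ) :
    ∑ s ∈ Tup V z y, ∑ w ∈ Fintype.piFinset
      (fun _ : Fin k => (∏ j, s j).primeFactors.powerset), F s w =
      ∑ ξ : Pr z y → Option (V × (Fin k → Bool)), F (ST ξ) (fun a => Wt a ξ) := by
  rw [Finset.sum_sigma']
  symm
  refine Finset.sum_bij (fun ξ _ => ⟨ST ξ, fun a => Wt a ξ⟩) ?_ ?_ ?_ (fun _ _ => rfl)
  · intro ξ _
    rw [Finset.mem_sigma, Fintype.mem_piFinset]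
    exact ⟨Dl_mem _, fun a => Finset.mem_powerset.2 (Wt_sub a ξ)⟩
  · intro ξ _ ξ' _ h
    have h1 : ST ξ = ST ξ' := congrArg Sigma.fst h
    have h2 : (fun a => Wt a ξ) = (fun a => Wt a ξ') := congrArg Sigma.snd h
    funext p
    have e1 : (ξ p).map Prod.fst = (ξ' p).map Prod.fst := congrFun (Dl_inj h1) p
    have e2 : ∀ a, bt a (ξ p) = bt a (ξ' p) := fun a => congrFun (Ts_inj (congrFun h2 a)) p
    cases hx : ξ p with
    | none =>
      cases hx' : ξ' p with
      | none => rfl
      | some a' => rw [hx, hx'] at e1; exact absurd e1 (by simp)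
    | some a =>
      cases hx' : ξ' p with
      | none => rw [hx, hx'] at e1; exact absurd e1 (by simp)
      | some a' =>
        rw [hx, hx'] at e1
        obtain ⟨j, v⟩ := a
        obtain ⟨j', v'⟩ := a'
        have e4 : j = j' := by simpa using e1
        have e5 : v = v' := by
          funext a
          have e6 := e2 a
          rw [hx, hx'] at e6
          exact e6
        rw [e4, e5]
  · rintro ⟨s, w⟩ hs
    rw [Finset.mem_sigma, Fintype.mem_piFinset] at hs
    obtain ⟨hs, hw⟩ := hs
    have hw' : ∀ a, w a ⊆ (∏ j, s j).primeFactors := fun a => Finset.mem_powerset.1 (hw a)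
    simp only at hs
    have hprod : ∏ j, Dl (lab (z := z) (y := y) s) j = nb fun p => (lab s p).isSome := prod_Dl _
    rw [Dl_lab hs] at hprod
    refine ⟨fun p => (lab s p).map fun j => (j, fun a => decide ((p : ℕ) ∈ w a)),
      Finset.mem_univ _, ?_⟩
    have e1 : ST (fun p : Pr z y => (lab s p).map fun j => (j, fun a : Fin k =>
        decide ((p : ℕ) ∈ w a))) = s := by
      unfold ST
      conv_rhs => rw [← Dl_lab hs]
      congr 1
      funext p
      show ((lab s p).map fun j => (j, fun a : Fin k => decide ((p : ℕ) ∈ w a))).map Prod.fst = _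
      cases lab s p <;> rfl
    have e2 : (fun a : Fin k => Wt a (fun p : Pr z y => (lab s p).map fun j =>
        (j, fun a : Fin k => decide ((p : ℕ) ∈ w a)))) = w := by
      funext a
      ext q
      constructor
      · intro hq
        unfold Wt Ts at hq
        rw [Finset.mem_map] at hq
        obtain ⟨p, hp, hpq⟩ := hq
        have hp2 := (Finset.mem_filter.1 hp).2
        have hpq' : (p : ℕ) = q := hpq
        rw [← hpq']
        cases hl : lab s p with
        | none => simp [hl, bt] at hp2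
        | some j =>
          simp only [hl, bt, Option.map_some, Option.elim, decide_eq_true_eq] at hp2
          exact hp2
      · intro hq
        have hq2 := hw' a hq
        rw [hprod, nb_pf] at hq2
        unfold Ts at hq2
        rw [Finset.mem_map] at hq2
        obtain ⟨p, hp, hpq⟩ := hq2
        have hp2 : (lab s p).isSome = true := (Finset.mem_filter.1 hp).2
        have hpq' : (p : ℕ) = q := hpq
        rw [← hpq'] at hq ⊢
        unfold Wt
        rw [mem_Ts]
        show bt a ((lab s p).map fun j => (j, fun a : Fin k => decide ((p : ℕ) ∈ w a))) = true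
        cases hl : lab s p with
        | none => rw [hl] at hp2; exact absurd hp2 (by simp)
        | some j => simp [bt, hq]
    rw [e1, e2]

open Classical in
/-- the local condition -/
def Cd (ad : V → V → Bool) (s : V → ℕ) (w : Finset ℕ) (e : Bool) (p : ℕ) : Prop :=
  ∀ c, p ∣ s c → (∏ q ∈ w.filter (fun q => ∃ c', ad c c' = true ∧ q ∣ s c'),
    jacobiSym (q : ℤ) p) = if p ∈ w ∧ e = true then -1 else 1

open Classical in
/-- in the definition of `NV` the product is over the set of the integers `q`, `q ∈ w` -/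
lemma lift_eq (w : Finset ℕ) : (w >>= fun a => (pure (a : ℤ) : Finset ℤ)) =
    w.image (fun a : ℕ => (a : ℤ)) := by
  ext q
  rw [bind_pure_comp, Finset.fmap_def]
  simp only [Finset.mem_image]

open Classical in
omit [DecidableEq V] in
lemma lift_prod (ad : V → V → Bool) (s : V → ℕ) (w : Finset ℕ) (c : V) (p : ℕ) :
    (∏ q ∈ (w >>= fun a => (pure (a : ℤ) : Finset ℤ)).filter
      (fun q => ∃ c', ad c c' = true ∧ q ∣ (s c' : ℤ)), jacobiSym q p) =
      ∏ q ∈ w.filter (fun q => ∃ c', ad c c' = true ∧ q ∣ s c'), jacobiSym (q : ℤ) p := by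
  rw [lift_eq, Finset.filter_image, Finset.prod_image (fun a _ b _ h => Int.natCast_inj.1 h)]
  refine Finset.prod_congr ?_ fun _ _ => rfl
  ext q
  simp only [Finset.mem_filter, Int.natCast_dvd_natCast]

lemma NFV_eq (ad : V → V → Bool) {s : V → ℕ} (hs : s ∈ Tup V z y) :
    NFV ad k s = ∑ w ∈ Fintype.piFinset
      (fun _ : Fin k => (∏ j, s j).primeFactors.powerset),
      ∏ p ∈ (∏ j, s j).primeFactors, ((∏ a, ind (Cd ad s (w a) true p)) +
        ∏ a, ind (Cd ad s (w a) false p)) / 2 := by
  classical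
  have hne : ∏ j, s j ≠ 0 := Finset.prod_ne_zero_iff.2 fun j _ => (sqf_of_mem hs j).ne_zero
  have h0 : ∀ E : Finset ℕ, (NV ad s E : ℝ) =
      ∑ w ∈ (∏ j, s j).primeFactors.powerset,
        ∏ p ∈ (∏ j, s j).primeFactors, ind (Cd ad s w (decide (p ∈ E)) p) := by
    intro E
    unfold NV
    rw [Finset.card_filter]
    push_cast
    refine Finset.sum_congr rfl fun w _ => ?_
    rw [prod_ind]
    unfold ind
    congr 1
    apply propext
    unfold Cd
    simp only [decide_eq_true_eq]
    constructor
    · intro h p hp c hpc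
      refine (lift_prod ad s w c p).symm.trans (h c p (Nat.mem_primeFactors.2
        ⟨Nat.prime_of_mem_primeFactors hp, hpc, (sqf_of_mem hs c).ne_zero⟩))
    · intro h c p hp
      refine (lift_prod ad s w c p).trans (h p (Nat.mem_primeFactors.2
        ⟨Nat.prime_of_mem_primeFactors hp, ?_, hne⟩) c (Nat.dvd_of_mem_primeFactors hp))
      exact (Nat.dvd_of_mem_primeFactors hp).trans (Finset.dvd_prod_of_mem _ (Finset.mem_univ c))
  have h1 : ∀ E : Finset ℕ, (NV ad s E : ℝ) ^ k =
      ∑ w ∈ Fintype.piFinset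
        (fun _ : Fin k => (∏ j, s j).primeFactors.powerset),
        ∏ p ∈ (∏ j, s j).primeFactors, ∏ a, ind (Cd ad s (w a) (decide (p ∈ E)) p) := by
    intro E
    have h2 : (NV ad s E : ℝ) ^ k = ∏ _a : Fin k, (NV ad s E : ℝ) := by
      rw [Finset.prod_const, Finset.card_univ, Fintype.card_fin]
    rw [h2, Finset.prod_congr rfl fun a _ => h0 E, Finset.prod_univ_sum]
    refine Finset.sum_congr rfl fun d _ => ?_
    rw [Finset.prod_comm]
  unfold NFV
  rw [Finset.sum_congr rfl fun E _ => h1 E, Finset.sum_comm, Finset.mul_sum]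
  refine Finset.sum_congr rfl fun w _ => ?_
  refine avg (∏ j, s j).primeFactors (∏ j, s j).primeFactors (Finset.Subset.refl _)
    (fun b p => ∏ a, ind (Cd ad s (w a) b p)) ?_
  intro p hp hpA
  exact absurd hp hpA

/-- the product of the symbols -/
noncomputable def SS (ad : V → V → Bool) (ξ : Pr z y → Option (V × (Fin k → Bool))) (a : Fin k)
    (c : V) (p : Pr z y) : ℝ :=
  ∏ q : Pr z y, if (bt a (ξ q) && ao ad c (ξ q)) = true then Jr (q : ℕ) p else 1

omit [Fintype V] in
lemma dvd_ST (ξ : Pr z y → Option (V × (Fin k → Bool))) (q : Pr z y) (c : V) :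
    (q : ℕ) ∣ ST ξ c ↔ (ξ q).map Prod.fst = some c := by
  unfold ST Dl
  rw [dvd_nb, decide_eq_true_iff]

lemma cast_prod (ad : V → V → Bool) (ξ : Pr z y → Option (V × (Fin k → Bool))) (a : Fin k)
    (c : V) (p : Pr z y) :
    ((∏ q ∈ (Wt a ξ).filter (fun q => ∃ c', ad c c' = true ∧ q ∣ ST ξ c'),
      jacobiSym (q : ℤ) (p : ℕ) : ℤ) : ℝ) = SS ad ξ a c p := by
  rw [Finset.prod_filter]
  unfold Wt Ts SS
  rw [Finset.prod_map, Finset.prod_filter]
  push_cast
  refine Finset.prod_congr rfl fun q _ => ?_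
  have h1 : (∃ c', ad c c' = true ∧ ((Function.Embedding.subtype _) q : ℕ) ∣ ST ξ c') ↔
      ao ad c (ξ q) = true := by
    constructor
    · rintro ⟨c', h2, h3⟩
      have h4 := (dvd_ST ξ q c').1 h3
      cases hq : ξ q with
      | none => rw [hq] at h4; exact absurd h4 (by simp)
      | some r =>
        rw [hq] at h4
        have h5 : r.1 = c' := by simpa using h4
        show ad c r.1 = true
        rw [h5]
        exact h2
    · intro h2
      cases hq : ξ q with
      | none => rw [hq] at h2; exact absurd h2 (by simp [ao])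
      | some r =>
        rw [hq] at h2
        exact ⟨r.1, h2, (dvd_ST ξ q r.1).2 (by rw [hq]; rfl)⟩
  by_cases hb : bt a (ξ q) = true
  · by_cases hc : ao ad c (ξ q) = true
    · rw [if_pos hb, if_pos (h1.2 hc), if_pos (by rw [hb, hc]; rfl)]
      rfl
    · rw [if_pos hb, if_neg (fun h => hc (h1.1 h)), if_neg (by
        rw [hb]; simpa using hc)]
  · rw [if_neg hb, if_neg (by
      intro h
      exact hb (Bool.and_eq_true _ _ ▸ h).1)]

lemma Cd_eval (ad : V → V → Bool) (ξ : Pr z y → Option (V × (Fin k → Bool))) (a : Fin k) (e : Bool)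
    (p : Pr z y) (c : V) (x : Fin k → Bool) (hx : ξ p = some (c, x)) :
    ind (Cd ad (ST ξ) (Wt a ξ) e p) =
      ind (SS ad ξ a c p = if (x a && e) = true then (-1 : ℝ) else 1) := by
  congr 1
  apply propext
  unfold Cd
  have h1 : ∀ c', (p : ℕ) ∣ ST ξ c' ↔ c' = c := by
    intro c'
    rw [dvd_ST, hx]
    simp [eq_comm]
  have h2 : (p : ℕ) ∈ Wt a ξ ↔ x a = true := by
    unfold Wt
    rw [mem_Ts, hx]
    rfl
  simp only [h1, forall_eq, h2]
  rw [← cast_prod, ← Int.cast_inj (α := ℝ)]
  have h3 : (((if x a = true ∧ e = true then -1 else 1 : ℤ)) : ℝ) =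
      if (x a && e) = true then (-1 : ℝ) else 1 := by
    cases x a <;> cases e <;> simp
  rw [h3]

/-! ### the local identity -/

lemma loc1 (S : ℝ) (hS : S = 1 ∨ S = -1) (u e : Bool) :
    ind (S = if (u && e) = true then (-1 : ℝ) else 1) =
      ∑ y : Bool, (if (u && y) = true then sg e else 1) * (1 / 2 * (if y = true then S else 1)) := by
  rw [Fintype.sum_bool]
  rcases hS with h | h <;> subst h <;> cases u <;> cases e <;> simp [ind, sg] <;> norm_num

lemma prod_dtp (r : ℝ) (hr : r * r = 1) (x y : Fin k → Bool) :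
    (∏ a, if (x a && y a) = true then r else 1) = if dtp x y = true then r else 1 := by
  rw [← Finset.prod_filter, Finset.prod_const]
  unfold dtp
  simp only [decide_eq_true_iff]
  generalize (univ.filter (fun a => (x a && y a) = true)).card = m
  conv_lhs => rw [← Nat.div_add_mod m 2]
  rw [pow_add, pow_mul, pow_two, hr, one_pow, one_mul]
  rcases Nat.mod_two_eq_zero_or_one m with h | h <;> simp [h]

lemma loc (S : Fin k → ℝ) (hS : ∀ a, S a = 1 ∨ S a = -1) (u : Fin k → Bool) :
    ((∏ a, ind (S a = if (u a && true) = true then (-1 : ℝ) else 1)) +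
      ∏ a, ind (S a = if (u a && false) = true then (-1 : ℝ) else 1)) / 2 =
      ∑ y : Fin k → Bool, if P0 u y = true then
        1 / 2 ^ k * ∏ a, (if y a = true then S a else 1) else 0 := by
  have h1 : ∀ e, ∏ a, ind (S a = if (u a && e) = true then (-1 : ℝ) else 1) =
      ∑ y : Fin k → Bool, (if dtp u y = true then sg e else 1) *
        (1 / 2 ^ k * ∏ a, (if y a = true then S a else 1)) := by
    intro e
    rw [Finset.prod_congr rfl fun a _ => loc1 (S a) (hS a) (u a) e,
      Finset.prod_univ_sum, Fintype.piFinset_univ]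
    refine Finset.sum_congr rfl fun y _ => ?_
    rw [Finset.prod_mul_distrib, Finset.prod_mul_distrib,
      prod_dtp _ (by cases e <;> simp [sg]), Finset.prod_const,
      Finset.card_univ, Fintype.card_fin, one_div, one_div, inv_pow]
  rw [h1, h1, ← Finset.sum_add_distrib, Finset.sum_div]
  refine Finset.sum_congr rfl fun y _ => ?_
  unfold P0
  cases h : dtp u y
  · simp
  · simp [sg]

/-! ### the left hand side -/

/-- the local term -/
noncomputable def Tm (ad : V → V → Bool) (c : ℕ) (ξ : Pr z y → Option (V × (Fin k → Bool)))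
    (p : Pr z y) : ℝ :=
  (ξ p).elim 1 fun r => 1 / ((p : ℝ) - c) *
    (((∏ a, ind (SS ad ξ a r.1 p = if (r.2 a && true) = true then (-1 : ℝ) else 1)) +
      ∏ a, ind (SS ad ξ a r.1 p = if (r.2 a && false) = true then (-1 : ℝ) else 1)) / 2)

lemma lhsV (ad : V → V → Bool) (c : ℕ) (Φ : (V → ℕ) → ℝ) :
    ∑ s ∈ Tup V z y, NFV ad k s * (∏ j, gw 1 c (s j)) * Φ s =
      ∑ ξ : Pr z y → Option (V × (Fin k → Bool)), (∏ p, Tm ad c ξ p) * Φ (ST ξ) := by
  have h1 : ∀ s ∈ Tup V z y, NFV ad k s * (∏ j, gw 1 c (s j)) * Φ s =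
      ∑ w ∈ Fintype.piFinset (fun _ : Fin k => (∏ j, s j).primeFactors.powerset),
        (∏ p ∈ (∏ j, s j).primeFactors, ((∏ a, ind (Cd ad s (w a) true p)) +
        ∏ a, ind (Cd ad s (w a) false p)) / 2) * (∏ j, gw 1 c (s j)) * Φ s := by
    intro s hs
    rw [NFV_eq ad hs, Finset.sum_mul, Finset.sum_mul]
  rw [Finset.sum_congr rfl h1, sum_bigV fun s w =>
    (∏ p ∈ (∏ j, s j).primeFactors, ((∏ a, ind (Cd ad s (w a) true p)) +
        ∏ a, ind (Cd ad s (w a) false p)) / 2) * (∏ j, gw 1 c (s j)) * Φ s]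
  refine Finset.sum_congr rfl fun ξ _ => ?_
  congr 1
  have h2 : ∏ j, gw 1 c (ST ξ j) = ∏ p : Pr z y, ((ξ p).map Prod.fst).elim 1
      fun _ => 1 / ((p : ℝ) - c) := prod_gw (fun _ => 1) c _
  rw [h2, prod_ST, prod_pf _ fun p => ((∏ a, ind (Cd ad (ST ξ) (Wt a ξ) true p)) +
    ∏ a, ind (Cd ad (ST ξ) (Wt a ξ) false p)) / 2, ← Finset.prod_mul_distrib]
  refine Finset.prod_congr rfl fun p _ => ?_
  unfold Tm
  cases hx : ξ p with
  | none => simp
  | some r =>
    obtain ⟨c', x⟩ := r
    have h4 : ∀ (e : Bool) (a : Fin k), ind (Cd ad (ST ξ) (Wt a ξ) e p) =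
        ind (SS ad ξ a c' p = if (x a && e) = true then (-1 : ℝ) else 1) :=
      fun e a => Cd_eval ad ξ a e p c' x hx
    simp only [h4]
    simp only [Option.map_some, Option.isSome_some, if_true, Option.elim]
    ring

/-! ### the right hand side -/

/-- forget the character -/
def fg (x : Option (IV V k P0)) : Option (V × (Fin k → Bool)) :=
  x.map fun i => (i.1.1, i.1.2.1)

/-- the local factor -/
noncomputable def Gf (ad : V → V → Bool) (c : ℕ) (ξ : Pr z y → Option (V × (Fin k → Bool)))
    (p : Pr z y) (x : Option (IV V k P0)) : ℝ :=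
  x.elim 1 fun i => 1 / ((p : ℝ) - c) * (1 / 2 ^ k *
    ∏ a, (if i.1.2.2 a = true then SS ad ξ a i.1.1 p else 1))

omit [DecidableEq V] in
lemma sum_IV (F : V × (Fin k → Bool) × (Fin k → Bool) → ℝ) :
    ∑ i : IV V k P0, F i.1 = ∑ r, if P0 r.2.1 r.2.2 = true then F r else 0 := by
  rw [← Finset.sum_filter]
  exact (Finset.sum_subtype (univ.filter fun r : V × (Fin k → Bool) ×
    (Fin k → Bool) => P0 r.2.1 r.2.2 = true) (fun x => by simp) F).symm

lemma Jr_sq {q p : Pr z y} (hqp : q ≠ p) : Jr (q : ℕ) p = 1 ∨ Jr (q : ℕ) p = -1 :=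
  mul_self_eq_one_iff.1 (Pool.Agent.W125.RS.Jr_self_mul hqp)

omit [Fintype V] [DecidableEq V] in
lemma SS_sq (ad : V → V → Bool) (hirr : ∀ c, ad c c = false)
    (ξ : Pr z y → Option (V × (Fin k → Bool))) (a : Fin k) (p : Pr z y) (c : V)
    (x : Fin k → Bool) (hx : ξ p = some (c, x)) : SS ad ξ a c p = 1 ∨ SS ad ξ a c p = -1 := by
  unfold SS
  refine Finset.prod_induction _ (fun t : ℝ => t = 1 ∨ t = -1) ?_ (Or.inl rfl) ?_
  · rintro s t (rfl | rfl) (rfl | rfl) <;> norm_num
  · intro q _
    by_cases hq : q = p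
    · subst hq
      left
      rw [if_neg]
      rw [hx]
      show ¬ ((bt a (some (c, x)) && ad c c) = true)
      rw [hirr]
      simp
    · split_ifs
      · exact Jr_sq hq
      · exact Or.inl rfl

lemma sum_Gf (ad : V → V → Bool) (hirr : ∀ c, ad c c = false) (c : ℕ)
    (ξ : Pr z y → Option (V × (Fin k → Bool))) (p : Pr z y) :
    ∑ x ∈ univ.filter (fun x : Option (IV V k P0) => fg x = ξ p), Gf ad c ξ p x =
      Tm ad c ξ p := by
  rw [Finset.sum_filter, Fintype.sum_option]
  unfold Tm
  cases hx : ξ p with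
  | none => simp [fg, Gf]
  | some r =>
    obtain ⟨j, v⟩ := r
    have h0 : (if fg (none : Option (IV V k P0)) = some (j, v) then Gf ad c ξ p none else 0) = 0 := by
      rw [if_neg]
      simp [fg]
    rw [h0, zero_add]
    set F : V × (Fin k → Bool) × (Fin k → Bool) → ℝ :=
      fun r : V × (Fin k → Bool) × (Fin k → Bool) =>
          if r.1 = j ∧ r.2.1 = v then 1 / ((p : ℝ) - c) * (1 / 2 ^ k *
            ∏ a, (if r.2.2 a = true then SS ad ξ a r.1 p else 1)) else 0 with hF
    have h1 : ∀ i : IV V k P0, (if fg (some i) = some (j, v) then Gf ad c ξ p (some i) else 0) =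
        F i.1 := by
      intro i
      refine if_congr ?_ rfl rfl
      simp only [fg, Option.map_some, Option.some.injEq, Prod.mk.injEq]
    refine (Finset.sum_congr rfl fun i _ => h1 i).trans ((sum_IV F).trans ?_)
    rw [Fintype.sum_prod_type, Finset.sum_eq_single j]
    · rw [Fintype.sum_prod_type, Finset.sum_eq_single v]
      · show _ = 1 / ((p : ℝ) - c) * _
        rw [loc (fun a => SS ad ξ a j p) (fun a => SS_sq ad hirr ξ a p j v hx) v, Finset.mul_sum]
        refine Finset.sum_congr rfl fun y _ => ?_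
        simp only [hF, and_self, if_true, mul_ite, mul_zero]
      · intro v' _ hv'
        refine Finset.sum_eq_zero fun x _ => ?_
        simp [hF, hv']
      · intro h
        exact absurd (Finset.mem_univ _) h
    · intro j' _ hj'
      refine Finset.sum_eq_zero fun x _ => ?_
      simp [hF, hj']
    · intro h
      exact absurd (Finset.mem_univ _) h

lemma rhsV (ad : V → V → Bool) (hirr : ∀ c, ad c c = false) (hsym : ∀ c c', ad c c' = ad c' c)
    (c : ℕ) (ξ : Pr z y → Option (V × (Fin k → Bool))) (l : Pr z y → Option (IV V k P0))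
    (h : ∀ p, fg (l p) = ξ p) :
    (∏ i, gw (1 / 2 ^ k) c (Dl l i)) * Pool.Agent.W262.RK.Sym (LV ad) (fun _ => 1) (Dl l) =
      ∏ p, Gf ad c ξ p (l p) := by
  rw [prod_gw (fun _ => 1 / 2 ^ k), Sym_Dl, ← Finset.prod_mul_distrib, ← Finset.prod_mul_distrib]
  refine Finset.prod_congr rfl fun p _ => ?_
  have hJ1 : Jr 1 (p : ℕ) = 1 := Jr_one_left p
  cases hl : l p with
  | none =>
    have h0 : ∀ q, Pool.Agent.W762.RK2.lk (LV ad) (l q) (none : Option (IV V k P0)) = false := by
      intro q
      cases l q <;> rfl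
    simp [h0, Gf]
  | some i =>
    have h2 : ∏ q : Pr z y, (if Pool.Agent.W762.RK2.lk (LV ad) (l q) (some i) = true
        then Jr (q : ℕ) p else 1) =
        ∏ a, (if i.1.2.2 a = true then SS ad ξ a i.1.1 p else 1) := by
      have h3 : ∀ a : Fin k, (if i.1.2.2 a = true then SS ad ξ a i.1.1 p else 1) =
          ∏ q : Pr z y, if i.1.2.2 a = true then
            (if (bt a (ξ q) && ao ad i.1.1 (ξ q)) = true then Jr (q : ℕ) p else 1) else 1 := by
        intro a
        by_cases ha : i.1.2.2 a = true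
        · simp only [if_pos ha]
          rfl
        · simp only [if_neg ha, Finset.prod_const_one]
      simp only [h3]
      rw [Finset.prod_comm]
      refine Finset.prod_congr rfl fun q _ => ?_
      cases hq : l q with
      | none =>
        have h5 : ξ q = none := by rw [← h q, hq]; rfl
        simp [Pool.Agent.W762.RK2.lk, h5, bt]
      | some i' =>
        have h5 : ξ q = some (i'.1.1, i'.1.2.1) := by
          rw [← h q, hq]; rfl
        have e1 : ∀ a, bt a (ξ q) = i'.1.2.1 a := fun a => by rw [h5]; rfl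
        have e2 : ao ad i.1.1 (ξ q) = ad i.1.1 i'.1.1 := by rw [h5]; rfl
        simp only [e1, e2]
        have h7 : Pool.Agent.W762.RK2.lk (LV ad) (some i') (some i) =
            (ad i'.1.1 i.1.1 && dtp i'.1.2.1 i.1.2.2) := rfl
        rw [h7, hsym i'.1.1 i.1.1]
        by_cases hc : ad i.1.1 i'.1.1 = true
        · have hqp : q ≠ p := by
            rintro rfl
            rw [hl] at hq
            have : i = i' := Option.some.inj hq
            rw [this, hirr] at hc
            exact absurd hc (by simp)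
          rw [hc, Bool.true_and, ← prod_dtp (Jr (q : ℕ) p) (Pool.Agent.W125.RS.Jr_self_mul hqp)
            i'.1.2.1 i.1.2.2]
          refine Finset.prod_congr rfl fun a _ => ?_
          cases i'.1.2.1 a <;> cases i.1.2.2 a <;> simp
        · have hc' : ad i.1.1 i'.1.1 = false := by simpa using hc
          rw [hc']
          simp
    rw [h2]
    simp only [Gf, Option.elim, hJ1]
    ring

/-- the tuple from the labelling -/
lemma ST_eq (ξ : Pr z y → Option (V × (Fin k → Bool))) (l : Pr z y → Option (IV V k P0))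
    (h : ∀ p, fg (l p) = ξ p) (j : V) :
    ∏ i ∈ univ.filter (fun i : IV V k P0 => i.1.1 = j), Dl l i = ST ξ j := by
  unfold ST Dl nb
  rw [Finset.prod_comm]
  refine Finset.prod_congr rfl fun p _ => ?_
  beta_reduce
  have hp := h p
  generalize ξ p = r at hp
  subst hp
  cases hl : l p with
  | none => simp [fg]
  | some i =>
    have e1 : (Option.map Prod.fst (fg (some i)) : Option V) = some i.1.1 := by
      simp [fg]
    rw [e1]
    by_cases hi : i.1.1 = j
    · rw [Finset.prod_eq_single i]
      · simp [hi]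
      · intro b _ hb
        rw [if_neg]
        simp only [decide_eq_true_eq, Option.some.injEq]
        exact fun h' => hb h'.symm
      · intro h'
        exact absurd (by rw [Finset.mem_filter]; exact ⟨Finset.mem_univ _, hi⟩) h'
    · rw [if_neg (by simpa using hi)]
      refine Finset.prod_eq_one fun b hb => ?_
      rw [if_neg]
      simp only [decide_eq_true_eq, Option.some.injEq]
      rintro rfl
      exact hi (Finset.mem_filter.1 hb).2

end EX

theorem expv : S_EXPV := by
  intro V _ _ ad hirr hsym k c z y hz Φ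
  classical
  rw [EX.lhsV, sum_Tup, ← Finset.sum_fiberwise univ
    (fun (l : Pr z y → Option (IV V k P0)) => fun p => EX.fg (l p))]
  refine Finset.sum_congr rfl fun ξ _ => ?_
  have h1 : (univ.filter fun l : Pr z y → Option (IV V k P0) => (fun p => EX.fg (l p)) = ξ) =
      Fintype.piFinset (fun p => univ.filter (fun x : Option (IV V k P0) => EX.fg x = ξ p)) := by
    ext l
    simp only [Finset.mem_filter, Finset.mem_univ, true_and, Fintype.mem_piFinset, funext_iff]
  rw [h1, Finset.prod_congr rfl fun p _ => (EX.sum_Gf ad hirr c ξ p).symm, Finset.prod_univ_sum,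
    Finset.sum_mul]
  refine Finset.sum_congr rfl fun l hl => ?_
  rw [Fintype.mem_piFinset] at hl
  have hl' : ∀ p, EX.fg (l p) = ξ p := fun p => (Finset.mem_filter.1 (hl p)).2
  rw [EX.rhsV ad hirr hsym c ξ l hl']
  congr 2
  funext j
  exact (EX.ST_eq ξ l hl' j).symm

end Pool.Agent.TH344.JG
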