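import Mathlib
import Pool.Agent.TH344.JG.Stm2

/-!
# JG-EXT: the largest unlinked set for the edges of the complete graph on `2 g + 1` vertices
-/

set_option autoImplicit false

namespace Pool.Agent.TH344.JG

open Finset

namespace Ext

/-! ### Linear algebra modulo 2 -/

/-- pairs of vectors modulo 2 -/
abbrev E (k : ℕ) : Type := (Fin k → ZMod 2) × (Fin k → ZMod 2)

/-- the quadratic form `x · y` -/
def qf {k : ℕ} (u : E k) : ZMod 2 := u.1 ⬝ᵥ u.2

/-- its polar form -/
def bf {k : ℕ} (u v : E k) : ZMod 2 := u.1 ⬝ᵥ v.2 + v.1 ⬝ᵥ u.2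

/-- the polar form as a bilinear form -/
def Bf (k : ℕ) : LinearMap.BilinForm (ZMod 2) (E k) :=
  LinearMap.mk₂ (ZMod 2) bf
    (fun u u' v => by simp only [bf, Prod.fst_add, Prod.snd_add, add_dotProduct, dotProduct_add]; ring)
    (fun c u v => by
      simp only [bf, Prod.smul_fst, Prod.smul_snd, smul_dotProduct, dotProduct_smul, smul_eq_mul]; ring)
    (fun u v v' => by simp only [bf, Prod.fst_add, Prod.snd_add, add_dotProduct, dotProduct_add]; ring)
    (fun c u v => by
      simp only [bf, Prod.smul_fst, Prod.smul_snd, smul_dotProduct, dotProduct_smul, smul_eq_mul]; ring)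

lemma Bf_apply {k : ℕ} (u v : E k) : Bf k u v = bf u v := rfl

lemma bf_comm {k : ℕ} (u v : E k) : bf u v = bf v u := by
  simp only [bf]; ring

lemma qf_add {k : ℕ} (u v : E k) : qf (u + v) = qf u + qf v + bf u v := by
  simp only [qf, bf, Prod.fst_add, Prod.snd_add, add_dotProduct, dotProduct_add]
  ring

lemma Bf_refl (k : ℕ) : (Bf k).IsRefl := by
  intro u v h
  rw [Bf_apply] at h ⊢
  rw [bf_comm]; exact h

lemma Bf_nondeg (k : ℕ) : (Bf k).Nondegenerate := by
  refine (LinearMap.IsRefl.nondegenerate_iff_separatingLeft (Bf_refl k)).2 ?_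
  intro u hu
  have h1 : ∀ a, u.1 a = 0 := by
    intro a
    have := hu (0, Pi.single a 1)
    simpa [Bf_apply, bf] using this
  have h2 : ∀ a, u.2 a = 0 := by
    intro a
    have := hu (Pi.single a 1, 0)
    simpa [Bf_apply, bf] using this
  ext a
  · exact h1 a
  · exact h2 a

lemma finrank_E (k : ℕ) : Module.finrank (ZMod 2) (E k) = 2 * k := by
  rw [Module.finrank_prod]
  simp
  ring

/-- the sign -/
def sg (a : ZMod 2) : ℤ := if a = 0 then 1 else -1

lemma sg_add (a b : ZMod 2) : sg (a + b) = sg a * sg b := by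
  revert a b; decide

lemma sg_abs (a : ZMod 2) : |sg a| = 1 := by
  revert a; decide

lemma sg_one : sg 1 = -1 := by decide

lemma sg_zero : sg 0 = 1 := by decide

lemma ne_zero_iff (a : ZMod 2) : a ≠ 0 ↔ a = 1 := by revert a; decide

open Classical in
/-- the character sum of the quadratic form on a subspace is at most `2 ^ k` -/
lemma gauss {k : ℕ} (W : Submodule (ZMod 2) (E k)) : |∑ v : W, sg (qf (v : E k))| ≤ 2 ^ k := by
  set G : ℤ := ∑ v : W, sg (qf (v : E k)) with hG
  -- inner sums
  have inner : ∀ h : W, (∑ v : W, sg (bf (v : E k) (h : E k))) =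
      if (h : E k) ∈ (Bf k).orthogonal W then (Fintype.card W : ℤ) else 0 := by
    intro h
    split_ifs with hh
    · have : ∀ v : W, sg (bf (v : E k) (h : E k)) = 1 := by
        intro v
        have : bf (v : E k) (h : E k) = 0 := by
          have := (LinearMap.BilinForm.mem_orthogonal_iff.1 hh) (v : E k) v.2
          exact this
        rw [this, sg_zero]
      simp [this]
    · have : ∃ w : W, bf (w : E k) (h : E k) = 1 := by
        by_contra hcon
        push Not at hcon
        apply hh
        rw [LinearMap.BilinForm.mem_orthogonal_iff]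
        intro v hv
        by_contra hv'
        exact hcon ⟨v, hv⟩ ((ne_zero_iff _).1 hv')
      obtain ⟨w, hw⟩ := this
      have hs : (∑ v : W, sg (bf (v : E k) (h : E k))) =
          ∑ v : W, sg (bf ((v + w : W) : E k) (h : E k)) :=
        (Equiv.sum_comp (Equiv.addRight w) (fun v : W => sg (bf (v : E k) (h : E k)))).symm
      have h2 : ∀ v : W, sg (bf ((v + w : W) : E k) (h : E k)) = - sg (bf (v : E k) (h : E k)) := by
        intro v
        have : bf ((v + w : W) : E k) (h : E k) = bf (v : E k) (h : E k) + bf (w : E k) (h : E k) := by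
          have := LinearMap.map_add₂ (Bf k) (v : E k) (w : E k) (h : E k)
          exact this
        rw [this, sg_add, hw, sg_one]
        ring
      rw [Finset.sum_congr rfl (fun v _ => h2 v), Finset.sum_neg_distrib] at hs
      linarith
  have hG2 : G ^ 2 = ∑ h : W, sg (qf (h : E k)) *
      (if (h : E k) ∈ (Bf k).orthogonal W then (Fintype.card W : ℤ) else 0) := by
    calc G ^ 2 = ∑ v : W, ∑ v' : W, sg (qf (v : E k)) * sg (qf (v' : E k)) := by
          rw [sq, hG, Finset.sum_mul_sum]
      _ = ∑ v : W, ∑ h : W, sg (qf (v : E k)) * sg (qf ((v + h : W) : E k)) := by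
          refine Finset.sum_congr rfl (fun v _ => ?_)
          exact (Equiv.sum_comp (Equiv.addLeft v)
            (fun v' : W => sg (qf (v : E k)) * sg (qf (v' : E k)))).symm
      _ = ∑ v : W, ∑ h : W, sg (qf (h : E k)) * sg (bf (v : E k) (h : E k)) := by
          refine Finset.sum_congr rfl (fun v _ => Finset.sum_congr rfl (fun h _ => ?_))
          rw [Submodule.coe_add, qf_add, sg_add, sg_add]
          have : sg (qf (v : E k)) * sg (qf (v : E k)) = 1 := by
            rw [← sg_add]
            have : qf (v : E k) + qf (v : E k) = 0 := by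
              generalize qf (v : E k) = a
              revert a; decide
            rw [this, sg_zero]
          linear_combination (sg (qf (h : E k)) * sg (bf (v : E k) (h : E k))) * this
      _ = ∑ h : W, ∑ v : W, sg (qf (h : E k)) * sg (bf (v : E k) (h : E k)) := Finset.sum_comm
      _ = _ := by
          refine Finset.sum_congr rfl (fun h _ => ?_)
          rw [← Finset.mul_sum, inner h]
  have hW : (Fintype.card W : ℤ) = 2 ^ (Module.finrank (ZMod 2) W) := by
    have := Module.card_eq_pow_finrank (K := ZMod 2) (V := W)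
    rw [this, ZMod.card]; push_cast; rfl
  have hWo : (Fintype.card ((Bf k).orthogonal W) : ℤ) = 2 ^ (2 * k - Module.finrank (ZMod 2) W) := by
    have := Module.card_eq_pow_finrank (K := ZMod 2) (V := (Bf k).orthogonal W)
    rw [this, ZMod.card, LinearMap.BilinForm.finrank_orthogonal (Bf_nondeg k), finrank_E]
    push_cast; rfl
  have hle : Module.finrank (ZMod 2) W ≤ 2 * k := by
    rw [← finrank_E k]; exact Submodule.finrank_le W
  have hb : G ^ 2 ≤ (2 ^ k) ^ 2 := by
    rw [hG2]
    calc ∑ h : W, sg (qf (h : E k)) *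
        (if (h : E k) ∈ (Bf k).orthogonal W then (Fintype.card W : ℤ) else 0)
        ≤ ∑ h : W, (if (h : E k) ∈ (Bf k).orthogonal W then (Fintype.card W : ℤ) else 0) := by
          refine Finset.sum_le_sum (fun h _ => ?_)
          have h1 : sg (qf (h : E k)) ≤ 1 := (le_abs_self _).trans (sg_abs _).le
          have h2 : (0 : ℤ) ≤ (if (h : E k) ∈ (Bf k).orthogonal W then (Fintype.card W : ℤ) else 0) := by
            split_ifs <;> positivity
          nlinarith
      _ = ((univ.filter (fun h : W => (h : E k) ∈ (Bf k).orthogonal W)).card : ℤ) *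
          Fintype.card W := by
          rw [← Finset.sum_filter, Finset.sum_const, nsmul_eq_mul]
      _ ≤ (Fintype.card ((Bf k).orthogonal W) : ℤ) * Fintype.card W := by
          refine mul_le_mul_of_nonneg_right ?_ (by positivity)
          have : (univ.filter (fun h : W => (h : E k) ∈ (Bf k).orthogonal W)).card ≤
              Fintype.card ((Bf k).orthogonal W) := by
            rw [← Finset.card_univ]
            refine Finset.card_le_card_of_injOn
              (fun h => if hh : (h : E k) ∈ (Bf k).orthogonal W then ⟨(h : E k), hh⟩ else 0)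
              (fun _ _ => Finset.mem_coe.2 (Finset.mem_univ _)) ?_
            intro a ha b hb hab
            simp only [Finset.coe_filter, Finset.mem_univ, true_and, Set.mem_setOf_eq] at ha hb
            simp only [ha, hb, dif_pos] at hab
            have := congrArg Subtype.val hab
            exact Subtype.ext this
          exact_mod_cast this
      _ = (2 ^ k) ^ 2 := by
          rw [hW, hWo, ← pow_add, ← pow_mul]
          congr 1
          omega
  exact abs_le_of_sq_le_sq hb (by positivity)

open Classical in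
/-- a set of zeros of the quadratic form in a subspace -/
lemma card_zeros {k : ℕ} (W : Submodule (ZMod 2) (E k)) (S : Finset (E k)) (hS : ∀ u ∈ S, u ∈ W)
    (hq : ∀ u ∈ S, qf u = 0) :
    S.card ≤ 2 ^ Module.finrank (ZMod 2) W ∧ 2 * S.card ≤ 2 ^ Module.finrank (ZMod 2) W + 2 ^ k := by
  have hW : Fintype.card W = 2 ^ (Module.finrank (ZMod 2) W) := by
    have := Module.card_eq_pow_finrank (K := ZMod 2) (V := W)
    rw [this, ZMod.card]
  have hc : S.card ≤ (univ.filter (fun v : W => qf (v : E k) = 0)).card := by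
    refine Finset.card_le_card_of_injOn (fun u => if h : u ∈ W then ⟨u, h⟩ else 0) ?_ ?_
    · intro u hu
      have hu' : u ∈ S := hu
      simp only [Finset.coe_filter, Finset.mem_univ, true_and, Set.mem_setOf_eq]
      rw [dif_pos (hS u hu')]
      exact hq u hu'
    · intro a ha b hb hab
      simp only [dif_pos (hS a ha), dif_pos (hS b hb)] at hab
      exact congrArg Subtype.val hab
  have hsum : (∑ v : W, sg (qf (v : E k))) =
      2 * ((univ.filter (fun v : W => qf (v : E k) = 0)).card : ℤ) - Fintype.card W := by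
    have h1 : ∀ v : W, sg (qf (v : E k)) = 2 * (if qf (v : E k) = 0 then 1 else 0) - 1 := by
      intro v
      simp only [sg]
      split_ifs <;> norm_num
    rw [Finset.sum_congr rfl (fun v _ => h1 v), Finset.sum_sub_distrib, ← Finset.mul_sum,
      Finset.sum_boole]
    simp
  have hg := abs_le.1 (gauss W)
  constructor
  · rw [← hW]
    exact hc.trans (Finset.card_le_univ _)
  · have h2 := hg.2
    rw [hsum, hW] at h2
    push_cast at h2
    zify
    have hc' : (S.card : ℤ) ≤ ((univ.filter (fun v : W => qf (v : E k) = 0)).card : ℤ) := by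
      exact_mod_cast hc
    linarith

/-- spans of orthogonal sets -/
lemma finrank_span {k : ℕ} (S T : Finset (E k)) (h : ∀ u ∈ S, ∀ v ∈ T, bf u v = 0) :
    Module.finrank (ZMod 2) (Submodule.span (ZMod 2) (S : Set (E k))) +
      Module.finrank (ZMod 2) (Submodule.span (ZMod 2) (T : Set (E k))) ≤ 2 * k := by
  have h1 : Submodule.span (ZMod 2) (T : Set (E k)) ≤
      (Bf k).orthogonal (Submodule.span (ZMod 2) (S : Set (E k))) := by
    rw [Submodule.span_le]
    intro v hv
    rw [SetLike.mem_coe, LinearMap.BilinForm.mem_orthogonal_iff]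
    intro u hu
    refine Submodule.span_induction (p := fun u _ => Bf k u v = 0) ?_ ?_ ?_ ?_ hu
    · intro x hx
      exact h x hx v hv
    · exact LinearMap.map_zero₂ _ _
    · intro x y _ _ hx hy
      rw [LinearMap.map_add₂, hx, hy, add_zero]
    · intro a x _ hx
      rw [LinearMap.map_smul₂, hx, smul_zero]
  have h2 := Submodule.finrank_mono h1
  rw [LinearMap.BilinForm.finrank_orthogonal (Bf_nondeg k), finrank_E] at h2
  have h3 : Module.finrank (ZMod 2) (Submodule.span (ZMod 2) (S : Set (E k))) ≤ 2 * k := by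
    rw [← finrank_E k]; exact Submodule.finrank_le _
  omega

/-! ### Sums over the edges of the complete graph -/

section edges

variable {n : ℕ}

/-- the edge contains the vertex -/
def inc (v : Fin n) (c : PR n) : Prop := c.1.1 = v ∨ c.1.2 = v

instance (v : Fin n) (c : PR n) : Decidable (inc v c) := by unfold inc; infer_instance

/-- the edge of two vertices -/
def mk (u v : Fin n) (h : u ≠ v) : PR n :=
  if h' : u < v then ⟨(u, v), h'⟩ else ⟨(v, u), lt_of_le_of_ne (not_lt.1 h') (Ne.symm h)⟩

/-- sums over the edges at a vertex -/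
lemma sum_inc (v : Fin n) (F : Fin n → Fin n → ℝ) (hF : ∀ a b, F a b = F b a) :
    ∑ c ∈ univ.filter (fun c : PR n => inc v c), F c.1.1 c.1.2 =
      ∑ u ∈ univ.filter (fun u : Fin n => u ≠ v), F u v := by
  symm
  refine Finset.sum_bij (fun u hu => mk u v (Finset.mem_filter.1 hu).2) ?_ ?_ ?_ ?_
  · intro u hu
    rw [Finset.mem_filter]
    refine ⟨Finset.mem_univ _, ?_⟩
    unfold mk
    split_ifs
    · exact Or.inr rfl
    · exact Or.inl rfl
  · intro a ha b hb hab
    have hne := (Finset.mem_filter.1 ha).2
    have hne' := (Finset.mem_filter.1 hb).2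
    simp only [mk] at hab
    split_ifs at hab with h1 h2 h2
    all_goals
      have h3 := congrArg (fun c : PR n => c.1.1) hab
      have h4 := congrArg (fun c : PR n => c.1.2) hab
      simp only at h3 h4
    · exact h3
    · exact absurd h3 hne
    · exact absurd h4 hne
    · exact h4
  · intro c hc
    have hc' := (Finset.mem_filter.1 hc).2
    rcases hc' with h | h
    · refine ⟨c.1.2, ?_, ?_⟩
      · simp only [Finset.mem_filter, Finset.mem_univ, true_and]
        rw [← h]; exact (ne_of_gt c.2)
      · apply Subtype.ext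
        have : ¬ c.1.2 < v := by rw [← h]; exact not_lt.2 c.2.le
        simp only [mk, this, dif_neg, not_false_eq_true]
        rw [← h]
    · refine ⟨c.1.1, ?_, ?_⟩
      · simp only [Finset.mem_filter, Finset.mem_univ, true_and]
        rw [← h]; exact (ne_of_lt c.2)
      · apply Subtype.ext
        have : c.1.1 < v := by rw [← h]; exact c.2
        simp only [mk, this, dif_pos]
        rw [← h]
  · intro u hu
    simp only [mk]
    split_ifs
    · rfl
    · exact hF _ _

/-- the sum of the end values over all edges -/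
lemma sum_edges (t : Fin n → ℝ) :
    ∑ c : PR n, (t c.1.1 + t c.1.2) = ((n : ℝ) - 1) * ∑ v, t v := by
  have h1 : ∀ c : PR n, t c.1.1 + t c.1.2 = ∑ v, if inc v c then t v else 0 := by
    intro c
    have hne : c.1.1 ≠ c.1.2 := ne_of_lt c.2
    have : ∀ v : Fin n, (if inc v c then t v else 0) =
        (if c.1.1 = v then t v else 0) + (if c.1.2 = v then t v else 0) := by
      intro v
      simp only [inc]
      by_cases h1 : c.1.1 = v <;> by_cases h2 : c.1.2 = v <;> simp [h1, h2]
      exact absurd (h1.trans h2.symm) hne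
    rw [Finset.sum_congr rfl (fun v _ => this v), Finset.sum_add_distrib]
    simp
  rw [Finset.sum_congr rfl (fun c _ => h1 c), Finset.sum_comm, Finset.mul_sum]
  refine Finset.sum_congr rfl (fun v _ => ?_)
  rw [← Finset.sum_filter]
  have := sum_inc v (fun _ _ => t v) (fun _ _ => rfl)
  rw [this, Finset.sum_const, nsmul_eq_mul]
  congr 1
  have : (univ.filter (fun u : Fin n => u ≠ v)) = univ.erase v := by
    ext u; simp
  rw [this, Finset.card_erase_of_mem (Finset.mem_univ _), Finset.card_univ, Fintype.card_fin,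
    Nat.cast_sub (by have := v.2; omega)]
  simp

lemma adj_of_inc {v : Fin n} {c c' : PR n} (h : inc v c) (h' : inc v c') (hne : c ≠ c') :
    adj c c' = true := by
  simp only [adj, Bool.and_eq_true, decide_eq_true_eq]
  refine ⟨hne, ?_⟩
  rcases h with h | h <;> rcases h' with h' | h'
  · exact Or.inl (h.trans h'.symm)
  · exact Or.inr (Or.inl (h.trans h'.symm))
  · exact Or.inr (Or.inr (Or.inl (h.trans h'.symm)))
  · exact Or.inr (Or.inr (Or.inr (h.trans h'.symm)))

lemma card_inc (c : PR n) : (univ.filter (fun v => inc v c)).card = 2 := by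
  have hne : c.1.1 ≠ c.1.2 := ne_of_lt c.2
  have : (univ.filter (fun v => inc v c)) = {c.1.1, c.1.2} := by
    ext v
    rw [Finset.mem_filter, Finset.mem_insert, Finset.mem_singleton]
    constructor
    · rintro ⟨-, h | h⟩
      · exact Or.inl h.symm
      · exact Or.inr h.symm
    · rintro (h | h)
      · exact ⟨Finset.mem_univ _, Or.inl h.symm⟩
      · exact ⟨Finset.mem_univ _, Or.inr h.symm⟩
  rw [this, Finset.card_pair hne]

end edges

/-! ### The combinatorial part -/

section comb

variable {n k : ℕ} (w : PR n → ℕ)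

/-- the weight of an edge -/
noncomputable def tau (k : ℕ) (c : PR n) : ℝ := if k < w c then 1 - 2 ^ k / 2 ^ (w c) else 0

/-- the weight of a vertex -/
noncomputable def tt (k : ℕ) (v : Fin n) : ℝ := ∑ c, if inc v c then tau w k c else 0

lemma tau_pos {c : PR n} (h : k < w c) : 0 < tau w k c := by
  rw [tau, if_pos h, sub_pos, div_lt_one (by positivity)]
  exact pow_lt_pow_right₀ (by norm_num) h

lemma tau_zero {c : PR n} (h : w c ≤ k) : tau w k c = 0 := by
  rw [tau, if_neg (not_lt.2 h)]

lemma tt_eq (h1 : ∀ c c', adj c c' = true → w c + w c' ≤ 2 * k) {v : Fin n} {c : PR n}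
    (hv : inc v c) (hc : k < w c) : tt w k v = tau w k c := by
  rw [tt, Finset.sum_eq_single c]
  · rw [if_pos hv]
  · intro c' _ hne
    split_ifs with h
    · have := h1 c' c (adj_of_inc h hv hne)
      exact tau_zero w (by omega)
    · rfl
  · intro h; exact absurd (Finset.mem_univ _) h

lemma tt_zero {v : Fin n} (h : ∀ c, inc v c → w c ≤ k) : tt w k v = 0 := by
  rw [tt]
  refine Finset.sum_eq_zero (fun c _ => ?_)
  split_ifs with h'
  · exact tau_zero w (h c h')
  · rfl

lemma sum_tt : ∑ v, tt w k v = 2 * ∑ c, tau w k c := by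
  simp only [tt]
  rw [Finset.sum_comm, Finset.mul_sum]
  refine Finset.sum_congr rfl (fun c _ => ?_)
  rw [← Finset.sum_filter, Finset.sum_const, card_inc, nsmul_eq_mul]
  norm_num

/-- a vertex that is not covered -/
lemma exists_free {g : ℕ} (w : PR (2 * g + 1) → ℕ)
    (h1 : ∀ c c', adj c c' = true → w c + w c' ≤ 2 * k) :
    ∃ v : Fin (2 * g + 1), ∀ c, inc v c → w c ≤ k := by
  by_contra hcon
  push Not at hcon
  have hcard : ∀ v : Fin (2 * g + 1),
      (univ.filter (fun c : PR (2 * g + 1) => inc v c ∧ k < w c)).card = 1 := by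
    intro v
    obtain ⟨c, hc, hw⟩ := hcon v
    rw [Finset.card_eq_one]
    refine ⟨c, ?_⟩
    ext c'
    simp only [Finset.mem_filter, Finset.mem_univ, true_and, Finset.mem_singleton]
    constructor
    · rintro ⟨hc', hw'⟩
      by_contra hne
      have := h1 c' c (adj_of_inc hc' hc hne)
      omega
    · rintro rfl
      exact ⟨hc, hw⟩
  have h2 : ∑ v : Fin (2 * g + 1),
      (univ.filter (fun c : PR (2 * g + 1) => inc v c ∧ k < w c)).card = 2 * g + 1 := by
    rw [Finset.sum_congr rfl (fun v _ => hcard v)]
    simp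
  have h3 : ∑ v : Fin (2 * g + 1),
      (univ.filter (fun c : PR (2 * g + 1) => inc v c ∧ k < w c)).card =
      2 * (univ.filter (fun c : PR (2 * g + 1) => k < w c)).card := by
    have : ∀ v : Fin (2 * g + 1),
        (univ.filter (fun c : PR (2 * g + 1) => inc v c ∧ k < w c)).card =
        ∑ c ∈ univ.filter (fun c : PR (2 * g + 1) => k < w c), if inc v c then 1 else 0 := by
      intro v
      rw [Finset.card_filter, Finset.sum_filter]
      refine Finset.sum_congr rfl (fun c _ => ?_)
      by_cases ha : inc v c <;> by_cases hb : k < w c <;> simp [ha, hb]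
    rw [Finset.sum_congr rfl (fun v _ => this v), Finset.sum_comm]
    have h4 : ∀ c ∈ univ.filter (fun c : PR (2 * g + 1) => k < w c),
        (∑ v : Fin (2 * g + 1), if inc v c then 1 else 0) = 2 := by
      intro c _
      rw [← Finset.card_filter, card_inc]
    rw [Finset.sum_congr rfl h4, Finset.sum_const, smul_eq_mul, mul_comm]
  omega

/-- the combinatorial part -/
lemma main_comb (g k : ℕ) (hg : 2 ^ k ≤ 4 * g) (w s : PR (2 * g + 1) → ℕ)
    (h1 : ∀ c c', adj c c' = true → w c + w c' ≤ 2 * k)
    (h2 : ∀ c, s c ≤ 2 ^ w c) (h3 : ∀ c, 2 * s c ≤ 2 ^ w c + 2 ^ k) (h4 : ∀ c, w c ≤ 2 * k) :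
    ∑ c, s c ≤ 2 ^ k * Fintype.card (PR (2 * g + 1)) := by
  obtain ⟨v0, hv0⟩ := exists_free w h1
  have hk0 : (0 : ℝ) < 2 ^ k := by positivity
  have hgr : (2 : ℝ) ^ k ≤ 4 * g := by exact_mod_cast hg
  have ht0 : tt w k v0 = 0 := tt_zero w hv0
  -- the defect of an edge
  have key : ∀ c : PR (2 * g + 1), (tt w k c.1.1 + tt w k c.1.2) / 2 - (2 * g + 1) * tau w k c +
      (if inc v0 c then (tt w k c.1.1 + tt w k c.1.2) / 2 else 0) ≤ 1 - (s c : ℝ) / 2 ^ k := by
    intro c
    by_cases hc : k < w c
    · -- heavy edges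
      have hi1 : inc c.1.1 c := Or.inl rfl
      have hi2 : inc c.1.2 c := Or.inr rfl
      have hn : ¬ inc v0 c := fun h => absurd (hv0 c h) (not_le.2 hc)
      rw [tt_eq w h1 hi1 hc, tt_eq w h1 hi2 hc, if_neg hn, tau, if_pos hc]
      obtain ⟨j, hj⟩ := Nat.exists_eq_add_of_lt hc
      have hw : (2 : ℝ) ^ (w c) = 2 ^ k * 2 ^ (j + 1) := by
        rw [hj, ← pow_add]; congr 1
      have hjk : (2 : ℝ) ^ (j + 1) ≤ 2 ^ k := by
        apply pow_le_pow_right₀ (by norm_num)
        have := h4 c
        omega
      have h5 : 2 * (s c : ℝ) ≤ 2 ^ w c + 2 ^ k := by exact_mod_cast h3 c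
      rw [hw] at h5 ⊢
      have hj1 : (1 : ℝ) ≤ 2 ^ (j + 1) := one_le_pow₀ (by norm_num)
      set a : ℝ := 2 ^ (j + 1) with ha
      have ha0 : 0 < a := by positivity
      have h6 : (2 : ℝ) ^ k / (2 ^ k * a) = 1 / a := by field_simp
      rw [h6]
      have h7 : (s c : ℝ) / 2 ^ k ≤ (a + 1) / 2 := by
        rw [div_le_iff₀ hk0]
        nlinarith
      have h8 : (a - 1) / 2 ≤ 2 * g * (1 - 1 / a) := by
        have h9 : 1 - 1 / a = (a - 1) / a := by field_simp
        rw [h9, ← mul_div_assoc, le_div_iff₀ ha0]
        nlinarith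
      nlinarith
    · -- the other edges
      have hc' : w c ≤ k := not_lt.1 hc
      have hD : ∀ v, inc v c → tt w k v ≤ 1 - (s c : ℝ) / 2 ^ k := by
        intro v hv
        by_cases hcov : ∃ c', inc v c' ∧ k < w c'
        · obtain ⟨c', hi, hw'⟩ := hcov
          rw [tt_eq w h1 hi hw', tau, if_pos hw']
          have hne : c ≠ c' := by rintro rfl; exact hc hw'
          have h5 := h1 c c' (adj_of_inc hv hi hne)
          have h6 : (s c : ℝ) ≤ 2 ^ w c := by exact_mod_cast h2 c
          have h7 : (2 : ℝ) ^ (w c) * 2 ^ (w c') ≤ 2 ^ k * 2 ^ k := by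
            rw [← pow_add, ← pow_add]
            exact pow_le_pow_right₀ (by norm_num) (by omega)
          have h8 : (s c : ℝ) / 2 ^ k ≤ 2 ^ k / 2 ^ w c' := by
            rw [div_le_div_iff₀ hk0 (by positivity)]
            exact (mul_le_mul_of_nonneg_right h6 (by positivity)).trans h7
          linarith
        · push Not at hcov
          rw [tt_zero w hcov]
          have h6 : (s c : ℝ) ≤ 2 ^ k := by
            have h7 : s c ≤ 2 ^ k := (h2 c).trans (Nat.pow_le_pow_right (by norm_num) hc')
            exact_mod_cast h7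
          have h8 : (s c : ℝ) / 2 ^ k ≤ 1 := by
            rw [div_le_one hk0]; exact h6
          linarith
      have hi1 : inc c.1.1 c := Or.inl rfl
      have hi2 : inc c.1.2 c := Or.inr rfl
      have hd1 := hD _ hi1
      have hd2 := hD _ hi2
      rw [tau_zero w hc', mul_zero, sub_zero]
      split_ifs with h0
      · rcases h0 with h0 | h0
        · rw [h0, ht0]; rw [h0, ht0] at hd1; linarith
        · rw [h0, ht0]; rw [h0, ht0] at hd2; linarith
      · linarith
  have hsum := Finset.sum_le_sum (fun c (_ : c ∈ (univ : Finset (PR (2 * g + 1)))) => key c)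
  rw [Finset.sum_add_distrib, Finset.sum_sub_distrib, Finset.sum_sub_distrib, ← Finset.sum_div,
    sum_edges (tt w k), ← Finset.mul_sum, ← Finset.sum_div, ← Finset.sum_filter,
    sum_inc v0 (fun a b => (tt w k a + tt w k b) / 2) (fun a b => by rw [add_comm])] at hsum
  have hS : ∑ u ∈ univ.filter (fun u : Fin (2 * g + 1) => u ≠ v0), (tt w k u + tt w k v0) / 2 =
      (∑ v, tt w k v) / 2 := by
    rw [ht0, Finset.sum_div]
    rw [Finset.sum_filter]
    refine Finset.sum_congr rfl (fun u _ => ?_)
    split_ifs with h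
    · simp
    · push Not at h
      rw [h, ht0]; simp
  rw [hS] at hsum
  have hT := sum_tt (k := k) w
  rw [hT] at hsum
  simp only [Finset.sum_const, Finset.card_univ, nsmul_eq_mul, mul_one] at hsum
  push_cast at hsum
  have h5 : (∑ c, (s c : ℝ)) / 2 ^ k ≤ Fintype.card (PR (2 * g + 1)) := by
    nlinarith
  rw [div_le_iff₀ hk0] at h5
  have h6 : ((∑ c, s c : ℕ) : ℝ) ≤ ((2 ^ k * Fintype.card (PR (2 * g + 1)) : ℕ) : ℝ) := by
    push_cast
    linarith
  exact_mod_cast h6

end comb

/-! ### Reduction modulo 2 -/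

/-- a Boolean vector modulo 2 -/
def ph {k : ℕ} (x : Fin k → Bool) : Fin k → ZMod 2 := fun a => if x a = true then 1 else 0

lemma ph_inj {k : ℕ} : Function.Injective (ph (k := k)) := by
  intro x y h
  funext a
  have := congrFun h a
  simp only [ph] at this
  cases hx : x a <;> cases hy : y a <;> simp [hx, hy] at this ⊢

lemma dot_ph {k : ℕ} (x y : Fin k → Bool) :
    ph x ⬝ᵥ ph y = ((univ.filter (fun a => (x a && y a) = true)).card : ZMod 2) := by
  rw [Finset.card_filter]
  push_cast
  simp only [dotProduct, ph]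
  refine Finset.sum_congr rfl (fun a _ => ?_)
  cases x a <;> cases y a <;> simp

lemma dtp_eq {k : ℕ} (x y : Fin k → Bool) : dtp x y = decide (ph x ⬝ᵥ ph y = 1) := by
  rw [dot_ph]
  simp only [dtp]
  congr 1
  rw [eq_iff_iff]
  set m := (univ.filter (fun a => (x a && y a) = true)).card
  have : (1 : ZMod 2) = ((1 : ℕ) : ZMod 2) := by norm_num
  rw [this, ZMod.natCast_eq_natCast_iff, Nat.ModEq]

lemma add_self_zero (a : ZMod 2) : a + a = 0 := by revert a; decide

lemma dec_eq (a b : ZMod 2) (h : decide (a = 1) = decide (b = 1)) : a = b := by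
  revert a b; decide

end Ext

open Ext in
/-- JG-EXT: the largest unlinked set -/
theorem ext : S_EXT := by
  intro g k _ hg U hU
  classical
  let S : PR (2 * g + 1) → Finset (E k) := fun c =>
    (U.filter (fun i => i.1.1 = c)).image (fun i => (ph i.1.2.1, ph i.1.2.2))
  have hcard : ∀ c, (S c).card = (U.filter (fun i => i.1.1 = c)).card := by
    intro c
    refine Finset.card_image_of_injOn ?_
    intro i hi j hj hij
    have hi' : i.1.1 = c := (Finset.mem_filter.1 (Finset.mem_coe.1 hi)).2
    have hj' : j.1.1 = c := (Finset.mem_filter.1 (Finset.mem_coe.1 hj)).2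
    have h1 := ph_inj (congrArg Prod.fst hij)
    have h2 := ph_inj (congrArg Prod.snd hij)
    exact Subtype.ext (Prod.ext (hi'.trans hj'.symm) (Prod.ext h1 h2))
  have hU' : U.card = ∑ c, (S c).card := by
    rw [Finset.sum_congr rfl (fun c _ => hcard c)]
    exact Finset.card_eq_sum_card_fiberwise (fun _ _ => Finset.mem_coe.2 (Finset.mem_univ _))
  rw [hU']
  refine main_comb g k hg (fun c => Module.finrank (ZMod 2)
    (Submodule.span (ZMod 2) (S c : Set (E k)))) (fun c => (S c).card) ?_ ?_ ?_ ?_
  · intro c c' had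
    refine finrank_span (S c) (S c') ?_
    intro u hu v hv
    obtain ⟨i, hi, rfl⟩ := Finset.mem_image.1 hu
    obtain ⟨j, hj, rfl⟩ := Finset.mem_image.1 hv
    obtain ⟨hi1, hi2⟩ := Finset.mem_filter.1 hi
    obtain ⟨hj1, hj2⟩ := Finset.mem_filter.1 hj
    have hadj : adj c' c = true := by
      simp only [adj, Bool.and_eq_true, decide_eq_true_eq] at had ⊢
      refine ⟨had.1.symm, ?_⟩
      rcases had.2 with h | h | h | h
      · exact Or.inl h.symm
      · exact Or.inr (Or.inr (Or.inl h.symm))
      · exact Or.inr (Or.inl h.symm)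
      · exact Or.inr (Or.inr (Or.inr h.symm))
    have h := hU i hi1 j hj1
    simp only [LV, hi2, hj2, had, hadj, Bool.true_and, dtp_eq] at h
    have h' := dec_eq _ _ h
    show ph i.1.2.1 ⬝ᵥ ph j.1.2.2 + ph j.1.2.1 ⬝ᵥ ph i.1.2.2 = 0
    rw [h', add_self_zero]
  all_goals
    have hz : ∀ c, ∀ u ∈ S c, qf u = 0 := by
      intro c u hu
      obtain ⟨i, hi, rfl⟩ := Finset.mem_image.1 hu
      have h := i.2
      simp only [P0, dtp_eq, Bool.not_eq_true', decide_eq_false_iff_not] at h
      show ph i.1.2.1 ⬝ᵥ ph i.1.2.2 = 0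
      by_contra hne
      exact h ((ne_zero_iff _).1 hne)
  · intro c
    exact (card_zeros _ (S c) (fun u hu => Submodule.subset_span hu) (hz c)).1
  · intro c
    exact (card_zeros _ (S c) (fun u hu => Submodule.subset_span hu) (hz c)).2
  · intro c
    rw [← finrank_E k]
    exact Submodule.finrank_le _

end Pool.Agent.TH344.JG
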