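import Pool.Agent.TH344.JG.Stm
import Pool.Agent.W340.RT.SVR2
import Pool.Agent.W991.FK.Avhr

/-! JG-LINE (project JG of helper344): upper bound sieve in a residue class of the box. -/

set_option autoImplicit false

namespace Pool.Agent.TH344.JG

open Finset Pool.Agent.W262.RK Pool.Agent.W307.RT

namespace Line

/-- sum over a box, one coordinate first -/
theorem sum_update_le {n : ℕ} (S : Fin n → Finset ℤ) (i : Fin n) (g : (Fin n → ℤ) → ℝ) (M : ℝ)
    (hM0 : 0 ≤ M)
    (hM : ∀ b ∈ Fintype.piFinset S, ∑ x ∈ S i, g (Function.update b i x) ≤ M) :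
    ∑ b ∈ Fintype.piFinset S, g b ≤ M * ∏ l ∈ univ.erase i, ((S l).card : ℝ) := by
  classical
  rcases (S i).eq_empty_or_nonempty with h | h
  · have : Fintype.piFinset S = ∅ := by
      rw [Fintype.piFinset_eq_empty]
      exact ⟨i, h⟩
    rw [this, sum_empty]
    exact mul_nonneg hM0 (prod_nonneg fun _ _ => Nat.cast_nonneg _)
  · have hN : (0 : ℝ) < (S i).card := by exact_mod_cast h.card_pos
    have e1 : ∑ q ∈ Fintype.piFinset S ×ˢ S i, g q.1 =
        ∑ q ∈ Fintype.piFinset S ×ˢ S i, g (Function.update q.1 i q.2) := by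
      refine sum_nbij' (fun q => (Function.update q.1 i q.2, q.1 i))
        (fun q => (Function.update q.1 i q.2, q.1 i)) ?_ ?_ ?_ ?_ ?_
      · intro q hq
        rw [mem_product, Fintype.mem_piFinset] at hq ⊢
        refine ⟨fun l => ?_, hq.1 i⟩
        by_cases hl : l = i
        · subst hl
          simpa using hq.2
        · show Function.update q.1 i q.2 l ∈ S l
          rw [Function.update_of_ne hl]
          exact hq.1 l
      · intro q hq
        rw [mem_product, Fintype.mem_piFinset] at hq ⊢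
        refine ⟨fun l => ?_, hq.1 i⟩
        by_cases hl : l = i
        · subst hl
          simpa using hq.2
        · show Function.update q.1 i q.2 l ∈ S l
          rw [Function.update_of_ne hl]
          exact hq.1 l
      · intro q _
        simp
      · intro q _
        simp
      · intro q _
        simp
    have e2 : ∑ q ∈ Fintype.piFinset S ×ˢ S i, g q.1 =
        ((S i).card : ℝ) * ∑ b ∈ Fintype.piFinset S, g b := by
      rw [sum_product, mul_sum]
      refine sum_congr rfl fun b _ => ?_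
      show ∑ _y ∈ S i, g b = _
      rw [sum_const, nsmul_eq_mul]
    have e3 : ∑ q ∈ Fintype.piFinset S ×ˢ S i, g (Function.update q.1 i q.2) ≤
        ((S i).card : ℝ) * (M * ∏ l ∈ univ.erase i, ((S l).card : ℝ)) := by
      rw [sum_product]
      refine (sum_le_sum hM).trans ?_
      rw [sum_const, nsmul_eq_mul, Fintype.card_piFinset,
        ← mul_prod_erase univ (fun l => (S l).card) (mem_univ i)]
      push_cast
      apply le_of_eq
      ring
    rw [← e1, e2] at e3
    exact le_of_mul_le_mul_left e3 hN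

/-- the direction -/
def kp {n : ℕ} (c : PR n) : ℤ := ((c.1.1 : ℕ) : ℤ) - ((c.1.2 : ℕ) : ℤ)

/-- the resultants -/
def Rs {n : ℕ} (a : Fin n → ℤ) (c c' : PR n) : ℤ := kp c * df a c' - kp c' * df a c

theorem kp_ne {n : ℕ} (c : PR n) : kp c ≠ 0 := by
  have h : (c.1.1 : ℕ) < (c.1.2 : ℕ) := c.2
  unfold kp
  omega

theorem kp_lt {n : ℕ} (c : PR n) : (kp c).natAbs < n := by
  have h : (c.1.1 : ℕ) < (c.1.2 : ℕ) := c.2
  have h1 := c.1.2.isLt
  unfold kp
  omega

theorem Rs_bound {n : ℕ} (a : Fin n → ℤ) (c c' : PR n) (A : ℕ) (hA : ∀ l, (a l).natAbs ≤ A) :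
    (Rs a c c').natAbs ≤ 4 * n * A := by
  have h1 := (kp_lt c).le
  have h2 := (kp_lt c').le
  have h3 : ∀ c : PR n, (df a c).natAbs ≤ 2 * A := by
    intro c
    unfold df
    have := hA c.1.1
    have := hA c.1.2
    omega
  unfold Rs
  calc (kp c * df a c' - kp c' * df a c).natAbs
      ≤ (kp c * df a c').natAbs + (kp c' * df a c).natAbs := Int.natAbs_sub_le _ _
    _ = (kp c).natAbs * (df a c').natAbs + (kp c').natAbs * (df a c).natAbs := by
        rw [Int.natAbs_mul, Int.natAbs_mul]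
    _ ≤ n * (2 * A) + n * (2 * A) :=
        add_le_add (Nat.mul_le_mul h1 (h3 c')) (Nat.mul_le_mul h2 (h3 c))
    _ = 4 * n * A := by ring

/-- `Rs` is a nonconstant linear function of one of the coordinates -/
theorem lin {n : ℕ} (c c' : PR n) (h : c ≠ c') : ∃ (i : Fin n) (κ : ℤ), κ ≠ 0 ∧ κ.natAbs < n ∧
    ∀ (b : Fin n → ℤ) (x : ℤ), Rs (Function.update b i x) c c' =
      κ * x + Rs (Function.update b i 0) c c' := by
  have hc := c.2
  have hc' := c'.2
  have key : (c.1.1 ≠ c'.1.1 ∧ c.1.1 ≠ c'.1.2) ∨ (c.1.2 ≠ c'.1.1 ∧ c.1.2 ≠ c'.1.2) := by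
    by_contra hcon
    apply h
    apply Subtype.ext
    apply Prod.ext
    · simp only [ne_eq, Fin.ext_iff, Fin.lt_def] at *
      omega
    · simp only [ne_eq, Fin.ext_iff, Fin.lt_def] at *
      omega
  rcases key with ⟨h1, h2⟩ | ⟨h1, h2⟩
  · refine ⟨c.1.1, - kp c', neg_ne_zero.2 (kp_ne c'), by rw [Int.natAbs_neg]; exact kp_lt c', ?_⟩
    intro b x
    unfold Rs df
    rw [Function.update_self, Function.update_self, Function.update_of_ne (ne_of_gt hc),
      Function.update_of_ne (ne_of_gt hc), Function.update_of_ne (Ne.symm h1),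
      Function.update_of_ne (Ne.symm h1), Function.update_of_ne (Ne.symm h2),
      Function.update_of_ne (Ne.symm h2)]
    ring
  · refine ⟨c.1.2, kp c', kp_ne c', kp_lt c', ?_⟩
    intro b x
    unfold Rs df
    rw [Function.update_self, Function.update_self, Function.update_of_ne (ne_of_lt hc),
      Function.update_of_ne (ne_of_lt hc), Function.update_of_ne (Ne.symm h1),
      Function.update_of_ne (Ne.symm h1), Function.update_of_ne (Ne.symm h2),
      Function.update_of_ne (Ne.symm h2)]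
    ring

/-- the set of the values of one coordinate -/
noncomputable def Sx (n X Q : ℕ) (r : ℤ) : Finset ℤ :=
  (Icc (-(((n + 1) * X : ℕ) : ℤ)) X).filter (fun x => (Q : ℤ) ∣ x - r)

/-- average over one coordinate -/
theorem inner (hA : Pool.Agent.W307.FK.AVHR) (n c z E : ℕ) (hn : 1 ≤ n) (hz : 2 * c + 2 ≤ z)
    (hnz : n ≤ z) : ∃ D : ℝ, 0 ≤ D ∧ ∀ (X Q : ℕ) (r e κ : ℤ), 1 ≤ X → 1 ≤ Q → Q ^ 8 ≤ X → κ ≠ 0 →
      κ.natAbs < n → e.natAbs ≤ E * X →
      ∑ x ∈ Sx n X Q r, ∏ p ∈ (κ * x + e).natAbs.primeFactors.filter (fun p => z < p ∧ ¬ p ∣ Q),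
        (p : ℝ) / ((p : ℝ) - c) ≤ D * ((X : ℝ) / Q) := by
  obtain ⟨C, hC, hav⟩ := hA c z 1 hz
  set K' : ℕ := E + 2 * n * (n + 1) + n ^ 4 + 2 with hK'
  refine ⟨C * K', by positivity, ?_⟩
  intro X Q r e κ hX hQ hQX hκ hκn he
  set k : ℕ := κ.natAbs with hk
  have hk1 : 1 ≤ k := Int.natAbs_pos.2 hκ
  set A0 : ℤ := ((k * ((n + 1) * X) : ℕ) : ℤ) with hA0
  set N : ℤ := e - A0 - 1 with hN
  have hkx : ∀ x ∈ Sx n X Q r, |κ * x| ≤ A0 := by
    intro x hx
    unfold Sx at hx
    rw [mem_filter, mem_Icc] at hx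
    rw [abs_mul, Int.abs_eq_natAbs κ, ← hk, hA0]
    push_cast
    apply mul_le_mul_of_nonneg_left _ (by positivity)
    rw [abs_le]
    push_cast at hx
    have hX0 : (0 : ℤ) ≤ X := by positivity
    have hn0 : (0 : ℤ) ≤ n * X := by positivity
    constructor
    · linarith [hx.1.1]
    · linarith [hx.1.2]
  have h1 := hav N (κ * r + e) (K' * X) (k * Q) (Nat.mul_pos (by omega) hX) (by
      rw [pow_one]
      have h2 : N.natAbs ≤ e.natAbs + (k * ((n + 1) * X) + 1) := by
        rw [hN, hA0]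
        omega
      have h3 : k * ((n + 1) * X) ≤ n * ((n + 1) * X) := Nat.mul_le_mul_right _ hκn.le
      have h4 : K' * X = E * X + 2 * (n * ((n + 1) * X)) + n ^ 4 * X + 2 * X := by
        rw [hK']; ring
      rw [h4]
      have : 0 ≤ n ^ 4 * X := Nat.zero_le _
      omega) (Nat.mul_pos hk1 hQ) (by
      have h2 : Q ^ 4 ≤ X := le_trans (Nat.pow_le_pow_right hQ (by norm_num)) hQX
      calc (k * Q) ^ 4 = k ^ 4 * Q ^ 4 := by ring
        _ ≤ n ^ 4 * X := Nat.mul_le_mul (Nat.pow_le_pow_left hκn.le 4) h2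
        _ ≤ K' * X := Nat.mul_le_mul_right _ (by rw [hK']; omega))
  have h2 : C * (((K' * X : ℕ) : ℝ) / ((k * Q : ℕ) : ℝ)) ≤ C * K' * ((X : ℝ) / Q) := by
    push_cast
    rw [mul_assoc]
    apply mul_le_mul_of_nonneg_left _ hC
    rw [mul_div_assoc']
    apply div_le_div_of_nonneg_left (by positivity) (by positivity)
    have : (1 : ℝ) ≤ k := by exact_mod_cast hk1
    nlinarith [(by positivity : (0 : ℝ) ≤ Q)]
  refine le_trans ?_ (h1.trans h2)
  set F : ℤ → ℝ := fun w => ∏ p ∈ w.natAbs.primeFactors.filter (fun p => z < p ∧ ¬ p ∣ k * Q),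
    (p : ℝ) / ((p : ℝ) - c) with hF
  have hF0 : ∀ w, 0 ≤ F w := by
    intro w
    rw [hF]
    apply prod_nonneg
    intro p hp
    rw [mem_filter] at hp
    have : (c : ℝ) ≤ p := by
      have : c ≤ p := by omega
      exact_mod_cast this
    exact div_nonneg (by positivity) (by linarith)
  have e1 : ∀ x : ℤ, ∏ p ∈ (κ * x + e).natAbs.primeFactors.filter (fun p => z < p ∧ ¬ p ∣ Q),
      (p : ℝ) / ((p : ℝ) - c) = F (κ * x + e) := by
    intro x
    rw [hF]
    apply prod_congr _ (fun _ _ => rfl)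
    apply filter_congr
    intro p hp
    have hpp := Nat.prime_of_mem_primeFactors hp
    constructor
    · rintro ⟨a1, a2⟩
      refine ⟨a1, fun h => ?_⟩
      rcases (Nat.Prime.dvd_mul hpp).1 h with h | h
      · have := Nat.le_of_dvd hk1 h
        omega
      · exact a2 h
    · rintro ⟨a1, a2⟩
      exact ⟨a1, fun h => a2 (Dvd.dvd.mul_left h k)⟩
  simp_rw [e1]
  have hv : ∀ x ∈ Sx n X Q r, (((κ * x + e - N).toNat : ℕ) : ℤ) = κ * x + e - N := by
    intro x hx
    apply Int.toNat_of_nonneg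
    have := abs_le.1 (hkx x hx)
    rw [hN]
    linarith [this.1]
  calc ∑ x ∈ Sx n X Q r, F (κ * x + e)
      = ∑ x ∈ Sx n X Q r, F (N + (((κ * x + e - N).toNat : ℕ) : ℤ)) := by
        apply sum_congr rfl
        intro x hx
        rw [hv x hx]
        congr 1
        ring
    _ = ∑ v ∈ (Sx n X Q r).image (fun x => (κ * x + e - N).toNat), F (N + (v : ℤ)) := by
        rw [sum_image]
        intro x hx x' hx' hxx
        simp only at hxx
        have h3 : κ * x + e - N = κ * x' + e - N := by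
          rw [← hv x hx, ← hv x' hx', hxx]
        have h4 : κ * x = κ * x' := by linarith
        exact mul_left_cancel₀ hκ h4
    _ ≤ ∑ v ∈ (Icc 1 (K' * X)).filter (fun v : ℕ => ((k * Q : ℕ) : ℤ) ∣ N + (v : ℤ) - (κ * r + e)),
        F (N + (v : ℤ)) := by
        apply sum_le_sum_of_subset_of_nonneg _ (fun v _ _ => hF0 _)
        intro v hv'
        rw [mem_image] at hv'
        obtain ⟨x, hx, rfl⟩ := hv'
        have hvx := hv x hx
        have hb := abs_le.1 (hkx x hx)
        rw [mem_filter, mem_Icc, hvx]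
        refine ⟨⟨?_, ?_⟩, ?_⟩
        · have : (1 : ℤ) ≤ κ * x + e - N := by rw [hN]; linarith [hb.1]
          omega
        · have h3 : κ * x + e - N ≤ ((K' * X : ℕ) : ℤ) := by
            have h4 : κ * x + e - N ≤ 2 * A0 + 1 := by rw [hN]; linarith [hb.2]
            have h5 : 2 * (k * ((n + 1) * X)) + 1 ≤ K' * X := by
              have h3 : k * ((n + 1) * X) ≤ n * ((n + 1) * X) := Nat.mul_le_mul_right _ hκn.le
              have h4 : K' * X = E * X + 2 * (n * ((n + 1) * X)) + n ^ 4 * X + 2 * X := by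
                rw [hK']; ring
              rw [h4]
              have : 0 ≤ n ^ 4 * X := Nat.zero_le _
              have : 0 ≤ E * X := Nat.zero_le _
              omega
            have h6 : 2 * A0 + 1 ≤ ((K' * X : ℕ) : ℤ) := by
              rw [hA0]
              exact_mod_cast h5
            linarith
          omega
        · unfold Sx at hx
          rw [mem_filter] at hx
          have e3 : N + (κ * x + e - N) - (κ * r + e) = κ * (x - r) := by ring
          rw [e3]
          push_cast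
          apply mul_dvd_mul _ hx.2
          rw [hk]
          exact Int.natAbs_dvd.2 (dvd_refl κ)

theorem fac_ge (d p : ℕ) (h : d < p) : (1 : ℝ) ≤ (p : ℝ) / ((p : ℝ) - d) := by
  have h1 : (d : ℝ) < p := by exact_mod_cast h
  rw [le_div_iff₀ (by linarith)]
  have : (0 : ℝ) ≤ d := Nat.cast_nonneg d
  linarith

theorem fac_le_two (d p : ℕ) (h : 2 * d + 2 ≤ p) : (p : ℝ) / ((p : ℝ) - d) ≤ 2 := by
  have h1 : (2 * d + 2 : ℝ) ≤ p := by exact_mod_cast h
  have h0 : (0 : ℝ) ≤ d := Nat.cast_nonneg d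
  rw [div_le_iff₀ (by linarith)]
  linarith

theorem fac_pow (d N p : ℕ) (hN : 1 ≤ N) (h : 2 * (N * d) + 2 ≤ p) :
    ((p : ℝ) / ((p : ℝ) - d)) ^ N ≤ (p : ℝ) / ((p : ℝ) - (N * d : ℕ)) := by
  have h1 : (2 * (N * d) + 2 : ℝ) ≤ p := by exact_mod_cast h
  have h0 : (0 : ℝ) ≤ d := Nat.cast_nonneg d
  have hN1 : (1 : ℝ) ≤ N := by exact_mod_cast hN
  have hNd : (d : ℝ) ≤ N * d := by nlinarith
  have hp : (0 : ℝ) < p := by nlinarith
  have hb := one_add_mul_le_pow (a := -((d : ℝ) / p)) (by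
    have : (d : ℝ) / p ≤ 1 := by
      rw [div_le_one hp]
      linarith
    linarith) N
  have e1 : 1 + (N : ℝ) * (-((d : ℝ) / p)) = ((p : ℝ) - (N * d : ℕ)) / p := by
    push_cast
    field_simp
    ring
  have e2 : 1 + (-((d : ℝ) / p)) = ((p : ℝ) - d) / p := by
    field_simp
    ring
  rw [e1, e2] at hb
  have hpos1 : 0 < ((p : ℝ) - (N * d : ℕ)) / p := by
    apply div_pos _ hp
    push_cast
    linarith
  have hpos2 : 0 < ((p : ℝ) - d) / p := by
    apply div_pos _ hp
    linarith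
  have e3 : (p : ℝ) / ((p : ℝ) - d) = (((p : ℝ) - d) / p)⁻¹ := by rw [inv_div]
  have e4 : (p : ℝ) / ((p : ℝ) - (N * d : ℕ)) = (((p : ℝ) - (N * d : ℕ)) / p)⁻¹ := by rw [inv_div]
  rw [e3, e4, inv_pow]
  exact inv_anti₀ hpos1 hb

/-- the factor of a resultant -/
noncomputable def Gq (d z y Q : ℕ) (w : ℤ) : ℝ :=
  ∏ p ∈ w.natAbs.primeFactors.filter (fun p => p ∈ PS z y ∧ ¬ p ∣ Q), (p : ℝ) / ((p : ℝ) - d)

theorem Gq_ge (d z y Q : ℕ) (w : ℤ) (hz : 2 * d + 2 ≤ z) : 1 ≤ Gq d z y Q w := by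
  unfold Gq
  refine one_le_prod ?_
  intro p hp
  rw [mem_filter] at hp
  have h1 := hp.2.1
  unfold PS at h1
  rw [mem_filter, mem_Ioc] at h1
  exact fac_ge d p (by omega)

theorem Gq_pow (d z y Q N z2 : ℕ) (w : ℤ) (hN : 1 ≤ N) (hz : 2 * d + 2 ≤ z)
    (hz2 : 2 * (N * d) + 2 ≤ z2) :
    Gq d z y Q w ^ N ≤ 2 ^ (N * z2) *
      ∏ p ∈ w.natAbs.primeFactors.filter (fun p => z2 < p ∧ ¬ p ∣ Q),
        (p : ℝ) / ((p : ℝ) - (N * d : ℕ)) := by
  classical
  unfold Gq
  set S := w.natAbs.primeFactors.filter (fun p => p ∈ PS z y ∧ ¬ p ∣ Q) with hS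
  have hSp : ∀ p ∈ S, z < p ∧ p.Prime ∧ ¬ p ∣ Q ∧ p ∈ w.natAbs.primeFactors := by
    intro p hp
    rw [hS, mem_filter] at hp
    have h1 := hp.2.1
    unfold PS at h1
    rw [mem_filter, mem_Ioc] at h1
    exact ⟨h1.1.1, h1.2, hp.2.2, hp.1⟩
  rw [← prod_filter_mul_prod_filter_not S (fun p => p ≤ z2), mul_pow]
  apply mul_le_mul
  · rw [mul_comm N z2, pow_mul]
    apply pow_le_pow_left₀
    · apply prod_nonneg
      intro p hp
      rw [mem_filter] at hp
      have := hSp p hp.1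
      exact le_trans zero_le_one (fac_ge d p (by omega))
    · calc ∏ p ∈ S.filter (fun p => p ≤ z2), (p : ℝ) / ((p : ℝ) - d)
          ≤ ∏ _p ∈ S.filter (fun p => p ≤ z2), (2 : ℝ) := by
            apply prod_le_prod
            · intro p hp
              rw [mem_filter] at hp
              have := hSp p hp.1
              exact le_trans zero_le_one (fac_ge d p (by omega))
            · intro p hp
              rw [mem_filter] at hp
              have := hSp p hp.1
              exact fac_le_two d p (by omega)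
        _ = 2 ^ (S.filter (fun p => p ≤ z2)).card := by rw [prod_const]
        _ ≤ 2 ^ z2 := by
            apply pow_le_pow_right₀ (by norm_num)
            have h1 : S.filter (fun p => p ≤ z2) ⊆ Icc 1 z2 := by
              intro p hp
              rw [mem_filter] at hp
              rw [mem_Icc]
              exact ⟨(hSp p hp.1).2.1.one_lt.le, hp.2⟩
            have h2 := card_le_card h1
            rwa [Nat.card_Icc, Nat.add_sub_cancel] at h2
  · rw [← prod_pow]
    calc ∏ p ∈ S.filter (fun p => ¬ p ≤ z2), ((p : ℝ) / ((p : ℝ) - d)) ^ N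
        ≤ ∏ p ∈ S.filter (fun p => ¬ p ≤ z2), (p : ℝ) / ((p : ℝ) - (N * d : ℕ)) := by
          apply prod_le_prod
          · intro p hp
            rw [mem_filter] at hp
            have := hSp p hp.1
            exact pow_nonneg (le_trans zero_le_one (fac_ge d p (by omega))) _
          · intro p hp
            rw [mem_filter] at hp
            exact fac_pow d N p hN (by omega)
      _ ≤ _ := by
          apply prod_le_prod_of_subset_of_one_le
          · intro p hp
            rw [mem_filter] at hp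
            have := hSp p hp.1
            rw [mem_filter]
            exact ⟨this.2.2.2, by omega, this.2.2.1⟩
          · intro p hp
            rw [mem_filter] at hp
            exact le_trans zero_le_one (fac_ge (N * d) p (by omega))
          · intro p hp _
            rw [mem_filter] at hp
            exact fac_ge (N * d) p (by omega)
  · apply pow_nonneg
    apply prod_nonneg
    intro p hp
    rw [mem_filter] at hp
    have := hSp p hp.1
    exact le_trans zero_le_one (fac_ge d p (by omega))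
  · positivity

theorem prod_le_sum_pow {ι : Type} (s : Finset ι) (x : ι → ℝ) (hx : ∀ i ∈ s, 1 ≤ x i) (N : ℕ)
    (hN : s.card ≤ N) : ∏ i ∈ s, x i ≤ 1 + ∑ i ∈ s, x i ^ N := by
  rcases s.eq_empty_or_nonempty with h | h
  · simp [h]
  · obtain ⟨i0, hi0, hmax⟩ := exists_max_image s x h
    calc ∏ i ∈ s, x i ≤ ∏ _i ∈ s, x i0 :=
          prod_le_prod (fun i hi => zero_le_one.trans (hx i hi)) (fun i hi => hmax i hi)
      _ = x i0 ^ s.card := prod_const _
      _ ≤ x i0 ^ N := pow_le_pow_right₀ (hx i0 hi0) hN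
      _ ≤ ∑ i ∈ s, x i ^ N := single_le_sum (f := fun i => x i ^ N)
          (fun i hi => pow_nonneg (zero_le_one.trans (hx i hi)) _) hi0
      _ ≤ _ := by linarith

theorem prod_union_le (A B : Finset ℕ) (f : ℕ → ℝ) (hA : ∀ p ∈ A, 1 ≤ f p)
    (hB : ∀ p ∈ B, 1 ≤ f p) : ∏ p ∈ A ∪ B, f p ≤ (∏ p ∈ A, f p) * ∏ p ∈ B, f p := by
  rw [← prod_union_inter]
  apply le_mul_of_one_le_right
  · apply prod_nonneg
    intro p hp
    rw [mem_union] at hp
    rcases hp with h | h
    · exact zero_le_one.trans (hA p h)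
    · exact zero_le_one.trans (hB p h)
  · apply one_le_prod
    intro p hp
    exact hA p (mem_inter.1 hp).1

theorem prod_biUnion_le {ι : Type} [DecidableEq ι] (s : Finset ι) (t : ι → Finset ℕ) (f : ℕ → ℝ)
    (hf : ∀ i ∈ s, ∀ p ∈ t i, 1 ≤ f p) :
    ∏ p ∈ s.biUnion t, f p ≤ ∏ i ∈ s, ∏ p ∈ t i, f p := by
  induction s using Finset.induction_on with
  | empty => simp
  | insert a s ha ih =>
    rw [biUnion_insert, prod_insert ha]
    refine (prod_union_le _ _ f (fun p hp => hf a (mem_insert_self a s) p hp) ?_).trans ?_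
    · intro p hp
      rw [mem_biUnion] at hp
      obtain ⟨i, hi, hp⟩ := hp
      exact hf i (mem_insert_of_mem hi) p hp
    · apply mul_le_mul_of_nonneg_left (ih fun i hi => hf i (mem_insert_of_mem hi))
      apply prod_nonneg
      intro p hp
      exact zero_le_one.trans (hf a (mem_insert_self a s) p hp)

theorem mem_PS {z y p : ℕ} (h : p ∈ PS z y) : z < p ∧ p.Prime := by
  unfold PS at h
  rw [mem_filter, mem_Ioc] at h
  exact ⟨h.1.1, h.2⟩

theorem PM_le {ι : Type} [DecidableEq ι] (d z y Q : ℕ) (hz : 2 * d + 2 ≤ z)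
    (s : Finset ι) (w : ι → ℤ) :
    ∏ p ∈ (Q * ∏ q ∈ s, (w q).natAbs).primeFactors.filter (fun p => p ∈ PS z y),
      (p : ℝ) / ((p : ℝ) - d) ≤
    (∏ p ∈ Q.primeFactors.filter (fun p => p ∈ PS z y), (p : ℝ) / ((p : ℝ) - d)) *
      ∏ q ∈ s, Gq d z y Q (w q) := by
  have hf : ∀ p ∈ PS z y, (1 : ℝ) ≤ (p : ℝ) / ((p : ℝ) - d) := by
    intro p hp
    have := (mem_PS hp).1
    exact fac_ge d p (by omega)
  have hsub : (Q * ∏ q ∈ s, (w q).natAbs).primeFactors.filter (fun p => p ∈ PS z y) ⊆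
      Q.primeFactors.filter (fun p => p ∈ PS z y) ∪
        s.biUnion (fun q => (w q).natAbs.primeFactors.filter (fun p => p ∈ PS z y ∧ ¬ p ∣ Q)) := by
    intro p hp
    rw [mem_filter, Nat.mem_primeFactors] at hp
    obtain ⟨⟨hpp, hdvd, hne⟩, hPS⟩ := hp
    have hQ0 : Q ≠ 0 := fun h => hne (by rw [h, zero_mul])
    have hw0 : ∏ q ∈ s, (w q).natAbs ≠ 0 := fun h => hne (by rw [h, mul_zero])
    rw [mem_union, mem_filter, Nat.mem_primeFactors]
    by_cases hpQ : p ∣ Q
    · exact Or.inl ⟨⟨hpp, hpQ, hQ0⟩, hPS⟩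
    · right
      have h1 := ((Nat.Prime.dvd_mul hpp).1 hdvd).resolve_left hpQ
      obtain ⟨q, hq, hpq⟩ := (Prime.dvd_finsetProd_iff hpp.prime _).1 h1
      rw [mem_biUnion]
      refine ⟨q, hq, ?_⟩
      rw [mem_filter, Nat.mem_primeFactors]
      exact ⟨⟨hpp, hpq, fun h => hw0 (prod_eq_zero hq h)⟩, hPS, hpQ⟩
  refine (prod_le_prod_of_subset_of_one_le hsub ?_ ?_).trans ?_
  · intro p hp
    rw [mem_filter] at hp
    exact zero_le_one.trans (hf p hp.2)
  · intro p hp _
    rw [mem_union, mem_filter, mem_biUnion] at hp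
    rcases hp with hp | ⟨q, _, hp⟩
    · exact hf p hp.2
    · rw [mem_filter] at hp
      exact hf p hp.2.1
  · refine (prod_union_le _ _ _ ?_ ?_).trans ?_
    · intro p hp
      rw [mem_filter] at hp
      exact hf p hp.2
    · intro p hp
      rw [mem_biUnion] at hp
      obtain ⟨q, _, hp⟩ := hp
      rw [mem_filter] at hp
      exact hf p hp.2.1
    · apply mul_le_mul_of_nonneg_left
      · unfold Gq
        apply prod_biUnion_le
        intro q _ p hp
        rw [mem_filter] at hp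
        exact hf p hp.2.1
      · apply prod_nonneg
        intro p hp
        rw [mem_filter] at hp
        exact zero_le_one.trans (hf p hp.2)

/-- lifting the count to lines -/
theorem count_le (n z X y Q T : ℕ) (r : Fin n → ℤ) (hTQ : T * Q ≤ X) :
    T * ((BoxJ n X).filter (fun a => Function.Injective a ∧ (∀ i, (Q : ℤ) ∣ a i - r i) ∧
      ∀ p ∈ PS z y, ¬ p ∣ Q → ∀ c, ¬ (p : ℤ) ∣ df a c)).card ≤
    ∑ b ∈ Fintype.piFinset (fun l => Sx n X Q (r l)),
      ((Icc 1 T).filter (fun t : ℕ => ∀ p ∈ PS z y, ¬ p ∣ Q →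
        ∀ c : PR n, ¬ (p : ℤ) ∣ ff (fun c => (Q : ℤ) * kp c) (df b) t c)).card := by
  rw [← card_sigma]
  have e1 : T = (Icc 1 T).card := by rw [Nat.card_Icc, Nat.add_sub_cancel]
  nth_rewrite 1 [e1]
  rw [← card_product]
  refine card_le_card_of_injOn
    (fun q : ℕ × (Fin n → ℤ) => (⟨fun l => q.2 l - q.1 * Q * ((l : ℕ) : ℤ), q.1⟩ :
      (_ : Fin n → ℤ) × ℕ)) ?_ ?_
  · rintro ⟨t, a⟩ hq
    rw [mem_coe, mem_product, mem_filter, mem_Icc] at hq
    simp only at hq
    obtain ⟨⟨ht1, htT⟩, ha, -, har, hap⟩ := hq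
    unfold BoxJ at ha
    rw [Fintype.mem_piFinset] at ha
    rw [mem_coe, mem_sigma]
    refine ⟨?_, ?_⟩
    · rw [Fintype.mem_piFinset]
      intro l
      have hal := ha l
      rw [mem_Icc] at hal
      unfold Sx
      rw [mem_filter, mem_Icc]
      have h1 : (t : ℤ) * Q ≤ X := by
        have : t * Q ≤ X := (Nat.mul_le_mul_right Q htT).trans hTQ
        exact_mod_cast this
      have h0 : (0 : ℤ) ≤ (t : ℤ) * Q := by positivity
      have hl : ((l : ℕ) : ℤ) ≤ n := by exact_mod_cast l.isLt.le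
      have hl0 : (0 : ℤ) ≤ ((l : ℕ) : ℤ) := by positivity
      have h2 : (t : ℤ) * Q * ((l : ℕ) : ℤ) ≤ X * n :=
        mul_le_mul h1 hl hl0 (by positivity)
      have h3 : 0 ≤ (t : ℤ) * Q * ((l : ℕ) : ℤ) := mul_nonneg h0 hl0
      refine ⟨⟨?_, ?_⟩, ?_⟩
      · push_cast
        linarith [hal.1]
      · simp only
        linarith [hal.2]
      · have e2 : a l - t * Q * ((l : ℕ) : ℤ) - r l = (a l - r l) - Q * (t * ((l : ℕ) : ℤ)) := by
          ring
        simp only
        rw [e2]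
        exact dvd_sub (har l) (dvd_mul_right _ _)
    · rw [mem_filter, mem_Icc]
      refine ⟨⟨ht1, htT⟩, ?_⟩
      intro p hp hpQ c
      have h1 := hap p hp hpQ c
      have e2 : ff (fun c => (Q : ℤ) * kp c) (df (fun l => a l - t * Q * ((l : ℕ) : ℤ))) t c =
          df a c := by
        unfold ff df kp
        ring
      rw [e2]
      exact h1
  · rintro ⟨t, a⟩ _ ⟨t', a'⟩ _ h
    simp only [Sigma.mk.injEq, heq_eq_eq] at h
    obtain ⟨h1, h2⟩ := h
    subst h2
    rw [Prod.mk.injEq]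
    refine ⟨rfl, ?_⟩
    funext l
    have h3 := congrFun h1 l
    linarith

theorem card_Sx_le (n c z2 X Q : ℕ) (r : ℤ) (D U : ℝ) (hn : 3 ≤ n) (hz : 2 * c + 2 ≤ z2)
    (h : ∀ (r e κ : ℤ), κ ≠ 0 → κ.natAbs < n → e.natAbs ≤ 4 * n * (n + 1) * X →
      ∑ x ∈ Sx n X Q r, ∏ p ∈ (κ * x + e).natAbs.primeFactors.filter (fun p => z2 < p ∧ ¬ p ∣ Q),
        (p : ℝ) / ((p : ℝ) - c) ≤ D * U) : ((Sx n X Q r).card : ℝ) ≤ D * U := by
  refine le_trans ?_ (h r 0 1 one_ne_zero (by simp; omega) (by simp))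
  rw [card_eq_sum_ones]
  push_cast
  apply sum_le_sum
  intro x _
  apply one_le_prod
  intro p hp
  rw [mem_filter] at hp
  exact fac_ge c p (by omega)

/-- the sum of the powers of the factors of one resultant -/
theorem sum_Gq_le (n d z y N z2 X Q : ℕ) (r : Fin n → ℤ) (D U : ℝ) (hn : 3 ≤ n)
    (hN : 1 ≤ N) (hz : 2 * d + 2 ≤ z) (hz2 : 2 * (N * d) + 2 ≤ z2) (hDU : 0 ≤ D * U)
    (h : ∀ (r e κ : ℤ), κ ≠ 0 → κ.natAbs < n → e.natAbs ≤ 4 * n * (n + 1) * X →
      ∑ x ∈ Sx n X Q r, ∏ p ∈ (κ * x + e).natAbs.primeFactors.filter (fun p => z2 < p ∧ ¬ p ∣ Q),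
        (p : ℝ) / ((p : ℝ) - (N * d : ℕ)) ≤ D * U) (c c' : PR n) (hcc : c ≠ c') :
    ∑ b ∈ Fintype.piFinset (fun l => Sx n X Q (r l)), Gq d z y Q (Rs b c c') ^ N ≤
      2 ^ (N * z2) * (D * U) ^ n := by
  obtain ⟨i, κ, hκ, hκn, hlin⟩ := lin c c' hcc
  have h1 := sum_update_le (fun l => Sx n X Q (r l)) i (fun b => Gq d z y Q (Rs b c c') ^ N)
    (2 ^ (N * z2) * (D * U)) (by positivity) (by
      intro b hb
      have hb0 : ∀ l, (b l).natAbs ≤ (n + 1) * X := by
        intro l
        rw [Fintype.mem_piFinset] at hb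
        have := hb l
        unfold Sx at this
        rw [mem_filter, mem_Icc] at this
        have h2 : X ≤ (n + 1) * X := Nat.le_mul_of_pos_left X (by omega)
        omega
      have he : (Rs (Function.update b i 0) c c').natAbs ≤ 4 * n * (n + 1) * X := by
        refine (Rs_bound (Function.update b i 0) c c' ((n + 1) * X) ?_).trans (by
          apply le_of_eq; ring)
        intro l
        by_cases hl : l = i
        · subst hl
          simp
        · rw [Function.update_of_ne hl]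
          exact hb0 l
      calc ∑ x ∈ Sx n X Q (r i), Gq d z y Q (Rs (Function.update b i x) c c') ^ N
          ≤ ∑ x ∈ Sx n X Q (r i), 2 ^ (N * z2) *
            ∏ p ∈ (κ * x + Rs (Function.update b i 0) c c').natAbs.primeFactors.filter
              (fun p => z2 < p ∧ ¬ p ∣ Q), (p : ℝ) / ((p : ℝ) - (N * d : ℕ)) := by
            apply sum_le_sum
            intro x _
            rw [hlin b x]
            exact Gq_pow d z y Q N z2 _ hN hz hz2
        _ ≤ 2 ^ (N * z2) * (D * U) := by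
            rw [← mul_sum]
            apply mul_le_mul_of_nonneg_left _ (by positivity)
            exact h (r i) _ κ hκ hκn he)
  refine h1.trans ?_
  have h2 : ∏ l ∈ univ.erase i, ((Sx n X Q (r l)).card : ℝ) ≤ (D * U) ^ (n - 1) := by
    calc ∏ l ∈ univ.erase i, ((Sx n X Q (r l)).card : ℝ) ≤ ∏ _l ∈ univ.erase i, (D * U) := by
          apply prod_le_prod (fun _ _ => Nat.cast_nonneg _)
          intro l _
          exact card_Sx_le n (N * d) z2 X Q (r l) D U hn hz2 h
      _ = (D * U) ^ (n - 1) := by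
          rw [prod_const, card_erase_of_mem (mem_univ i), card_univ, Fintype.card_fin]
  calc 2 ^ (N * z2) * (D * U) * ∏ l ∈ univ.erase i, ((Sx n X Q (r l)).card : ℝ)
      ≤ 2 ^ (N * z2) * (D * U) * (D * U) ^ (n - 1) := by
        apply mul_le_mul_of_nonneg_left h2 (by positivity)
    _ = 2 ^ (N * z2) * ((D * U) ^ (n - 1) * (D * U)) := by ring
    _ = 2 ^ (N * z2) * (D * U) ^ n := by
        rw [← pow_succ]
        congr 2
        omega

/-- the number of points where a resultant vanishes -/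
theorem sum_bad_le (n c0 z2 X Q : ℕ) (r : Fin n → ℤ) (D U : ℝ) (hn : 3 ≤ n)
    (hz2 : 2 * c0 + 2 ≤ z2)
    (h : ∀ (r e κ : ℤ), κ ≠ 0 → κ.natAbs < n → e.natAbs ≤ 4 * n * (n + 1) * X →
      ∑ x ∈ Sx n X Q r, ∏ p ∈ (κ * x + e).natAbs.primeFactors.filter (fun p => z2 < p ∧ ¬ p ∣ Q),
        (p : ℝ) / ((p : ℝ) - c0) ≤ D * U) (c c' : PR n) (hcc : c ≠ c') :
    ∑ b ∈ Fintype.piFinset (fun l => Sx n X Q (r l)), (if Rs b c c' = 0 then (1 : ℝ) else 0) ≤
      (D * U) ^ (n - 1) := by
  obtain ⟨i, κ, hκ, hκn, hlin⟩ := lin c c' hcc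
  have h1 := sum_update_le (fun l => Sx n X Q (r l)) i
    (fun b => if Rs b c c' = 0 then (1 : ℝ) else 0) 1 zero_le_one (by
      intro b _
      rw [← sum_filter, sum_const, nsmul_eq_mul, mul_one]
      have : ((Sx n X Q (r i)).filter (fun x => Rs (Function.update b i x) c c' = 0)).card ≤ 1 := by
        rw [card_le_one]
        intro x hx x' hx'
        rw [mem_filter, hlin] at hx hx'
        have h3 : κ * x = κ * x' := by linarith [hx.2, hx'.2]
        exact mul_left_cancel₀ hκ h3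
      exact_mod_cast this)
  refine h1.trans ?_
  rw [one_mul]
  calc ∏ l ∈ univ.erase i, ((Sx n X Q (r l)).card : ℝ) ≤ ∏ _l ∈ univ.erase i, (D * U) := by
        apply prod_le_prod (fun _ _ => Nat.cast_nonneg _)
        intro l _
        exact card_Sx_le n c0 z2 X Q (r l) D U hn hz2 h
    _ = (D * U) ^ (n - 1) := by
        rw [prod_const, card_erase_of_mem (mem_univ i), card_univ, Fintype.card_fin]

open Classical in
/-- the count on one line -/
theorem line_count (n z y Q T : ℕ) (C1 : ℝ) (hC1 : 0 ≤ C1) (hnz : n ≤ z)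
    (hz : 2 * Fintype.card (PR n) + 2 ≤ z) (hQ : 1 ≤ Q) (hT : 1 ≤ T) (hy : 3 ≤ y)
    (hsv : ∀ (α β : PR n → ℤ) (m M r : ℕ), 1 ≤ m → m ∣ M → M ≠ 0 → m ^ 4 ≤ T →
      (∀ p ∈ PS z y, ¬ p ∣ M → (∀ j, ¬ (p : ℤ) ∣ α j) ∧ ∀ j l, j ≠ l → ¬ (p : ℤ) ∣ Res α β j l) →
      (((Icc 1 T).filter (fun t : ℕ => t ≡ r [MOD m] ∧ ∀ p ∈ PS z y, ¬ p ∣ M →
        ∀ j, ¬ (p : ℤ) ∣ ff α β t j)).card : ℝ) ≤
        C1 * (T / m) * (∏ p ∈ M.primeFactors.filter (fun p => p ∈ PS z y),
          (p : ℝ) / ((p : ℝ) - Fintype.card (PR n))) / (Real.log y) ^ (Fintype.card (PR n)))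
    (b : Fin n → ℤ) :
    (((Icc 1 T).filter (fun t : ℕ => ∀ p ∈ PS z y, ¬ p ∣ Q →
        ∀ c : PR n, ¬ (p : ℤ) ∣ ff (fun c => (Q : ℤ) * kp c) (df b) t c)).card : ℝ) ≤
      T * (C1 * (∏ p ∈ Q.primeFactors.filter (fun p => p ∈ PS z y),
          (p : ℝ) / ((p : ℝ) - Fintype.card (PR n))) / (Real.log y) ^ (Fintype.card (PR n)) *
        (1 + ∑ q ∈ (univ : Finset (PR n)).offDiag,
          Gq (Fintype.card (PR n)) z y Q (Rs b q.1 q.2) ^
            ((univ : Finset (PR n)).offDiag.card + 1)) +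
        ∑ q ∈ (univ : Finset (PR n)).offDiag, (if Rs b q.1 q.2 = 0 then (1 : ℝ) else 0)) := by
  set d := Fintype.card (PR n) with hd
  set PQ : ℝ := ∏ p ∈ Q.primeFactors.filter (fun p => p ∈ PS z y), (p : ℝ) / ((p : ℝ) - d) with hPQ
  have hPQ1 : 1 ≤ PQ := by
    rw [hPQ]
    apply one_le_prod
    intro p hp
    rw [mem_filter] at hp
    have := (mem_PS hp.2).1
    exact fac_ge d p (by omega)
  have hG1 : ∀ w, 1 ≤ Gq d z y Q w := fun w => Gq_ge d z y Q w hz
  have hT0 : (0 : ℝ) ≤ T := Nat.cast_nonneg T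
  have hL : 0 < (Real.log y) ^ d := by
    apply pow_pos
    apply Real.log_pos
    have : (3 : ℝ) ≤ y := by exact_mod_cast hy
    linarith
  have hA : 0 ≤ C1 * PQ / (Real.log y) ^ d := by positivity
  have hs0 : 0 ≤ ∑ q ∈ (univ : Finset (PR n)).offDiag,
      Gq d z y Q (Rs b q.1 q.2) ^ ((univ : Finset (PR n)).offDiag.card + 1) :=
    sum_nonneg fun q _ => pow_nonneg (zero_le_one.trans (hG1 _)) _
  have hs1 : 0 ≤ ∑ q ∈ (univ : Finset (PR n)).offDiag,
      (if Rs b q.1 q.2 = 0 then (1 : ℝ) else 0) :=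
    sum_nonneg fun q _ => by split_ifs <;> norm_num
  by_cases h : ∀ q ∈ (univ : Finset (PR n)).offDiag, Rs b q.1 q.2 ≠ 0
  · set M : ℕ := Q * ∏ q ∈ (univ : Finset (PR n)).offDiag, (Rs b q.1 q.2).natAbs with hM
    have hM0 : M ≠ 0 := by
      rw [hM]
      apply mul_ne_zero (by omega)
      rw [prod_ne_zero_iff]
      intro q hq
      exact Int.natAbs_ne_zero.2 (h q hq)
    have h1 := hsv (fun c => (Q : ℤ) * kp c) (df b) 1 M 0 le_rfl (one_dvd _) hM0
      (by simpa using hT) (by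
      intro p hp hpM
      obtain ⟨hzp, hpp⟩ := mem_PS hp
      have hpQ : ¬ (p : ℤ) ∣ (Q : ℤ) := by
        rw [Int.natCast_dvd_natCast]
        exact fun h => hpM (Dvd.dvd.mul_right h _)
      have hpI : Prime (p : ℤ) := Nat.prime_iff_prime_int.1 hpp
      constructor
      · intro c hc
        rcases hpI.dvd_or_dvd hc with h2 | h2
        · exact hpQ h2
        · have h3 := Int.natAbs_dvd_natAbs.2 h2
          rw [Int.natAbs_natCast] at h3
          have h4 := Nat.le_of_dvd (Int.natAbs_pos.2 (kp_ne c)) h3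
          have h5 := kp_lt c
          omega
      · intro c c' hcc hc
        have e1 : Res (fun c => (Q : ℤ) * kp c) (df b) c c' = (Q : ℤ) * Rs b c c' := by
          unfold Res Rs
          ring
        rw [e1] at hc
        rcases hpI.dvd_or_dvd hc with h2 | h2
        · exact hpQ h2
        · apply hpM
          rw [hM]
          apply Dvd.dvd.mul_left
          have h3 := Int.natAbs_dvd_natAbs.2 h2
          rw [Int.natAbs_natCast] at h3
          exact h3.trans (dvd_prod_of_mem (fun q : PR n × PR n => (Rs b q.1 q.2).natAbs)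
            (mem_offDiag.2 ⟨mem_univ c, mem_univ c', hcc⟩ : (c, c') ∈ (univ : Finset (PR n)).offDiag)))
    have h2 : (((Icc 1 T).filter (fun t : ℕ => ∀ p ∈ PS z y, ¬ p ∣ Q →
        ∀ c : PR n, ¬ (p : ℤ) ∣ ff (fun c => (Q : ℤ) * kp c) (df b) t c)).card : ℝ) ≤
        (((Icc 1 T).filter (fun t : ℕ => t ≡ 0 [MOD 1] ∧ ∀ p ∈ PS z y, ¬ p ∣ M →
        ∀ j, ¬ (p : ℤ) ∣ ff (fun c => (Q : ℤ) * kp c) (df b) t j)).card : ℝ) := by
      exact_mod_cast card_le_card (monotone_filter_right _ (by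
        intro t _ ht
        refine ⟨Nat.modEq_one, fun p hp hpM => ht p hp (fun h => hpM (Dvd.dvd.mul_right h _))⟩))
    refine h2.trans (h1.trans ?_)
    have h3 := PM_le d z y Q hz (univ : Finset (PR n)).offDiag (fun q => Rs b q.1 q.2)
    have h4 := prod_le_sum_pow (univ : Finset (PR n)).offDiag
      (fun q => Gq d z y Q (Rs b q.1 q.2)) (fun q _ => hG1 _)
      ((univ : Finset (PR n)).offDiag.card + 1) (Nat.le_succ _)
    have h5 := h3.trans (mul_le_mul_of_nonneg_left h4 (zero_le_one.trans hPQ1))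
    rw [← hM] at h5
    calc C1 * (T / (1 : ℕ)) * (∏ p ∈ M.primeFactors.filter (fun p => p ∈ PS z y),
          (p : ℝ) / ((p : ℝ) - d)) / (Real.log y) ^ d
        ≤ C1 * (T / (1 : ℕ)) * (PQ * (1 + ∑ q ∈ (univ : Finset (PR n)).offDiag,
          Gq d z y Q (Rs b q.1 q.2) ^ ((univ : Finset (PR n)).offDiag.card + 1))) /
            (Real.log y) ^ d := by
          apply div_le_div_of_nonneg_right _ hL.le
          apply mul_le_mul_of_nonneg_left h5
          positivity
      _ = T * (C1 * PQ / (Real.log y) ^ d * (1 + ∑ q ∈ (univ : Finset (PR n)).offDiag,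
          Gq d z y Q (Rs b q.1 q.2) ^ ((univ : Finset (PR n)).offDiag.card + 1)) + 0) := by
          rw [Nat.cast_one, div_one]
          ring
      _ ≤ _ := by
          apply mul_le_mul_of_nonneg_left _ hT0
          linarith
  · push Not at h
    obtain ⟨q, hq, hq0⟩ := h
    have h1 : (((Icc 1 T).filter (fun t : ℕ => ∀ p ∈ PS z y, ¬ p ∣ Q →
        ∀ c : PR n, ¬ (p : ℤ) ∣ ff (fun c => (Q : ℤ) * kp c) (df b) t c)).card : ℝ) ≤ T := by
      have := card_filter_le (Icc 1 T) (fun t : ℕ => ∀ p ∈ PS z y, ¬ p ∣ Q →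
        ∀ c : PR n, ¬ (p : ℤ) ∣ ff (fun c => (Q : ℤ) * kp c) (df b) t c)
      rw [Nat.card_Icc, Nat.add_sub_cancel] at this
      exact_mod_cast this
    have h2 : (1 : ℝ) ≤ ∑ q ∈ (univ : Finset (PR n)).offDiag,
        (if Rs b q.1 q.2 = 0 then (1 : ℝ) else 0) := by
      have h3 := single_le_sum (s := (univ : Finset (PR n)).offDiag)
        (f := fun q : PR n × PR n => if Rs b q.1 q.2 = 0 then (1 : ℝ) else 0)
        (fun q _ => by
          split_ifs <;> norm_num) hq
      simp only [if_pos hq0] at h3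
      exact h3
    refine h1.trans ?_
    apply le_mul_of_one_le_right hT0
    have : 0 ≤ C1 * PQ / (Real.log y) ^ d * (1 + ∑ q ∈ (univ : Finset (PR n)).offDiag,
        Gq d z y Q (Rs b q.1 q.2) ^ ((univ : Finset (PR n)).offDiag.card + 1)) :=
      mul_nonneg hA (by linarith)
    linarith

end Line

open Line in
theorem line_of (hS : SVR2) (hA : Pool.Agent.W307.FK.AVHR) : S_LINE := by
  intro n z hn hnz hz
  classical
  set d := Fintype.card (PR n) with hd
  set P : Finset (PR n × PR n) := univ.offDiag with hP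
  set N := P.card + 1 with hN
  set z2 := max z (2 * (N * d) + 2) with hz2
  have hzz2 : 2 * (N * d) + 2 ≤ z2 := le_max_right _ _
  obtain ⟨C1, K1, y1, hC1, hK1, hsv⟩ := hS (PR n) z hz
  obtain ⟨D, hD, hin⟩ := inner hA n (N * d) z2 (4 * n * (n + 1)) (by omega) hzz2
    (hnz.trans (le_max_left _ _))
  set W : ℝ := 2 ^ (N * z2) with hW
  refine ⟨C1 * (1 + P.card * W) * D ^ n + P.card * D ^ (n - 1), 2 * K1 + 2 * d, max y1 3,
    by positivity, by omega, ?_⟩
  intro X y Q r hy hzy hyX hQ hQX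
  have hy1 : y1 ≤ y := (le_max_left _ _).trans hy
  have hy3 : 3 ≤ y := (le_max_right _ _).trans hy
  have hX1 : 1 ≤ X := le_trans (Nat.one_le_pow _ _ (by omega)) hyX
  have hQy : ∀ e, e ≤ K1 + d → Q * y ^ e ≤ X := by
    intro e he
    by_contra hcon
    push Not at hcon
    have h1 : X ^ 2 < (Q * y ^ e) ^ 2 := Nat.pow_lt_pow_left hcon (by norm_num)
    have h2 : (Q * y ^ e) ^ 2 = Q ^ 2 * y ^ (2 * e) := by ring
    have h3 : Q ^ 2 ≤ X := (Nat.pow_le_pow_right hQ (by norm_num)).trans hQX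
    have h4 : y ^ (2 * e) ≤ X := (Nat.pow_le_pow_right (by omega) (by omega)).trans hyX
    have h5 : Q ^ 2 * y ^ (2 * e) ≤ X * X := Nat.mul_le_mul h3 h4
    rw [h2, sq] at h1
    omega
  set T := X / Q with hT
  have hTQ : T * Q ≤ X := Nat.div_mul_le_self X Q
  have hyT : y ^ K1 ≤ T := (Nat.le_div_iff_mul_le hQ).2 (by
    rw [mul_comm]
    exact hQy K1 (by omega))
  have hT1 : 1 ≤ T := le_trans (Nat.one_le_pow _ _ (by omega)) hyT
  set U : ℝ := (X : ℝ) / Q with hU
  have hQ0 : (0 : ℝ) < Q := by exact_mod_cast hQ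
  have hyU : (y : ℝ) ^ d ≤ U := by
    rw [hU, le_div_iff₀ hQ0, mul_comm]
    exact_mod_cast hQy d (by omega)
  have hy3' : (3 : ℝ) ≤ y := by exact_mod_cast hy3
  have hlog : 0 < Real.log y := Real.log_pos (by linarith)
  have hlogy : Real.log y ≤ y := (Real.log_le_sub_one_of_pos (by linarith)).trans (by linarith)
  set L : ℝ := (Real.log y) ^ d with hL
  have hL0 : 0 < L := pow_pos hlog d
  have hLU : L ≤ U := (pow_le_pow_left₀ hlog.le hlogy d).trans hyU
  have hU0 : 0 < U := hL0.trans_le hLU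
  set PQ : ℝ := ∏ p ∈ Q.primeFactors.filter (fun p => p ∈ PS z y), (p : ℝ) / ((p : ℝ) - d) with hPQ
  have hPQ1 : 1 ≤ PQ := by
    rw [hPQ]
    apply one_le_prod
    intro p hp
    rw [mem_filter] at hp
    have := (mem_PS hp.2).1
    exact fac_ge d p (by omega)
  have hin' := fun (r e κ : ℤ) (h1 : κ ≠ 0) (h2 : κ.natAbs < n)
    (h3 : e.natAbs ≤ 4 * n * (n + 1) * X) => hin X Q r e κ hX1 hQ hQX h1 h2 h3
  have hDU : 0 ≤ D * U := mul_nonneg hD hU0.le
  have hcnt := count_le n z X y Q T r hTQ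
  set A := (BoxJ n X).filter (fun a => Function.Injective a ∧ (∀ i, (Q : ℤ) ∣ a i - r i) ∧
      ∀ p ∈ PS z y, ¬ p ∣ Q → ∀ c, ¬ (p : ℤ) ∣ df a c) with hAA
  have hcnt' : (T : ℝ) * A.card ≤ ∑ b ∈ Fintype.piFinset (fun l => Sx n X Q (r l)),
      (((Icc 1 T).filter (fun t : ℕ => ∀ p ∈ PS z y, ¬ p ∣ Q →
        ∀ c : PR n, ¬ (p : ℤ) ∣ ff (fun c => (Q : ℤ) * kp c) (df b) t c)).card : ℝ) := by
    exact_mod_cast hcnt
  have hline := fun b => line_count n z y Q T C1 hC1 hnz hz hQ hT1 hy3 (hsv T y hy1 hzy hyT) b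
  have hT0 : (0 : ℝ) < T := by exact_mod_cast hT1
  have hmain : (T : ℝ) * A.card ≤ T * (C1 * PQ / L * ((D * U) ^ n + P.card * (W * (D * U) ^ n)) +
      P.card * (D * U) ^ (n - 1)) := by
    refine hcnt'.trans ((sum_le_sum fun b _ => hline b).trans ?_)
    rw [← mul_sum]
    apply mul_le_mul_of_nonneg_left _ hT0.le
    rw [sum_add_distrib, ← mul_sum, sum_add_distrib]
    apply add_le_add
    · apply mul_le_mul_of_nonneg_left
      · apply add_le_add
        · rw [sum_const, nsmul_eq_mul, mul_one, Fintype.card_piFinset]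
          push_cast
          calc ∏ l, ((Sx n X Q (r l)).card : ℝ) ≤ ∏ _l : Fin n, (D * U) := by
                apply prod_le_prod (fun _ _ => Nat.cast_nonneg _)
                intro l _
                exact card_Sx_le n (N * d) z2 X Q (r l) D U hn hzz2 hin'
            _ = (D * U) ^ n := by
                rw [prod_const, card_univ, Fintype.card_fin]
        · rw [sum_comm, ← nsmul_eq_mul, ← sum_const]
          apply sum_le_sum
          intro q hq
          rw [mem_offDiag] at hq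
          exact sum_Gq_le n d z y N z2 X Q r D U hn (by omega) hz hzz2 hDU hin' q.1 q.2 hq.2.2
      · positivity
    · rw [sum_comm, ← nsmul_eq_mul, ← sum_const]
      apply sum_le_sum
      intro q hq
      rw [mem_offDiag] at hq
      exact sum_bad_le n (N * d) z2 X Q r D U hn hzz2 hin' q.1 q.2 hq.2.2
  have hfin := le_of_mul_le_mul_left hmain hT0
  refine hfin.trans ?_
  have h1 : (D * U) ^ (n - 1) ≤ D ^ (n - 1) * (U ^ n * PQ / L) := by
    rw [mul_pow]
    apply mul_le_mul_of_nonneg_left _ (by positivity)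
    rw [le_div_iff₀ hL0]
    have e1 : U ^ n = U ^ (n - 1) * U := by
      rw [← pow_succ]
      congr 1
      omega
    rw [e1, mul_assoc]
    apply mul_le_mul_of_nonneg_left _ (by positivity)
    nlinarith
  have e2 : (C1 * (1 + P.card * W) * D ^ n + P.card * D ^ (n - 1)) * U ^ n * PQ / L =
      C1 * PQ / L * ((D * U) ^ n + P.card * (W * (D * U) ^ n)) +
      P.card * (D ^ (n - 1) * (U ^ n * PQ / L)) := by
    rw [mul_pow]
    ring
  rw [e2]
  have h2 : (P.card : ℝ) * (D * U) ^ (n - 1) ≤ P.card * (D ^ (n - 1) * (U ^ n * PQ / L)) :=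
    mul_le_mul_of_nonneg_left h1 (Nat.cast_nonneg _)
  linarith

theorem line : S_LINE := line_of Pool.Agent.W340.RT.SVR2.svr2 Pool.Agent.W991.FK.avhr

end Pool.Agent.TH344.JG
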