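import Mathlib
import Pool.Agent.W407.SE.Ratp0
import Pool.Agent.TH344.JG.Stm

/-!
# JG-LOC: local conditions for the Jacobian at the primes of good and of nice reduction

The divisor classes are split into irreducible factors `g` of `u`; for each of them the norms of
`θ - a_l` from the field `ℚ_p[x]/(g)` are analysed with the extended absolute value.
-/

set_option autoImplicit false

namespace Pool.Agent.TH344.JG.Loc

open Polynomial IntermediateField

variable {p : ℕ} [hp : Fact p.Prime]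

section emb

variable {L : Type} [Field L] [Algebra ℚ_[p] L] (ι : L →ₐ[ℚ_[p]] PadicAlgCl p)

theorem norm_emb (σ : L →ₐ[ℚ_[p]] PadicAlgCl p) (x : L) : ‖σ x‖ = ‖ι x‖ := by
  rw [← PadicAlgCl.spectralNorm_eq, ← PadicAlgCl.spectralNorm_eq]
  unfold spectralNorm
  rw [minpoly.algHom_eq σ σ.injective, minpoly.algHom_eq ι ι.injective]

theorem norm_N [FiniteDimensional ℚ_[p] L] (x : L) :
    ‖Algebra.norm ℚ_[p] x‖ = ‖ι x‖ ^ Module.finrank ℚ_[p] L := by
  rw [← PadicAlgCl.norm_extends p (Algebra.norm ℚ_[p] x), Algebra.norm_eq_prod_embeddings,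
    norm_prod, Finset.prod_congr rfl (fun σ _ => norm_emb ι σ x), Finset.prod_const,
    Finset.card_univ, AlgHom.card]

end emb

section near

theorem norm_of_near {x : PadicAlgCl p} (h : ‖x - 1‖ < 1) : ‖x‖ = 1 := by
  have h1 : ‖(x - 1) + 1‖ = max ‖x - 1‖ ‖(1 : PadicAlgCl p)‖ :=
    IsUltrametricDist.norm_add_eq_max_of_norm_ne_norm (by rw [norm_one]; exact h.ne)
  rw [sub_add_cancel, norm_one, max_eq_right h.le] at h1
  exact h1

theorem near_mul {x y : PadicAlgCl p} (hx : ‖x - 1‖ < 1) (hy : ‖y - 1‖ < 1) :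
    ‖x * y - 1‖ < 1 := by
  have e : x * y - 1 = x * (y - 1) + (x - 1) := by ring
  rw [e]
  refine (IsUltrametricDist.norm_add_le_max _ _).trans_lt (max_lt ?_ hx)
  rw [norm_mul, norm_of_near hx, one_mul]
  exact hy

theorem near_prod {α : Type} (s : Finset α) (f : α → PadicAlgCl p)
    (h : ∀ i ∈ s, ‖f i - 1‖ < 1) : ‖∏ i ∈ s, f i - 1‖ < 1 := by
  classical
  induction s using Finset.induction_on with
  | empty => simp
  | insert a s ha ih =>
    rw [Finset.prod_insert ha]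
    exact near_mul (h a (Finset.mem_insert_self _ _))
      (ih fun i hi => h i (Finset.mem_insert_of_mem hi))

theorem norm_two (hp2 : p ≠ 2) : ‖(2 : ℚ_[p])‖ = 1 := by
  have h4 : ¬ (p : ℤ) ∣ 2 := by
    intro h
    have h5 : p ∣ 2 := by exact_mod_cast h
    exact hp2 ((Nat.prime_dvd_prime_iff_eq hp.out Nat.prime_two).1 h5)
  have h5 : ¬ ‖((2 : ℤ) : ℚ_[p])‖ < 1 := by
    rw [Padic.norm_intCast_lt_one_iff]
    exact h4
  have h6 : ‖((2 : ℤ) : ℚ_[p])‖ ≤ 1 := Padic.norm_int_le_one 2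
  have h7 : ((2 : ℤ) : ℚ_[p]) = 2 := by norm_num
  rw [h7] at h5 h6
  exact le_antisymm h6 (not_lt.1 h5)

theorem norm_two' (hp2 : p ≠ 2) : ‖(2 : PadicAlgCl p)‖ = 1 := by
  rw [← norm_two hp2, ← PadicAlgCl.norm_extends p (2 : ℚ_[p]), map_ofNat]

end near

section ext2

variable {L : Type} [Field L] [Algebra ℚ_[p] L] [FiniteDimensional ℚ_[p] L]
  (ι : L →ₐ[ℚ_[p]] PadicAlgCl p)

theorem isSquare_N (hp2 : p ≠ 2) {e : L} (he : ‖ι e - 1‖ < 1) :
    IsSquare (Algebra.norm ℚ_[p] e) := by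
  have h1 : ‖Algebra.norm ℚ_[p] e - 1‖ < 1 := by
    rw [← PadicAlgCl.norm_extends p, map_sub, map_one, Algebra.norm_eq_prod_embeddings]
    apply near_prod
    intro σ _
    have h2 := norm_emb ι σ (e - 1)
    rw [map_sub, map_sub, map_one, map_one] at h2
    rw [h2]
    exact he
  have h2 := Pool.Agent.W407.SE.isSquare_one_add hp2 _ h1
  rwa [add_sub_cancel] at h2

omit [FiniteDimensional ℚ_[p] L] in
/-- Krasner: the square root of a unit that is close to a square -/
theorem sqrt_mem (hp2 : p ≠ 2) (s : ℚ_[p]) (hs : ‖s‖ = 1) (τ e : L)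
    (hτ : τ ^ 2 = algebraMap ℚ_[p] L s * e) (he : ‖ι e - 1‖ < 1) :
    ∃ t : L, t ^ 2 = algebraMap ℚ_[p] L s := by
  have hs' : ‖algebraMap ℚ_[p] (PadicAlgCl p) s‖ = 1 := by
    rw [PadicAlgCl.norm_extends, hs]
  obtain ⟨t0, ht0⟩ := IsAlgClosed.exists_pow_nat_eq (algebraMap ℚ_[p] (PadicAlgCl p) s) two_pos
  have key : ∃ t : PadicAlgCl p, t ^ 2 = algebraMap ℚ_[p] (PadicAlgCl p) s ∧ ‖t - ι τ‖ < 1 := by
    have h1 : (ι τ) ^ 2 = algebraMap ℚ_[p] (PadicAlgCl p) s * ι e := by
      rw [← map_pow, hτ, map_mul, AlgHom.commutes]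
    have h2 : (t0 - ι τ) * (-t0 - ι τ) =
        algebraMap ℚ_[p] (PadicAlgCl p) s * (ι e - 1) := by
      linear_combination h1 - ht0
    have h3 : ‖t0 - ι τ‖ * ‖-t0 - ι τ‖ < 1 := by
      rw [← norm_mul, h2, norm_mul, hs', one_mul]
      exact he
    by_cases h4 : ‖t0 - ι τ‖ < 1
    · exact ⟨t0, ht0, h4⟩
    · refine ⟨-t0, by rw [neg_sq, ht0], ?_⟩
      by_contra h5
      push Not at h4 h5
      exact absurd h3 (not_lt.2 (one_le_mul_of_one_le_of_one_le h4 h5))
  obtain ⟨t, ht, htτ⟩ := key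
  have hnt : ‖t‖ = 1 := by
    have h1 : ‖t‖ ^ 2 = 1 := by rw [← norm_pow, ht, hs']
    exact (pow_eq_one_iff_of_nonneg (norm_nonneg _) two_ne_zero).1 h1
  have hint : IsIntegral ℚ_[p] t := (Algebra.IsAlgebraic.isAlgebraic t).isIntegral
  have hmem : t ∈ ℚ_[p]⟮ι τ⟯ := by
    apply IsKrasner.krasner (K := ℚ_[p]) (L := PadicAlgCl p)
    · exact (Algebra.IsSeparable.isSeparable ℚ_[p] t)
    · exact IsAlgClosed.splits _
    · exact (Algebra.IsAlgebraic.isAlgebraic (ι τ)).isIntegral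
    · intro t' hconj hne
      have h1 : t' ^ 2 = algebraMap ℚ_[p] (PadicAlgCl p) s := by
        have h2 : aeval t' (minpoly ℚ_[p] t) = 0 := by
          rw [show minpoly ℚ_[p] t = minpoly ℚ_[p] t' from hconj]
          exact minpoly.aeval _ _
        have h3 : minpoly ℚ_[p] t ∣ X ^ 2 - C s := by
          apply minpoly.dvd
          rw [map_sub, map_pow, aeval_X, aeval_C, ht, sub_self]
        obtain ⟨q, hq⟩ := h3
        have h4 : aeval t' (X ^ 2 - C s : ℚ_[p][X]) = 0 := by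
          rw [hq, map_mul, h2, zero_mul]
        rw [map_sub, map_pow, aeval_X, aeval_C] at h4
        exact sub_eq_zero.1 h4
      have h5 : t' = -t := by
        have h6 : (t' - t) * (t' + t) = 0 := by linear_combination h1 - ht
        rcases mul_eq_zero.1 h6 with h7 | h7
        · exact absurd (sub_eq_zero.1 h7).symm hne
        · exact eq_neg_of_add_eq_zero_left h7
      have h8 : t - t' = 2 * t := by rw [h5]; ring
      rw [h8, norm_mul, norm_two' hp2, hnt, mul_one]
      exact htτ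
  have hle : ℚ_[p]⟮ι τ⟯ ≤ ι.fieldRange := by
    rw [IntermediateField.adjoin_simple_le_iff]
    exact ⟨τ, rfl⟩
  obtain ⟨t'', ht''⟩ := hle hmem
  have ht3 : ι t'' = t := ht''
  have ht4 : ι (t'' ^ 2) = ι (algebraMap ℚ_[p] L s) := by
    rw [map_pow, ht3, ht, AlgHom.commutes]
  exact ⟨t'', ι.injective ht4⟩

theorem val_eq_of_norm_eq {x y : ℚ_[p]} (hx : x ≠ 0) (hy : y ≠ 0) (h : ‖x‖ = ‖y‖) :
    x.valuation = y.valuation := by
  rw [Padic.norm_eq_zpow_neg_valuation hx, Padic.norm_eq_zpow_neg_valuation hy] at h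
  have h1 : (1 : ℝ) < p := by exact_mod_cast hp.out.one_lt
  have h2 := zpow_right_injective₀ (by linarith : (0 : ℝ) < p) h1.ne' h
  exact neg_injective h2

/-- the elements of the quadratic subfield -/
theorem rep_of_mem (s : ℚ_[p]) (t : L) (ht : t ^ 2 = algebraMap ℚ_[p] L s) (z : L)
    (hz : z ∈ ℚ_[p]⟮t⟯) : ∃ α β : ℚ_[p], z = algebraMap ℚ_[p] L α + algebraMap ℚ_[p] L β * t := by
  have h1 : z ∈ Algebra.adjoin ℚ_[p] {t} := by
    rw [← IntermediateField.adjoin_simple_toSubalgebra_of_isAlgebraic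
      (Algebra.IsAlgebraic.isAlgebraic t)]
    exact hz
  clear hz
  induction h1 using Algebra.adjoin_induction with
  | mem x hx =>
    rw [Set.mem_singleton_iff] at hx
    subst hx
    exact ⟨0, 1, by simp⟩
  | algebraMap r => exact ⟨r, 0, by simp⟩
  | add x y _ _ hx hy =>
    obtain ⟨a, b, rfl⟩ := hx
    obtain ⟨c, d, rfl⟩ := hy
    exact ⟨a + c, b + d, by rw [map_add, map_add]; ring⟩
  | mul x y _ _ hx hy =>
    obtain ⟨a, b, rfl⟩ := hx
    obtain ⟨c, d, rfl⟩ := hy
    refine ⟨a * c + b * d * s, a * d + b * c, ?_⟩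
    rw [map_add, map_add, map_mul, map_mul, map_mul, map_mul, map_mul, ← ht]
    ring

omit [FiniteDimensional ℚ_[p] L] in
theorem norm_rep (hp2 : p ≠ 2) (s : ℚ_[p]) (hs : ‖s‖ = 1) (hns : ¬ IsSquare s) (t : L)
    (ht : t ^ 2 = algebraMap ℚ_[p] L s) (α β : ℚ_[p])
    (hz : algebraMap ℚ_[p] L α + algebraMap ℚ_[p] L β * t ≠ 0) :
    ∃ γ : ℚ_[p], γ ≠ 0 ∧ ‖ι (algebraMap ℚ_[p] L α + algebraMap ℚ_[p] L β * t)‖ = ‖γ‖ := by
  have hι : ∀ q : ℚ_[p], ‖ι (algebraMap ℚ_[p] L q)‖ = ‖q‖ := fun q => by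
    rw [AlgHom.commutes, PadicAlgCl.norm_extends]
  have hnt : ‖ι t‖ = 1 := by
    have h1 : ‖ι t‖ ^ 2 = 1 := by rw [← norm_pow, ← map_pow, ht, hι, hs]
    exact (pow_eq_one_iff_of_nonneg (norm_nonneg _) two_ne_zero).1 h1
  have hβt : ‖ι (algebraMap ℚ_[p] L β * t)‖ = ‖β‖ := by
    rw [map_mul, norm_mul, hι, hnt, mul_one]
  by_cases hne : ‖α‖ = ‖β‖
  · have hβ : β ≠ 0 := by
      rintro rfl
      rw [norm_zero, norm_eq_zero] at hne
      subst hne
      exact hz (by simp)
    refine ⟨β, hβ, ?_⟩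
    apply le_antisymm
    · rw [map_add]
      refine (IsUltrametricDist.norm_add_le_max _ _).trans ?_
      rw [hι, hβt, hne, max_self]
    · by_contra hcon
      push Not at hcon
      apply hns
      set γ : ℚ_[p] := α / β with hγ
      have hγn : ‖γ‖ = 1 := by
        rw [hγ, norm_div, hne, div_self (norm_ne_zero_iff.2 hβ)]
      have hβL : algebraMap ℚ_[p] L β ≠ 0 := by
        rw [Ne, map_eq_zero]
        exact hβ
      have h1 : ‖ι (algebraMap ℚ_[p] L γ + t)‖ < 1 := by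
        have e : algebraMap ℚ_[p] L γ + t =
            (algebraMap ℚ_[p] L α + algebraMap ℚ_[p] L β * t) / algebraMap ℚ_[p] L β := by
          rw [hγ, map_div₀, add_div, mul_div_cancel_left₀ _ hβL]
        rw [e, map_div₀, norm_div, hι, div_lt_one (norm_pos_iff.2 hβ)]
        exact hcon
      have h2 : ‖ι (algebraMap ℚ_[p] L γ - t)‖ ≤ 1 := by
        rw [map_sub, sub_eq_add_neg]
        refine (IsUltrametricDist.norm_add_le_max _ _).trans ?_
        rw [norm_neg, hι, hγn, hnt, max_self]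
      have h3 : ‖γ ^ 2 - s‖ < 1 := by
        have e : algebraMap ℚ_[p] L (γ ^ 2 - s) =
            (algebraMap ℚ_[p] L γ + t) * (algebraMap ℚ_[p] L γ - t) := by
          rw [map_sub, map_pow, ← ht]
          ring
        rw [← hι, e, map_mul, norm_mul]
        calc _ ≤ ‖ι (algebraMap ℚ_[p] L γ + t)‖ * 1 :=
              mul_le_mul_of_nonneg_left h2 (norm_nonneg _)
          _ < 1 := by rw [mul_one]; exact h1
      have hγ0 : γ ≠ 0 := by
        rw [← norm_pos_iff, hγn]
        exact one_pos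
      have h4 : ‖(s - γ ^ 2) / γ ^ 2‖ < 1 := by
        rw [norm_div, norm_pow, hγn, one_pow, div_one, norm_sub_rev]
        exact h3
      obtain ⟨w, hw⟩ := Pool.Agent.W407.SE.isSquare_one_add hp2 _ h4
      refine ⟨γ * w, ?_⟩
      have h5 : s = γ ^ 2 * (1 + (s - γ ^ 2) / γ ^ 2) := by
        field_simp
        ring
      rw [h5, hw]
      ring
  · have h1 : ‖ι (algebraMap ℚ_[p] L α + algebraMap ℚ_[p] L β * t)‖ = max ‖α‖ ‖β‖ := by
      rw [map_add, IsUltrametricDist.norm_add_eq_max_of_norm_ne_norm (by rw [hι, hβt]; exact hne),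
        hι, hβt]
    rcases lt_or_gt_of_ne hne with h | h
    · refine ⟨β, ?_, by rw [h1, max_eq_right h.le]⟩
      rintro rfl
      rw [norm_zero] at h
      exact absurd h (not_lt.2 (norm_nonneg _))
    · refine ⟨α, ?_, by rw [h1, max_eq_left h.le]⟩
      rintro rfl
      rw [norm_zero] at h
      exact absurd h (not_lt.2 (norm_nonneg _))

include ι in
/-- norms from a field that contains the square root of a nonsquare unit have even valuation -/
theorem even_of_sqrt (hp2 : p ≠ 2) (s : ℚ_[p]) (hs : ‖s‖ = 1) (hns : ¬ IsSquare s) (t : L)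
    (ht : t ^ 2 = algebraMap ℚ_[p] L s) (x : L) (hx : x ≠ 0) :
    Even (Algebra.norm ℚ_[p] x).valuation := by
  set F : IntermediateField ℚ_[p] L := ℚ_[p]⟮t⟯ with hF
  set z : F := Algebra.norm F x with hz
  have hz0 : z ≠ 0 := by
    rw [hz, Ne, Algebra.norm_eq_zero_iff]
    exact hx
  have hzz : Algebra.norm ℚ_[p] x = Algebra.norm ℚ_[p] z := by
    rw [hz, Algebra.norm_norm]
  have hfr : Module.finrank ℚ_[p] F = 2 := by
    rw [hF, IntermediateField.adjoin.finrank (Algebra.IsIntegral.isIntegral t)]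
    have h1 : minpoly ℚ_[p] t ∣ X ^ 2 - C s := by
      apply minpoly.dvd
      rw [map_sub, map_pow, aeval_X, aeval_C, ht, sub_self]
    have h2 : (minpoly ℚ_[p] t).natDegree ≤ 2 := by
      have := natDegree_le_of_dvd h1 (monic_X_pow_sub_C s two_ne_zero).ne_zero
      rwa [natDegree_X_pow_sub_C] at this
    have h3 : 2 ≤ (minpoly ℚ_[p] t).natDegree := by
      rw [minpoly.two_le_natDegree_iff (Algebra.IsIntegral.isIntegral t)]
      rintro ⟨r, hr⟩
      apply hns
      refine ⟨r, ?_⟩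
      rw [← hr, ← map_pow] at ht
      rw [← pow_two]
      exact ((algebraMap ℚ_[p] L).injective ht).symm
    omega
  obtain ⟨α, β, hαβ⟩ := rep_of_mem s t ht (z : L) z.2
  have hzL : (z : L) ≠ 0 := by
    intro h
    exact hz0 (Subtype.ext h)
  obtain ⟨γ, hγ, hγn⟩ := norm_rep ι hp2 s hs hns t ht α β (by rw [← hαβ]; exact hzL)
  have h1 := norm_N (ι.comp F.val) z
  have h2 : (ι.comp F.val) z = ι (z : L) := rfl
  rw [hfr, h2, hαβ, hγn, ← norm_pow] at h1
  have hN0 : Algebra.norm ℚ_[p] z ≠ 0 := by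
    rw [Ne, Algebra.norm_eq_zero_iff]
    exact hz0
  rw [hzz, val_eq_of_norm_eq hN0 (pow_ne_zero 2 hγ) h1, Padic.valuation_pow]
  exact ⟨γ.valuation, by push_cast; ring⟩

end ext2


section main

variable {L : Type} [Field L] [Algebra ℚ_[p] L] (ι : L →ₐ[ℚ_[p]] PadicAlgCl p)

theorem nm_alg (q : ℚ_[p]) : ‖ι (algebraMap ℚ_[p] L q)‖ = ‖q‖ := by
  rw [AlgHom.commutes, PadicAlgCl.norm_extends]

theorem nm_int (q : ℤ) : ‖ι (q : L)‖ = ‖(q : ℚ_[p])‖ := by
  rw [← map_intCast (algebraMap ℚ_[p] L) q, nm_alg]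

theorem near_div {x x' : L} (h : ‖ι (x - x')‖ < ‖ι x'‖) : ‖ι (x / x') - 1‖ < 1 := by
  have h0 : ι x' ≠ 0 := norm_pos_iff.1 ((norm_nonneg _).trans_lt h)
  have e : ι (x / x') - 1 = ι (x - x') / ι x' := by
    rw [map_div₀, map_sub, sub_div, div_self h0]
  rw [e, norm_div, div_lt_one (norm_pos_iff.2 h0)]
  exact h

variable [FiniteDimensional ℚ_[p] L]

theorem sq_of_near (hp2 : p ≠ 2) {x x' : L} (h : ‖ι (x - x')‖ < ‖ι x'‖) :
    IsSquare (Algebra.norm ℚ_[p] x * Algebra.norm ℚ_[p] x') := by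
  have h0 : x' ≠ 0 := by
    rintro rfl
    rw [map_zero, norm_zero] at h
    exact absurd h (not_lt.2 (norm_nonneg _))
  obtain ⟨w, hw⟩ := isSquare_N ι hp2 (near_div ι h)
  refine ⟨w * Algebra.norm ℚ_[p] x', ?_⟩
  have e : x = (x / x') * x' := (div_mul_cancel₀ _ h0).symm
  have e2 : Algebra.norm ℚ_[p] x = w * w * Algebra.norm ℚ_[p] x' := by
    rw [← hw, ← map_mul, ← e]
  rw [e2]
  ring

theorem N_ne_zero {x : L} (hx : x ≠ 0) : Algebra.norm ℚ_[p] x ≠ 0 := by
  rw [Ne, Algebra.norm_eq_zero_iff]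
  exact hx

theorem val_N_of_one {x : L} (hx : ‖ι x‖ = 1) : (Algebra.norm ℚ_[p] x).valuation = 0 := by
  have h0 : x ≠ 0 := by
    rintro rfl
    rw [map_zero, norm_zero] at hx
    exact zero_ne_one hx
  have h := norm_N ι x
  rw [hx, one_pow] at h
  have h1 := val_eq_of_norm_eq (N_ne_zero h0) one_ne_zero (h.trans norm_one.symm)
  rw [h1, Padic.valuation_one]

variable {n : ℕ} (a : Fin n → ℤ) (θ y : L)

include ι in
theorem evenAt (hn : Odd n) (hy : y ^ 2 = ∏ l, (θ - (a l : L)))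
    (hne : ∀ l, θ - (a l : L) ≠ 0) (l : Fin n)
    (hl : ∀ l', l' ≠ l → ‖((a l - a l' : ℤ) : ℚ_[p])‖ = 1) :
    Even (Algebra.norm ℚ_[p] (θ - (a l : L))).valuation := by
  have hy0 : y ≠ 0 := by
    intro h
    rw [h, zero_pow two_ne_zero] at hy
    exact (Finset.prod_ne_zero_iff.2 fun l _ => hne l) hy.symm
  have hyn : ‖ι y‖ ^ 2 = ∏ l, ‖ι (θ - (a l : L))‖ := by
    rw [← norm_pow, ← map_pow, hy, map_prod, norm_prod]
  have hint : ∀ q : ℤ, ‖ι (q : L)‖ ≤ 1 := fun q => by
    rw [nm_int]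
    exact Padic.norm_int_le_one q
  rcases le_or_gt ‖ι θ‖ 1 with hθ | hθ
  · have hle : ‖ι (θ - (a l : L))‖ ≤ 1 := by
      rw [map_sub, sub_eq_add_neg]
      refine (IsUltrametricDist.norm_add_le_max _ _).trans ?_
      rw [norm_neg]
      exact max_le hθ (hint _)
    rcases hle.eq_or_lt with h1 | h1
    · rw [val_N_of_one ι h1]
      exact Even.zero
    · have h2 : ∀ l', l' ≠ l → ‖ι (θ - (a l' : L))‖ = 1 := by
        intro l' hl'
        have e : θ - (a l' : L) = ((a l - a l' : ℤ) : L) + (θ - (a l : L)) := by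
          push_cast
          ring
        rw [e, map_add, IsUltrametricDist.norm_add_eq_max_of_norm_ne_norm, nm_int, hl l' hl',
          max_eq_left h1.le]
        rw [nm_int, hl l' hl']
        exact h1.ne'
      have h3 : ‖ι y‖ ^ 2 = ‖ι (θ - (a l : L))‖ := by
        rw [hyn, Finset.prod_eq_single l (fun l' _ h => h2 l' h)
          (fun h => absurd (Finset.mem_univ l) h)]
      have h4 : ‖Algebra.norm ℚ_[p] (θ - (a l : L))‖ = ‖(Algebra.norm ℚ_[p] y) ^ 2‖ := by
        rw [norm_pow, norm_N ι, norm_N ι, ← h3, ← pow_mul, ← pow_mul, mul_comm]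
      rw [val_eq_of_norm_eq (N_ne_zero (hne l)) (pow_ne_zero 2 (N_ne_zero hy0)) h4,
        Padic.valuation_pow]
      exact ⟨(Algebra.norm ℚ_[p] y).valuation, by push_cast; ring⟩
  · have h1 : ∀ l, ‖ι (θ - (a l : L))‖ = ‖ι θ‖ := by
      intro l
      have h2 : ‖ι (a l : L)‖ < ‖ι θ‖ := (hint _).trans_lt hθ
      rw [map_sub, sub_eq_add_neg, IsUltrametricDist.norm_add_eq_max_of_norm_ne_norm, norm_neg,
        max_eq_left h2.le]
      rw [norm_neg]
      exact h2.ne'
    have h2 : ‖ι y‖ ^ 2 = ‖ι θ‖ ^ n := by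
      rw [hyn, Finset.prod_congr rfl (fun l _ => h1 l), Finset.prod_const, Finset.card_univ,
        Fintype.card_fin]
    have h3 : ‖(Algebra.norm ℚ_[p] (θ - (a l : L))) ^ n‖ = ‖(Algebra.norm ℚ_[p] y) ^ 2‖ := by
      rw [norm_pow, norm_pow, norm_N ι, norm_N ι, h1, ← pow_mul, ← pow_mul, mul_comm, pow_mul,
        ← h2, ← pow_mul, mul_comm]
    have h4 := val_eq_of_norm_eq (pow_ne_zero n (N_ne_zero (hne l)))
      (pow_ne_zero 2 (N_ne_zero hy0)) h3
    rw [Padic.valuation_pow, Padic.valuation_pow] at h4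
    have h5 : Even ((n : ℤ) * (Algebra.norm ℚ_[p] (θ - (a l : L))).valuation) := by
      rw [h4]
      exact ⟨(Algebra.norm ℚ_[p] y).valuation, by push_cast; ring⟩
    rw [Int.even_mul] at h5
    rcases h5 with h5 | h5
    · exfalso
      rw [Int.even_coe_nat] at h5
      exact (Nat.not_even_iff_odd.2 hn) h5
    · exact h5

theorem sq_zpow {s : ℚ_[p]} {k : ℤ} (h : IsSquare s ∨ Even k) : IsSquare (s ^ k) := by
  rcases h with ⟨w, rfl⟩ | ⟨m, rfl⟩
  · exact ⟨w ^ k, by rw [mul_zpow]⟩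
  · by_cases hs : s = 0
    · subst hs
      by_cases hm : m + m = 0
      · rw [hm, zpow_zero]
        exact IsSquare.one
      · rw [zero_zpow _ hm]
        exact IsSquare.zero
    · exact ⟨s ^ m, zpow_add₀ hs m m⟩


include ι in
theorem niceAt (hp2 : p ≠ 2) (hn : Odd n) (hy : y ^ 2 = ∏ l, (θ - (a l : L)))
    (hne : ∀ l, θ - (a l : L) ≠ 0) (i j : Fin n) (hij : i ≠ j)
    (hd : ‖((a i - a j : ℤ) : ℚ_[p])‖ = (p : ℝ)⁻¹)
    (hl : ∀ l, l ≠ i → l ≠ j → ‖((a i - a l : ℤ) : ℚ_[p])‖ = 1) (s : ℤ)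
    (hs : s = ∏ l ∈ Finset.univ.filter (fun l => l ≠ i ∧ l ≠ j), (a i - a l)) :
    Even ((Algebra.norm ℚ_[p] (θ - (a i : L))).valuation +
      (Algebra.norm ℚ_[p] (θ - (a j : L))).valuation) ∧
    IsSquare (Algebra.norm ℚ_[p] (θ - (a i : L)) * Algebra.norm ℚ_[p] (θ - (a j : L)) *
      (s : ℚ_[p]) ^ (Algebra.norm ℚ_[p] (θ - (a i : L))).valuation) := by
  have hy0 : y ≠ 0 := by
    intro h
    rw [h, zero_pow two_ne_zero] at hy
    exact (Finset.prod_ne_zero_iff.2 fun l _ => hne l) hy.symm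
  have hp1 : (p : ℝ)⁻¹ < 1 := by
    apply inv_lt_one_of_one_lt₀
    exact_mod_cast hp.out.one_lt
  have hyn : ‖ι y‖ ^ 2 = ∏ l, ‖ι (θ - (a l : L))‖ := by
    rw [← norm_pow, ← map_pow, hy, map_prod, norm_prod]
  have hint : ∀ q : ℤ, ‖ι (q : L)‖ ≤ 1 := fun q => by
    rw [nm_int]
    exact Padic.norm_int_le_one q
  have hsn : ‖(s : ℚ_[p])‖ = 1 := by
    rw [hs]
    push_cast
    rw [norm_prod]
    apply Finset.prod_eq_one
    intro l hl'
    rw [Finset.mem_filter] at hl'
    have := hl l hl'.2.1 hl'.2.2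
    push_cast at this
    exact this
  have hs0 : (s : ℚ_[p]) ≠ 0 := by
    rw [← norm_pos_iff, hsn]
    exact one_pos
  have hdij : ‖ι ((θ - (a i : L)) - (θ - (a j : L)))‖ = (p : ℝ)⁻¹ := by
    have e : (θ - (a i : L)) - (θ - (a j : L)) = -((a i - a j : ℤ) : L) := by
      push_cast
      ring
    rw [e, map_neg, norm_neg, nm_int, hd]
  rcases le_or_gt ‖ι θ‖ 1 with hθ | hθ
  · have hle : ∀ l, ‖ι (θ - (a l : L))‖ ≤ 1 := by
      intro l
      rw [map_sub, sub_eq_add_neg]
      refine (IsUltrametricDist.norm_add_le_max _ _).trans ?_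
      rw [norm_neg]
      exact max_le hθ (hint _)
    rcases (hle i).eq_or_lt with h1 | h1
    · -- both have norm one
      have h2 : ‖ι (θ - (a j : L))‖ = 1 := by
        have e : θ - (a j : L) = (θ - (a i : L)) + -((θ - (a i : L)) - (θ - (a j : L))) := by ring
        rw [e, map_add, IsUltrametricDist.norm_add_eq_max_of_norm_ne_norm, map_neg, norm_neg,
          hdij, h1, max_eq_left hp1.le]
        rw [map_neg, norm_neg, hdij, h1]
        exact hp1.ne'
      rw [val_N_of_one ι h1, val_N_of_one ι h2, zpow_zero, mul_one]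
      refine ⟨Even.zero, sq_of_near ι hp2 ?_⟩
      rw [hdij, h2]
      exact hp1
    · -- the singular case
      have h2 : ‖ι (θ - (a j : L))‖ < 1 := by
        have e : θ - (a j : L) = (θ - (a i : L)) + -((θ - (a i : L)) - (θ - (a j : L))) := by ring
        rw [e, map_add]
        refine (IsUltrametricDist.norm_add_le_max _ _).trans_lt (max_lt h1 ?_)
        rw [map_neg, norm_neg, hdij]
        exact hp1
      have hnear : ∀ l ∈ Finset.univ.filter (fun l => l ≠ i ∧ l ≠ j),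
          ‖ι ((θ - (a l : L)) / ((a i - a l : ℤ) : L)) - 1‖ < 1 := by
        intro l hl'
        rw [Finset.mem_filter] at hl'
        apply near_div
        have e : (θ - (a l : L)) - ((a i - a l : ℤ) : L) = θ - (a i : L) := by
          push_cast
          ring
        rw [e, nm_int, hl l hl'.2.1 hl'.2.2]
        exact h1
      set e0 : L := ∏ l ∈ Finset.univ.filter (fun l => l ≠ i ∧ l ≠ j),
        (θ - (a l : L)) / ((a i - a l : ℤ) : L) with he0
      have hnear0 : ‖ι e0 - 1‖ < 1 := by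
        rw [he0, map_prod]
        exact near_prod _ _ hnear
      have hprod : y ^ 2 = (θ - (a i : L)) * (θ - (a j : L)) * (algebraMap ℚ_[p] L s * e0) := by
        have e1 : ∏ l, (θ - (a l : L)) = (θ - (a i : L)) * ((θ - (a j : L)) *
            ∏ l ∈ Finset.univ.filter (fun l => l ≠ i ∧ l ≠ j), (θ - (a l : L))) := by
          rw [← Finset.mul_prod_erase Finset.univ _ (Finset.mem_univ i),
            ← Finset.mul_prod_erase (Finset.univ.erase i) _
              (Finset.mem_erase.2 ⟨hij.symm, Finset.mem_univ j⟩)]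
          congr 3
          ext l
          simp only [Finset.mem_erase, Finset.mem_filter, Finset.mem_univ, and_true, true_and]
          exact and_comm
        have e2 : algebraMap ℚ_[p] L s * e0 =
            ∏ l ∈ Finset.univ.filter (fun l => l ≠ i ∧ l ≠ j), (θ - (a l : L)) := by
          rw [he0, map_intCast, hs, Int.cast_prod, ← Finset.prod_mul_distrib]
          apply Finset.prod_congr rfl
          intro l hl'
          rw [Finset.mem_filter] at hl'
          have h3 : ((a i - a l : ℤ) : L) ≠ 0 := by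
            have h4 := nm_int ι (a i - a l)
            rw [hl l hl'.2.1 hl'.2.2] at h4
            intro h5
            rw [h5, map_zero, norm_zero] at h4
            exact zero_ne_one h4
          rw [mul_div_cancel₀ _ h3]
        rw [hy, e1, e2]
        ring
      have hothers : ∏ l, ‖ι (θ - (a l : L))‖ = ‖ι (θ - (a i : L))‖ * ‖ι (θ - (a j : L))‖ := by
        rw [← hyn, ← norm_pow, ← map_pow, hprod, map_mul, map_mul, map_mul, norm_mul, norm_mul,
          norm_mul, nm_alg, hsn, norm_of_near hnear0, mul_one, mul_one]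
      rw [hothers] at hyn
      have hpar : (Algebra.norm ℚ_[p] (θ - (a i : L))).valuation +
          (Algebra.norm ℚ_[p] (θ - (a j : L))).valuation =
            2 * (Algebra.norm ℚ_[p] y).valuation := by
        have h4 : ‖Algebra.norm ℚ_[p] (θ - (a i : L)) * Algebra.norm ℚ_[p] (θ - (a j : L))‖ =
            ‖(Algebra.norm ℚ_[p] y) ^ 2‖ := by
          rw [norm_pow, norm_mul, norm_N ι, norm_N ι, norm_N ι, ← mul_pow, ← hyn, ← pow_mul,
            ← pow_mul, mul_comm]
        have h5 := val_eq_of_norm_eq (mul_ne_zero (N_ne_zero (hne i)) (N_ne_zero (hne j)))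
          (pow_ne_zero 2 (N_ne_zero hy0)) h4
        rw [Padic.valuation_pow, Padic.valuation_mul (N_ne_zero (hne i)) (N_ne_zero (hne j))] at h5
        rw [h5]
        push_cast
        ring
      refine ⟨⟨(Algebra.norm ℚ_[p] y).valuation, by rw [hpar]; ring⟩, ?_⟩
      -- the key parity
      have hkey : IsSquare (s : ℚ_[p]) ∨
          Even ((Algebra.norm ℚ_[p] (θ - (a i : L))).valuation - Module.finrank ℚ_[p] L) := by
        by_cases hsq : IsSquare (s : ℚ_[p])
        · exact Or.inl hsq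
        right
        have hvp : ∀ x : L, x ≠ 0 → ‖ι x‖ = (p : ℝ)⁻¹ →
            (Algebra.norm ℚ_[p] x).valuation = Module.finrank ℚ_[p] L := by
          intro x hx0 hx
          have h6 : ‖Algebra.norm ℚ_[p] x‖ = ‖(p : ℚ_[p]) ^ Module.finrank ℚ_[p] L‖ := by
            rw [norm_N ι, hx, norm_pow, Padic.norm_p]
          have hp0 : (p : ℚ_[p]) ≠ 0 := by exact_mod_cast hp.out.ne_zero
          rw [val_eq_of_norm_eq (N_ne_zero hx0) (pow_ne_zero _ hp0) h6, Padic.valuation_pow,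
            Padic.valuation_p, mul_one]
        by_cases c1 : ‖ι (θ - (a i : L))‖ = (p : ℝ)⁻¹
        · rw [hvp _ (hne i) c1, sub_self]
          exact Even.zero
        by_cases c2 : ‖ι (θ - (a j : L))‖ = (p : ℝ)⁻¹
        · rw [hvp _ (hne j) c2] at hpar
          refine ⟨(Algebra.norm ℚ_[p] y).valuation - Module.finrank ℚ_[p] L, ?_⟩
          linarith
        have c3 : (p : ℝ)⁻¹ < ‖ι (θ - (a i : L))‖ := by
          rcases lt_or_gt_of_ne c1 with h7 | h7
          · exfalso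
            apply c2
            have e : θ - (a j : L) = (θ - (a i : L)) + -((θ - (a i : L)) - (θ - (a j : L))) := by
              ring
            rw [e, map_add, IsUltrametricDist.norm_add_eq_max_of_norm_ne_norm, map_neg, norm_neg,
              hdij, max_eq_right h7.le]
            rw [map_neg, norm_neg, hdij]
            exact c1
          · exact h7
        -- `x_j / x_i` is a one-unit
        have h8 : ‖ι ((θ - (a j : L)) / (θ - (a i : L))) - 1‖ < 1 := by
          apply near_div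
          rw [← norm_neg, ← map_neg, neg_sub, hdij]
          exact c3
        have h9 : (y / (θ - (a i : L))) ^ 2 =
            algebraMap ℚ_[p] L s * ((θ - (a j : L)) / (θ - (a i : L)) * e0) := by
          rw [div_pow, hprod]
          have := hne i
          field_simp
        have h10 : ‖ι ((θ - (a j : L)) / (θ - (a i : L)) * e0) - 1‖ < 1 := by
          rw [map_mul]
          exact near_mul h8 hnear0
        obtain ⟨t, ht⟩ := sqrt_mem ι hp2 (s : ℚ_[p]) hsn _ _ h9 h10
        have h11 := even_of_sqrt ι hp2 (s : ℚ_[p]) hsn hsq t ht _ (hne i)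
        have hpL : ((p : ℕ) : L) ≠ 0 := by
          have : ((p : ℕ) : L) = algebraMap ℚ_[p] L (p : ℚ_[p]) := by rw [map_natCast]
          rw [this, Ne, map_eq_zero]
          exact_mod_cast hp.out.ne_zero
        have h12 := even_of_sqrt ι hp2 (s : ℚ_[p]) hsn hsq t ht (p : L) hpL
        rw [hvp _ hpL] at h12
        · exact h11.sub h12
        · have : ((p : ℕ) : L) = algebraMap ℚ_[p] L (p : ℚ_[p]) := by rw [map_natCast]
          rw [this, nm_alg, Padic.norm_p]
      have hN := congrArg (Algebra.norm ℚ_[p]) hprod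
      rw [map_pow, map_mul, map_mul, map_mul, Algebra.norm_algebraMap] at hN
      obtain ⟨w, hw⟩ := isSquare_N ι hp2 hnear0
      obtain ⟨q, hq⟩ := sq_zpow hkey
      have he00 : e0 ≠ 0 := by
        intro h
        rw [h, map_zero, zero_sub, norm_neg, norm_one] at hnear0
        exact lt_irrefl _ hnear0
      have hw0 : w ≠ 0 := by
        rintro rfl
        rw [mul_zero] at hw
        exact N_ne_zero he00 hw
      rw [zpow_sub₀ hs0, zpow_natCast, div_eq_iff (pow_ne_zero _ hs0)] at hq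
      refine ⟨Algebra.norm ℚ_[p] y * q / w, ?_⟩
      rw [hq, div_mul_div_comm, eq_div_iff (mul_ne_zero hw0 hw0)]
      have h13 : Algebra.norm ℚ_[p] y * q * (Algebra.norm ℚ_[p] y * q) =
          (Algebra.norm ℚ_[p] y) ^ 2 * (q * q) := by ring
      rw [h13, hN, hw]
      ring
  · -- the pole
    have h1 : ∀ l, ‖ι (θ - (a l : L))‖ = ‖ι θ‖ := by
      intro l
      have h2 : ‖ι (a l : L)‖ < ‖ι θ‖ := (hint _).trans_lt hθ
      rw [map_sub, sub_eq_add_neg, IsUltrametricDist.norm_add_eq_max_of_norm_ne_norm, norm_neg,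
        max_eq_left h2.le]
      rw [norm_neg]
      exact h2.ne'
    have h2 : ‖ι y‖ ^ 2 = ‖ι θ‖ ^ n := by
      rw [hyn, Finset.prod_congr rfl (fun l _ => h1 l), Finset.prod_const, Finset.card_univ,
        Fintype.card_fin]
    have hev : ∀ l, Even (Algebra.norm ℚ_[p] (θ - (a l : L))).valuation := by
      intro l
      have h3 : ‖(Algebra.norm ℚ_[p] (θ - (a l : L))) ^ n‖ = ‖(Algebra.norm ℚ_[p] y) ^ 2‖ := by
        rw [norm_pow, norm_pow, norm_N ι, norm_N ι, h1, ← pow_mul, ← pow_mul, mul_comm, pow_mul,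
          ← h2, ← pow_mul, mul_comm]
      have h4 := val_eq_of_norm_eq (pow_ne_zero n (N_ne_zero (hne l)))
        (pow_ne_zero 2 (N_ne_zero hy0)) h3
      rw [Padic.valuation_pow, Padic.valuation_pow] at h4
      have h5 : Even ((n : ℤ) * (Algebra.norm ℚ_[p] (θ - (a l : L))).valuation) := by
        rw [h4]
        exact ⟨(Algebra.norm ℚ_[p] y).valuation, by push_cast; ring⟩
      rw [Int.even_mul] at h5
      rcases h5 with h5 | h5
      · exfalso
        rw [Int.even_coe_nat] at h5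
        exact (Nat.not_even_iff_odd.2 hn) h5
      · exact h5
    refine ⟨(hev i).add (hev j), (sq_of_near ι hp2 ?_).mul (sq_zpow (Or.inr (hev i)))⟩
    rw [hdij, h1]
    exact hp1.trans hθ

end main

theorem norm_sub_gen {K L : Type} [Field K] [Field L] [Algebra K L] (pb : PowerBasis K L) (t : K) :
    Algebra.norm K (algebraMap K L t - pb.gen) = (minpoly K pb.gen).eval t := by
  rw [Algebra.norm_eq_matrix_det pb.basis, map_sub, AlgHom.commutes, ← charpoly_leftMulMatrix,
    Matrix.eval_charpoly]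
  rfl

theorem norm_gen_sub {K L : Type} [Field K] [Field L] [Algebra K L] (pb : PowerBasis K L) (t : K) :
    Algebra.norm K (pb.gen - algebraMap K L t) = (-1) ^ pb.dim * (minpoly K pb.gen).eval t := by
  have e : pb.gen - algebraMap K L t = algebraMap K L (-1) * (algebraMap K L t - pb.gen) := by
    rw [map_neg, map_one]
    ring
  rw [e, map_mul, Algebra.norm_algebraMap, pb.finrank, norm_sub_gen]

/-- the induction over the irreducible factors -/
theorem ind {n : ℕ} (a : Fin n → ℤ) (W : (Fin n → ℚ_[p]) → Prop) (h1 : W (fun _ => 1))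
    (hmul : ∀ δ δ' : Fin n → ℚ_[p], (∀ l, δ l ≠ 0) → (∀ l, δ' l ≠ 0) → W δ → W δ' →
      W (fun l => δ l * δ' l))
    (hirr : ∀ (L : Type) [Field L] [Algebra ℚ_[p] L] [FiniteDimensional ℚ_[p] L]
      (_ι : L →ₐ[ℚ_[p]] PadicAlgCl p) (θ y : L), y ^ 2 = ∏ l, (θ - (a l : L)) →
      (∀ l, θ - (a l : L) ≠ 0) → W (fun l => Algebra.norm ℚ_[p] (θ - (a l : L)))) :
    ∀ (m : ℕ) (u v : ℚ_[p][X]), u.natDegree = m → u.Monic →
      u ∣ (∏ i, (X - C ((a i : ℤ) : ℚ_[p]))) - v ^ 2 →
      (∀ i, u.eval ((a i : ℤ) : ℚ_[p]) ≠ 0) →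
      W (fun l => (-1) ^ u.natDegree * u.eval ((a l : ℤ) : ℚ_[p])) := by
  intro m
  induction m using Nat.strong_induction_on with
  | _ m ih =>
    intro u v hm hu hdvd hne
    by_cases hu1 : u = 1
    · subst hu1
      simpa using h1
    have hnu : ¬ IsUnit u := fun h => hu1 (hu.eq_one_of_isUnit h)
    obtain ⟨g, hgm, hgi, hgu⟩ := exists_monic_irreducible_factor u hnu
    obtain ⟨u', rfl⟩ := hgu
    have hu' : u'.Monic := hgm.of_mul_monic_left hu
    have hdeg : (g * u').natDegree = g.natDegree + u'.natDegree := hgm.natDegree_mul hu'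
    have hgpos : 0 < g.natDegree := hgi.natDegree_pos
    have hW' := ih u'.natDegree (by omega) u' v rfl hu' ((dvd_mul_left _ _).trans hdvd)
      (fun i h => hne i (by rw [eval_mul, h, mul_zero]))
    have hgdvd : g ∣ (∏ i, (X - C ((a i : ℤ) : ℚ_[p]))) - v ^ 2 := (dvd_mul_right _ _).trans hdvd
    have hgne : ∀ i, g.eval ((a i : ℤ) : ℚ_[p]) ≠ 0 :=
      fun i h => hne i (by rw [eval_mul, h, zero_mul])
    have hWg : W (fun l => (-1) ^ g.natDegree * g.eval ((a l : ℤ) : ℚ_[p])) := by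
      have : Fact (Irreducible g) := ⟨hgi⟩
      set pb := AdjoinRoot.powerBasis hgi.ne_zero with hpb
      have : FiniteDimensional ℚ_[p] (AdjoinRoot g) := pb.finite
      have hN : ∀ l, Algebra.norm ℚ_[p] (AdjoinRoot.root g - ((a l : ℤ) : AdjoinRoot g)) =
          (-1) ^ g.natDegree * g.eval ((a l : ℤ) : ℚ_[p]) := by
        intro l
        have h2 := norm_gen_sub pb ((a l : ℤ) : ℚ_[p])
        rw [map_intCast] at h2
        have h3 : pb.gen = AdjoinRoot.root g := rfl
        have h4 : pb.dim = g.natDegree := rfl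
        rw [h3, h4, AdjoinRoot.minpoly_root hgi.ne_zero, hgm.leadingCoeff, inv_one, C_1,
          mul_one] at h2
        exact h2
      have hN' : (fun l => (-1) ^ g.natDegree * g.eval ((a l : ℤ) : ℚ_[p])) =
          fun l => Algebra.norm ℚ_[p] (AdjoinRoot.root g - ((a l : ℤ) : AdjoinRoot g)) := by
        funext l
        rw [hN]
      rw [hN']
      refine hirr (AdjoinRoot g) IsAlgClosed.lift (AdjoinRoot.root g) (AdjoinRoot.mk g v) ?_ ?_
      · rw [← map_pow, ← AdjoinRoot.mk_eq_mk.2 hgdvd, map_prod]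
        apply Finset.prod_congr rfl
        intro l _
        rw [map_sub, AdjoinRoot.mk_X, map_intCast, map_intCast]
      · intro l h
        have h5 := hN l
        rw [h, Algebra.norm_zero] at h5
        exact (mul_ne_zero (pow_ne_zero _ (neg_ne_zero.2 one_ne_zero)) (hgne l)) h5.symm
    have h6 := hmul _ _
      (fun l => mul_ne_zero (pow_ne_zero _ (neg_ne_zero.2 one_ne_zero)) (hgne l))
      (fun l h => hne l (by
        rcases mul_eq_zero.1 h with h | h
        · exact absurd h (pow_ne_zero _ (neg_ne_zero.2 one_ne_zero))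
        · rw [eval_mul, h, mul_zero])) hWg hW'
    have h7 : (fun l => (-1) ^ (g * u').natDegree * (g * u').eval ((a l : ℤ) : ℚ_[p])) =
        fun l => (-1) ^ g.natDegree * g.eval ((a l : ℤ) : ℚ_[p]) *
          ((-1) ^ u'.natDegree * u'.eval ((a l : ℤ) : ℚ_[p])) := by
      funext l
      rw [hdeg, pow_add, eval_mul]
      ring
    rw [h7]
    exact h6


/-! ### from square classes to the residues -/

theorem norm_eq_one_of_not_dvd {z : ℤ} (h : ¬ (p : ℤ) ∣ z) : ‖(z : ℚ_[p])‖ = 1 := by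
  have h1 : ¬ ‖(z : ℚ_[p])‖ < 1 := by rwa [Padic.norm_intCast_lt_one_iff]
  exact le_antisymm (Padic.norm_int_le_one z) (not_lt.1 h1)

theorem val_of_not_dvd {z : ℤ} (h : ¬ (p : ℤ) ∣ z) : (z : ℚ_[p]).valuation = 0 := by
  have h1 := norm_eq_one_of_not_dvd h
  have h0 : (z : ℚ_[p]) ≠ 0 := by
    rw [← norm_pos_iff, h1]
    exact one_pos
  rw [val_eq_of_norm_eq h0 one_ne_zero (h1.trans norm_one.symm), Padic.valuation_one]

theorem sqfree_split {d : ℤ} (hd : Squarefree d) (h : (p : ℤ) ∣ d) :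
    ∃ k : ℤ, d = p * k ∧ ¬ (p : ℤ) ∣ k := by
  obtain ⟨k, rfl⟩ := h
  refine ⟨k, rfl, ?_⟩
  rintro ⟨q, rfl⟩
  have h1 := hd (p : ℤ) ⟨q, by ring⟩
  exact (Nat.prime_iff_prime_int.1 hp.out).not_isUnit h1

theorem val_of_dvd {d : ℤ} (hd : Squarefree d) (h : (p : ℤ) ∣ d) :
    (d : ℚ_[p]).valuation = 1 := by
  obtain ⟨k, rfl, hk⟩ := sqfree_split hd h
  have h1 := norm_eq_one_of_not_dvd hk
  have h0 : (k : ℚ_[p]) ≠ 0 := by
    rw [← norm_pos_iff, h1]
    exact one_pos
  have hp0 : (p : ℚ_[p]) ≠ 0 := by exact_mod_cast hp.out.ne_zero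
  rw [Int.cast_mul, Int.cast_natCast, Padic.valuation_mul hp0 h0, Padic.valuation_p,
    val_of_not_dvd hk, add_zero]

theorem even_of_isSquare {x : ℚ_[p]} (h : IsSquare x) (hx : x ≠ 0) : Even x.valuation := by
  obtain ⟨w, rfl⟩ := h
  have hw : w ≠ 0 := left_ne_zero_of_mul hx
  exact ⟨w.valuation, Padic.valuation_mul hw hw⟩

theorem even_add_of_isSquare {x y : ℚ_[p]} (h : IsSquare (x * y)) (hx : x ≠ 0) (hy : y ≠ 0) :
    Even (x.valuation + y.valuation) := by
  rw [← Padic.valuation_mul hx hy]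
  exact even_of_isSquare h (mul_ne_zero hx hy)

theorem not_dvd_of_even {d : ℤ} (hd : Squarefree d) (h : Even (d : ℚ_[p]).valuation) :
    ¬ (p : ℤ) ∣ d := by
  intro h1
  rw [val_of_dvd hd h1] at h
  exact absurd h (by decide)

theorem sq_cancel {x y : ℚ_[p]} (h : IsSquare (x * y)) (hx : IsSquare x) (hx0 : x ≠ 0) :
    IsSquare y := by
  have e : y = x * y / x := by rw [mul_div_cancel_left₀ _ hx0]
  rw [e]
  exact h.div hx

theorem df_norm {n : ℕ} (a : Fin n → ℤ) (c : Option (PR n))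
    (h : ∀ c' : PR n, some c' ≠ c → ¬ (p : ℤ) ∣ df a c') (l l' : Fin n) (hne : l ≠ l')
    (h1 : ∀ hlt : l < l', some (⟨(l, l'), hlt⟩ : PR n) ≠ c)
    (h2 : ∀ hlt : l' < l, some (⟨(l', l), hlt⟩ : PR n) ≠ c) :
    ‖((a l - a l' : ℤ) : ℚ_[p])‖ = 1 := by
  rcases lt_or_gt_of_ne hne with hlt | hlt
  · exact norm_eq_one_of_not_dvd (h ⟨(l, l'), hlt⟩ (h1 hlt))
  · have := norm_eq_one_of_not_dvd (h ⟨(l', l), hlt⟩ (h2 hlt))
    rw [← norm_neg, ← Int.cast_neg, neg_sub]
    exact this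

end Pool.Agent.TH344.JG.Loc

namespace Pool.Agent.TH344.JG

open Polynomial Loc

theorem goodj : S_GOODJ := by
  intro n p _ a d hn hp2 hdf hsq hloc i
  obtain ⟨u, v, hu, hdvd, hi⟩ := hloc
  have hW := ind (p := p) a (fun δ => ∀ l, Even (δ l).valuation)
    (fun _ => by rw [Padic.valuation_one]; exact Even.zero)
    (fun δ δ' h h' hδ hδ' l => by
      rw [Padic.valuation_mul (h l) (h' l)]
      exact (hδ l).add (hδ' l))
    (fun L _ _ _ ι θ y hy hne l => by
      refine evenAt ι a θ y hn hy hne l fun l' hl' => ?_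
      exact df_norm a none (fun c _ => hdf c) l l' hl'.symm (fun _ => by simp)
        (fun _ => by simp))
    _ u v rfl hu hdvd (fun i => (hi i).1) i
  have h0 : (-1) ^ u.natDegree * u.eval ((a i : ℤ) : ℚ_[p]) ≠ 0 :=
    mul_ne_zero (pow_ne_zero _ (neg_ne_zero.2 one_ne_zero)) (hi i).1
  have hd0 : ((d i : ℤ) : ℚ_[p]) ≠ 0 := by
    exact_mod_cast (hsq i).ne_zero
  have h1 := even_add_of_isSquare (hi i).2 h0 hd0
  apply not_dvd_of_even (hsq i)
  rw [Int.even_add] at h1
  exact h1.1 hW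

theorem nicej : S_NICEJ := by
  intro n p _ a d c hn hp2 hpc hp2c hdf hsq hloc
  obtain ⟨u, v, hu, hdvd, hi⟩ := hloc
  obtain ⟨⟨i, j⟩, hij⟩ := c
  simp only at hij ⊢
  have hij' : i ≠ j := ne_of_lt hij
  set s : ℤ := sJ a ⟨(i, j), hij⟩ with hs
  have hdiff : ‖((a i - a j : ℤ) : ℚ_[p])‖ = (p : ℝ)⁻¹ := by
    obtain ⟨k, hk⟩ := hpc
    have hk' : a i - a j = p * k := hk
    have hpk : ¬ (p : ℤ) ∣ k := by
      rintro ⟨q, rfl⟩
      exact hp2c ⟨q, by rw [hk]; ring⟩
    rw [hk', Int.cast_mul, norm_mul, norm_eq_one_of_not_dvd hpk, mul_one, Int.cast_natCast,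
      Padic.norm_p]
  have hothers : ∀ l l' : Fin n, l ≠ l' → ¬ (l = i ∧ l' = j) → ¬ (l = j ∧ l' = i) →
      ‖((a l - a l' : ℤ) : ℚ_[p])‖ = 1 := by
    intro l l' hne h1 h2
    refine df_norm a (some ⟨(i, j), hij⟩) (fun c' hc' => hdf c' (fun h => hc' (by rw [h])))
      l l' hne ?_ ?_
    · intro hlt h
      rw [Option.some_inj, Subtype.mk.injEq, Prod.mk.injEq] at h
      exact h1 h
    · intro hlt h
      rw [Option.some_inj, Subtype.mk.injEq, Prod.mk.injEq] at h
      exact h2 ⟨h.2, h.1⟩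
  have hsn : ‖(s : ℚ_[p])‖ = 1 := by
    rw [hs]
    unfold sJ
    push_cast
    rw [norm_prod]
    apply Finset.prod_eq_one
    intro l hl'
    rw [Finset.mem_filter] at hl'
    have := hothers i l (Ne.symm hl'.2.1) (fun h => hl'.2.2 h.2) (fun h => hl'.2.1 h.2)
    push_cast at this
    exact this
  have hs0 : (s : ℚ_[p]) ≠ 0 := by
    rw [← norm_pos_iff, hsn]
    exact one_pos
  have hW := ind (p := p) a (fun δ => (∀ l, l ≠ i → l ≠ j → Even (δ l).valuation) ∧
      Even ((δ i).valuation + (δ j).valuation) ∧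
      IsSquare (δ i * δ j * (s : ℚ_[p]) ^ (δ i).valuation))
    ⟨fun _ _ _ => by rw [Padic.valuation_one]; exact Even.zero,
      by rw [Padic.valuation_one, add_zero]; exact Even.zero,
      by rw [Padic.valuation_one, zpow_zero, mul_one, mul_one]; exact IsSquare.one⟩
    (fun δ δ' h h' hδ hδ' => by
      refine ⟨fun l hl hl' => ?_, ?_, ?_⟩
      · rw [Padic.valuation_mul (h l) (h' l)]
        exact (hδ.1 l hl hl').add (hδ'.1 l hl hl')
      · rw [Padic.valuation_mul (h i) (h' i), Padic.valuation_mul (h j) (h' j)]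
        have h3 := hδ.2.1.add hδ'.2.1
        rwa [add_add_add_comm] at h3
      · rw [Padic.valuation_mul (h i) (h' i), zpow_add₀ hs0]
        have h3 := hδ.2.2.mul hδ'.2.2
        rwa [mul_mul_mul_comm, mul_mul_mul_comm (δ i) (δ j) (δ' i) (δ' j)] at h3)
    (fun L _ _ _ ι θ y hy hne => by
      refine ⟨fun l hl hl' => ?_, ?_⟩
      · refine evenAt ι a θ y hn hy hne l fun l' hll' => ?_
        exact hothers l l' hll'.symm (fun h => hl h.1) (fun h => hl' h.1)
      · exact niceAt ι a θ y hp2 hn hy hne i j hij' hdiff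
          (fun l hl hl' => hothers i l hl.symm (fun h => hl' h.2) (fun h => hl h.2)) s rfl)
    _ u v rfl hu hdvd (fun i => (hi i).1)
  obtain ⟨hWa, hWb, hWc⟩ := hW
  set δ : Fin n → ℚ_[p] := fun l => (-1) ^ u.natDegree * u.eval ((a l : ℤ) : ℚ_[p]) with hδ
  have h0 : ∀ l, δ l ≠ 0 := fun l =>
    mul_ne_zero (pow_ne_zero _ (neg_ne_zero.2 one_ne_zero)) (hi l).1
  have hd0 : ∀ l, ((d l : ℤ) : ℚ_[p]) ≠ 0 := fun l => by
    exact_mod_cast (hsq l).ne_zero
  have hδd : ∀ l, IsSquare (δ l * ((d l : ℤ) : ℚ_[p])) := fun l => (hi l).2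
  have hev : ∀ l, Even ((δ l).valuation + ((d l : ℤ) : ℚ_[p]).valuation) := fun l =>
    even_add_of_isSquare (hδd l) (h0 l) (hd0 l)
  have hWb' : Even (((d i : ℤ) : ℚ_[p]).valuation + ((d j : ℤ) : ℚ_[p]).valuation) := by
    have h1 := hev i
    have h2 := hev j
    have h3 : Even ((δ i).valuation + (δ j).valuation) := hWb
    rw [Int.even_add] at h1 h2 h3 ⊢
    tauto
  have hWc' : IsSquare (δ i * δ j * (s : ℚ_[p]) ^ (δ i).valuation) := hWc
  have hiff : (p : ℤ) ∣ d i ↔ (p : ℤ) ∣ d j := by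
    constructor
    · intro h
      by_contra h1
      rw [val_of_dvd (hsq i) h, val_of_not_dvd h1] at hWb'
      exact absurd hWb' (by decide)
    · intro h
      by_contra h1
      rw [val_of_dvd (hsq j) h, val_of_not_dvd h1] at hWb'
      exact absurd hWb' (by decide)
  have hdd : IsSquare ((δ i * δ j) * (((d i : ℤ) : ℚ_[p]) * ((d j : ℤ) : ℚ_[p]))) := by
    have h3 := (hδd i).mul (hδd j)
    rwa [mul_mul_mul_comm] at h3
  have hpp := Nat.prime_iff_prime_int.1 (Fact.out : p.Prime)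
  refine ⟨fun l hl hl' => ?_, hiff, fun hndi => ?_, fun hdi => ?_⟩
  · apply not_dvd_of_even (hsq l)
    have h1 := hev l
    rw [Int.even_add] at h1
    exact h1.1 (hWa l hl hl')
  · have hndj : ¬ (p : ℤ) ∣ d j := fun h => hndi (hiff.2 h)
    have h1 := hev i
    rw [val_of_not_dvd hndi, add_zero] at h1
    have h2 : IsSquare (δ i * δ j) := by
      refine sq_cancel (x := (s : ℚ_[p]) ^ (δ i).valuation) ?_ (sq_zpow (Or.inr h1))
        (zpow_ne_zero _ hs0)
      rw [mul_comm]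
      exact hWc'
    have h3 := sq_cancel hdd h2 (mul_ne_zero (h0 i) (h0 j))
    apply Pool.Agent.W407.SE.jac
    · intro h
      rcases hpp.dvd_or_dvd h with h | h
      · exact hndi h
      · exact hndj h
    · rw [Int.cast_mul]
      exact h3
  · obtain ⟨ki, hki, hkip⟩ := sqfree_split (hsq i) hdi
    obtain ⟨kj, hkj, hkjp⟩ := sqfree_split (hsq j) (hiff.1 hdi)
    have hp0 : (p : ℤ) ≠ 0 := hpp.ne_zero
    rw [hki, hkj, Int.mul_ediv_cancel_left _ hp0, Int.mul_ediv_cancel_left _ hp0]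
    have h1 := hev i
    rw [val_of_dvd (hsq i) hdi] at h1
    have h2 : IsSquare (δ i * δ j * s) := by
      refine sq_cancel (x := (s : ℚ_[p]) ^ ((δ i).valuation + 1)) ?_ (sq_zpow (Or.inr h1))
        (zpow_ne_zero _ hs0)
      have h3 : (s : ℚ_[p]) ^ ((δ i).valuation + 1) * (δ i * δ j * s) =
          (δ i * δ j * (s : ℚ_[p]) ^ (δ i).valuation) * (s * s) := by
        rw [zpow_add₀ hs0, zpow_one]
        ring
      rw [h3]
      exact hWc'.mul ⟨_, rfl⟩
    have hpQ : (p : ℚ_[p]) ≠ 0 := by exact_mod_cast hp0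
    have h4 : IsSquare (((ki * kj * s : ℤ) : ℚ_[p])) := by
      have h5 : IsSquare ((δ i * δ j * s) * (((d i : ℤ) : ℚ_[p]) * ((d j : ℤ) : ℚ_[p]) * s)) := by
        have h3 := hdd.mul (⟨(s : ℚ_[p]), rfl⟩ : IsSquare ((s : ℚ_[p]) * s))
        rwa [mul_mul_mul_comm] at h3
      have h6 := sq_cancel h5 h2 (mul_ne_zero (mul_ne_zero (h0 i) (h0 j)) hs0)
      refine sq_cancel (x := (p : ℚ_[p]) * (p : ℚ_[p])) ?_ ⟨_, rfl⟩ (mul_ne_zero hpQ hpQ)
      have h7 : (p : ℚ_[p]) * (p : ℚ_[p]) * ((ki * kj * s : ℤ) : ℚ_[p]) =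
          ((d i : ℤ) : ℚ_[p]) * ((d j : ℤ) : ℚ_[p]) * s := by
        rw [hki, hkj]
        push_cast
        ring
      rw [h7]
      exact h6
    apply Pool.Agent.W407.SE.jac _ _ h4
    intro h
    rcases hpp.dvd_or_dvd h with h | h
    · rcases hpp.dvd_or_dvd h with h | h
      · exact hkip h
      · exact hkjp h
    · have h7 : ‖(s : ℚ_[p])‖ < 1 := by
        rw [Padic.norm_intCast_lt_one_iff]
        exact h
      rw [hsn] at h7
      exact lt_irrefl _ h7

end Pool.Agent.TH344.JG
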