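import Mathlib
import Pool.Agent.TH344.JG.Stm

/-!
# Project JG: the Selmer group is bounded by the local count
-/

set_option autoImplicit false

namespace Pool.Agent.TH344.JG

open Finset Pool.Agent.W262.RK Pool.Agent.W307.RT Pool.Agent.TH344.DT

namespace SelPf

/-! ### The definition of `NV` -/

open Classical in
lemma coe_image (w : Finset ℕ) : (w : Finset ℤ) = w.image (fun q : ℕ => (q : ℤ)) := by
  ext x
  simp only [Finset.bind_def, Finset.pure_def, Finset.mem_sup, Finset.mem_singleton, Finset.mem_image]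
  tauto

open Classical in
/-- `NV`, written with natural numbers (in the definition the set of primes is coerced to a set of
integers) -/
lemma NV_eq {V : Type} [Fintype V] [DecidableEq V] (ad : V → V → Bool) (s : V → ℕ)
    (E : Finset ℕ) : NV ad s E = ((∏ c, s c).primeFactors.powerset.filter (fun w : Finset ℕ => ∀ c,
      ∀ p ∈ (s c).primeFactors,
      (∏ q ∈ (w.filter (fun q : ℕ => ∃ c', ad c c' = true ∧ q ∣ s c') : Finset ℕ),
        jacobiSym ((q : ℕ) : ℤ) p) =
        if p ∈ w ∧ p ∈ E then -1 else 1)).card := by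
  unfold NV
  congr 1
  refine Finset.filter_congr fun w _ => forall_congr' fun c => forall_congr' fun p =>
    forall_congr' fun _ => ?_
  have h : ∏ q ∈ (w : Finset ℤ).filter (fun q => ∃ c', ad c c' = true ∧ q ∣ (s c' : ℤ)),
      jacobiSym q p =
      ∏ q ∈ (w.filter (fun q : ℕ => ∃ c', ad c c' = true ∧ q ∣ s c') : Finset ℕ),
        jacobiSym ((q : ℕ) : ℤ) p := by
    rw [coe_image, Finset.filter_image, Finset.prod_image (fun a _ b _ h => by exact_mod_cast h)]
    refine Finset.prod_congr ?_ fun _ _ => rfl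
    ext q
    simp [Int.natCast_dvd_natCast]
  rw [← h]

/-! ### Symbols -/

lemma jac_prod (p : ℕ) (S : Finset ℕ) :
    jacobiSym ((∏ q ∈ S, q : ℕ) : ℤ) p = ∏ q ∈ S, jacobiSym (q : ℤ) p := by
  classical
  induction S using Finset.induction_on with
  | empty => simp [jacobiSym.one_left]
  | insert q S hq ih =>
    rw [Finset.prod_insert hq, Finset.prod_insert hq, Nat.cast_mul, jacobiSym.mul_left, ih]

lemma gcd_one {p : ℕ} (hp : p.Prime) {x : ℤ} (h : ¬ (p : ℤ) ∣ x) : x.gcd p = 1 := by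
  rw [Int.gcd_comm]
  have h1 : ¬ p ∣ x.natAbs := fun h2 => h (Int.natCast_dvd.2 h2)
  have h2 := (Nat.Prime.coprime_iff_not_dvd hp).2 h1
  exact h2

lemma jac_sq {p : ℕ} (hp : p.Prime) {x : ℤ} (h : ¬ (p : ℤ) ∣ x) :
    jacobiSym x p * jacobiSym x p = 1 := by
  have h1 := jacobiSym.sq_one (gcd_one hp h)
  rw [← h1]
  ring

lemma jac_base (p : ℕ) (y : ℤ) (hy : Squarefree y) :
    jacobiSym y p = jacobiSym y.sign p * ∏ q ∈ y.natAbs.primeFactors, jacobiSym (q : ℤ) p := by
  rw [← jac_prod, Nat.prod_primeFactors_of_squarefree (Int.squarefree_natAbs.2 hy),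
    ← jacobiSym.mul_left]
  congr 1
  exact (Int.sign_mul_natAbs y).symm

lemma jac_fac {p : ℕ} (hp : p.Prime) (x : ℤ) (hx : Squarefree x) :
    jacobiSym (if (p : ℤ) ∣ x then x / p else x) p =
      jacobiSym x.sign p * ∏ q ∈ x.natAbs.primeFactors.erase p, jacobiSym (q : ℤ) p := by
  classical
  split_ifs with h
  · obtain ⟨y, rfl⟩ := h
    have hp0 : (p : ℤ) ≠ 0 := by exact_mod_cast hp.ne_zero
    have hppos : (0 : ℤ) < p := by exact_mod_cast hp.pos
    rw [Int.mul_ediv_cancel_left _ hp0]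
    have hy : Squarefree y := hx.of_mul_right
    have hpy : ¬ (p : ℤ) ∣ y := by
      rintro ⟨z, rfl⟩
      have h1 := hx p ⟨z, by ring⟩
      have h2 := Int.isUnit_iff_natAbs_eq.1 h1
      rw [Int.natAbs_natCast] at h2
      exact hp.one_lt.ne' h2
    rw [jac_base p y hy]
    have h1 : ((p : ℤ) * y).sign = y.sign := by
      rw [Int.sign_mul, Int.sign_eq_one_of_pos hppos, one_mul]
    have h2 : ((p : ℤ) * y).natAbs.primeFactors.erase p = y.natAbs.primeFactors := by
      rw [Int.natAbs_mul, Int.natAbs_natCast, Nat.primeFactors_mul hp.ne_zero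
        (Int.natAbs_ne_zero.2 hy.ne_zero), hp.primeFactors, Finset.erase_union_distrib]
      have h3 : p ∉ y.natAbs.primeFactors := fun h4 =>
        hpy (Int.natCast_dvd.2 (Nat.dvd_of_mem_primeFactors h4))
      rw [Finset.erase_eq_of_notMem h3]
      ext q
      simp
    rw [h1, h2]
  · have h3 : p ∉ x.natAbs.primeFactors := fun h4 =>
      h (Int.natCast_dvd.2 (Nat.dvd_of_mem_primeFactors h4))
    rw [Finset.erase_eq_of_notMem h3]
    exact jac_base p x hx

lemma prod_sd {h : ℕ → ℤ} (s t : Finset ℕ) (hh : ∀ q ∈ s, h q * h q = 1)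
    (he : ∏ q ∈ s, h q = ∏ q ∈ t, h q) : ∏ q ∈ symmDiff s t, h q = 1 := by
  classical
  have h1 := Finset.prod_inter_mul_prod_sdiff s t h
  have h2 := Finset.prod_inter_mul_prod_sdiff t s h
  have h3 : ∏ q ∈ symmDiff s t, h q = (∏ q ∈ s \ t, h q) * ∏ q ∈ t \ s, h q := by
    have h4 : symmDiff s t = (s \ t) ∪ (t \ s) := rfl
    rw [h4, Finset.prod_union]
    exact disjoint_sdiff_sdiff
  have h5 : ∀ u : Finset ℕ, u ⊆ s → (∏ q ∈ u, h q) * ∏ q ∈ u, h q = 1 := by
    intro u hu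
    rw [← Finset.prod_mul_distrib]
    exact Finset.prod_eq_one fun q hq => hh q (hu hq)
  have h6 := h5 (s ∩ t) Finset.inter_subset_left
  have h7 := h5 s (le_refl _)
  rw [Finset.inter_comm t s] at h2
  rw [h3]
  calc (∏ q ∈ s \ t, h q) * ∏ q ∈ t \ s, h q
      = ((∏ q ∈ s ∩ t, h q) * ∏ q ∈ s ∩ t, h q) *
        ((∏ q ∈ s \ t, h q) * ∏ q ∈ t \ s, h q) := by rw [h6, one_mul]
    _ = ((∏ q ∈ s ∩ t, h q) * ∏ q ∈ s \ t, h q) * ((∏ q ∈ s ∩ t, h q) * ∏ q ∈ t \ s, h q) := by
        ring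
    _ = 1 := by rw [h1, h2, ← he, h7]

/-! ### The classes -/

section

variable {n : ℕ} (a : Fin n → ℤ) (s : PR n → ℕ)

/-- the hypothesis on the classes -/
def HS : Prop := ∀ c, ∀ p : ℕ, p.Prime → p ∣ s c → p ≠ 2 ∧ (p : ℤ) ∣ df a c ∧
    ¬ (p : ℤ) ^ 2 ∣ df a c ∧ ∀ c', c' ≠ c → ¬ (p : ℤ) ∣ df a c'

/-- the bad primes -/
def BB : Finset ℕ := (2 * ∏ c, (df a c).natAbs).primeFactors.filter (fun q => ¬ q ∣ ∏ c, s c)

open Classical in
/-- the primes of `m` that divide `d` -/
noncomputable def ww (d : Fin n → ℤ) : Finset ℕ :=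
  (∏ c, s c).primeFactors.filter (fun q => ∃ c, q ∣ s c ∧ (q : ℤ) ∣ d c.1.1)

/-- the rest -/
def tau (d : Fin n → ℤ) : Fin n → Bool × Finset ℕ :=
  fun l => (decide (0 < d l), (BB a s).filter (fun q : ℕ => (q : ℤ) ∣ d l))

variable {a s}

lemma cls_unique (hs : HS a s) {q : ℕ} (hq : q.Prime) {c c' : PR n} (h : q ∣ s c)
    (h' : q ∣ s c') : c' = c := by
  by_contra hne
  exact (hs c q hq h).2.2.2 c' hne (hs c' q hq h').2.1

lemma m_ne (hsq : ∀ c, Squarefree (s c)) : ∏ c, s c ≠ 0 :=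
  Finset.prod_ne_zero_iff.2 fun c _ => (hsq c).ne_zero

lemma mem_m (hsq : ∀ c, Squarefree (s c)) {q : ℕ} :
    q ∈ (∏ c, s c).primeFactors ↔ q.Prime ∧ ∃ c, q ∣ s c := by
  rw [Nat.mem_primeFactors]
  constructor
  · rintro ⟨hq, hd, _⟩
    refine ⟨hq, ?_⟩
    obtain ⟨c, _, hc⟩ := (hq.prime.dvd_finsetProd_iff _).1 hd
    exact ⟨c, hc⟩
  · rintro ⟨hq, c, hc⟩
    exact ⟨hq, hc.trans (Finset.dvd_prod_of_mem _ (Finset.mem_univ c)), m_ne hsq⟩

lemma mem_ww (hs : HS a s) (hsq : ∀ c, Squarefree (s c)) (d : Fin n → ℤ) {q : ℕ} (hq : q.Prime)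
    {c : PR n} (h : q ∣ s c) : q ∈ ww s d ↔ (q : ℤ) ∣ d c.1.1 := by
  classical
  unfold ww
  rw [Finset.mem_filter, mem_m hsq]
  constructor
  · rintro ⟨_, c', h1, h2⟩
    rwa [cls_unique hs hq h h1] at h2
  · intro h2
    exact ⟨⟨hq, c, h⟩, c, h, h2⟩

lemma sel_good (h1 : S_GOODJ) (hn : Odd n) (ha : Function.Injective a) {d : Fin n → ℤ}
    (hd : d ∈ SelJ a) {q : ℕ} (hq : q.Prime) {l : Fin n} (hl : (q : ℤ) ∣ d l) :
    q ∈ (2 * ∏ c, (df a c).natAbs).primeFactors := by
  have hne : 2 * ∏ c, (df a c).natAbs ≠ 0 := by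
    refine mul_ne_zero two_ne_zero (Finset.prod_ne_zero_iff.2 fun c _ => ?_)
    rw [Int.natAbs_ne_zero]
    unfold df
    intro h
    have h2 := ha (sub_eq_zero.1 h)
    exact absurd h2 (ne_of_lt c.2)
  rw [Nat.mem_primeFactors]
  refine ⟨hq, ?_, hne⟩
  by_contra hnd
  have : Fact q.Prime := ⟨hq⟩
  refine h1 n q a d hn ?_ ?_ hd.1 (hd.2.2 q) l hl
  · rintro rfl
    exact hnd (dvd_mul_right _ _)
  · intro c hc
    apply hnd
    refine Dvd.dvd.mul_left ?_ _
    exact (Int.natCast_dvd.1 hc).trans (Finset.dvd_prod_of_mem (fun c => (df a c).natAbs)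
      (Finset.mem_univ c))

/-- the prime factors -/
lemma prime_set (h1 : S_GOODJ) (h2 : S_NICEJ) (hn : Odd n) (ha : Function.Injective a)
    (hs : HS a s) (hsq : ∀ c, Squarefree (s c)) {d : Fin n → ℤ} (hd : d ∈ SelJ a) (l : Fin n)
    {q : ℕ} (hq : q.Prime) : (q : ℤ) ∣ d l ↔
      q ∈ (BB a s).filter (fun q : ℕ => (q : ℤ) ∣ d l) ∨
        q ∈ ww s d ∧ ∃ c, q ∣ s c ∧ (l = c.1.1 ∨ l = c.1.2) := by
  have : Fact q.Prime := ⟨hq⟩
  constructor
  · intro h
    have h3 := sel_good h1 hn ha hd hq h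
    by_cases hm : q ∣ ∏ c, s c
    · right
      obtain ⟨c, _, hc⟩ := (hq.prime.dvd_finsetProd_iff _).1 hm
      obtain ⟨g1, g2, g3, g4⟩ := hs c q hq hc
      obtain ⟨k1, k2, -, -⟩ := h2 n q a d c hn g1 g2 g3 g4 hd.1 (hd.2.2 q)
      rw [mem_ww hs hsq d hq hc]
      by_cases e1 : l = c.1.1
      · rw [← e1]
        exact ⟨h, c, hc, Or.inl e1⟩
      · by_cases e2 : l = c.1.2
        · refine ⟨?_, c, hc, Or.inr e2⟩
          rw [k2, ← e2]
          exact h
        · exact absurd h (k1 l e1 e2)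
    · left
      rw [Finset.mem_filter]
      refine ⟨?_, h⟩
      unfold BB
      rw [Finset.mem_filter]
      exact ⟨h3, hm⟩
  · rintro (h | ⟨h, c, hc, hl⟩)
    · exact (Finset.mem_filter.1 h).2
    · obtain ⟨g1, g2, g3, g4⟩ := hs c q hq hc
      obtain ⟨k1, k2, -, -⟩ := h2 n q a d c hn g1 g2 g3 g4 hd.1 (hd.2.2 q)
      rw [mem_ww hs hsq d hq hc] at h
      rcases hl with rfl | rfl
      · exact h
      · exact k2.1 h

/-- the data determine `d` -/
lemma inj_data (h1 : S_GOODJ) (h2 : S_NICEJ) (hn : Odd n) (ha : Function.Injective a)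
    (hs : HS a s) (hsq : ∀ c, Squarefree (s c)) {d d' : Fin n → ℤ} (hd : d ∈ SelJ a)
    (hd' : d' ∈ SelJ a) (ht : tau a s d = tau a s d') (hw : ww s d = ww s d') : d = d' := by
  funext l
  have ht' := congrFun ht l
  unfold tau at ht'
  rw [Prod.mk.injEq] at ht'
  obtain ⟨t1, t2⟩ := ht'
  have h3 : ∀ q : ℕ, q.Prime → (q ∣ (d l).natAbs ↔ q ∣ (d' l).natAbs) := by
    intro q hq
    rw [← Int.natCast_dvd, ← Int.natCast_dvd, prime_set h1 h2 hn ha hs hsq hd l hq,
      prime_set h1 h2 hn ha hs hsq hd' l hq, t2, hw]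
  have h4 : (d l).natAbs = (d' l).natAbs :=
    (Nat.Squarefree.ext_iff (Int.squarefree_natAbs.2 (hd.1 l))
      (Int.squarefree_natAbs.2 (hd'.1 l))).2 fun p hp => h3 p hp
  have h5 : (0 < d l ↔ 0 < d' l) := by
    simpa using t1
  have h6 := (hd.1 l).ne_zero
  have h7 := (hd'.1 l).ne_zero
  omega

/-! ### The symbols -/

open Classical in
/-- the symbols of one coordinate -/
lemma jac_coord (h1 : S_GOODJ) (h2 : S_NICEJ) (hn : Odd n) (ha : Function.Injective a)
    (hs : HS a s) (hsq : ∀ c, Squarefree (s c)) {d : Fin n → ℤ} (hd : d ∈ SelJ a) (l : Fin n)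
    {p : ℕ} (hp : p.Prime) {c : PR n} (hpc : p ∣ s c) :
    jacobiSym (if (p : ℤ) ∣ d l then d l / p else d l) p =
      (jacobiSym (d l).sign p *
        ∏ q ∈ (BB a s).filter (fun q : ℕ => (q : ℤ) ∣ d l), jacobiSym (q : ℤ) p) *
      ∏ q ∈ ww s d, if q ≠ p ∧ (∃ c, q ∣ s c ∧ (l = c.1.1 ∨ l = c.1.2))
        then jacobiSym (q : ℤ) p else 1 := by
  rw [jac_fac hp (d l) (hd.1 l), mul_assoc]
  congr 1
  rw [← Finset.prod_filter, ← Finset.prod_union]
  · refine Finset.prod_congr ?_ fun _ _ => rfl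
    ext q
    rw [Finset.mem_erase, Nat.mem_primeFactors, Finset.mem_union, ← Int.natCast_dvd]
    have hdl := (hd.1 l).ne_zero
    constructor
    · rintro ⟨hqp, hq, hdv, -⟩
      rcases (prime_set h1 h2 hn ha hs hsq hd l hq).1 hdv with h | ⟨h, hc⟩
      · exact Or.inl h
      · right
        rw [Finset.mem_filter]
        exact ⟨h, hqp, hc⟩
    · rintro (h | h)
      · have h3 := h
        unfold BB at h3
        rw [Finset.mem_filter, Finset.mem_filter, Nat.mem_primeFactors] at h3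
        obtain ⟨⟨⟨hq, -, -⟩, hm⟩, hdv⟩ := h3
        refine ⟨?_, hq, hdv, Int.natAbs_ne_zero.2 hdl⟩
        rintro rfl
        exact hm (hpc.trans (Finset.dvd_prod_of_mem _ (Finset.mem_univ c)))
      · rw [Finset.mem_filter] at h
        obtain ⟨h3, hqp, hc⟩ := h
        have hq : q.Prime := by
          unfold ww at h3
          exact Nat.prime_of_mem_primeFactors (Finset.mem_filter.1 h3).1
        exact ⟨hqp, hq, (prime_set h1 h2 hn ha hs hsq hd l hq).2 (Or.inr ⟨h3, hc⟩),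
          Int.natAbs_ne_zero.2 hdl⟩
  · rw [Finset.disjoint_left]
    intro q hq hq'
    rw [Finset.mem_filter] at hq hq'
    have h3 := hq.1
    have h4 := hq'.1
    unfold BB at h3
    unfold ww at h4
    exact (Finset.mem_filter.1 h3).2 (Nat.dvd_of_mem_primeFactors (Finset.mem_filter.1 h4).1)

lemma sJ_ndvd (hs : HS a s) {p : ℕ} (hp : p.Prime) {c : PR n} (hpc : p ∣ s c) :
    ¬ (p : ℤ) ∣ sJ a c := by
  intro h
  unfold sJ at h
  rw [(Nat.prime_iff_prime_int.1 hp).dvd_finsetProd_iff] at h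
  obtain ⟨l, hl, hdv⟩ := h
  rw [Finset.mem_filter] at hl
  obtain ⟨-, hl1, hl2⟩ := hl
  rcases lt_trichotomy c.1.1 l with hlt | heq | hgt
  · refine (hs c p hp hpc).2.2.2 ⟨(c.1.1, l), hlt⟩ ?_ hdv
    intro h
    apply hl2
    have := congrArg (fun x : PR n => x.1.2) h
    exact this
  · exact hl1 heq.symm
  · refine (hs c p hp hpc).2.2.2 ⟨(l, c.1.1), hgt⟩ ?_ ?_
    · intro h
      apply hl1
      have := congrArg (fun x : PR n => x.1.1) h
      exact this
    · unfold df
      have : a l - a c.1.1 = -(a c.1.1 - a l) := by ring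
      rw [this]
      exact (dvd_neg).2 hdv

lemma adj_self (c : PR n) : adj c c = false := by
  unfold adj
  simp

/-- the classes that contain exactly one of the two indices -/
lemma adj_iff (c c' : PR n) : adj c c' = true ↔
    ((c.1.1 = c'.1.1 ∨ c.1.1 = c'.1.2) ∧ ¬ (c.1.2 = c'.1.1 ∨ c.1.2 = c'.1.2)) ∨
    (¬ (c.1.1 = c'.1.1 ∨ c.1.1 = c'.1.2) ∧ (c.1.2 = c'.1.1 ∨ c.1.2 = c'.1.2)) := by
  unfold adj
  rw [Bool.and_eq_true, decide_eq_true_iff, decide_eq_true_iff]
  obtain ⟨⟨i, j⟩, hij⟩ := c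
  obtain ⟨⟨i', j'⟩, hij'⟩ := c'
  simp only at hij hij'
  rw [ne_eq, Subtype.mk.injEq, Prod.mk.injEq]
  simp only
  constructor
  · rintro ⟨h1, h2⟩
    by_cases e1 : i = i'
    · subst e1
      have : j ≠ j' := fun h => h1 ⟨rfl, h⟩
      left
      refine ⟨Or.inl rfl, ?_⟩
      rintro (h | h)
      · exact absurd h hij.ne'
      · exact this h
    · by_cases e2 : i = j'
      · subst e2
        left
        refine ⟨Or.inr rfl, ?_⟩
        rintro (h | h)
        · subst h
          exact absurd hij (not_lt.2 hij'.le)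
        · exact absurd h hij.ne'
      · right
        refine ⟨?_, ?_⟩
        · rintro (h | h)
          · exact e1 h
          · exact e2 h
        · rcases h2 with h | h | h | h
          · exact absurd h e1
          · exact absurd h e2
          · exact Or.inl h
          · exact Or.inr h
  · rintro (⟨h1, h2⟩ | ⟨h1, h2⟩)
    · refine ⟨?_, ?_⟩
      · rintro ⟨rfl, rfl⟩
        exact h2 (Or.inr rfl)
      · rcases h1 with h | h
        · exact Or.inl h
        · exact Or.inr (Or.inl h)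
    · refine ⟨?_, ?_⟩
      · rintro ⟨rfl, rfl⟩
        exact h1 (Or.inl rfl)
      · rcases h2 with h | h
        · exact Or.inr (Or.inr (Or.inl h))
        · exact Or.inr (Or.inr (Or.inr h))

open Classical in
/-- the local condition for one element -/
lemma cond_one (h1 : S_GOODJ) (h2 : S_NICEJ) (hn : Odd n) (ha : Function.Injective a)
    (hs : HS a s) (hsq : ∀ c, Squarefree (s c)) {d : Fin n → ℤ} (hd : d ∈ SelJ a)
    {p : ℕ} (hp : p.Prime) {c : PR n} (hpc : p ∣ s c) :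
    ((jacobiSym (d c.1.1).sign p *
        ∏ q ∈ (BB a s).filter (fun q : ℕ => (q : ℤ) ∣ d c.1.1), jacobiSym (q : ℤ) p) *
      (jacobiSym (d c.1.2).sign p *
        ∏ q ∈ (BB a s).filter (fun q : ℕ => (q : ℤ) ∣ d c.1.2), jacobiSym (q : ℤ) p)) *
      ∏ q ∈ ww s d, ((if ∃ c', adj c c' = true ∧ q ∣ s c' then jacobiSym (q : ℤ) p else 1) *
        (if q = p then jacobiSym (sJ a c) p else 1)) = 1 := by
  have : Fact p.Prime := ⟨hp⟩
  obtain ⟨g1, g2, g3, g4⟩ := hs c p hp hpc
  obtain ⟨k1, k2, k3, k4⟩ := h2 n p a d c hn g1 g2 g3 g4 hd.1 (hd.2.2 p)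
  have hw := mem_ww hs hsq d hp hpc
  have e1 := jac_coord h1 h2 hn ha hs hsq hd c.1.1 hp hpc
  have e2 := jac_coord h1 h2 hn ha hs hsq hd c.1.2 hp hpc
  rw [Finset.prod_mul_distrib, Finset.prod_ite_eq']
  have e3 : (∏ q ∈ ww s d, if q ≠ p ∧ (∃ c', q ∣ s c' ∧ (c.1.1 = c'.1.1 ∨ c.1.1 = c'.1.2))
        then jacobiSym (q : ℤ) p else 1) *
      (∏ q ∈ ww s d, if q ≠ p ∧ (∃ c', q ∣ s c' ∧ (c.1.2 = c'.1.1 ∨ c.1.2 = c'.1.2))
        then jacobiSym (q : ℤ) p else 1) =
      ∏ q ∈ ww s d, (if ∃ c', adj c c' = true ∧ q ∣ s c' then jacobiSym (q : ℤ) p else 1) := by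
    rw [← Finset.prod_mul_distrib]
    refine Finset.prod_congr rfl fun q hq => ?_
    unfold ww at hq
    have hq2 := (Finset.mem_filter.1 hq).1
    rw [mem_m hsq] at hq2
    obtain ⟨hqp, c', hc'⟩ := hq2
    have f1 : ∀ P : PR n → Prop, (∃ c'', q ∣ s c'' ∧ P c'') ↔ P c' := by
      intro P
      constructor
      · rintro ⟨c'', h3, h4⟩
        rwa [cls_unique hs hqp hc' h3] at h4
      · intro h
        exact ⟨c', hc', h⟩
    have f2 : (∃ c'', adj c c'' = true ∧ q ∣ s c'') ↔ adj c c' = true := by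
      constructor
      · rintro ⟨c'', h3, h4⟩
        rwa [cls_unique hs hqp hc' h4] at h3
      · intro h
        exact ⟨c', h, hc'⟩
    have f3 := f1 (fun c'' => c.1.1 = c''.1.1 ∨ c.1.1 = c''.1.2)
    have f4 := f1 (fun c'' => c.1.2 = c''.1.1 ∨ c.1.2 = c''.1.2)
    simp only [f3, f4, f2]
    by_cases hqe : q = p
    · subst hqe
      have : c' = c := cls_unique hs hqp hpc hc'
      subst this
      rw [adj_self]
      simp
    · have hj : jacobiSym (q : ℤ) p * jacobiSym (q : ℤ) p = 1 := by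
        refine jac_sq hp ?_
        rw [Int.natCast_dvd_natCast]
        intro h
        exact hqe ((Nat.prime_dvd_prime_iff_eq hp hqp).1 h).symm
      simp only [adj_iff]
      by_cases u : (c.1.1 = c'.1.1 ∨ c.1.1 = c'.1.2) <;>
      by_cases v : (c.1.2 = c'.1.1 ∨ c.1.2 = c'.1.2) <;>
      simp [hqe, u, v, hj]
  rw [← e3]
  by_cases hdv : (p : ℤ) ∣ d c.1.1
  · have hdv2 := k2.1 hdv
    have k := k4 hdv
    rw [jacobiSym.mul_left, jacobiSym.mul_left] at k
    rw [if_pos hdv] at e1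
    rw [if_pos hdv2] at e2
    rw [if_pos (hw.2 hdv)]
    rw [e1, e2] at k
    refine Eq.trans ?_ k
    ring
  · have hdv2 : ¬ (p : ℤ) ∣ d c.1.2 := fun h => hdv (k2.2 h)
    have k := k3 hdv
    rw [jacobiSym.mul_left] at k
    rw [if_neg hdv] at e1
    rw [if_neg hdv2] at e2
    rw [if_neg (fun h => hdv (hw.1 h))]
    rw [e1, e2] at k
    refine Eq.trans ?_ k
    ring

open Classical in
/-- the condition of `NV` -/
lemma cond_two (h1 : S_GOODJ) (h2 : S_NICEJ) (hn : Odd n) (ha : Function.Injective a)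
    (hs : HS a s) (hsq : ∀ c, Squarefree (s c)) {d d' : Fin n → ℤ} (hd : d ∈ SelJ a)
    (hd' : d' ∈ SelJ a) (ht : tau a s d = tau a s d')
    {p : ℕ} (hp : p.Prime) {c : PR n} (hpc : p ∣ s c) :
    ∏ q ∈ (symmDiff (ww s d) (ww s d')).filter (fun q => ∃ c', adj c c' = true ∧ q ∣ s c'),
      jacobiSym (q : ℤ) p =
      if p ∈ symmDiff (ww s d) (ww s d') ∧ p ∈ sgJ a (∏ c, s c) then -1 else 1 := by
  have q1 := cond_one h1 h2 hn ha hs hsq hd hp hpc
  have q2 := cond_one h1 h2 hn ha hs hsq hd' hp hpc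
  have hsgn : ∀ l, (d l).sign = (d' l).sign ∧
      (BB a s).filter (fun q : ℕ => (q : ℤ) ∣ d l) = (BB a s).filter (fun q : ℕ => (q : ℤ) ∣ d' l) := by
    intro l
    have ht' := congrFun ht l
    unfold tau at ht'
    rw [Prod.mk.injEq] at ht'
    obtain ⟨t1, t2⟩ := ht'
    refine ⟨?_, t2⟩
    have h5 : (0 < d l ↔ 0 < d' l) := by
      simpa using t1
    have h6 := (hd.1 l).ne_zero
    have h7 := (hd'.1 l).ne_zero
    rcases lt_or_gt_of_ne h6 with h | h
    · have h8 : d' l < 0 := by omega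
      rw [Int.sign_eq_neg_one_of_neg h, Int.sign_eq_neg_one_of_neg h8]
    · have h8 : 0 < d' l := h5.1 h
      rw [Int.sign_eq_one_of_pos h, Int.sign_eq_one_of_pos h8]
  rw [← (hsgn c.1.1).1, ← (hsgn c.1.1).2, ← (hsgn c.1.2).1, ← (hsgn c.1.2).2] at q2
  have hS : jacobiSym (sJ a c) p * jacobiSym (sJ a c) p = 1 := jac_sq hp (sJ_ndvd hs hp hpc)
  have hnadj : ¬ ∃ c', adj c c' = true ∧ p ∣ s c' := by
    rintro ⟨c', g1, g2⟩
    rw [cls_unique hs hp hpc g2, adj_self] at g1
    exact absurd g1 (by simp)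
  have q3 := q1.trans q2.symm
  have hA0 : ((jacobiSym (d c.1.1).sign p *
        ∏ q ∈ (BB a s).filter (fun q : ℕ => (q : ℤ) ∣ d c.1.1), jacobiSym (q : ℤ) p) *
      (jacobiSym (d c.1.2).sign p *
        ∏ q ∈ (BB a s).filter (fun q : ℕ => (q : ℤ) ∣ d c.1.2), jacobiSym (q : ℤ) p)) ≠ 0 := by
    intro h
    rw [h, zero_mul] at q1
    exact zero_ne_one q1
  have q4 := mul_left_cancel₀ hA0 q3
  have q5 := prod_sd (ww s d) (ww s d') (fun q hq => by
    unfold ww at hq
    have hq2 := (Finset.mem_filter.1 hq).1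
    rw [mem_m hsq] at hq2
    obtain ⟨hqp, c', hc'⟩ := hq2
    by_cases hqe : q = p
    · subst hqe
      rw [if_neg hnadj, if_pos rfl, one_mul, hS]
    · rw [if_neg hqe, mul_one]
      split_ifs
      · refine jac_sq hp ?_
        rw [Int.natCast_dvd_natCast]
        intro h
        exact hqe ((Nat.prime_dvd_prime_iff_eq hp hqp).1 h).symm
      · rfl) q4
  rw [Finset.prod_mul_distrib, Finset.prod_ite_eq', ← Finset.prod_filter] at q5
  have hsg : p ∈ sgJ a (∏ c, s c) ↔ jacobiSym (sJ a c) p = -1 := by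
    unfold sgJ
    rw [Finset.mem_filter, mem_m hsq]
    constructor
    · rintro ⟨-, c', g1, g2⟩
      have : c' = c := by
        by_contra hne
        exact (hs c p hp hpc).2.2.2 c' hne g1
      rwa [this] at g2
    · intro h
      exact ⟨⟨hp, c, hpc⟩, c, (hs c p hp hpc).2.1, h⟩
  simp only [hsg]
  by_cases hpW : p ∈ symmDiff (ww s d) (ww s d')
  · rw [if_pos hpW] at q5
    have q6 : ∏ q ∈ (symmDiff (ww s d) (ww s d')).filter
        (fun q => ∃ c', adj c c' = true ∧ q ∣ s c'), jacobiSym (q : ℤ) p = jacobiSym (sJ a c) p := by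
      calc _ = (∏ q ∈ (symmDiff (ww s d) (ww s d')).filter
            (fun q => ∃ c', adj c c' = true ∧ q ∣ s c'), jacobiSym (q : ℤ) p) *
              (jacobiSym (sJ a c) p * jacobiSym (sJ a c) p) := by rw [hS, mul_one]
        _ = _ := by rw [← mul_assoc, q5, one_mul]
    rw [q6]
    rcases mul_self_eq_one_iff.1 hS with h | h
    · rw [h, if_neg]
      rintro ⟨-, h3⟩
      norm_num at h3
    · rw [h, if_pos ⟨hpW, rfl⟩]
  · rw [if_neg hpW, mul_one] at q5
    rw [q5, if_neg (fun h => hpW h.1)]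

end

end SelPf

open SelPf in
theorem selj_of (h1 : S_GOODJ) (h2 : S_NICEJ) : S_SELJ := by
  classical
  intro n a s hn ha hsq hs
  have hfin : (SelJ a).Finite := by
    have hmaps : Set.MapsTo (fun d => (tau a s d, ww s d)) (SelJ a)
        (((Fintype.piFinset (fun _ : Fin n => (Finset.univ : Finset Bool) ×ˢ (BB a s).powerset)) ×ˢ
          (∏ c, s c).primeFactors.powerset : Finset _) : Set _) := by
      intro d _
      rw [Finset.mem_coe, Finset.mem_product, Fintype.mem_piFinset]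
      refine ⟨fun l => ?_, ?_⟩
      · rw [Finset.mem_product]
        exact ⟨Finset.mem_univ _, Finset.mem_powerset.2 (Finset.filter_subset _ _)⟩
      · exact Finset.mem_powerset.2 (Finset.filter_subset _ _)
    refine Set.Finite.of_injOn hmaps ?_ (Finset.finite_toSet _)
    intro d hd d' hd' h
    rw [Prod.mk.injEq] at h
    exact inj_data h1 h2 hn ha hs hsq hd hd' h.1 h.2
  refine ⟨hfin, ?_⟩
  rw [Set.ncard_eq_toFinset_card _ hfin]
  have hcard := Finset.card_le_mul_card_image (f := tau a s) hfin.toFinset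
    (NV adj s (sgJ a (∏ c, s c))) (by
      intro t ht
      rw [Finset.mem_image] at ht
      obtain ⟨d0, hd0, rfl⟩ := ht
      rw [Set.Finite.mem_toFinset] at hd0
      rw [NV_eq]
      refine Finset.card_le_card_of_injOn (fun d => symmDiff (ww s d0) (ww s d)) ?_ ?_
      · intro d hd
        rw [Finset.mem_coe, Finset.mem_filter, Set.Finite.mem_toFinset] at hd
        rw [Finset.mem_coe, Finset.mem_filter, Finset.mem_powerset]
        refine ⟨?_, ?_⟩
        · intro q hq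
          rw [Finset.mem_symmDiff] at hq
          rcases hq with ⟨h, -⟩ | ⟨h, -⟩
          · exact (Finset.filter_subset _ _) h
          · exact (Finset.filter_subset _ _) h
        · intro c p hp
          have h3 := cond_two h1 h2 hn ha hs hsq hd0 hd.1 hd.2.symm
            (Nat.prime_of_mem_primeFactors hp) (Nat.dvd_of_mem_primeFactors hp)
          exact h3
      · intro d hd d' hd' h
        rw [Finset.mem_coe, Finset.mem_filter, Set.Finite.mem_toFinset] at hd hd'
        refine inj_data h1 h2 hn ha hs hsq hd.1 hd'.1 (hd.2.trans hd'.2.symm) ?_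
        exact symmDiff_right_injective _ h)
  refine hcard.trans ?_
  rw [mul_comm]
  refine Nat.mul_le_mul_right _ ?_
  have himg : (hfin.toFinset.image (tau a s)) ⊆
      Fintype.piFinset (fun _ : Fin n => (Finset.univ : Finset Bool) ×ˢ (BB a s).powerset) := by
    intro t ht
    rw [Finset.mem_image] at ht
    obtain ⟨d, -, rfl⟩ := ht
    rw [Fintype.mem_piFinset]
    intro l
    rw [Finset.mem_product]
    exact ⟨Finset.mem_univ _, Finset.mem_powerset.2 (Finset.filter_subset _ _)⟩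
  refine (Finset.card_le_card himg).trans (le_of_eq ?_)
  rw [Fintype.card_piFinset_const, Finset.card_product, Finset.card_powerset, Finset.card_univ,
    Fintype.card_bool, ← pow_succ', ← pow_mul, ← pow_mul, mul_comm n, add_comm 1]
  rfl

end Pool.Agent.TH344.JG
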