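import Pool.Agent.TH344.JG.Stm

/-!
# JG-SUB: growth of the moments
-/

set_option autoImplicit false

namespace Pool.Agent.TH344.JG

open Finset Pool.Agent.W262.RK

namespace Sub11

lemma prod_symmDiff (χ : ℕ → ℤ) (A B : Finset ℕ) (hχ : ∀ q, χ q = 0 ∨ χ q = 1 ∨ χ q = -1)
    (hA : ∏ q ∈ A, χ q ≠ 0) : ∏ q ∈ symmDiff A B, χ q = (∏ q ∈ A, χ q) * ∏ q ∈ B, χ q := by
  have h1 : ∏ q ∈ A, χ q = (∏ q ∈ A \ B, χ q) * ∏ q ∈ A ∩ B, χ q := by
    rw [← prod_union (disjoint_sdiff_inter A B), sdiff_union_inter]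
  have h2 : ∏ q ∈ B, χ q = (∏ q ∈ B \ A, χ q) * ∏ q ∈ A ∩ B, χ q := by
    rw [inter_comm A B, ← prod_union (disjoint_sdiff_inter B A), sdiff_union_inter]
  have h3 : (∏ q ∈ A ∩ B, χ q) * ∏ q ∈ A ∩ B, χ q = 1 := by
    rw [← prod_mul_distrib]
    refine prod_eq_one fun q hq => ?_
    have h4 : χ q ≠ 0 := (prod_ne_zero_iff.1 hA) q (mem_of_mem_inter_left hq)
    rcases hχ q with h | h | h
    · exact absurd h h4
    · rw [h]; norm_num
    · rw [h]; norm_num
  have h5 : ∏ q ∈ symmDiff A B, χ q = (∏ q ∈ A \ B, χ q) * ∏ q ∈ B \ A, χ q := by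
    rw [← prod_union (disjoint_sdiff_sdiff)]
    rfl
  rw [h5, h1, h2]
  linear_combination (-(∏ q ∈ A \ B, χ q) * ∏ q ∈ B \ A, χ q) * h3

variable {V : Type} [Fintype V] [DecidableEq V]

open Classical in
/-- the condition of `NV` -/
def CondV (ad : V → V → Bool) (s : V → ℕ) (E w : Finset ℕ) : Prop :=
  ∀ c, ∀ p ∈ (s c).primeFactors,
    (∏ q ∈ w.filter (fun q => ∃ c', ad c c' = true ∧ q ∣ s c'), jacobiSym (q : ℤ) p) =
      if p ∈ w ∧ p ∈ E then -1 else 1

open Classical in
/-- the coercion of finite sets used in the definition of `NV` -/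
lemma mon (w : Finset ℕ) : (w >>= fun a : ℕ => (pure (a : ℤ) : Finset ℤ)) =
    w.image (fun a : ℕ => (a : ℤ)) := by
  ext x
  simp only [Finset.bind_def, Finset.pure_def, Finset.mem_sup, Finset.mem_singleton,
    Finset.mem_image]
  tauto

omit [DecidableEq V] in
open Classical in
/-- `NV` without the coercion of finite sets -/
lemma NV_eq (ad : V → V → Bool) (s : V → ℕ) (E : Finset ℕ) :
    NV ad s E = ((∏ c, s c).primeFactors.powerset.filter (CondV ad s E)).card := by
  unfold NV CondV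
  congr!
  rw [mon, filter_image, prod_image (fun a _ b _ h => by exact_mod_cast h)]
  simp only [Int.natCast_dvd_natCast]

open Classical in
lemma fiber_le (ad : V → V → Bool) (s e : V → ℕ) (E R : Finset ℕ)
    (hcop : ∀ i j, i ≠ j → (s i * e i).Coprime (s j * e j)) (hs0 : ∀ j, s j ≠ 0)
    (he0 : ∀ j, e j ≠ 0) :
    (((∏ c, (s c * e c)).primeFactors.powerset.filter (CondV ad (fun c => s c * e c) E)).filter
      (fun w => w ∩ (∏ c, e c).primeFactors = R)).card ≤
      NV ad s (E ∩ (∏ c, s c).primeFactors) := by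
  rcases (((∏ c, (s c * e c)).primeFactors.powerset.filter
    (CondV ad (fun c => s c * e c) E)).filter
      (fun w => w ∩ (∏ c, e c).primeFactors = R)).eq_empty_or_nonempty with h | ⟨w₀, hw₀⟩
  · rw [h]
    simp
  rw [mem_filter, mem_filter, mem_powerset] at hw₀
  obtain ⟨⟨hw₀1, hw₀2⟩, hw₀3⟩ := hw₀
  rw [NV_eq]
  have hprod : ∏ c, (s c * e c) = (∏ c, s c) * ∏ c, e c := prod_mul_distrib
  have hPU : (∏ c, (s c * e c)).primeFactors =
      (∏ c, s c).primeFactors ∪ (∏ c, e c).primeFactors := by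
    rw [hprod]
    exact Nat.primeFactors_mul (prod_ne_zero_iff.2 fun j _ => hs0 j)
      (prod_ne_zero_iff.2 fun j _ => he0 j)
  have hiff : ∀ p : ℕ, p.Prime → p ∣ ∏ j, s j → ∀ j, p ∣ s j * e j ↔ p ∣ s j := by
    intro p hp h j
    constructor
    · intro hj
      obtain ⟨j0, _, hj0⟩ := (hp.prime.dvd_finsetProd_iff _).1 h
      by_cases hjj : j = j0
      · rw [hjj]
        exact hj0
      · exfalso
        have h1 := hcop j j0 hjj
        have h2 : p ∣ (s j * e j).gcd (s j0 * e j0) := Nat.dvd_gcd hj (hj0.trans (Dvd.intro _ rfl))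
        rw [h1.gcd_eq_one] at h2
        exact hp.one_lt.ne' (Nat.dvd_one.1 h2)
    · intro hj
      exact hj.trans (Dvd.intro _ rfl)
  refine card_le_card_of_injOn (fun w => symmDiff w w₀) ?_ ?_
  · intro w hw
    have hw := mem_coe.1 hw
    rw [mem_filter, mem_filter, mem_powerset] at hw
    obtain ⟨⟨hw1, hw2⟩, hw3⟩ := hw
    have hsub : symmDiff w w₀ ⊆ (∏ c, s c).primeFactors := by
      intro q hq
      rw [mem_symmDiff] at hq
      have h1 : q ∈ (∏ c, (s c * e c)).primeFactors := by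
        rcases hq with h | h
        · exact hw1 h.1
        · exact hw₀1 h.1
      rw [hPU, mem_union] at h1
      rcases h1 with h1 | h1
      · exact h1
      · exfalso
        have h2 : q ∈ w ↔ q ∈ w₀ := by
          have h3 : q ∈ w ∩ (∏ c, e c).primeFactors ↔ q ∈ w₀ ∩ (∏ c, e c).primeFactors := by
            rw [hw3, hw₀3]
          simpa only [mem_inter, h1, and_true] using h3
        tauto
    refine mem_coe.2 (mem_filter.2 ⟨mem_powerset.2 hsub, ?_⟩)
    intro c p hp
    have hpp := Nat.prime_of_mem_primeFactors hp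
    have hp' : p ∈ (s c * e c).primeFactors :=
      Nat.mem_primeFactors.2 ⟨hpp, (Nat.dvd_of_mem_primeFactors hp).trans (Dvd.intro _ rfl),
        mul_ne_zero (hs0 c) (he0 c)⟩
    have hpP : p ∈ (∏ c, s c).primeFactors :=
      Nat.mem_primeFactors.2 ⟨hpp, (Nat.dvd_of_mem_primeFactors hp).trans
        (dvd_prod_of_mem s (mem_univ c)), prod_ne_zero_iff.2 fun j _ => hs0 j⟩
    have h1 := hw2 c p hp'
    have h2 := hw₀2 c p hp'
    have h3 : (symmDiff w w₀).filter (fun q => ∃ c', ad c c' = true ∧ q ∣ s c') =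
        symmDiff (w.filter (fun q => ∃ c', ad c c' = true ∧ q ∣ s c' * e c'))
          (w₀.filter (fun q => ∃ c', ad c c' = true ∧ q ∣ s c' * e c')) := by
      have h4 : (symmDiff w w₀).filter (fun q => ∃ c', ad c c' = true ∧ q ∣ s c') =
          (symmDiff w w₀).filter (fun q => ∃ c', ad c c' = true ∧ q ∣ s c' * e c') := by
        refine filter_congr fun q hq => ?_
        have h5 := hsub hq
        have h6 := hiff q (Nat.prime_of_mem_primeFactors h5) (Nat.dvd_of_mem_primeFactors h5)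
        simp only [h6]
      rw [h4]
      ext q
      have h8 : q ∈ symmDiff (w.filter (fun q => ∃ c', ad c c' = true ∧ q ∣ s c' * e c'))
          (w₀.filter (fun q => ∃ c', ad c c' = true ∧ q ∣ s c' * e c')) ↔
          (q ∈ w ∧ ∃ c', ad c c' = true ∧ q ∣ s c' * e c') ∧
            ¬ (q ∈ w₀ ∧ ∃ c', ad c c' = true ∧ q ∣ s c' * e c') ∨
          (q ∈ w₀ ∧ ∃ c', ad c c' = true ∧ q ∣ s c' * e c') ∧
            ¬ (q ∈ w ∧ ∃ c', ad c c' = true ∧ q ∣ s c' * e c') := by
        rw [mem_symmDiff, mem_filter, mem_filter]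
      rw [h8, mem_filter, mem_symmDiff]
      by_cases h9 : ∃ c', ad c c' = true ∧ q ∣ s c' * e c'
      · simp only [h9, and_true]
      · simp only [h9, and_false, false_and, or_self]
    rw [h3, prod_symmDiff (fun q => jacobiSym (q : ℤ) p) _ _
      (fun q => jacobiSym.trichotomy _ _) ?_]
    · rw [h1, h2]
      have h7 : p ∈ E ∩ (∏ c, s c).primeFactors ↔ p ∈ E := by
        rw [mem_inter]
        exact ⟨fun h => h.1, fun h => ⟨h, hpP⟩⟩
      simp only [mem_symmDiff, h7]
      by_cases ha : p ∈ w <;> by_cases hb : p ∈ w₀ <;> by_cases hc : p ∈ E <;> simp [ha, hb, hc]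
    · rw [h1]
      split_ifs <;> norm_num
  · intro w _ w' _ h
    exact symmDiff_left_injective w₀ h

open Classical in
lemma NV_le (ad : V → V → Bool) (s e : V → ℕ) (E : Finset ℕ)
    (hcop : ∀ i j, i ≠ j → (s i * e i).Coprime (s j * e j)) (hs0 : ∀ j, s j ≠ 0)
    (he0 : ∀ j, e j ≠ 0) :
    NV ad (fun c => s c * e c) E ≤ 2 ^ (∏ c, e c).primeFactors.card *
      NV ad s (E ∩ (∏ c, s c).primeFactors) := by
  rw [NV_eq]
  have h := card_eq_sum_card_fiberwise
    (s := (∏ c, (s c * e c)).primeFactors.powerset.filter (CondV ad (fun c => s c * e c) E))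
    (t := (∏ c, e c).primeFactors.powerset) (f := fun w => w ∩ (∏ c, e c).primeFactors)
    (fun w _ => mem_coe.2 (mem_powerset.2 inter_subset_right))
  rw [h]
  refine (sum_le_sum fun R _ => fiber_le ad s e E R hcop hs0 he0).trans ?_
  rw [sum_const, card_powerset, smul_eq_mul]

end Sub11

open Sub11

theorem subv : S_SUBV := by
  classical
  intro V _ _ ad k z y hz s e hT
  have hT' : (∀ j, s j * e j ∈ (PP z y).divisors) ∧
      ∀ i j, i ≠ j → (s i * e i).Coprime (s j * e j) := by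
    unfold Tup at hT
    rw [mem_filter, Fintype.mem_piFinset] at hT
    exact hT
  have hsqj : ∀ j, Squarefree (s j * e j) := fun j => dv_squarefree (hT'.1 j)
  have hsq : Squarefree (∏ j, (s j * e j)) := by
    apply Finset.squarefree_prod_of_pairwise_isCoprime
    · intro i _ j _ hij
      exact Nat.coprime_iff_isRelPrime.1 (hT'.2 i j hij)
    · intro j _
      exact hsqj j
  have hs0 : ∀ j, s j ≠ 0 := fun j => left_ne_zero_of_mul (hsqj j).ne_zero
  have he0 : ∀ j, e j ≠ 0 := fun j => right_ne_zero_of_mul (hsqj j).ne_zero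
  have hprod : ∏ j, (s j * e j) = (∏ j, s j) * ∏ j, e j := Finset.prod_mul_distrib
  have hme : Squarefree ((∏ j, s j) * ∏ j, e j) := by rw [← hprod]; exact hsq
  have hNV := fun E => NV_le ad s e E hT'.2 hs0 he0
  set P := (∏ j, s j).primeFactors with hP
  set Q := (∏ j, e j).primeFactors with hQ
  have hPQ : Disjoint P Q := (Nat.coprime_of_squarefree_mul hme).disjoint_primeFactors
  have hPU : (∏ j, (s j * e j)).primeFactors = P ∪ Q := by
    rw [hprod]
    exact Nat.primeFactors_mul (prod_ne_zero_iff.2 fun j _ => hs0 j)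
      (prod_ne_zero_iff.2 fun j _ => he0 j)
  have hω : Q.card ≤ ∑ j, (e j).primeFactors.card := by
    have h1 : Q ⊆ univ.biUnion (fun j => (e j).primeFactors) := by
      intro p hp
      rw [mem_biUnion]
      have hpp := Nat.prime_of_mem_primeFactors hp
      obtain ⟨j, _, hj⟩ := (hpp.prime.dvd_finsetProd_iff _).1 (Nat.dvd_of_mem_primeFactors hp)
      exact ⟨j, mem_univ _, Nat.mem_primeFactors.2 ⟨hpp, hj, he0 j⟩⟩
    exact (Finset.card_le_card h1).trans card_biUnion_le
  have hstep2 : ∀ E : Finset ℕ, (NV ad (fun j => s j * e j) E : ℝ) ^ k ≤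
      (2 ^ k) ^ (∑ j, (e j).primeFactors.card) * (NV ad s (E ∩ P) : ℝ) ^ k := by
    intro E
    have h2 : (NV ad (fun j => s j * e j) E : ℝ) ≤ 2 ^ Q.card * (NV ad s (E ∩ P) : ℝ) := by
      exact_mod_cast hNV E
    have h3 : (NV ad (fun j => s j * e j) E : ℝ) ≤
        2 ^ (∑ j, (e j).primeFactors.card) * (NV ad s (E ∩ P) : ℝ) := by
      refine h2.trans (mul_le_mul_of_nonneg_right ?_ (Nat.cast_nonneg _))
      exact pow_le_pow_right₀ (by norm_num) hω
    refine (pow_le_pow_left₀ (Nat.cast_nonneg _) h3 k).trans (le_of_eq ?_)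
    rw [mul_pow, ← pow_mul, ← pow_mul, mul_comm k]
  unfold NFV
  rw [hPU, ← hP, card_union_of_disjoint hPQ]
  calc (1 / 2 : ℝ) ^ (P.card + Q.card) * ∑ E ∈ (P ∪ Q).powerset,
        (NV ad (fun j => s j * e j) E : ℝ) ^ k ≤
      (1 / 2 : ℝ) ^ (P.card + Q.card) * ∑ E ∈ (P ∪ Q).powerset,
        (2 ^ k) ^ (∑ j, (e j).primeFactors.card) * (NV ad s (E ∩ P) : ℝ) ^ k := by
        apply mul_le_mul_of_nonneg_left _ (by positivity)
        exact Finset.sum_le_sum fun E _ => hstep2 E
    _ = (2 ^ k) ^ (∑ j, (e j).primeFactors.card) * ((1 / 2 : ℝ) ^ P.card *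
        ∑ E ∈ P.powerset, (NV ad s E : ℝ) ^ k) := by
        rw [← Finset.mul_sum, Pool.Agent.W125.RK2.sum_inter P Q hPQ
          (fun E => (NV ad s E : ℝ) ^ k), pow_add]
        have h2 : (1 / 2 : ℝ) ^ Q.card * 2 ^ Q.card = 1 := by
          rw [← mul_pow]
          norm_num
        linear_combination ((2 ^ k) ^ (∑ j, (e j).primeFactors.card) * ((1 / 2 : ℝ) ^ P.card *
          ∑ E ∈ P.powerset, (NV ad s E : ℝ) ^ k)) * h2

end Pool.Agent.TH344.JG
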