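import Mathlib
import Pool.Agent.TH344.JG.Exc
import Pool.Agent.TH344.JG.Maf
import Pool.Agent.TH344.JG.Cmb
import Pool.Agent.TH344.JG.Exp
import Pool.Agent.TH344.JG.Sub
import Pool.Agent.TH344.JG.Loc
import Pool.Agent.TH344.JG.Sel
import Pool.Agent.TH344.JG.Line
import Pool.Agent.TH344.JG.Cnt
import Pool.Agent.TH344.JG.Avg
import Pool.Agent.TH344.JG.Bad
import Pool.Agent.TH344.JG.Ext
import Pool.Agent.TH344.JG.Cru

/-! Project JG: the main theorems. -/

set_option autoImplicit false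

namespace Pool.Agent.TH344.JG

open Finset

theorem selj : S_SELJ := selj_of goodj nicej

theorem avgj : S_AVGJ := avgj_of selj (cntj_of line) subv

theorem mafv : S_MAFV := mafv_of cmbv expv

open scoped Classical in
/-- **one exceptional set of density zero for all the moments** -/
theorem excj {n : ℕ} (hn : 3 ≤ n) (ho : Odd n) :
    ∃ Z : Set (Fin n → ℤ), (∀ a, ¬ Function.Injective a → a ∈ Z) ∧
      (∀ ε : ℝ, 0 < ε → ∃ H0 : ℕ, ∀ X, H0 ≤ X →
        (((BoxJ n X).filter (fun a => a ∈ Z)).card : ℝ) ≤ ε * (BoxJ n X).card) ∧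
      ∀ k : ℕ, ∃ C : ℝ, ∀ X, ∑ a ∈ (BoxJ n X).filter (fun a => a ∉ Z),
        ((SelJ a).ncard : ℝ) ^ k ≤ C * (BoxJ n X).card :=
  exc_of mafv avgj badj hn ho

theorem seljf {n : ℕ} (ho : Odd n) {a : Fin n → ℤ} (ha : Function.Injective a) :
    (SelJ a).Finite := selj_fin selj ho ha

open scoped Classical in
/-- **the small moments over all the points** -/
theorem momj {g k : ℕ} (hg : 1 ≤ g) (hkg : 2 ^ k ≤ 4 * g) : ∃ C : ℝ, 0 ≤ C ∧ ∀ X : ℕ, 1 ≤ X →
    ∑ a ∈ (BoxJ (2 * g + 1) X).filter (fun a => Function.Injective a),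
      ((SelJ a).ncard : ℝ) ^ k ≤ C * (X : ℝ) ^ (2 * g + 1) := by
  rcases Nat.eq_zero_or_pos k with rfl | hk
  · refine ⟨3 ^ (2 * g + 1), by positivity, fun X hX => ?_⟩
    simp only [pow_zero, sum_const, nsmul_eq_mul, mul_one]
    have h1 : (((BoxJ (2 * g + 1) X).filter (fun a => Function.Injective a)).card : ℝ) ≤
        (BoxJ (2 * g + 1) X).card := by
      exact_mod_cast card_filter_le _ _
    refine h1.trans ?_
    rw [card_BoxJ, ← mul_pow]
    push_cast
    apply pow_le_pow_left₀ (by positivity)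
    have : (1 : ℝ) ≤ X := by exact_mod_cast hX
    linarith
  · exact mom_of expv ext avgj (cru_of selj) hg hk hkg

end Pool.Agent.TH344.JG
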